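import Pool.Agent.H62.SS.ConeB

set_option autoImplicit false

/-!
# [H62 SS GCONV] Geodesic convexity gives a convex cone

For `p, q ∈ Ω` and `s, t > 0` the normalised point `m` of `s p + t q` (nonzero, as `⟪p,q⟫ ≥ 0`) satisfies `∠(p,m) + ∠(m,q) = ∠(p,q)`: in the plane of `p, q` write `q = cos γ p + sin γ v`, `γ = ∠(p,q) ∈ [0,π/2]`, `v ⊥ p` a unit vector (if `p = q` then `m = p`);
then `m = cos α p + sin α v` with `0 ≤ α ≤ γ`, `∠(p,m) = α`, `∠(m,q) = γ - α` (`InnerProductGeometry.angle` is `arccos` of the inner product).  Then `convex_cn_of_add`.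
-/

namespace Pool.Agent.H62.SS

open scoped RealInnerProductSpace MeasureTheory ENNReal NNReal
open MeasureTheory Set Metric
open Pool.Agent.H62.WS (E sg cst)

variable {n : ℕ}

theorem convex_cn_of_gconvex {Ω : Set (Sp n)} (h : GConvex Ω)
    (hd : ∀ p ∈ Ω, ∀ q ∈ Ω, 0 ≤ ⟪(p : E (n + 1)), (q : E (n + 1))⟫) : Convex ℝ (cn Ω) := by
  apply convex_cn_of_add
  rintro _ ⟨s, hs, p, hp, rfl⟩ _ ⟨t, ht, q, hq, rfl⟩
  have hpq := hd p hp q hq
  have hne : s • (p : E (n + 1)) + t • (q : E (n + 1)) ≠ 0 := by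
    intro h0
    have h1 : ⟪(p : E (n + 1)), s • (p : E (n + 1)) + t • (q : E (n + 1))⟫ = 0 := by
      rw [h0, inner_zero_right]
    rw [inner_add_right, inner_smul_right, inner_smul_right, real_inner_self_eq_norm_sq,
      norm_coe] at h1
    nlinarith [mul_nonneg ht.le hpq]
  rw [mem_cn_iff]
  refine ⟨hne, h p hp q hq _ ?_⟩
  have hpos : 0 < ‖s • (p : E (n + 1)) + t • (q : E (n + 1))‖⁻¹ := inv_pos.2 (norm_pos_iff.2 hne)
  rw [coe_nrm hne, InnerProductGeometry.angle_smul_right_of_pos _ _ hpos,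
    InnerProductGeometry.angle_smul_left_of_pos _ _ hpos]
  have h2 := InnerProductGeometry.angle_eq_angle_add_add_angle_add (s • (p : E (n + 1)))
    (smul_ne_zero ht.ne' (coe_ne_zero q))
  rw [InnerProductGeometry.angle_smul_left_of_pos _ _ hs,
    InnerProductGeometry.angle_smul_right_of_pos _ _ ht,
    InnerProductGeometry.angle_smul_left_of_pos _ _ hs,
    InnerProductGeometry.angle_smul_left_of_pos _ _ ht] at h2
  rw [h2, InnerProductGeometry.angle_comm (_ + _) (q : E (n + 1))]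

end Pool.Agent.H62.SS
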