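import Pool.Agent.H62.SS.DomA

set_option autoImplicit false

/-!
# [H62 SS CONTR] Inner approximation by bodies

Fix `p ∈ Ω`; `T_μ z = ⟪p,z⟫ p + μ (z - ⟪p,z⟫ p)`, `μ > 1`, a linear bijection (inverse `T_(1/μ)`); `K_μ = {x | T_μ x ∈ cn (closure Ω)}`.  Closed (`isClosed_cn_zero`, `T_μ x ≠ 0`), `cn K_μ = T_μ⁻¹ (cn (closure Ω))` convex, `p ∈ K_μ`.  `K_μ ⊆ Ω`: `y = T_μ x`, `x = (1 - 1/μ)⟪p,y⟫ p + (1/μ) y`, `⟪p,y⟫ > 0`
(`Dom.inner_pos`), `Dom.seg_mem`; the pole is that of `closure Ω` (`Dom.body_closure`).  `K_μ` increases as `μ ↓ 1` (`T_μ' x = (μ'/μ) T_μ x + (1 - μ'/μ)⟪p,x⟫ p`) and every `x ∈ Ω` is in `K_μ` for `μ` near `1` (`cn Ω` open): `tendsto_measure_iUnion_atTop` for `μ_k = 1 + 1/(k+1)`.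
-/

namespace Pool.Agent.H62.SS

open scoped RealInnerProductSpace MeasureTheory ENNReal NNReal
open MeasureTheory Set Metric
open Pool.Agent.H62.WS (E sg cst)

variable {n : ℕ}

/-- the dilation transversal to `p` -/
private noncomputable def Tm (p : Sp n) (μ : ℝ) (z : E (n + 1)) : E (n + 1) :=
  ⟪(p : E (n + 1)), z⟫ • (p : E (n + 1)) + μ • (z - ⟪(p : E (n + 1)), z⟫ • (p : E (n + 1)))

private theorem Tm_add (p : Sp n) (μ : ℝ) (x y : E (n + 1)) :
    Tm p μ (x + y) = Tm p μ x + Tm p μ y := by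
  unfold Tm
  rw [inner_add_right]
  module

private theorem Tm_smul (p : Sp n) (μ t : ℝ) (x : E (n + 1)) : Tm p μ (t • x) = t • Tm p μ x := by
  unfold Tm
  rw [inner_smul_right]
  module

private theorem Tm_inner (p : Sp n) (μ : ℝ) (x : E (n + 1)) :
    ⟪(p : E (n + 1)), Tm p μ x⟫ = ⟪(p : E (n + 1)), x⟫ := by
  unfold Tm
  rw [inner_add_right, inner_smul_right, inner_smul_right, inner_sub_right, inner_smul_right,
    real_inner_self_eq_norm_sq, norm_coe]
  ring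

private theorem Tm_inv (p : Sp n) (μ : ℝ) (x : E (n + 1)) :
    μ • x = Tm p μ x + ((μ - 1) * ⟪(p : E (n + 1)), x⟫) • (p : E (n + 1)) := by
  unfold Tm
  module

private theorem Tm_ne_zero {p : Sp n} {μ : ℝ} (hμ : 0 < μ) {x : E (n + 1)} (hx : x ≠ 0) :
    Tm p μ x ≠ 0 := by
  intro h
  have h1 := Tm_inner p μ x
  rw [h, inner_zero_right] at h1
  have h2 := Tm_inv p μ x
  rw [h, ← h1, mul_zero, zero_smul, add_zero] at h2
  rcases smul_eq_zero.1 h2 with h3 | h3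
  · linarith
  · exact hx h3

private theorem Tm_continuous (p : Sp n) (μ : ℝ) : Continuous (Tm p μ) := by
  unfold Tm
  fun_prop

private theorem Tm_change (p : Sp n) {μ : ℝ} (hμ : μ ≠ 0) (μ' : ℝ) (x : E (n + 1)) :
    Tm p μ' x = (μ' / μ) • Tm p μ x +
      ((1 - μ' / μ) * ⟪(p : E (n + 1)), x⟫) • (p : E (n + 1)) := by
  unfold Tm
  have h : μ' = μ' / μ * μ := by field_simp
  obtain ⟨c, hc⟩ : ∃ c, c = μ' / μ := ⟨_, rfl⟩
  rw [← hc] at h ⊢
  rw [h]
  module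

/-- the contracted domain -/
private def Km (Ω : Set (Sp n)) (p : Sp n) (μ : ℝ) : Set (Sp n) :=
  {x | Tm p μ (x : E (n + 1)) ∈ cn (closure Ω)}

private theorem Km_subset {Ω : Set (Sp n)} (h : Dom Ω) {p : Sp n} (hp : p ∈ Ω) {μ : ℝ}
    (hμ : 1 < μ) {x : Sp n} (hx : x ∈ Km Ω p μ) :
    x ∈ Ω ∧ 0 < ⟪(p : E (n + 1)), (x : E (n + 1))⟫ := by
  obtain ⟨s, hs, y, hy, he⟩ := hx
  have h1 : 0 < ⟪(p : E (n + 1)), (x : E (n + 1))⟫ := by
    rw [← Tm_inner p μ, he, inner_smul_right]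
    exact mul_pos hs (h.inner_pos hp hy)
  refine ⟨?_, h1⟩
  have hμ0 : 0 < μ := by linarith
  have h2 := Tm_inv p μ (x : E (n + 1))
  obtain ⟨q, hq⟩ : ∃ q : ℝ, q = ⟪(p : E (n + 1)), (x : E (n + 1))⟫ := ⟨_, rfl⟩
  rw [he, ← hq] at h2
  rw [← hq] at h1
  have h3 : (x : E (n + 1)) = (μ⁻¹ * ((μ - 1) * q)) • (p : E (n + 1)) +
      (μ⁻¹ * s) • (y : E (n + 1)) := by
    have h4 : (x : E (n + 1)) = μ⁻¹ • (μ • (x : E (n + 1))) := by
      rw [smul_smul, inv_mul_cancel₀ hμ0.ne', one_smul]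
    rw [h4, h2, smul_add, smul_smul, smul_smul]
    exact add_comm _ _
  have h6 := h.seg_mem hp hy (s := μ⁻¹ * ((μ - 1) * q))
    (t := μ⁻¹ * s) (by
      have : 0 < μ - 1 := by linarith
      positivity) (by positivity)
  rw [← h3] at h6
  exact coe_mem_cn.1 h6

private theorem Km_body {Ω : Set (Sp n)} (h : Dom Ω) {p : Sp n} (hp : p ∈ Ω) {μ : ℝ}
    (hμ : 1 < μ) : Body (Km Ω p μ) where
  isCompact := by
    have h1 : Km Ω p μ = (fun x : Sp n => Tm p μ (x : E (n + 1))) ⁻¹' (cn (closure Ω) ∪ {0}) := by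
      ext x
      constructor
      · intro hx
        exact Or.inl hx
      · rintro (hx | hx)
        · exact hx
        · exact absurd hx (Tm_ne_zero (by linarith) (coe_ne_zero x))
    rw [h1]
    exact ((isClosed_cn_zero (isClosed_closure.isCompact)).preimage
      ((Tm_continuous p μ).comp continuous_subtype_val)).isCompact
  conv := by
    have h1 : ∀ z, z ∈ cn (Km Ω p μ) ↔ Tm p μ z ∈ cn (closure Ω) := by
      intro z
      constructor
      · rintro ⟨t, ht, x, hx, rfl⟩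
        rw [Tm_smul]
        exact smul_mem_cn hx ht
      · intro hz
        have hz0 : z ≠ 0 := by
          rintro rfl
          have h2 := (mem_cn_iff.1 hz).1
          apply h2
          have h3 := Tm_smul p μ 0 (0 : E (n + 1))
          rw [zero_smul, zero_smul] at h3
          exact h3
        rw [mem_cn_iff]
        refine ⟨hz0, ?_⟩
        show Tm p μ (nrm z : E (n + 1)) ∈ cn (closure Ω)
        rw [coe_nrm hz0, Tm_smul]
        exact smul_mem_cn hz (inv_pos.2 (norm_pos_iff.2 hz0))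
    apply convex_cn_of_add
    intro x hx y hy
    rw [h1] at hx hy ⊢
    rw [Tm_add]
    exact add_mem_cn h.body_closure.conv hx hy
  pole := by
    obtain ⟨w, hw⟩ := h.body_closure.pole
    exact ⟨w, fun x hx => hw x (subset_closure (Km_subset h hp hμ hx).1)⟩

private theorem Km_anti {Ω : Set (Sp n)} (h : Dom Ω) {p : Sp n} (hp : p ∈ Ω) {μ μ' : ℝ}
    (hμ : 1 < μ') (hμ' : μ' ≤ μ) : Km Ω p μ ⊆ Km Ω p μ' := by
  intro x hx
  have h1 := Km_subset h hp (hμ.trans_le hμ') hx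
  rcases hμ'.eq_or_lt with he | hlt
  · rw [he]
    exact hx
  have hμ0 : 0 < μ := by linarith
  show Tm p μ' (x : E (n + 1)) ∈ cn (closure Ω)
  rw [Tm_change p hμ0.ne' μ']
  apply add_mem_cn h.body_closure.conv
  · exact smul_mem_cn hx (by
      have : 0 < μ' := by linarith
      positivity)
  · apply smul_mem_cn (coe_mem_cn.2 (subset_closure hp))
    apply mul_pos _ h1.2
    rw [sub_pos, div_lt_one hμ0]
    exact hlt

theorem exists_inner_body {Ω : Set (Sp n)} (h : Dom Ω) {δ : ℝ≥0∞} (hδ : 0 < δ) :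
    ∃ K : Set (Sp n), Body K ∧ K ⊆ Ω ∧ K.Nonempty ∧ sg (n + 1) Ω ≤ sg (n + 1) K + δ := by
  obtain ⟨p, hp⟩ := h.nonempty
  obtain ⟨μ, hμ⟩ : ∃ μ : ℕ → ℝ, μ = fun k : ℕ => 1 + 1 / ((k : ℝ) + 1) := ⟨_, rfl⟩
  have hμ1 : ∀ k, 1 < μ k := by
    intro k
    rw [hμ]
    have : (0 : ℝ) < 1 / ((k : ℝ) + 1) := by positivity
    simp only
    linarith
  have hμa : ∀ j k, j ≤ k → μ k ≤ μ j := by
    intro j k hjk
    rw [hμ]
    simp only
    have : (j : ℝ) ≤ k := by exact_mod_cast hjk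
    have h2 : 1 / ((k : ℝ) + 1) ≤ 1 / ((j : ℝ) + 1) :=
      one_div_le_one_div_of_le (by positivity) (by linarith)
    linarith
  have hμt : Filter.Tendsto μ Filter.atTop (nhds 1) := by
    rw [hμ]
    have h2 := tendsto_one_div_add_atTop_nhds_zero_nat (𝕜 := ℝ)
    have h3 := h2.const_add (1 : ℝ)
    rw [add_zero] at h3
    exact h3
  have hmono : Monotone fun k => Km Ω p (μ k) := fun j k hjk =>
    Km_anti h hp (hμ1 k) (hμa j k hjk)
  have hU : Ω ⊆ ⋃ k, Km Ω p (μ k) := by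
    intro x hx
    have h1 : Continuous fun t : ℝ => Tm p t (x : E (n + 1)) := by
      unfold Tm
      fun_prop
    have h2 : Tm p 1 (x : E (n + 1)) = x := by
      unfold Tm
      module
    have h3 : cn Ω ∈ nhds (Tm p 1 (x : E (n + 1))) := by
      rw [h2]
      exact (isOpen_cn h.isOpen).mem_nhds (coe_mem_cn.2 hx)
    obtain ⟨k, hk⟩ := ((h1.tendsto 1).comp hμt |>.eventually h3).exists
    exact mem_iUnion.2 ⟨k, cn_mono subset_closure hk⟩
  have hlim := tendsto_measure_iUnion_atTop (μ := sg (n + 1)) hmono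
  by_contra hc
  have h1 : ∀ k, sg (n + 1) (Km Ω p (μ k)) + δ ≤ sg (n + 1) Ω := by
    intro k
    by_contra h2
    apply hc
    refine ⟨Km Ω p (μ k), Km_body h hp (hμ1 k), fun x hx => (Km_subset h hp (hμ1 k) hx).1,
      ⟨p, ?_⟩, (not_le.1 h2).le⟩
    show Tm p (μ k) (p : E (n + 1)) ∈ cn (closure Ω)
    have h3 : Tm p (μ k) (p : E (n + 1)) = p := by
      unfold Tm
      rw [real_inner_self_eq_norm_sq, norm_coe]
      module
    rw [h3]
    exact coe_mem_cn.2 (subset_closure hp)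
  have h2 : sg (n + 1) (⋃ k, Km Ω p (μ k)) + δ ≤ sg (n + 1) Ω :=
    le_of_tendsto (hlim.add_const δ) (Filter.Eventually.of_forall h1)
  have h3 : sg (n + 1) Ω + δ ≤ sg (n + 1) Ω :=
    (add_le_add_left (measure_mono hU) δ).trans h2
  have h4 : sg (n + 1) Ω < sg (n + 1) Ω + δ :=
    ENNReal.lt_add_right (measure_ne_top _ _) hδ.ne'
  exact absurd (h4.trans_le h3) (lt_irrefl _)

end Pool.Agent.H62.SS
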