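import Pool.Agent.H62.SS.SepS

set_option autoImplicit false

/-!
# [H62 SS NEAR] The boundary measure of a body and of a closed set close to it

`P` from `exists_proj`, `p x = nrm (P x)`.  If `x ∈ L` then `‖x - P x‖ ≤ ε` (some `y ∈ K` has `dist x y ≤ ε`), so `‖P x‖ ≥ 1 - ε` and `p` is `1/(1-ε)`-Lipschitz on `L` (`dist_nrm_le`).  `frontier K ⊆ p '' frontier L`: for `y ∈ frontier K` take `u` by `Body.supp`,
`x_φ = cos φ y + sin φ u`; `P x_φ = cos φ y` (uniqueness in `exists_proj`), so `p x_φ = y` for `0 ≤ φ < π/2`; `x_0 = y ∈ L`, and for `sin φ > ε` (`φ < π/2`) the distance of `x_φ` from the cone is `sin φ > ε`, so `x_φ ∉ L`.  The path `φ ↦ x_φ` leaves `L` (a closed set),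
so it meets `frontier L` at some `φ < π/2` (e.g. `IsPreconnected.inter_frontier_nonempty` for the image of the interval).  `euclideanHausdorffMeasure_image_le` (H62/WS/HLoc).
-/

namespace Pool.Agent.H62.SS

open scoped RealInnerProductSpace MeasureTheory ENNReal NNReal
open MeasureTheory Set Metric
open Pool.Agent.H62.WS (E sg cst)

variable {n : ℕ}

theorem bs_frontier_le_of_near (n : ℕ) {K L : Set (Sp n)} (hK : Body K) (hL : IsClosed L)
    (hKL : K ⊆ L) {ε : ℝ} (h0 : 0 < ε) (h1 : ε < 1) (hLε : ∀ x ∈ L, ∃ y ∈ K, dist x y ≤ ε) :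
    bs n (frontier K) ≤ ENNReal.ofReal ((1 - ε)⁻¹ ^ (n - 1)) * bs n (frontier L) := by
  obtain ⟨P, hP, hz, hzz, hlip, hmin, huniq⟩ := exists_proj hK
  have h1ε : 0 < 1 - ε := by linarith
  have hd : ∀ x ∈ L, ‖(x : E (n + 1)) - P x‖ ≤ ε := by
    intro x hx
    obtain ⟨y, hy, hxy⟩ := hLε x hx
    refine (hmin x y (Or.inl (coe_mem_cn.2 hy))).trans ?_
    rw [← dist_eq_norm, ← Subtype.dist_eq]
    exact hxy
  have hPn : ∀ x ∈ L, 1 - ε ≤ ‖P (x : E (n + 1))‖ := by
    intro x hx
    have h2 := norm_sub_norm_le (x : E (n + 1)) (P x)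
    rw [norm_coe] at h2
    linarith [hd x hx, norm_sub_norm_le (x : E (n + 1)) ((x : E (n + 1)) - P x)]
  let p : Sp n → Sp n := fun x => nrm (P (x : E (n + 1)))
  have hp : LipschitzOnWith (1 - ε)⁻¹.toNNReal p (frontier L) := by
    refine LipschitzOnWith.of_dist_le_mul ?_
    intro x hx y hy
    have hx' := hL.frontier_subset hx
    have hy' := hL.frontier_subset hy
    rw [Real.coe_toNNReal _ (inv_pos.2 h1ε).le]
    refine (dist_nrm_le h1ε (hPn x hx') (hPn y hy')).trans ?_
    refine mul_le_mul_of_nonneg_left ?_ (inv_pos.2 h1ε).le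
    rw [dist_eq_norm, Subtype.dist_eq, dist_eq_norm]
    exact hlip _ _
  have hsub : frontier K ⊆ p '' frontier L := by
    intro y hy
    have hyK : y ∈ K := hK.isCompact.isClosed.frontier_subset hy
    obtain ⟨u, hu1, hu2⟩ := hK.supp hy
    have huz : ∀ z ∈ cn K ∪ {0}, ⟪(u : E (n + 1)), z⟫ ≤ 0 := by
      rintro z (⟨t, ht, x, hx, rfl⟩ | hz0)
      · rw [real_inner_smul_right]
        exact mul_nonpos_of_nonneg_of_nonpos ht.le (hu1 x hx)
      · rw [mem_singleton_iff] at hz0
        rw [hz0, inner_zero_right]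
    have hnorm : ∀ φ : ℝ, ‖Real.cos φ • (y : E (n + 1)) + Real.sin φ • (u : E (n + 1))‖ = 1 := by
      intro φ
      have h2 : ‖Real.cos φ • (y : E (n + 1)) + Real.sin φ • (u : E (n + 1))‖ ^ 2 = 1 := by
        rw [@norm_add_sq_real, norm_smul, norm_smul, norm_coe, norm_coe, real_inner_smul_left,
          real_inner_smul_right, real_inner_comm, hu2]
        simp
      exact (pow_eq_one_iff_of_nonneg (norm_nonneg _) two_ne_zero).1 h2
    let γ : ℝ → Sp n := fun φ => ⟨Real.cos φ • (y : E (n + 1)) + Real.sin φ • (u : E (n + 1)), by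
      rw [mem_sphere_zero_iff_norm]
      exact hnorm φ⟩
    have hγ : Continuous γ := by
      refine Continuous.subtype_mk ?_ _
      fun_prop
    have hγ0 : γ 0 = y := by
      ext1
      simp [γ]
    have hPγ : ∀ φ : ℝ, 0 ≤ φ → φ < Real.pi / 2 →
        P ((γ φ : Sp n) : E (n + 1)) = Real.cos φ • (y : E (n + 1)) := by
      intro φ h2 h3
      have hc : 0 < Real.cos φ := Real.cos_pos_of_mem_Ioo ⟨by linarith [Real.pi_pos], h3⟩
      have hs : 0 ≤ Real.sin φ := Real.sin_nonneg_of_nonneg_of_le_pi h2 (by linarith [Real.pi_pos])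
      have he : ((γ φ : Sp n) : E (n + 1)) - Real.cos φ • (y : E (n + 1)) =
          Real.sin φ • (u : E (n + 1)) := by
        simp only [γ]
        abel
      apply huniq
      · exact Or.inl (smul_mem_cn (coe_mem_cn.2 hyK) hc)
      · intro z hz
        rw [he, real_inner_smul_left]
        exact mul_nonpos_of_nonneg_of_nonpos hs (huz z hz)
      · rw [he, real_inner_smul_left, real_inner_smul_right, hu2]
        ring
    have hpγ : ∀ φ : ℝ, 0 ≤ φ → φ < Real.pi / 2 → p (γ φ) = y := by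
      intro φ h2 h3
      have hc : 0 < Real.cos φ := Real.cos_pos_of_mem_Ioo ⟨by linarith [Real.pi_pos], h3⟩
      simp only [p]
      rw [hPγ φ h2 h3, nrm_smul hc, nrm_coe]
    have hs1 : Real.sin (Real.arcsin ((1 + ε) / 2)) = (1 + ε) / 2 :=
      Real.sin_arcsin (by linarith) (by linarith)
    have hφ0 : 0 ≤ Real.arcsin ((1 + ε) / 2) := Real.arcsin_nonneg.2 (by linarith)
    have hφ1 : Real.arcsin ((1 + ε) / 2) < Real.pi / 2 := Real.arcsin_lt_pi_div_two.2 (by linarith)
    have hout : γ (Real.arcsin ((1 + ε) / 2)) ∉ L := by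
      intro hin
      have h2 := hd _ hin
      rw [hPγ _ hφ0 hφ1] at h2
      have he : ((γ (Real.arcsin ((1 + ε) / 2)) : Sp n) : E (n + 1)) -
          Real.cos (Real.arcsin ((1 + ε) / 2)) • (y : E (n + 1)) =
          Real.sin (Real.arcsin ((1 + ε) / 2)) • (u : E (n + 1)) := by
        simp only [γ]
        abel
      rw [he, norm_smul, norm_coe, mul_one, hs1, Real.norm_of_nonneg (by linarith)] at h2
      linarith
    obtain ⟨φ, hφ, hφ2⟩ := exists_path_frontier hγ hφ0 (L := L)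
      (by rw [hγ0]; exact hKL hyK) hout
    exact ⟨γ φ, hφ2, hpγ φ hφ.1 (hφ.2.trans_lt hφ1)⟩
  have h2 := Pool.Agent.H62.WS.euclideanHausdorffMeasure_image_le (n - 1) hp
  have hc1 : ((1 - ε)⁻¹.toNNReal : ℝ≥0∞) ^ (n - 1) = ENNReal.ofReal ((1 - ε)⁻¹ ^ (n - 1)) := by
    rw [ENNReal.ofReal_pow (inv_pos.2 h1ε).le]
    rfl
  rw [hc1] at h2
  exact (measure_mono hsub).trans h2

end Pool.Agent.H62.SS
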