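import Pool.Agent.H62.SS.Cover
import Pool.Agent.H62.SS.Near

set_option autoImplicit false

/-!
# [H62 SS MONO] The boundary measure is monotone on convex bodies

`bs (frontier K) ≤ (1-ε)^(-(n-1)) bs (frontier L') ≤ (1-ε)^(-(n-1)) bs (frontier L)` (`exists_cut_body`, `bs_frontier_le_of_near`) for all `0 < ε < 1`; `ε → 0` (trivial if the right side is `∞`).
-/

namespace Pool.Agent.H62.SS

open scoped RealInnerProductSpace MeasureTheory ENNReal NNReal
open MeasureTheory Set Metric
open Pool.Agent.H62.WS (E sg cst)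

variable {n : ℕ}

theorem bs_mono {K L : Set (Sp n)} (hK : Body K) (hL : Body L) (hKL : K ⊆ L) :
    bs n (frontier K) ≤ bs n (frontier L) := by
  have key : ∀ ε : ℝ, 0 < ε → ε < 1 →
      bs n (frontier K) ≤ ENNReal.ofReal ((1 - ε)⁻¹ ^ (n - 1)) * bs n (frontier L) := by
    intro ε h0 h1
    obtain ⟨L', h2, h3, -, h4, h5⟩ := exists_cut_body hK hL hKL h0
    exact (bs_frontier_le_of_near n hK h2.isCompact.isClosed h3 h0 h1 h4).trans
      (mul_le_mul_right h5 _)
  have ht : Filter.Tendsto (fun ε : ℝ => ENNReal.ofReal ((1 - ε)⁻¹ ^ (n - 1)) * bs n (frontier L))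
      (nhdsWithin 0 (Ioi 0)) (nhds (ENNReal.ofReal ((1 - 0)⁻¹ ^ (n - 1)) * bs n (frontier L))) := by
    refine ENNReal.Tendsto.mul_const ?_ (Or.inl (by simp))
    refine ENNReal.tendsto_ofReal ?_
    have hc : ContinuousAt (fun ε : ℝ => (1 - ε)⁻¹ ^ (n - 1)) 0 := by
      refine ContinuousAt.pow (ContinuousAt.inv₀ ?_ (by norm_num)) _
      exact (continuous_const.sub continuous_id).continuousAt
    exact hc.tendsto.mono_left nhdsWithin_le_nhds
  have h1 : ENNReal.ofReal ((1 - 0)⁻¹ ^ (n - 1)) * bs n (frontier L) = bs n (frontier L) := by simp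
  rw [h1] at ht
  refine ge_of_tendsto ht ?_
  filter_upwards [Ioo_mem_nhdsGT (show (0 : ℝ) < 1 by norm_num)] with ε hε
  exact key ε hε.1 hε.2

end Pool.Agent.H62.SS
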