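import Pool.Agent.H62.SS.IsoPoly
import Pool.Agent.H62.SS.Contr
import Pool.Agent.H62.SS.Mono

set_option autoImplicit false

/-!
# [H62 SS ISOPER] The isoperimetric inequality for convex domains

For every `δ > 0`: `K` by `exists_inner_body`, `U` by `exists_polytope`, `body_pt`, `bs (frontier (pt U)) ≤ bs (frontier (closure Ω)) = bs (frontier Ω)` (`bs_mono`, `Dom.body_closure`, `Dom.frontier_closure`), `pt U ⊆ Ω ⊆ gball p (π/2)` (`Dom.subset_gball`), `iso_polytope` (if `sg (pt U) = 0` trivial): `sg Ω ≤ sg K + δ ≤ sg (pt U) + δ ≤ sg (gball (nor n) R) + δ`.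
-/

namespace Pool.Agent.H62.SS

open scoped RealInnerProductSpace MeasureTheory ENNReal NNReal
open MeasureTheory Set Metric
open Pool.Agent.H62.WS (E sg cst)

variable {n : ℕ}

theorem isoperimetric (hn : 2 ≤ n) {Ω : Set (Sp n)} (h : Dom Ω) {R : ℝ} (h0 : 0 < R)
    (h1 : R < Real.pi / 2) (hR : bs n (frontier Ω) = bs n (gsph (nor n) R)) :
    sg (n + 1) Ω ≤ sg (n + 1) (gball (nor n) R) := by
  refine ENNReal.le_of_forall_pos_le_add fun ε hε _ => ?_
  obtain ⟨K, hK, hKΩ, -, hle⟩ := exists_inner_body h (δ := (ε : ℝ≥0∞)) (by exact_mod_cast hε)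
  obtain ⟨U, hKU, hUΩ⟩ := exists_polytope h hK hKΩ
  have h2 : sg (n + 1) K ≤ sg (n + 1) (pt U) := measure_mono hKU
  refine hle.trans (add_le_add (h2.trans ?_) le_rfl)
  rcases eq_or_ne (sg (n + 1) (pt U)) 0 with h3 | h3
  · rw [h3]
    exact zero_le
  · obtain ⟨p, hp⟩ := h.nonempty
    refine iso_polytope hn (pos_iff_ne_zero.2 h3) (p := p) (fun x hx => ?_) h0 h1 ?_
    · have h4 := h.inner_pos hp (subset_closure (hUΩ hx))
      simp only [gball, mem_setOf_eq]
      rw [Real.cos_pi_div_two]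
      exact h4
    · rw [← hR, ← h.frontier_closure]
      exact bs_mono (body_pt h hUΩ) h.body_closure (hUΩ.trans subset_closure)

end Pool.Agent.H62.SS
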