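import Pool.Agent.H62.SS.ConeB

set_option autoImplicit false

/-!
# [H62 SS DOMA] Open convex sets of diameter at most `π/2`: first facts

* `closure_diam`: continuity.
* `seg_mem`: `s p + t x`, `p ∈ Ω`, `x ∈ closure Ω`: `cn Ω` is open and convex, `p ∈ cn Ω = interior (cn Ω)`, `x ∈ closure (cn Ω)` (`Convex.combo_interior_closure_mem_interior`, homogeneity).
* `inner_pos`: `⟪p,x⟫ ≥ 0` by `closure_diam`; if it is `0` then `p' = nrm (p - ε x) ∈ Ω` for small `ε > 0` (`Ω` open) and `⟪p',x⟫ < 0`, a contradiction.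
* `subset_gball`: the minimum of `⟪p,·⟫` on the compact `closure Ω` is positive.
* `body_closure`: compact; `cn (closure Ω)` is closed under addition: limits (`x + y ≠ 0` because `⟪p,x+y⟫ > 0`); the pole is any `p ∈ Ω`.
* `interior_closure`: if `x ∈ interior (closure Ω)`, `p ∈ Ω`: the point `y = nrm (x - ε p)` is in `closure Ω` for small `ε > 0` and `x = nrm (‖x - ε p‖ y + ε p) ∈ Ω` by `seg_mem`.
-/

namespace Pool.Agent.H62.SS

open scoped RealInnerProductSpace MeasureTheory ENNReal NNReal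
open MeasureTheory Set Metric
open Pool.Agent.H62.WS (E sg cst)

variable {n : ℕ}

theorem continuous_inner2 : Continuous (fun z : Sp n × Sp n =>
    ⟪(z.1 : E (n + 1)), (z.2 : E (n + 1))⟫) :=
  (continuous_subtype_val.comp continuous_fst).inner (continuous_subtype_val.comp continuous_snd)

theorem Dom.closure_diam {Ω : Set (Sp n)} (h : Dom Ω) {p q : Sp n} (hp : p ∈ closure Ω)
    (hq : q ∈ closure Ω) : 0 ≤ ⟪(p : E (n + 1)), (q : E (n + 1))⟫ := by
  have h1 : closure (Ω ×ˢ Ω) ⊆ {z : Sp n × Sp n | 0 ≤ ⟪(z.1 : E (n + 1)), (z.2 : E (n + 1))⟫} :=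
    closure_minimal (fun z hz => h.diam _ hz.1 _ hz.2)
      (isClosed_le continuous_const continuous_inner2)
  have h2 : (p, q) ∈ closure (Ω ×ˢ Ω) := by
    rw [closure_prod_eq]
    exact ⟨hp, hq⟩
  exact h1 h2

theorem coe_mem_closure_cn {Ω : Set (Sp n)} {x : Sp n} (hx : x ∈ closure Ω) :
    (x : E (n + 1)) ∈ closure (cn Ω) := by
  have h1 : MapsTo (fun x : Sp n => (x : E (n + 1))) Ω (cn Ω) := fun y hy => coe_mem_cn.2 hy
  exact map_mem_closure continuous_subtype_val hx h1

theorem Dom.seg_mem {Ω : Set (Sp n)} (h : Dom Ω) {p x : Sp n} (hp : p ∈ Ω)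
    (hx : x ∈ closure Ω) {s t : ℝ} (hs : 0 < s) (ht : 0 ≤ t) :
    s • (p : E (n + 1)) + t • (x : E (n + 1)) ∈ cn Ω := by
  have ho := isOpen_cn h.isOpen
  have hst : 0 < s + t := by linarith
  have h1 : (p : E (n + 1)) ∈ interior (cn Ω) := by
    rw [ho.interior_eq]
    exact coe_mem_cn.2 hp
  have h2 := h.conv.combo_interior_closure_mem_interior h1 (coe_mem_closure_cn hx)
    (a := s / (s + t)) (b := t / (s + t)) (by positivity) (by positivity) (by field_simp)
  rw [ho.interior_eq] at h2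
  have h3 := smul_mem_cn h2 hst
  rw [smul_add, smul_smul, smul_smul, mul_div_cancel₀ _ hst.ne', mul_div_cancel₀ _ hst.ne'] at h3
  exact h3

theorem Dom.inner_pos {Ω : Set (Sp n)} (h : Dom Ω) {p x : Sp n} (hp : p ∈ Ω)
    (hx : x ∈ closure Ω) : 0 < ⟪(p : E (n + 1)), (x : E (n + 1))⟫ := by
  rcases (h.closure_diam (subset_closure hp) hx).lt_or_eq with h0 | h0
  · exact h0
  exfalso
  have hc : Continuous (fun ε : ℝ => (p : E (n + 1)) - ε • (x : E (n + 1))) := by fun_prop
  have h1 : ∀ᶠ ε in nhds (0 : ℝ), (p : E (n + 1)) - ε • (x : E (n + 1)) ∈ cn Ω := by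
    have h2 : (p : E (n + 1)) - (0 : ℝ) • (x : E (n + 1)) ∈ cn Ω := by
      rw [zero_smul, sub_zero]
      exact coe_mem_cn.2 hp
    exact (hc.tendsto 0).eventually ((isOpen_cn h.isOpen).mem_nhds h2)
  obtain ⟨δ, hδ, h2⟩ := Metric.eventually_nhds_iff.1 h1
  have h3 := h2 (y := δ / 2) (by rw [Real.dist_eq, sub_zero, abs_of_pos (by positivity)]; linarith)
  obtain ⟨t, ht, y, hy, he⟩ := h3
  have h4 := h.closure_diam (subset_closure hy) hx
  have h5 : ⟪(p : E (n + 1)) - (δ / 2) • (x : E (n + 1)), (x : E (n + 1))⟫ =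
      t * ⟪(y : E (n + 1)), (x : E (n + 1))⟫ := by
    rw [he, real_inner_smul_left]
  rw [inner_sub_left, real_inner_smul_left, ← h0, real_inner_self_eq_norm_sq, norm_coe] at h5
  nlinarith [mul_nonneg ht.le h4]

theorem Dom.subset_gball {Ω : Set (Sp n)} (h : Dom Ω) {p : Sp n} (hp : p ∈ Ω) :
    ∃ R : ℝ, 0 < R ∧ R < Real.pi / 2 ∧ closure Ω ⊆ cball p R := by
  have hne : (closure Ω).Nonempty := ⟨p, subset_closure hp⟩
  obtain ⟨x0, hx0, hmin⟩ := (isClosed_closure.isCompact : IsCompact (closure Ω)).exists_isMinOn hne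
    (f := fun x : Sp n => ⟪(p : E (n + 1)), (x : E (n + 1))⟫)
    (continuous_const.inner continuous_subtype_val).continuousOn
  have h0 := h.inner_pos hp hx0
  have hpi := Real.pi_pos
  refine ⟨Real.arccos (⟪(p : E (n + 1)), (x0 : E (n + 1))⟫ / 2), ?_, ?_, ?_⟩
  · rw [Real.arccos_pos]
    have := real_inner_le_norm (p : E (n + 1)) (x0 : E (n + 1))
    rw [norm_coe, norm_coe] at this
    linarith
  · rw [Real.arccos_lt_pi_div_two]
    linarith
  · intro x hx
    simp only [cball, mem_setOf_eq]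
    have h1 := real_inner_le_norm (p : E (n + 1)) (x0 : E (n + 1))
    rw [norm_coe, norm_coe] at h1
    rw [Real.cos_arccos (by linarith) (by linarith)]
    have h2 : ⟪(p : E (n + 1)), (x0 : E (n + 1))⟫ ≤ ⟪(p : E (n + 1)), (x : E (n + 1))⟫ := hmin hx
    linarith

theorem Dom.add_mem_cn_closure {Ω : Set (Sp n)} (h : Dom Ω) {x y : Sp n} (hx : x ∈ closure Ω)
    (hy : y ∈ closure Ω) {s t : ℝ} (hs : 0 < s) (ht : 0 < t) :
    s • (x : E (n + 1)) + t • (y : E (n + 1)) ∈ cn (closure Ω) := by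
  obtain ⟨p, hp⟩ := h.nonempty
  have hne : s • (x : E (n + 1)) + t • (y : E (n + 1)) ≠ 0 := by
    intro h0
    have h1 : ⟪(p : E (n + 1)), s • (x : E (n + 1)) + t • (y : E (n + 1))⟫ = 0 := by
      rw [h0, inner_zero_right]
    rw [inner_add_right, inner_smul_right, inner_smul_right] at h1
    nlinarith [mul_pos hs (h.inner_pos hp hx), mul_pos ht (h.inner_pos hp hy)]
  rw [mem_cn_iff]
  refine ⟨hne, ?_⟩
  have hc : Continuous (fun z : Sp n => s • (z : E (n + 1)) + t • (y : E (n + 1))) := by fun_prop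
  have h2 : ContinuousAt (fun z : Sp n => nrm (s • (z : E (n + 1)) + t • (y : E (n + 1)))) x :=
    ContinuousAt.comp (f := fun z : Sp n => s • (z : E (n + 1)) + t • (y : E (n + 1)))
      (continuousAt_nrm hne) hc.continuousAt
  have h3 : MapsTo (fun z : Sp n => nrm (s • (z : E (n + 1)) + t • (y : E (n + 1)))) Ω Ω := by
    intro z hz
    exact (mem_cn_iff.1 (h.seg_mem hz hy hs ht.le)).2
  have h4 := h2.continuousWithinAt.mem_closure (s := Ω) hx (fun z hz => h3 hz)
  exact h4

theorem Dom.body_closure {Ω : Set (Sp n)} (h : Dom Ω) : Body (closure Ω) where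
  isCompact := isClosed_closure.isCompact
  conv := by
    apply convex_cn_of_add
    rintro _ ⟨s, hs, p, hp, rfl⟩ _ ⟨t, ht, q, hq, rfl⟩
    exact h.add_mem_cn_closure hp hq hs ht
  pole := by
    obtain ⟨p, hp⟩ := h.nonempty
    refine ⟨p, fun x hx => ?_⟩
    rw [real_inner_comm]
    exact h.inner_pos hp hx

theorem Dom.interior_closure {Ω : Set (Sp n)} (h : Dom Ω) : interior (closure Ω) = Ω := by
  apply subset_antisymm
  · intro x hx
    obtain ⟨p, hp⟩ := h.nonempty
    have hc : Continuous (fun ε : ℝ => (x : E (n + 1)) - ε • (p : E (n + 1))) := by fun_prop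
    have h1 : ∀ᶠ ε in nhds (0 : ℝ),
        (x : E (n + 1)) - ε • (p : E (n + 1)) ∈ cn (interior (closure Ω)) := by
      have h2 : (x : E (n + 1)) - (0 : ℝ) • (p : E (n + 1)) ∈ cn (interior (closure Ω)) := by
        rw [zero_smul, sub_zero]
        exact coe_mem_cn.2 hx
      exact (hc.tendsto 0).eventually ((isOpen_cn isOpen_interior).mem_nhds h2)
    obtain ⟨δ, hδ, h2⟩ := Metric.eventually_nhds_iff.1 h1
    have h3 := h2 (y := δ / 2)
      (by rw [Real.dist_eq, sub_zero, abs_of_pos (by positivity)]; linarith)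
    obtain ⟨t, ht, y, hy, he⟩ := h3
    have h5 := h.seg_mem hp (interior_subset hy) (s := δ / 2) (t := t) (by positivity) ht.le
    rw [← he] at h5
    have h6 : (δ / 2) • (p : E (n + 1)) + ((x : E (n + 1)) - (δ / 2) • (p : E (n + 1))) =
        (x : E (n + 1)) := by abel
    rw [h6] at h5
    exact coe_mem_cn.1 h5
  · exact interior_maximal subset_closure h.isOpen

theorem Dom.frontier_closure {Ω : Set (Sp n)} (h : Dom Ω) :
    frontier (closure Ω) = frontier Ω := by
  rw [frontier, closure_closure, h.interior_closure, frontier, h.isOpen.interior_eq]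

end Pool.Agent.H62.SS
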