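import Pool.Agent.H62.SS.ProjS
import Pool.Agent.H62.SS.DomA

set_option autoImplicit false

/-!
# [H62 SS SEP] Separation

* `Body.sep`: `u = nrm (x - P x)` with `exists_proj` (`x ∉ C` so `x ≠ P x`): `⟪x - P x, x⟫ = ‖x - P x‖² > 0`.
* `Dom.sep`: `x ∉ cn Ω` open convex: `geometric_hahn_banach_open_point` gives a functional `f` (Riesz: `⟪v,·⟫`) with `f < f x` on `cn Ω`; by homogeneity `f ≤ 0` on `cn Ω`, `< 0` because `cn Ω` is open and `f ≠ 0`, and `f x ≥ 0` (limit `t → 0` of `f (t z)`).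
* `Body.supp`: `y ∈ frontier K`: `x_k → y`, `x_k ∉ K`; unit vectors `u_k` by `Body.sep`; a subsequence of `u_k` converges (compact sphere).
-/

namespace Pool.Agent.H62.SS

open scoped RealInnerProductSpace MeasureTheory ENNReal NNReal
open MeasureTheory Set Metric
open Pool.Agent.H62.WS (E sg cst)

variable {n : ℕ}

theorem exists_path_frontier {X : Type*} [TopologicalSpace X] {γ : ℝ → X} (hγ : Continuous γ)
    {a b : ℝ} (hab : a ≤ b) {L : Set X} (h1 : γ a ∈ L) (h2 : γ b ∉ L) :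
    ∃ t ∈ Icc a b, γ t ∈ frontier L := by
  by_contra hcon
  push Not at hcon
  have hu : IsOpen (γ ⁻¹' interior L) := isOpen_interior.preimage hγ
  have hv : IsOpen (γ ⁻¹' interior Lᶜ) := isOpen_interior.preimage hγ
  have hcov : ∀ t ∈ Icc a b, t ∈ γ ⁻¹' interior L ∪ γ ⁻¹' interior Lᶜ := by
    intro t ht
    by_cases h3 : γ t ∈ interior L
    · exact Or.inl h3
    by_cases h4 : γ t ∈ interior Lᶜ
    · exact Or.inr h4
    exfalso
    apply hcon t ht
    rw [interior_compl, mem_compl_iff, not_not] at h4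
    exact ⟨h4, h3⟩
  have ha : a ∈ Icc a b := ⟨le_rfl, hab⟩
  have hb : b ∈ Icc a b := ⟨hab, le_rfl⟩
  have h3 := isPreconnected_Icc (a := a) (b := b) _ _ hu hv hcov
    ⟨a, ha, (hcov a ha).resolve_right (fun h => interior_subset h h1)⟩
    ⟨b, hb, (hcov b hb).resolve_left (fun h => h2 (interior_subset h))⟩
  obtain ⟨t, -, ht1, ht2⟩ := h3
  exact interior_subset ht2 (interior_subset ht1)

theorem Body.sep {K : Set (Sp n)} (hK : Body K) {x : Sp n} (hx : x ∉ K) :
    ∃ u : Sp n, (∀ y ∈ K, ⟪(u : E (n + 1)), (y : E (n + 1))⟫ ≤ 0) ∧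
      0 < ⟪(u : E (n + 1)), (x : E (n + 1))⟫ := by
  obtain ⟨P, hP, h1, h0, -, -, -⟩ := exists_proj hK
  have hne : (x : E (n + 1)) - P x ≠ 0 := by
    intro h
    have h2 := hP x
    rw [← sub_eq_zero.1 h] at h2
    rcases h2 with h2 | h2
    · exact hx (coe_mem_cn.1 h2)
    · exact coe_ne_zero x h2
  have hpos : 0 < ‖(x : E (n + 1)) - P x‖⁻¹ := inv_pos.2 (norm_pos_iff.2 hne)
  refine ⟨nrm ((x : E (n + 1)) - P x), ?_, ?_⟩
  · intro y hy
    rw [coe_nrm hne, real_inner_smul_left]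
    exact mul_nonpos_of_nonneg_of_nonpos hpos.le (h1 x y (Or.inl (coe_mem_cn.2 hy)))
  · rw [coe_nrm hne, real_inner_smul_left]
    have h2 : ⟪(x : E (n + 1)) - P x, (x : E (n + 1))⟫ = ‖(x : E (n + 1)) - P x‖ ^ 2 := by
      have h3 : ⟪(x : E (n + 1)) - P x, (x : E (n + 1)) - P x⟫ =
          ⟪(x : E (n + 1)) - P x, (x : E (n + 1))⟫ - ⟪(x : E (n + 1)) - P x, P x⟫ :=
        inner_sub_right _ _ _
      rw [h0, sub_zero, real_inner_self_eq_norm_sq] at h3
      exact h3.symm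
    rw [h2]
    exact mul_pos hpos (pow_pos (norm_pos_iff.2 hne) 2)

theorem Dom.sep {Ω : Set (Sp n)} (h : Dom Ω) {x : Sp n} (hx : x ∉ Ω) :
    ∃ ν : Sp n, (∀ y ∈ Ω, ⟪(ν : E (n + 1)), (y : E (n + 1))⟫ < 0) ∧
      0 ≤ ⟪(ν : E (n + 1)), (x : E (n + 1))⟫ := by
  have hx' : (x : E (n + 1)) ∉ cn Ω := fun h => hx (coe_mem_cn.1 h)
  obtain ⟨f, hf⟩ := geometric_hahn_banach_open_point h.conv (isOpen_cn h.isOpen) hx'
  let v := (InnerProductSpace.toDual ℝ (E (n + 1))).symm f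
  have hv : ∀ a, ⟪v, a⟫ = f a := fun a => InnerProductSpace.toDual_symm_apply
  have h1 : ∀ a ∈ cn Ω, f a ≤ 0 := by
    intro a ha
    by_contra hcon
    push Not at hcon
    have h2 := hf _ (smul_mem_cn ha (t := |f x| / f a + 1) (by positivity))
    rw [map_smul, smul_eq_mul, add_mul, div_mul_cancel₀ _ hcon.ne', one_mul] at h2
    linarith [le_abs_self (f x)]
  obtain ⟨q, hq⟩ := h.nonempty
  have hq' : (q : E (n + 1)) ∈ cn Ω := coe_mem_cn.2 hq
  have h2 : 0 ≤ f x := by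
    by_contra hcon
    push Not at hcon
    have h3 := h1 _ hq'
    have h4 := hf _ (smul_mem_cn hq' (t := -(f x) / (1 - f q)) (div_pos (by linarith) (by linarith)))
    rw [map_smul, smul_eq_mul, div_mul_eq_mul_div, div_lt_iff₀ (by linarith)] at h4
    nlinarith
  have hvne : v ≠ 0 := by
    intro h0
    have h3 := hf _ hq'
    rw [← hv, ← hv, h0, inner_zero_left, inner_zero_left] at h3
    exact lt_irrefl _ h3
  have hvpos := norm_pos_iff.2 hvne
  have h3 : ∀ a ∈ cn Ω, f a < 0 := by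
    intro a ha
    rcases (h1 a ha).lt_or_eq with h4 | h4
    · exact h4
    exfalso
    have hc : Continuous (fun ε : ℝ => a + ε • v) := by fun_prop
    have h5 : ∀ᶠ ε in nhds (0 : ℝ), a + ε • v ∈ cn Ω := by
      have h6 : a + (0 : ℝ) • v ∈ cn Ω := by
        rw [zero_smul, add_zero]
        exact ha
      exact (hc.tendsto 0).eventually ((isOpen_cn h.isOpen).mem_nhds h6)
    obtain ⟨δ, hδ, h6⟩ := Metric.eventually_nhds_iff.1 h5
    have h7 := h1 _ (h6 (y := δ / 2)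
      (by rw [Real.dist_eq, sub_zero, abs_of_pos (by positivity)]; linarith))
    rw [map_add, map_smul, h4, ← hv v, real_inner_self_eq_norm_sq, smul_eq_mul, zero_add] at h7
    have : 0 < δ / 2 * ‖v‖ ^ 2 := by positivity
    linarith
  refine ⟨nrm v, ?_, ?_⟩
  · intro y hy
    rw [coe_nrm hvne, real_inner_smul_left, hv]
    exact mul_neg_of_pos_of_neg (inv_pos.2 hvpos) (h3 _ (coe_mem_cn.2 hy))
  · rw [coe_nrm hvne, real_inner_smul_left, hv]
    exact mul_nonneg (inv_pos.2 hvpos).le h2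

theorem Body.supp {K : Set (Sp n)} (hK : Body K) {y : Sp n} (hy : y ∈ frontier K) :
    ∃ u : Sp n, (∀ z ∈ K, ⟪(u : E (n + 1)), (z : E (n + 1))⟫ ≤ 0) ∧
      ⟪(u : E (n + 1)), (y : E (n + 1))⟫ = 0 := by
  have hyK : y ∈ K := hK.isCompact.isClosed.frontier_subset hy
  have hy2 : y ∈ closure Kᶜ := by
    rw [frontier_eq_closure_inter_closure] at hy
    exact hy.2
  obtain ⟨x, hx, hxy⟩ := mem_closure_iff_seq_limit.1 hy2
  choose u hu1 hu2 using fun k => hK.sep (hx k)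
  obtain ⟨v, -, φ, hφ, hv⟩ := (isCompact_univ : IsCompact (univ : Set (Sp n))).tendsto_subseq
    (x := u) (fun k => mem_univ _)
  have hc := continuous_inner2 (n := n)
  have h1 : ∀ z ∈ K, ⟪(v : E (n + 1)), (z : E (n + 1))⟫ ≤ 0 := by
    intro z hz
    have h2 : Filter.Tendsto (fun k => ⟪((u (φ k) : Sp n) : E (n + 1)), (z : E (n + 1))⟫)
        Filter.atTop (nhds ⟪(v : E (n + 1)), (z : E (n + 1))⟫) := by
      have h3 : Continuous (fun w : Sp n => ⟪(w : E (n + 1)), (z : E (n + 1))⟫) :=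
        continuous_subtype_val.inner continuous_const
      exact (h3.tendsto v).comp hv
    exact le_of_tendsto' h2 (fun k => hu1 _ z hz)
  refine ⟨v, h1, le_antisymm (h1 y hyK) ?_⟩
  have h2 : Filter.Tendsto (fun k => ⟪((u (φ k) : Sp n) : E (n + 1)), ((x (φ k) : Sp n) : E (n + 1))⟫)
      Filter.atTop (nhds ⟪(v : E (n + 1)), (y : E (n + 1))⟫) := by
    have h3 : Filter.Tendsto (fun k => ((u (φ k) : Sp n), (x (φ k) : Sp n))) Filter.atTop
        (nhds (v, y)) := hv.prodMk_nhds (hxy.comp hφ.tendsto_atTop)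
    exact (hc.tendsto (v, y)).comp h3
  exact ge_of_tendsto' h2 (fun k => (hu2 _).le)

end Pool.Agent.H62.SS
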