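import Pool.Agent.H62.SS.Act

set_option autoImplicit false

/-!
# [H62 SS ACTB] The volume is invariant under the linear isometries

`sg (n+1) A = dim * volume (Ioo 0 1 • A)` (`Measure.toSphere_apply'`), `Ioo 0 1 • (Φ '' A) = Φ '' (Ioo 0 1 • A)` and linear isometries preserve `volume` (`LinearIsometryEquiv.measurePreserving`).
-/

namespace Pool.Agent.H62.SS

open scoped RealInnerProductSpace MeasureTheory ENNReal NNReal
open MeasureTheory Set Metric
open scoped Pointwise
open Pool.Agent.H62.WS (E sg cst)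

variable {n : ℕ}

theorem act_image_eq (Φ : E (n + 1) ≃ₗᵢ[ℝ] E (n + 1)) (A : Set (Sp n)) :
    act Φ '' A = act Φ.symm ⁻¹' A := by
  ext x
  constructor
  · rintro ⟨y, hy, rfl⟩
    rw [mem_preimage, act_symm_act]
    exact hy
  · intro hx
    exact ⟨act Φ.symm x, hx, act_act_symm Φ x⟩

theorem measurable_act (Φ : E (n + 1) ≃ₗᵢ[ℝ] E (n + 1)) : Measurable (act Φ) :=
  (act Φ).isometry.continuous.measurable

theorem measurePreserving_act0 (Φ : E (n + 1) ≃ₗᵢ[ℝ] E (n + 1)) :
    MeasurePreserving (act Φ) (sg (n + 1)) (sg (n + 1)) := by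
  refine ⟨measurable_act Φ, ?_⟩
  ext A hA
  rw [Measure.map_apply (measurable_act Φ) hA]
  unfold sg
  rw [Measure.toSphere_apply' _ (measurable_act Φ hA), Measure.toSphere_apply' _ hA]
  congr 1
  have h1 : Ioo (0 : ℝ) 1 • (Subtype.val '' (act Φ ⁻¹' A) : Set (E (n + 1))) =
      Φ ⁻¹' (Ioo (0 : ℝ) 1 • (Subtype.val '' A : Set (E (n + 1)))) := by
    ext z
    simp only [mem_smul, mem_image, mem_preimage, Subtype.exists, exists_and_right,
      exists_eq_right]
    constructor
    · rintro ⟨t, ht, x, ⟨hx, hx2⟩, rfl⟩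
      exact ⟨t, ht, Φ x, ⟨by simpa using hx, hx2⟩, by rw [map_smul]⟩
    · rintro ⟨t, ht, x, ⟨hx, hx2⟩, hz⟩
      refine ⟨t, ht, Φ.symm x, ⟨by simpa using hx, ?_⟩, ?_⟩
      · have : act Φ ⟨Φ.symm x, by simpa using hx⟩ = ⟨x, hx⟩ := by
          ext1
          exact Φ.apply_symm_apply x
        rw [this]
        exact hx2
      · rw [← map_smul, hz]
        exact Φ.symm_apply_apply z
  rw [h1]
  exact Φ.measurePreserving.measure_preimage_equiv (f := Φ.toMeasurableEquiv) _

theorem sg_act_image (Φ : E (n + 1) ≃ₗᵢ[ℝ] E (n + 1)) (A : Set (Sp n)) :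
    sg (n + 1) (act Φ '' A) = sg (n + 1) A := by
  rw [act_image_eq]
  exact (measurePreserving_act0 Φ.symm).measure_preimage_equiv
    (f := (act Φ.symm).toHomeomorph.toMeasurableEquiv) A

theorem measurePreserving_act (Φ : E (n + 1) ≃ₗᵢ[ℝ] E (n + 1)) :
    MeasurePreserving (act Φ) (sg (n + 1)) (sg (n + 1)) := by
  exact measurePreserving_act0 Φ

end Pool.Agent.H62.SS
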