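import Pool.Agent.H62.SS.ProfD

set_option autoImplicit false

/-!
# [H62 SS ODE1] The radial functions: derivatives and brackets
-/

namespace Pool.Agent.H62.SS

open MeasureTheory Set
open scoped Real

theorem hasDerivAt_VS (N : ℕ) (r : ℝ) : HasDerivAt (VS N) (Real.sin r ^ N) r := by
  have hc : Continuous fun t : ℝ => Real.sin t ^ N := Real.continuous_sin.pow N
  exact intervalIntegral.integral_hasDerivAt_right (hc.intervalIntegrable _ _)
    (hc.stronglyMeasurableAtFilter _ _) hc.continuousAt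

theorem VS_zero (N : ℕ) : VS N 0 = 0 := by simp [VS]

theorem VS_cont (N : ℕ) : Continuous (VS N) :=
  continuous_iff_continuousAt.2 fun r => (hasDerivAt_VS N r).continuousAt

theorem VS_smono (N : ℕ) : StrictMonoOn (VS N) (Icc 0 π) := by
  refine strictMonoOn_of_deriv_pos (convex_Icc _ _) (VS_cont N).continuousOn fun x hx => ?_
  rw [interior_Icc] at hx
  rw [(hasDerivAt_VS N x).deriv]
  exact pow_pos (Real.sin_pos_of_pos_of_lt_pi hx.1 hx.2) _

theorem VS_pos (N : ℕ) {r : ℝ} (h0 : 0 < r) (h1 : r ≤ π) : 0 < VS N r := by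
  have := VS_smono N ⟨le_rfl, Real.pi_pos.le⟩ ⟨h0.le, h1⟩ h0
  rwa [VS_zero] at this

/-- `B = g tan` -/
noncomputable def BS (N : ℕ) (r : ℝ) : ℝ := gS N r * Real.tan r

section
variable {r : ℝ}

theorem sin_pos1 (h0 : 0 < r) (h1 : r < π / 2) : 0 < Real.sin r :=
  Real.sin_pos_of_pos_of_lt_pi h0 (by linarith [Real.pi_pos])

theorem cos_pos1 (h0 : 0 ≤ r) (h1 : r < π / 2) : 0 < Real.cos r :=
  Real.cos_pos_of_mem_Ioo ⟨by linarith [Real.pi_pos], h1⟩

theorem tan_pos1 (h0 : 0 < r) (h1 : r < π / 2) : 0 < Real.tan r :=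
  Real.tan_pos_of_pos_of_lt_pi_div_two h0 h1

theorem one_add_tan_sq (h0 : 0 ≤ r) (h1 : r < π / 2) :
    1 + Real.tan r ^ 2 = 1 / Real.cos r ^ 2 := by
  have h := cos_pos1 h0 h1
  rw [Real.tan_eq_sin_div_cos]
  field_simp
  have := Real.sin_sq_add_cos_sq r
  linarith

theorem BS_eq (N : ℕ) (h0 : 0 < r) (h1 : r < π / 2) :
    BS N r = Real.sin r ^ N * Real.tan r / VS N r - N := by
  have hs := sin_pos1 h0 h1
  have hc := cos_pos1 h0.le h1
  have hV := VS_pos N h0 (by linarith [Real.pi_pos])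
  unfold BS gS
  rw [Real.tan_eq_sin_div_cos]
  field_simp

theorem VS_eq (N : ℕ) (h0 : 0 < r) (h1 : r < π / 2) :
    VS N r * (N + BS N r) = Real.sin r ^ N * Real.tan r := by
  have hV := VS_pos N h0 (by linarith [Real.pi_pos])
  rw [BS_eq N h0 h1]
  field_simp
  ring

/-- the derivative of the comparison functions -/
theorem hasDerivAt_W (N : ℕ) {D : ℝ → ℝ} {d : ℝ} (h0 : 0 ≤ r) (h1 : r < π / 2)
    (hD : HasDerivAt D d (Real.tan r ^ 2)) (hpos : 0 < D (Real.tan r ^ 2)) :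
    HasDerivAt (fun x => Real.sin x ^ N * Real.tan x / D (Real.tan x ^ 2))
      (Real.sin r ^ N * ((N + 1 + Real.tan r ^ 2) * D (Real.tan r ^ 2) -
        2 * Real.tan r ^ 2 * (1 + Real.tan r ^ 2) * d) / D (Real.tan r ^ 2) ^ 2) r := by
  have hc := cos_pos1 h0 h1
  have ht := Real.hasDerivAt_tan hc.ne'
  have hs := (Real.hasDerivAt_sin r).fun_pow N
  have ht2 := ht.fun_pow 2
  have hDt := hD.comp r ht2
  have h := (hs.fun_mul ht).fun_div hDt hpos.ne'
  refine h.congr_deriv ?_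
  have e1 := one_add_tan_sq h0 h1
  have e2 : (N : ℝ) * Real.sin r ^ (N - 1) * Real.cos r * Real.tan r = N * Real.sin r ^ N := by
    rw [Real.tan_eq_sin_div_cos]
    rcases N with _ | k
    · simp
    · rw [Nat.add_sub_cancel, pow_succ]
      field_simp
  simp only [Function.comp_apply]
  rw [← e1, e2]
  simp only [Nat.cast_ofNat, Nat.add_one_sub_one, pow_one]
  have hne := hpos.ne'
  field_simp
  ring

theorem cmp_upper (N : ℕ) {D D' : ℝ → ℝ} (hD : ∀ z, 0 ≤ z → HasDerivAt D (D' z) z)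
    (hpos : ∀ z, 0 ≤ z → 0 < D z)
    (hineq : ∀ z, 0 ≤ z → 2 * z * (1 + z) * D' z ≤ D z * (N + 1 + z - D z))
    (h0 : 0 < r) (h1 : r < π / 2) : D (Real.tan r ^ 2) - N ≤ BS N r := by
  set φ : ℝ → ℝ := fun x => Real.sin x ^ N * Real.tan x / D (Real.tan x ^ 2) - VS N x with hφ
  have hd : ∀ x, 0 ≤ x → x < π / 2 → HasDerivAt φ
      (Real.sin x ^ N * ((N + 1 + Real.tan x ^ 2) * D (Real.tan x ^ 2) -
        2 * Real.tan x ^ 2 * (1 + Real.tan x ^ 2) * D' (Real.tan x ^ 2)) /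
          D (Real.tan x ^ 2) ^ 2 - Real.sin x ^ N) x := fun x hx hx1 =>
    (hasDerivAt_W N hx hx1 (hD _ (sq_nonneg _)) (hpos _ (sq_nonneg _))).fun_sub (hasDerivAt_VS N x)
  have hm : MonotoneOn φ (Icc 0 r) := by
    refine monotoneOn_of_deriv_nonneg (convex_Icc _ _) (fun x hx =>
      (hd x hx.1 (hx.2.trans_lt h1)).continuousAt.continuousWithinAt) (fun x hx => ?_) fun x hx => ?_
    · rw [interior_Icc] at hx
      exact (hd x hx.1.le (hx.2.trans h1)).differentiableAt.differentiableWithinAt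
    · rw [interior_Icc] at hx
      rw [(hd x hx.1.le (hx.2.trans h1)).deriv]
      have hs := sin_pos1 hx.1 (hx.2.trans h1)
      set z := Real.tan x ^ 2 with hz
      have hz0 : 0 ≤ z := sq_nonneg _
      have hp := hpos z hz0
      have hi := hineq z hz0
      have h2 : (1 : ℝ) ≤ ((N + 1 + z) * D z - 2 * z * (1 + z) * D' z) / D z ^ 2 := by
        rw [le_div_iff₀ (by positivity)]
        nlinarith
      have h3 : Real.sin x ^ N * ((N + 1 + z) * D z - 2 * z * (1 + z) * D' z) / D z ^ 2 -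
          Real.sin x ^ N = Real.sin x ^ N *
            (((N + 1 + z) * D z - 2 * z * (1 + z) * D' z) / D z ^ 2 - 1) := by ring
      rw [h3]
      exact mul_nonneg (pow_pos hs N).le (by linarith)
  have h2 := hm ⟨le_rfl, h0.le⟩ ⟨h0.le, le_rfl⟩ h0.le
  have h3 : φ 0 = 0 := by
    simp [hφ, VS_zero]
  rw [h3] at h2
  have hV := VS_pos N h0 (by linarith [Real.pi_pos])
  have hp := hpos (Real.tan r ^ 2) (sq_nonneg _)
  have h4 : VS N r ≤ Real.sin r ^ N * Real.tan r / D (Real.tan r ^ 2) := by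
    simp only [hφ] at h2
    linarith
  rw [le_div_iff₀ hp] at h4
  rw [BS_eq N h0 h1]
  have h5 : D (Real.tan r ^ 2) ≤ Real.sin r ^ N * Real.tan r / VS N r := by
    rw [le_div_iff₀ hV]
    linarith
  linarith

theorem cmp_lower (N : ℕ) {D D' : ℝ → ℝ} (hD : ∀ z, 0 ≤ z → HasDerivAt D (D' z) z)
    (hpos : ∀ z, 0 ≤ z → 0 < D z)
    (hineq : ∀ z, 0 ≤ z → D z * (N + 1 + z - D z) ≤ 2 * z * (1 + z) * D' z)
    (h0 : 0 < r) (h1 : r < π / 2) : BS N r ≤ D (Real.tan r ^ 2) - N := by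
  set φ : ℝ → ℝ := fun x => VS N x - Real.sin x ^ N * Real.tan x / D (Real.tan x ^ 2) with hφ
  have hd : ∀ x, 0 ≤ x → x < π / 2 → HasDerivAt φ
      (Real.sin x ^ N - Real.sin x ^ N * ((N + 1 + Real.tan x ^ 2) * D (Real.tan x ^ 2) -
        2 * Real.tan x ^ 2 * (1 + Real.tan x ^ 2) * D' (Real.tan x ^ 2)) /
          D (Real.tan x ^ 2) ^ 2) x := fun x hx hx1 =>
    (hasDerivAt_VS N x).fun_sub (hasDerivAt_W N hx hx1 (hD _ (sq_nonneg _)) (hpos _ (sq_nonneg _)))
  have hm : MonotoneOn φ (Icc 0 r) := by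
    refine monotoneOn_of_deriv_nonneg (convex_Icc _ _) (fun x hx =>
      (hd x hx.1 (hx.2.trans_lt h1)).continuousAt.continuousWithinAt) (fun x hx => ?_) fun x hx => ?_
    · rw [interior_Icc] at hx
      exact (hd x hx.1.le (hx.2.trans h1)).differentiableAt.differentiableWithinAt
    · rw [interior_Icc] at hx
      rw [(hd x hx.1.le (hx.2.trans h1)).deriv]
      have hs := sin_pos1 hx.1 (hx.2.trans h1)
      set z := Real.tan x ^ 2 with hz
      have hz0 : 0 ≤ z := sq_nonneg _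
      have hp := hpos z hz0
      have hi := hineq z hz0
      have h2 : ((N + 1 + z) * D z - 2 * z * (1 + z) * D' z) / D z ^ 2 ≤ 1 := by
        rw [div_le_one (by positivity)]
        nlinarith
      have h3 : Real.sin x ^ N - Real.sin x ^ N * ((N + 1 + z) * D z - 2 * z * (1 + z) * D' z) /
          D z ^ 2 = Real.sin x ^ N *
            (1 - ((N + 1 + z) * D z - 2 * z * (1 + z) * D' z) / D z ^ 2) := by ring
      rw [h3]
      exact mul_nonneg (pow_pos hs N).le (by linarith)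
  have h2 := hm ⟨le_rfl, h0.le⟩ ⟨h0.le, le_rfl⟩ h0.le
  have h3 : φ 0 = 0 := by
    simp [hφ, VS_zero]
  rw [h3] at h2
  have hV := VS_pos N h0 (by linarith [Real.pi_pos])
  have hp := hpos (Real.tan r ^ 2) (sq_nonneg _)
  have h4 : Real.sin r ^ N * Real.tan r / D (Real.tan r ^ 2) ≤ VS N r := by
    simp only [hφ] at h2
    linarith
  rw [div_le_iff₀ hp] at h4
  rw [BS_eq N h0 h1]
  have h5 : Real.sin r ^ N * Real.tan r / VS N r ≤ D (Real.tan r ^ 2) := by
    rw [div_le_iff₀ hV]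
    linarith
  linarith

end

/-- the lower bracket, `n = N + 1` -/
noncomputable def lo2 (N z : ℝ) : ℝ :=
  1 + (N + 1) * (N + 5) * z / ((N + 3) * (N + 5) + 2 * (N + 2) * z)

/-- the first upper bracket -/
noncomputable def up1 (N z : ℝ) : ℝ := 1 + (N + 1) * z / (N + 3)

theorem hasDerivAt_lo2 {N z : ℝ} (hN : 0 ≤ N) (hz : 0 ≤ z) :
    HasDerivAt (lo2 N) ((N + 1) * (N + 5) * ((N + 3) * (N + 5)) /
      ((N + 3) * (N + 5) + 2 * (N + 2) * z) ^ 2) z := by
  have hne : (N + 3) * (N + 5) + 2 * (N + 2) * z ≠ 0 := by positivity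
  have h := (((hasDerivAt_id z).const_mul ((N + 1) * (N + 5))).fun_div
    (((hasDerivAt_id z).const_mul (2 * (N + 2))).const_add ((N + 3) * (N + 5))) hne).const_add 1
  refine h.congr_deriv ?_
  simp only [id_eq]
  field_simp
  ring

theorem lo2_le_BS (N : ℕ) {r : ℝ} (h0 : 0 < r) (h1 : r < π / 2) :
    lo2 N (Real.tan r ^ 2) ≤ BS N r := by
  have hN : (0 : ℝ) ≤ N := Nat.cast_nonneg N
  have h := cmp_upper N (D := fun z => N + lo2 N z)
    (D' := fun z => (N + 1) * (N + 5) * ((N + 3) * (N + 5)) /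
      ((N + 3) * (N + 5) + 2 * (N + 2) * z) ^ 2)
    (fun z hz => (hasDerivAt_lo2 hN hz).const_add _) (fun z hz => by unfold lo2; positivity)
    (fun z hz => ?_) h0 h1
  · simp only [add_sub_cancel_left] at h
    exact h
  · unfold lo2
    have hD : 0 < ((N : ℝ) + 3) * (N + 5) + 2 * (N + 2) * z := by positivity
    rw [← sub_nonneg]
    have e : (N + (1 + (N + 1) * (N + 5) * z / ((N + 3) * (N + 5) + 2 * (N + 2) * z))) *
        (N + 1 + z - (N + (1 + (N + 1) * (N + 5) * z / ((N + 3) * (N + 5) + 2 * (N + 2) * z)))) -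
        2 * z * (1 + z) * ((N + 1) * (N + 5) * ((N + 3) * (N + 5)) /
          ((N + 3) * (N + 5) + 2 * (N + 2) * z) ^ 2) =
        6 * ((N : ℝ) + 1) * (N + 2) * (N + 3) * z ^ 3 /
          ((N + 3) * (N + 5) + 2 * (N + 2) * z) ^ 2 := by
      field_simp
      ring
    rw [e]
    positivity

theorem BS_le_up1 (N : ℕ) {r : ℝ} (h0 : 0 < r) (h1 : r < π / 2) :
    BS N r ≤ up1 N (Real.tan r ^ 2) := by
  have hN : (0 : ℝ) ≤ N := Nat.cast_nonneg N
  have h := cmp_lower N (D := fun z => N + up1 N z) (D' := fun _ => (N + 1) / (N + 3))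
    (fun z hz => ?_) (fun z hz => by unfold up1; positivity) (fun z hz => ?_) h0 h1
  · simp only [add_sub_cancel_left] at h
    exact h
  · unfold up1
    have h := (((hasDerivAt_id z).const_mul ((N : ℝ) + 1)).div_const ((N : ℝ) + 3)).const_add 1
    have h2 := h.const_add (N : ℝ)
    refine h2.congr_deriv ?_
    ring
  · unfold up1
    rw [← sub_nonneg]
    have e : 2 * z * (1 + z) * (((N : ℝ) + 1) / (N + 3)) - (N + (1 + (N + 1) * z / (N + 3))) *
        (N + 1 + z - (N + (1 + (N + 1) * z / (N + 3)))) =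
        2 * z ^ 2 * (N + 1) * (N + 2) / (N + 3) ^ 2 := by
      field_simp
      ring
    rw [e]
    positivity

/-- the constants of the second upper bracket -/
noncomputable def ee2 (N : ℝ) : ℝ := 2 * (N + 2) / ((N + 3) * (N + 5))
noncomputable def ee3 (N : ℝ) : ℝ := 3 * (N + 3) / ((N + 5) * (N + 7))

/-- the second upper bracket -/
noncomputable def up3 (N z : ℝ) : ℝ :=
  1 + (N + 1) / (N + 3) * z * (1 + ee3 N * z) / (1 + (ee2 N + ee3 N) * z)

theorem hasDerivAt_up3 {N z : ℝ} (hN : 0 ≤ N) (hz : 0 ≤ z) :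
    HasDerivAt (up3 N) ((N + 1) / (N + 3) * (1 + 2 * ee3 N * z + (ee2 N + ee3 N) * ee3 N * z ^ 2) /
      (1 + (ee2 N + ee3 N) * z) ^ 2) z := by
  have h2 : 0 ≤ ee2 N := by unfold ee2; positivity
  have h3 : 0 ≤ ee3 N := by unfold ee3; positivity
  have hne : 1 + (ee2 N + ee3 N) * z ≠ 0 := by positivity
  have h := ((((hasDerivAt_id z).const_mul ((N + 1) / (N + 3))).fun_mul
    (((hasDerivAt_id z).const_mul (ee3 N)).const_add 1)).fun_div
    (((hasDerivAt_id z).const_mul (ee2 N + ee3 N)).const_add 1) hne).const_add 1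
  refine h.congr_deriv ?_
  simp only [id_eq]
  field_simp
  ring

theorem BS_le_up3 (N : ℕ) {r : ℝ} (h0 : 0 < r) (h1 : r < π / 2) :
    BS N r ≤ up3 N (Real.tan r ^ 2) := by
  have hN : (0 : ℝ) ≤ N := Nat.cast_nonneg N
  have h2 : 0 ≤ ee2 (N : ℝ) := by unfold ee2; positivity
  have h3 : 0 ≤ ee3 (N : ℝ) := by unfold ee3; positivity
  have h := cmp_lower N (D := fun z => N + up3 N z)
    (D' := fun z => ((N : ℝ) + 1) / (N + 3) * (1 + 2 * ee3 N * z + (ee2 N + ee3 N) * ee3 N * z ^ 2) /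
      (1 + (ee2 N + ee3 N) * z) ^ 2)
    (fun z hz => (hasDerivAt_up3 hN hz).const_add _) (fun z hz => by unfold up3; positivity)
    (fun z hz => ?_) h0 h1
  · simp only [add_sub_cancel_left] at h
    exact h
  · rw [← sub_nonneg]
    have e : 2 * z * (1 + z) * (((N : ℝ) + 1) / (N + 3) *
        (1 + 2 * ee3 N * z + (ee2 N + ee3 N) * ee3 N * z ^ 2) /
        (1 + (ee2 N + ee3 N) * z) ^ 2) - (N + up3 N z) * (N + 1 + z - (N + up3 N z)) =
        (N + 1) / (N + 3) * ee3 N * (ee2 N + ee3 N + (N + 1) / (N + 3) * ee3 N) * z ^ 4 /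
          (1 + (ee2 N + ee3 N) * z) ^ 2 := by
      have hne : 1 + (ee2 (N : ℝ) + ee3 N) * z ≠ 0 := by positivity
      unfold up3
      rw [← sub_eq_zero]
      have hne2 : ((N : ℝ) + 3) ≠ 0 := by positivity
      field_simp
      unfold ee2 ee3
      field_simp
      ring
    rw [e]
    positivity

end Pool.Agent.H62.SS
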