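import Pool.Agent.H62.SS.Sph

set_option autoImplicit false

/-!
# [H62 SS CONE] Cones over subsets of the sphere, normalisation

`nrm z = z/‖z‖`.  Elementary.  `dist_nrm_le`: `‖x/‖x‖ - y/‖y‖‖² = (‖x-y‖² - (‖x‖-‖y‖)²)/(‖x‖‖y‖) ≤ ‖x-y‖²/a²`.
-/

namespace Pool.Agent.H62.SS

open scoped RealInnerProductSpace MeasureTheory ENNReal NNReal
open MeasureTheory Set Metric
open Pool.Agent.H62.WS (E sg cst)

variable {n : ℕ}

/-- the normalisation `z/‖z‖` -/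
noncomputable def nrm (z : E (n + 1)) : Sp n :=
  if h : z = 0 then nor n else ⟨‖z‖⁻¹ • z, by
    rw [mem_sphere_zero_iff_norm, norm_smul, norm_inv, norm_norm,
      inv_mul_cancel₀ (norm_ne_zero_iff.mpr h)]⟩

theorem coe_nrm {z : E (n + 1)} (h : z ≠ 0) : (nrm z : E (n + 1)) = ‖z‖⁻¹ • z := by
  simp [nrm, h]

theorem norm_smul_nrm (z : E (n + 1)) : ‖z‖ • (nrm z : E (n + 1)) = z := by
  by_cases h : z = 0
  · simp [h]
  · rw [coe_nrm h, smul_smul, mul_inv_cancel₀ (norm_ne_zero_iff.2 h), one_smul]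

theorem coe_ne_zero (p : Sp n) : (p : E (n + 1)) ≠ 0 := by
  intro h
  have := norm_coe p
  rw [h, norm_zero] at this
  exact zero_ne_one this

theorem nrm_coe (p : Sp n) : nrm (p : E (n + 1)) = p := by
  ext1
  rw [coe_nrm (coe_ne_zero p), norm_coe, inv_one, one_smul]

theorem nrm_smul {t : ℝ} (ht : 0 < t) (z : E (n + 1)) : nrm (t • z) = nrm z := by
  by_cases h : z = 0
  · simp [h]
  · ext1
    rw [coe_nrm h, coe_nrm (smul_ne_zero ht.ne' h), norm_smul, Real.norm_of_nonneg ht.le,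
      smul_smul, mul_inv]
    congr 1
    field_simp

theorem continuousAt_nrm {z : E (n + 1)} (h : z ≠ 0) :
    ContinuousAt (nrm : E (n + 1) → Sp n) z := by
  rw [Topology.IsInducing.subtypeVal.continuousAt_iff]
  have h1 : ContinuousAt (fun z : E (n + 1) => ‖z‖⁻¹ • z) z :=
    (continuous_norm.continuousAt.inv₀ (norm_ne_zero_iff.2 h)).smul continuousAt_id
  refine h1.congr ?_
  filter_upwards [isOpen_ne.mem_nhds h] with y hy
  exact (coe_nrm hy).symm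

theorem dist_nrm_le {a : ℝ} (ha : 0 < a) {x y : E (n + 1)} (hx : a ≤ ‖x‖) (hy : a ≤ ‖y‖) :
    dist (nrm x) (nrm y) ≤ a⁻¹ * dist x y := by
  have hx0 : 0 < ‖x‖ := ha.trans_le hx
  have hy0 : 0 < ‖y‖ := ha.trans_le hy
  have hx1 : x ≠ 0 := norm_pos_iff.1 hx0
  have hy1 : y ≠ 0 := norm_pos_iff.1 hy0
  have h1 : dist (nrm x) (nrm y) ^ 2 = (‖x - y‖ ^ 2 - (‖x‖ - ‖y‖) ^ 2) / (‖x‖ * ‖y‖) := by
    rw [Subtype.dist_eq, dist_eq_norm, coe_nrm hx1, coe_nrm hy1, @norm_sub_sq_real,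
      @norm_sub_sq_real, norm_smul, norm_smul, norm_inv, norm_inv, norm_norm, norm_norm,
      inner_smul_left, inner_smul_right]
    simp only [conj_trivial]
    field_simp
    ring
  have h2 : (‖x - y‖ ^ 2 - (‖x‖ - ‖y‖) ^ 2) / (‖x‖ * ‖y‖) ≤ (a⁻¹ * dist x y) ^ 2 := by
    rw [dist_eq_norm, mul_pow, inv_pow, div_le_iff₀ (mul_pos hx0 hy0)]
    have h3 : a ^ 2 ≤ ‖x‖ * ‖y‖ := by nlinarith
    have h4 : ‖x - y‖ ^ 2 * a ^ 2 ≤ ‖x - y‖ ^ 2 * (‖x‖ * ‖y‖) :=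
      mul_le_mul_of_nonneg_left h3 (sq_nonneg _)
    have h5 : (a ^ 2)⁻¹ * ‖x - y‖ ^ 2 * (‖x‖ * ‖y‖) = (‖x - y‖ ^ 2 * (‖x‖ * ‖y‖)) / a ^ 2 := by
      field_simp
    rw [h5, le_div_iff₀ (by positivity)]
    nlinarith [sq_nonneg (‖x‖ - ‖y‖), sq_nonneg a]
  have h3 : 0 ≤ a⁻¹ * dist x y := by positivity
  exact abs_le_of_sq_le_sq' (h1 ▸ h2) h3 |>.2

theorem mem_cn_iff {K : Set (Sp n)} {z : E (n + 1)} : z ∈ cn K ↔ z ≠ 0 ∧ nrm z ∈ K := by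
  constructor
  · rintro ⟨t, ht, x, hx, rfl⟩
    refine ⟨smul_ne_zero ht.ne' (coe_ne_zero x), ?_⟩
    rw [nrm_smul ht, nrm_coe]
    exact hx
  · rintro ⟨h0, h1⟩
    exact ⟨‖z‖, norm_pos_iff.2 h0, nrm z, h1, (norm_smul_nrm z).symm⟩

theorem coe_mem_cn {K : Set (Sp n)} {p : Sp n} : (p : E (n + 1)) ∈ cn K ↔ p ∈ K := by
  rw [mem_cn_iff, nrm_coe]
  exact ⟨fun h => h.2, fun h => ⟨coe_ne_zero p, h⟩⟩

theorem smul_mem_cn {K : Set (Sp n)} {z : E (n + 1)} (hz : z ∈ cn K) {t : ℝ} (ht : 0 < t) :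
    t • z ∈ cn K := by
  rw [mem_cn_iff] at hz ⊢
  exact ⟨smul_ne_zero ht.ne' hz.1, by rw [nrm_smul ht]; exact hz.2⟩

end Pool.Agent.H62.SS
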