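import Pool.Agent.H62.SS.Pol
import Pool.Agent.H62.SS.Cone

set_option autoImplicit false

/-!
# [H62 SS POLAR] The volume in polar coordinates

Let `F` be measurable.  In `E (n+1)` (unit ball, `G z = F(z/‖z‖) 1_{‖z‖ < 1}`):
* spherical coordinates (`(volume).measurePreserving_homeomorphUnitSphereProd`, `volumeIoiPow n`; see `polar_E` in H62/WS/Polar.lean): `∫⁻ G = ∫⁻_p F(p) dsg(n+1) * ∫_0^1 t^n dt`;
* `z = (z₀, y) ∈ ℝ × E n` (volume preserving: `EuclideanSpace.volume_preserving_...`, `MeasurableEquiv.piFinSuccAbove`, as in `E (n+1) = WithLp 2 (Fin (n+1) → ℝ)`), spherical coordinates `y = ρ θ` in `E n`, then polar coordinates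
  `(z₀, ρ) = (t cos r, t sin r)`, `0 < r < π`, in the half plane `ρ > 0` (`polarCoord`, `lintegral_comp_polarCoord_symm`): `∫⁻ G = ∫⁻_θ ∫⁻_{0<r<π} ∫_0^1 t^n sin^(n-1) r F(pol r θ) dt dr`.
Divide by `∫_0^1 t^n dt = 1/(n+1)`.
-/

namespace Pool.Agent.H62.SS

open scoped RealInnerProductSpace MeasureTheory ENNReal NNReal
open MeasureTheory Set Metric
open Pool.Agent.H62.WS (E sg cst)

variable {n : ℕ}

theorem polar_E' {m : ℕ} (hm : 2 ≤ m) {G : E m → ℝ≥0∞} (hG : Measurable G) :
    ∫⁻ x, G x = ∫⁻ θ, (∫⁻ ρ in Ioi (0 : ℝ), ENNReal.ofReal (ρ ^ (m - 1)) * G (ρ • (θ : E m))) ∂sg m := by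
  have : Nontrivial (E m) :=
    Module.nontrivial_of_finrank_pos (R := ℝ) (by rw [finrank_euclideanSpace_fin]; omega)
  have h1 : ∫⁻ x, G x = ∫⁻ x : ({(0 : E m)}ᶜ : Set (E m)), G x.1
      ∂(Measure.comap Subtype.val (volume : Measure (E m))) := by
    rw [lintegral_subtype_comap (measurableSet_singleton _).compl, restrict_compl_singleton]
  have hf : Measurable (fun z : sphere (0 : E m) 1 × Ioi (0 : ℝ) => G ((z.2 : ℝ) • (z.1 : E m))) := by
    apply hG.comp
    exact (measurable_subtype_coe.comp measurable_snd).smul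
      (measurable_subtype_coe.comp measurable_fst)
  have h2 : ∫⁻ x : ({(0 : E m)}ᶜ : Set (E m)), G x.1
      ∂(Measure.comap Subtype.val (volume : Measure (E m)))
      = ∫⁻ z : sphere (0 : E m) 1 × Ioi (0 : ℝ), G ((z.2 : ℝ) • (z.1 : E m))
        ∂((sg m).prod (Measure.volumeIoiPow (m - 1))) := by
    have h3 := ((volume : Measure (E m)).measurePreserving_homeomorphUnitSphereProd).lintegral_comp hf
    rw [finrank_euclideanSpace_fin] at h3
    unfold sg
    rw [← h3]
    apply lintegral_congr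
    intro x
    congr 1
    have hx : (x : E m) ≠ 0 := x.2
    have hx' : ‖(x : E m)‖ ≠ 0 := norm_ne_zero_iff.mpr hx
    rw [homeomorphUnitSphereProd_apply_snd_coe, homeomorphUnitSphereProd_apply_fst_coe, smul_smul,
      mul_inv_cancel₀ hx', one_smul]
  rw [h1, h2, lintegral_prod _ hf.aemeasurable]
  apply lintegral_congr
  intro θ
  have hg : Measurable (fun ρ : Ioi (0 : ℝ) => G ((ρ : ℝ) • (θ : E m))) :=
    hG.comp (measurable_subtype_coe.smul_const _)
  have hd : Measurable (fun r : Ioi (0 : ℝ) => ENNReal.ofReal ((r : ℝ) ^ (m - 1))) :=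
    (measurable_subtype_coe.pow_const _).ennreal_ofReal
  unfold Measure.volumeIoiPow
  rw [lintegral_withDensity_eq_lintegral_mul _ hd hg]
  exact lintegral_subtype_comap measurableSet_Ioi
    (fun ρ : ℝ => ENNReal.ofReal (ρ ^ (m - 1)) * G (ρ • (θ : E m)))

theorem measurable_nrm : Measurable (nrm : E (n + 1) → Sp n) := by
  have hg : Measurable (fun z : E (n + 1) => if z = 0 then e0 n else ‖z‖⁻¹ • z) :=
    Measurable.ite (measurableSet_singleton 0) measurable_const
      (measurable_norm.inv.smul measurable_id)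
  have h : (fun z => ((nrm z : Sp n) : E (n + 1))) =
      fun z => if z = 0 then e0 n else ‖z‖⁻¹ • z := by
    funext z
    by_cases hz : z = 0
    · simp [nrm, hz, nor]
    · rw [coe_nrm hz, if_neg hz]
  have hemb : MeasurableEmbedding (fun x : Sp n => (x : E (n + 1))) :=
    MeasurableEmbedding.subtype_coe isClosed_sphere.measurableSet
  rw [← hemb.measurable_comp_iff]
  have h2 : (fun x : Sp n => (x : E (n + 1))) ∘ nrm = fun z => if z = 0 then e0 n else ‖z‖⁻¹ • z := h
  rw [h2]
  exact hg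

theorem lintegral_E_succ {G : E (n + 1) → ℝ≥0∞} (hG : Measurable G) :
    ∫⁻ z, G z = ∫⁻ a : ℝ, ∫⁻ y : E n, G (a • e0 n + inc n y) := by
  have h1 : ∫⁻ z, G z = ∫⁻ z : Fin (n + 1) → ℝ, G (WithLp.toLp 2 z) :=
    ((PiLp.volume_preserving_toLp (Fin (n + 1))).lintegral_comp hG).symm
  have hG1 : Measurable (fun z : Fin (n + 1) → ℝ => G (WithLp.toLp 2 z)) :=
    hG.comp (PiLp.volume_preserving_toLp (Fin (n + 1))).measurable
  have h2 := ((volume_preserving_piFinSuccAbove (fun _ : Fin (n + 1) => ℝ) 0).symm).lintegral_comp hG1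
  have hm2 : Measurable (fun z : ℝ × (Fin n → ℝ) =>
      G (WithLp.toLp 2 ((MeasurableEquiv.piFinSuccAbove (fun _ : Fin (n + 1) => ℝ) 0).symm z))) :=
    hG1.comp (MeasurableEquiv.measurable _)
  rw [h1, ← h2, Measure.volume_eq_prod]
  rw [lintegral_prod _ hm2.aemeasurable]
  apply lintegral_congr
  intro a
  have hm3 : Measurable (fun y : E n => G (a • e0 n + inc n y)) :=
    hG.comp (measurable_const.add (inc n).continuous.measurable)
  rw [← (PiLp.volume_preserving_toLp (Fin n)).lintegral_comp hm3]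
  apply lintegral_congr
  intro y
  congr 1
  ext i
  refine Fin.cases ?_ (fun j => ?_) i
  · simp
  · simp

theorem lintegral_half_plane {f : ℝ × ℝ → ℝ≥0∞} (hf : Measurable f) :
    ∫⁻ a : ℝ, ∫⁻ ρ in Ioi (0 : ℝ), f (a, ρ) =
      ∫⁻ t in Ioi (0 : ℝ), ∫⁻ r in Ioo 0 Real.pi,
        ENNReal.ofReal t * f (t * Real.cos r, t * Real.sin r) := by
  let g : ℝ × ℝ → ℝ≥0∞ := {p : ℝ × ℝ | 0 < p.2}.indicator f
  have hgm : Measurable g := hf.indicator (measurableSet_lt measurable_const measurable_snd)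
  have h1 : ∫⁻ a : ℝ, ∫⁻ ρ in Ioi (0 : ℝ), f (a, ρ) = ∫⁻ p : ℝ × ℝ, g p := by
    rw [Measure.volume_eq_prod, lintegral_prod _ hgm.aemeasurable]
    apply lintegral_congr
    intro a
    rw [← lintegral_indicator measurableSet_Ioi]
    apply lintegral_congr
    intro ρ
    by_cases h : 0 < ρ
    · have h' : ρ ∈ Ioi (0 : ℝ) := h
      have h'' : ((a, ρ) : ℝ × ℝ) ∈ {p : ℝ × ℝ | 0 < p.2} := h
      simp only [g]
      rw [indicator_of_mem h', indicator_of_mem h'']
    · have h' : ρ ∉ Ioi (0 : ℝ) := h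
      have h'' : ((a, ρ) : ℝ × ℝ) ∉ {p : ℝ × ℝ | 0 < p.2} := h
      simp only [g]
      rw [indicator_of_notMem h', indicator_of_notMem h'']
  rw [h1, ← lintegral_comp_polarCoord_symm g]
  have h2 : polarCoord.target = Ioi (0 : ℝ) ×ˢ Ioo (-Real.pi) Real.pi := rfl
  have hm2 : Measurable (fun p : ℝ × ℝ => ENNReal.ofReal p.1 •
      g (p.1 * Real.cos p.2, p.1 * Real.sin p.2)) := by
    simp only [smul_eq_mul]
    refine (measurable_fst.ennreal_ofReal).mul (hgm.comp ?_)
    exact (measurable_fst.mul (Real.measurable_cos.comp measurable_snd)).prodMk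
      (measurable_fst.mul (Real.measurable_sin.comp measurable_snd))
  have h3 : ∀ p : ℝ × ℝ, polarCoord.symm p = (p.1 * Real.cos p.2, p.1 * Real.sin p.2) :=
    fun p => rfl
  simp only [h3]
  rw [h2, Measure.volume_eq_prod, ← Measure.prod_restrict, lintegral_prod _ hm2.aemeasurable]
  apply setLIntegral_congr_fun measurableSet_Ioi
  intro t ht
  have ht' : (0 : ℝ) < t := ht
  have h4 : ∀ r ∈ Ioo (-Real.pi) Real.pi, ENNReal.ofReal t • g (t * Real.cos r, t * Real.sin r) =
      (Ioo 0 Real.pi).indicator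
        (fun r => ENNReal.ofReal t * f (t * Real.cos r, t * Real.sin r)) r := by
    intro r hr
    by_cases h : 0 < r
    · have h' : r ∈ Ioo 0 Real.pi := ⟨h, hr.2⟩
      have h'' : ((t * Real.cos r, t * Real.sin r) : ℝ × ℝ) ∈ {p : ℝ × ℝ | 0 < p.2} :=
        mul_pos ht' (Real.sin_pos_of_pos_of_lt_pi h hr.2)
      simp only [g]
      rw [indicator_of_mem h', indicator_of_mem h'']
      rfl
    · have h' : r ∉ Ioo 0 Real.pi := fun h2 => h h2.1
      have h'' : ((t * Real.cos r, t * Real.sin r) : ℝ × ℝ) ∉ {p : ℝ × ℝ | 0 < p.2} := by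
        intro h2
        have h3 : 0 < t * Real.sin r := h2
        have h5 := Real.sin_nonpos_of_nonpos_of_neg_pi_le (not_lt.1 h) hr.1.le
        nlinarith
      simp only [g]
      rw [indicator_of_notMem h', indicator_of_notMem h'', smul_zero]
  simp only
  rw [setLIntegral_congr_fun measurableSet_Ioo h4, lintegral_indicator measurableSet_Ioo,
    Measure.restrict_restrict measurableSet_Ioo]
  congr 2
  ext r
  constructor
  · intro h
    exact h.1
  · intro h
    exact ⟨h, by linarith [h.1, Real.pi_pos], h.2⟩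

theorem measurable_pol_swap :
    Measurable (fun q : sphere (0 : E n) 1 × ℝ => pol q.2 q.1) := by
  have h := (continuous_pol (n := n)).measurable
  have h2 : Measurable (fun q : sphere (0 : E n) 1 × ℝ => (q.2, q.1)) :=
    measurable_snd.prodMk measurable_fst
  have h3 := h.comp h2
  exact h3

theorem lintegral_sg (hn : 2 ≤ n) {F : Sp n → ℝ≥0∞} (hF : Measurable F) :
    ∫⁻ p, F p ∂sg (n + 1) =
      ∫⁻ θ, (∫⁻ r in Ioo 0 Real.pi, ENNReal.ofReal (Real.sin r ^ (n - 1)) * F (pol r θ)) ∂sg n := by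
  let w : ℝ → ℝ≥0∞ := (Iio (1 : ℝ)).indicator 1
  have hw : Measurable w := measurable_one.indicator measurableSet_Iio
  let W : ℝ≥0∞ := ∫⁻ ρ in Ioi (0 : ℝ), ENNReal.ofReal (ρ ^ n) * w ρ
  have hpw : Measurable (fun ρ : ℝ => ENNReal.ofReal (ρ ^ n) * w ρ) :=
    ((measurable_id.pow_const n).ennreal_ofReal).mul hw
  have hW : W = ∫⁻ ρ in Ioo (0 : ℝ) 1, ENNReal.ofReal (ρ ^ n) := by
    have h1 : ∀ ρ ∈ Ioi (0 : ℝ), ENNReal.ofReal (ρ ^ n) * w ρ =
        (Iio (1 : ℝ)).indicator (fun ρ => ENNReal.ofReal (ρ ^ n)) ρ := by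
      intro ρ _
      by_cases h : ρ ∈ Iio (1 : ℝ)
      · simp only [w]
        rw [indicator_of_mem h, indicator_of_mem h, Pi.one_apply, mul_one]
      · simp only [w]
        rw [indicator_of_notMem h, indicator_of_notMem h, mul_zero]
    simp only [W]
    rw [setLIntegral_congr_fun measurableSet_Ioi h1, lintegral_indicator measurableSet_Iio,
      Measure.restrict_restrict measurableSet_Iio]
    congr 2
    ext ρ
    exact ⟨fun h => ⟨h.2, h.1⟩, fun h => ⟨h.2, h.1⟩⟩
  have hW0 : W ≠ 0 := by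
    rw [hW]
    apply ne_of_gt
    have hm0 : Measurable (fun ρ : ℝ => ENNReal.ofReal (ρ ^ n)) :=
      (measurable_id.pow_const n).ennreal_ofReal
    rw [setLIntegral_pos_iff hm0]
    have : (Function.support fun ρ : ℝ => ENNReal.ofReal (ρ ^ n)) ∩ Ioo (0 : ℝ) 1 = Ioo 0 1 := by
      apply inter_eq_right.2
      intro ρ hρ
      rw [Function.mem_support, Ne, ENNReal.ofReal_eq_zero, not_le]
      exact pow_pos hρ.1 n
    rw [this, Real.volume_Ioo]
    simp
  have hWt : W ≠ ∞ := by
    rw [hW]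
    have h1 : ∫⁻ ρ in Ioo (0 : ℝ) 1, ENNReal.ofReal (ρ ^ n) ≤ ∫⁻ ρ in Ioo (0 : ℝ) 1, 1 := by
      apply setLIntegral_mono measurable_const
      intro ρ hρ
      rw [ENNReal.ofReal_le_one]
      exact pow_le_one₀ hρ.1.le hρ.2.le
    rw [setLIntegral_one, Real.volume_Ioo] at h1
    exact ne_top_of_le_ne_top ENNReal.ofReal_ne_top h1
  let G : E (n + 1) → ℝ≥0∞ := fun z => F (nrm z) * w ‖z‖
  have hG : Measurable G := (hF.comp measurable_nrm).mul (hw.comp measurable_norm)
  have hGs : ∀ {t : ℝ}, 0 < t → ∀ p : Sp n, G (t • (p : E (n + 1))) = F p * w t := by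
    intro t ht p
    simp only [G]
    rw [nrm_smul ht, nrm_coe, norm_smul, norm_coe, mul_one, Real.norm_of_nonneg ht.le]
  have hA : ∫⁻ z, G z = (∫⁻ p, F p ∂sg (n + 1)) * W := by
    rw [polar_E' (by omega) hG, ← lintegral_mul_const _ hF]
    apply lintegral_congr
    intro p
    simp only [W]
    rw [← lintegral_const_mul _ hpw]
    apply setLIntegral_congr_fun measurableSet_Ioi
    intro ρ hρ
    simp only [Nat.add_sub_cancel]
    rw [hGs hρ p]
    ring
  have hB : ∫⁻ z, G z = (∫⁻ θ, (∫⁻ r in Ioo 0 Real.pi,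
      ENNReal.ofReal (Real.sin r ^ (n - 1)) * F (pol r θ)) ∂sg n) * W := by
    rw [lintegral_E_succ hG]
    have h1 : ∀ a : ℝ, ∫⁻ y : E n, G (a • e0 n + inc n y) =
        ∫⁻ θ, (∫⁻ ρ in Ioi (0 : ℝ), ENNReal.ofReal (ρ ^ (n - 1)) *
          G (a • e0 n + inc n (ρ • (θ : E n)))) ∂sg n := by
      intro a
      exact polar_E' hn (hG.comp (measurable_const.add (inc n).continuous.measurable))
    simp only [h1]
    have hm3 : Measurable (fun q : (ℝ × sphere (0 : E n) 1) × ℝ =>
        ENNReal.ofReal (q.2 ^ (n - 1)) * G (q.1.1 • e0 n + inc n (q.2 • (q.1.2 : E n)))) := by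
      refine ((measurable_snd.pow_const _).ennreal_ofReal).mul (hG.comp ?_)
      refine Measurable.add ?_ ?_
      · exact (measurable_fst.comp measurable_fst).smul_const _
      · exact (inc n).continuous.measurable.comp
          (measurable_snd.smul (measurable_subtype_coe.comp (measurable_snd.comp measurable_fst)))
    have hm4 : Measurable (fun q : ℝ × sphere (0 : E n) 1 => ∫⁻ ρ in Ioi (0 : ℝ),
        ENNReal.ofReal (ρ ^ (n - 1)) * G (q.1 • e0 n + inc n (ρ • (q.2 : E n)))) :=
      hm3.lintegral_prod_right'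
    rw [lintegral_lintegral_swap hm4.aemeasurable]
    have hm5 : Measurable (fun θ : sphere (0 : E n) 1 => ∫⁻ r in Ioo 0 Real.pi,
        ENNReal.ofReal (Real.sin r ^ (n - 1)) * F (pol r θ)) := by
      have : Measurable (fun q : sphere (0 : E n) 1 × ℝ =>
          ENNReal.ofReal (Real.sin q.2 ^ (n - 1)) * F (pol q.2 q.1)) := by
        refine (((Real.measurable_sin.comp measurable_snd).pow_const _).ennreal_ofReal).mul
          (hF.comp ?_)
        exact measurable_pol_swap
      exact this.lintegral_prod_right'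
    rw [← lintegral_mul_const _ hm5]
    apply lintegral_congr
    intro θ
    have hm6 : Measurable (fun q : ℝ × ℝ =>
        ENNReal.ofReal (q.2 ^ (n - 1)) * G (q.1 • e0 n + inc n (q.2 • (θ : E n)))) := by
      refine ((measurable_snd.pow_const _).ennreal_ofReal).mul (hG.comp ?_)
      refine Measurable.add ?_ ?_
      · exact measurable_fst.smul_const _
      · exact (inc n).continuous.measurable.comp (measurable_snd.smul_const _)
    rw [lintegral_half_plane hm6]
    have hm7 : Measurable (fun r : ℝ => ENNReal.ofReal (Real.sin r ^ (n - 1)) * F (pol r θ)) :=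
      ((Real.measurable_sin.pow_const _).ennreal_ofReal).mul
        (hF.comp (continuous_pol_left θ).measurable)
    simp only [W]
    rw [mul_comm, ← lintegral_mul_const _ hpw]
    apply setLIntegral_congr_fun measurableSet_Ioi
    intro t ht
    have ht' : (0 : ℝ) < t := ht
    simp only
    rw [← lintegral_const_mul _ hm7]
    apply setLIntegral_congr_fun measurableSet_Ioo
    intro r hr
    have hs := Real.sin_pos_of_pos_of_lt_pi hr.1 hr.2
    have he : (t * Real.cos r) • e0 n + inc n ((t * Real.sin r) • (θ : E n)) =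
        t • ((pol r θ : Sp n) : E (n + 1)) := by
      rw [pol_coe, smul_add, smul_smul, smul_smul, map_smul]
    simp only
    rw [he, hGs ht', mul_pow, ENNReal.ofReal_mul (by positivity)]
    have hn1 : t ^ n = t * t ^ (n - 1) := by
      rw [← pow_succ']
      congr 1
      omega
    rw [hn1, ENNReal.ofReal_mul ht'.le]
    ring
  have hAB := hA.symm.trans hB
  exact (ENNReal.mul_left_inj hW0 hWt).1 hAB

end Pool.Agent.H62.SS
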