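import Pool.Agent.H62.WS.Polar

set_option autoImplicit false

/-!
# [H62 SS PROFD] The radial functions and the comparison profile (definitions)

(definitions only)
-/

namespace Pool.Agent.H62.SS

open scoped RealInnerProductSpace MeasureTheory ENNReal NNReal
open MeasureTheory Set Metric
open Pool.Agent.H62.WS (E sg cst)

variable {n : ℕ}

/-- `∫_0^r sin^N` -/
noncomputable def VS (N : ℕ) (r : ℝ) : ℝ := ∫ t in (0 : ℝ)..r, Real.sin t ^ N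

/-- `f = V/sin^N` -/
noncomputable def fS (N : ℕ) (r : ℝ) : ℝ := VS N r / Real.sin r ^ N

/-- `g = f'/f = sin^N/V - N cot r`, the first Steklov eigenvalue of the ball of radius `r` -/
noncomputable def gS (N : ℕ) (r : ℝ) : ℝ :=
  Real.sin r ^ N / VS N r - N * (Real.cos r / Real.sin r)

/-- the radial function `F(r) = H(cos r) sin r` -/
noncomputable def Fp (H : ℝ → ℝ) (r : ℝ) : ℝ := H (Real.cos r) * Real.sin r

/-- its derivative -/
noncomputable def Fp' (H : ℝ → ℝ) (r : ℝ) : ℝ :=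
  H (Real.cos r) * Real.cos r - deriv H (Real.cos r) * Real.sin r ^ 2

/-- the energy density `h = F'^2 + N F^2/sin^2` -/
noncomputable def hp (N : ℕ) (H : ℝ → ℝ) (r : ℝ) : ℝ := Fp' H r ^ 2 + N * H (Real.cos r) ^ 2

/-- the functional of one direction -/
noncomputable def AA (N : ℕ) (γ m κ r₀ : ℝ) (H : ℝ → ℝ) (ρ : ℝ) : ℝ :=
  if r₀ ≤ ρ then (γ * Fp H ρ ^ 2 - m) * Real.sin ρ ^ N -
    ∫ t in (0 : ℝ)..ρ, (hp N H t - κ) * Real.sin t ^ N
  else -(∫ t in ρ..r₀, 2 * γ * Fp H t * Fp' H t * Real.sin t ^ N) -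
    ∫ t in (0 : ℝ)..ρ, (hp N H t - κ) * Real.sin t ^ N

/-- the comparison profile for the ball of radius `R` -/
structure Prof (N : ℕ) (R γ m κ r₀ : ℝ) (H : ℝ → ℝ) : Prop where
  contDiff : ContDiff ℝ 1 H
  pos : ∀ c ∈ Icc (-1 : ℝ) 1, 0 < H c
  gam_pos : 0 < γ
  m_pos : 0 < m
  kap_nonneg : 0 ≤ κ
  r0_pos : 0 < r₀
  r0_le : r₀ ≤ Real.pi / 2
  zero : γ * Fp H r₀ ^ 2 = m
  mono : ∀ t ∈ Ioo 0 r₀, 0 ≤ Fp' H t
  ge : ∀ t ∈ Icc r₀ (Real.pi / 2), m ≤ γ * Fp H t ^ 2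
  eq : AA N γ m κ r₀ H R = -m * Real.sin R ^ N + κ * VS N R
  strict : ∀ ρ ∈ Icc 0 (Real.pi / 2), ρ ≠ R →
    -m * Real.sin R ^ N + κ * VS N R < AA N γ m κ r₀ H ρ

end Pool.Agent.H62.SS
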