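import Pool.Agent.H62.SS.Balls
import Pool.Agent.H62.SS.ActB
import Pool.Agent.H62.SS.PolarS
import Pool.Agent.H62.SS.ProfD
import Pool.Agent.H62.SS.Ode1

set_option autoImplicit false

/-!
# [H62 SS VOLBALL] The volume of geodesic balls

`p = nor n` by `exists_act`, `act_gball`, `sg_act_image`; `lintegral_sg` for the indicator (`pol_mem_gball`), `∫⁻ r in Ioo 0 R, ofReal (sin r ^ N) = ofReal (VS N R)` (`ofReal_integral_eq_lintegral_ofReal`, interval integral as a set
integral; `sin ≥ 0` on `[0,π]`).  `sg_gsph`: the difference of the two (the inner integral over the single radius `r = R` is zero).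
-/

namespace Pool.Agent.H62.SS

open scoped RealInnerProductSpace MeasureTheory ENNReal NNReal
open MeasureTheory Set Metric
open Pool.Agent.H62.WS (E sg cst)

variable {n : ℕ}

theorem sg_radial (hn : 2 ≤ n) {S : Set ℝ} (hS : MeasurableSet S) :
    sg (n + 1) {p : Sp n | rad p ∈ S} =
      (∫⁻ r in Ioo 0 Real.pi ∩ S, ENNReal.ofReal (Real.sin r ^ (n - 1))) * sg n univ := by
  have hm : MeasurableSet {p : Sp n | rad p ∈ S} := continuous_rad.measurable hS
  rw [← lintegral_indicator_one hm, lintegral_sg hn (measurable_one.indicator hm),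
    ← lintegral_const]
  apply lintegral_congr
  intro θ
  have h1 : ∀ r ∈ Ioo 0 Real.pi, ENNReal.ofReal (Real.sin r ^ (n - 1)) *
      ({p : Sp n | rad p ∈ S}.indicator 1 (pol r θ) : ℝ≥0∞) =
      S.indicator (fun r => ENNReal.ofReal (Real.sin r ^ (n - 1))) r := by
    intro r hr
    by_cases h : r ∈ S
    · have h2 : pol r θ ∈ {p : Sp n | rad p ∈ S} := by
        rw [mem_setOf_eq, rad_pol hr.1.le hr.2.le]
        exact h
      rw [indicator_of_mem h, indicator_of_mem h2, Pi.one_apply, mul_one]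
    · have h2 : pol r θ ∉ {p : Sp n | rad p ∈ S} := by
        rw [mem_setOf_eq, rad_pol hr.1.le hr.2.le]
        exact h
      rw [indicator_of_notMem h, indicator_of_notMem h2, mul_zero]
  rw [setLIntegral_congr_fun measurableSet_Ioo h1, lintegral_indicator hS,
    Measure.restrict_restrict hS, inter_comm]

theorem lintegral_sin (N : ℕ) {R : ℝ} (h0 : 0 ≤ R) (h1 : R ≤ Real.pi) :
    ∫⁻ r in Ioc 0 R, ENNReal.ofReal (Real.sin r ^ N) = ENNReal.ofReal (VS N R) := by
  unfold VS
  rw [intervalIntegral.integral_of_le h0, ofReal_integral_eq_lintegral_ofReal]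
  · have hc : Continuous fun t : ℝ => Real.sin t ^ N := Real.continuous_sin.pow N
    exact (hc.integrableOn_Icc).mono_set Ioc_subset_Icc_self
  · filter_upwards [ae_restrict_mem measurableSet_Ioc] with r hr
    exact pow_nonneg (Real.sin_nonneg_of_nonneg_of_le_pi hr.1.le (hr.2.trans h1)) _

theorem sg_gball (hn : 2 ≤ n) (p : Sp n) {R : ℝ} (h0 : 0 ≤ R) (h1 : R ≤ Real.pi) :
    sg (n + 1) (gball p R) = ENNReal.ofReal (VS (n - 1) R) * sg n univ := by
  obtain ⟨Φ, rfl⟩ := exists_act (nor n) p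
  rw [← act_gball, sg_act_image]
  have h2 : gball (nor n) R = {p : Sp n | rad p ∈ Iio R} := by
    ext p
    exact mem_gball_nor h0 h1 p
  have h3 : Ioo 0 Real.pi ∩ Iio R = Ioo 0 R := by
    ext r
    simp only [mem_inter_iff, mem_Ioo, mem_Iio]
    constructor
    · rintro ⟨⟨h, _⟩, h'⟩
      exact ⟨h, h'⟩
    · rintro ⟨h, h'⟩
      exact ⟨⟨h, h'.trans_le h1⟩, h'⟩
  rw [h2, sg_radial hn measurableSet_Iio, h3, ← lintegral_sin _ h0 h1,
    setLIntegral_congr Ioo_ae_eq_Ioc]

theorem sg_cball (hn : 2 ≤ n) (p : Sp n) {R : ℝ} (h0 : 0 ≤ R) (h1 : R < Real.pi) :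
    sg (n + 1) (cball p R) = ENNReal.ofReal (VS (n - 1) R) * sg n univ := by
  obtain ⟨Φ, rfl⟩ := exists_act (nor n) p
  rw [← act_cball, sg_act_image]
  have h2 : cball (nor n) R = {p : Sp n | rad p ∈ Iic R} := by
    ext p
    exact mem_cball_nor h0 h1.le p
  have h3 : Ioo 0 Real.pi ∩ Iic R = Ioc 0 R := by
    ext r
    simp only [mem_inter_iff, mem_Ioo, mem_Iic, mem_Ioc]
    constructor
    · rintro ⟨⟨h, _⟩, h'⟩
      exact ⟨h, h'⟩
    · rintro ⟨h, h'⟩
      exact ⟨⟨h, h'.trans_lt h1⟩, h'⟩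
  rw [h2, sg_radial hn measurableSet_Iic, h3, ← lintegral_sin _ h0 h1.le]

theorem sg_gsph (hn : 2 ≤ n) (p : Sp n) (R : ℝ) : sg (n + 1) (gsph p R) = 0 := by
  obtain ⟨Φ, rfl⟩ := exists_act (nor n) p
  rw [← act_gsph, sg_act_image]
  have h2 : gsph (nor n) R ⊆ {p : Sp n | rad p ∈ ({Real.arccos (Real.cos R)} : Set ℝ)} := by
    intro p hp
    simp only [gsph, mem_setOf_eq] at hp
    rw [inner_nor] at hp
    rw [mem_setOf_eq, mem_singleton_iff, ← hp]
    rfl
  refine measure_mono_null h2 ?_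
  rw [sg_radial hn (measurableSet_singleton _)]
  have h3 : volume (Ioo 0 Real.pi ∩ {Real.arccos (Real.cos R)}) = 0 :=
    measure_mono_null inter_subset_right Real.volume_singleton
  rw [Measure.restrict_eq_zero.2 h3, lintegral_zero_measure, zero_mul]

theorem sg_pos_of_isOpen (hn : 1 ≤ n) {U : Set (sphere (0 : E n) 1)} (hU : IsOpen U)
    (hne : U.Nonempty) : 0 < sg n U := by
  have : (sg n).IsOpenPosMeasure := by
    unfold sg
    infer_instance
  exact hU.measure_pos _ hne

theorem VS_strictMono (N : ℕ) : StrictMonoOn (VS N) (Icc 0 Real.pi) := by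
  exact VS_smono N

theorem continuous_VS (N : ℕ) : Continuous (VS N) := by
  exact VS_cont N

end Pool.Agent.H62.SS
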