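import Pool.Agent.H62.SS.ActB

set_option autoImplicit false

/-!
# [H62 SS SIGINV] `sigma1` is invariant under the linear isometries

`gradSq_comp`: `fderiv (u ∘ Φ) p = (fderiv u (Φ p)) ∘ Φ`, the operator norm is invariant under composition with the linear isometry `Φ`.  The integrals: `measurePreserving_act` (`MeasurePreserving.setIntegral_image_emb`/
`setIntegral_map`), and for `bs n` the isometry `act Φ` preserves `μHE` (see `setIntegral_bd_image` in H62/WS/SigInv.lean for the same argument).  `rayleigh_act`: `⊆` by composing with `Φ`, `⊇` by the inverse (H62/WS/SigInv.lean).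
-/

namespace Pool.Agent.H62.SS

open scoped RealInnerProductSpace MeasureTheory ENNReal NNReal
open MeasureTheory Set Metric
open Pool.Agent.H62.WS (E sg cst)

variable {n : ℕ}

theorem gradSq_comp (Φ : E (n + 1) ≃ₗᵢ[ℝ] E (n + 1)) {u : E (n + 1) → ℝ} (hu : ContDiff ℝ 1 u)
    (p : Sp n) : gradSq (fun x => u (Φ x)) p = gradSq u (act Φ p) := by
  have h0 : HasFDerivAt u (fderiv ℝ u (Φ p)) (Φ p) :=
    ((hu.differentiable one_ne_zero) (Φ p)).hasFDerivAt
  have h1 : fderiv ℝ (fun x => u (Φ x)) p =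
      (fderiv ℝ u (Φ p)).comp (Φ.toContinuousLinearEquiv : E (n + 1) →L[ℝ] E (n + 1)) := by
    have h2 : HasFDerivAt (fun x => Φ x) (Φ.toContinuousLinearEquiv : E (n + 1) →L[ℝ] E (n + 1))
        (p : E (n + 1)) := Φ.toContinuousLinearEquiv.hasFDerivAt
    exact (h0.comp (p : E (n + 1)) h2).fderiv
  unfold gradSq
  rw [h1]
  congr 2
  exact (fderiv ℝ u (Φ p)).opNorm_comp_linearIsometryEquiv Φ

theorem setIntegral_bs_act (Φ : E (n + 1) ≃ₗᵢ[ℝ] E (n + 1)) (A : Set (Sp n)) (u : Sp n → ℝ) :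
    ∫ p in act Φ '' A, u p ∂bs n = ∫ p in A, u (act Φ p) ∂bs n := by
  have h : MeasurePreserving (act Φ) (bs n) (bs n) :=
    (act Φ).measurePreserving_euclideanHausdorffMeasure (n - 1)
  exact h.setIntegral_image_emb (act Φ).toHomeomorph.measurableEmbedding u A

theorem setIntegral_sg_act (Φ : E (n + 1) ≃ₗᵢ[ℝ] E (n + 1)) (A : Set (Sp n)) (u : Sp n → ℝ) :
    ∫ p in act Φ '' A, u p ∂sg (n + 1) = ∫ p in A, u (act Φ p) ∂sg (n + 1) := by
  exact (measurePreserving_act Φ).setIntegral_image_emb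
    (act Φ).toHomeomorph.measurableEmbedding u A

theorem rayleigh_act_subset (Φ : E (n + 1) ≃ₗᵢ[ℝ] E (n + 1)) (Ω : Set (Sp n)) :
    rayleigh (act Φ '' Ω) ⊆ rayleigh Ω := by
  rintro t ⟨u, hu, h0, h1, rfl⟩
  refine ⟨fun x => u (Φ x), hu.comp Φ.toContinuousLinearEquiv.contDiff, ?_, ?_, ?_⟩
  · rw [← act_frontier, setIntegral_bs_act] at h0
    exact h0
  · rw [← act_frontier, setIntegral_bs_act] at h1
    exact h1
  · rw [← act_frontier, setIntegral_bs_act, setIntegral_sg_act]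
    simp only [gradSq_comp Φ hu]
    rfl

theorem act_symm_image (Φ : E (n + 1) ≃ₗᵢ[ℝ] E (n + 1)) (Ω : Set (Sp n)) :
    act Φ.symm '' (act Φ '' Ω) = Ω := by
  rw [← image_comp]
  have : (act Φ.symm : Sp n → Sp n) ∘ act Φ = id := by
    ext p : 1
    exact act_symm_act Φ p
  rw [this, image_id]

theorem rayleigh_act (Φ : E (n + 1) ≃ₗᵢ[ℝ] E (n + 1)) (Ω : Set (Sp n)) :
    rayleigh (act Φ '' Ω) = rayleigh Ω := by
  apply (rayleigh_act_subset Φ Ω).antisymm
  have h2 := rayleigh_act_subset Φ.symm (act Φ '' Ω)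
  rwa [act_symm_image] at h2

theorem sigma1_act (Φ : E (n + 1) ≃ₗᵢ[ℝ] E (n + 1)) (Ω : Set (Sp n)) :
    sigma1 (act Φ '' Ω) = sigma1 Ω := by
  unfold sigma1
  rw [rayleigh_act]

end Pool.Agent.H62.SS
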