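import Pool.Agent.H62.SS.Act

set_option autoImplicit false

/-!
# [H62 SS RAY] The set of the Rayleigh quotients

`gradSq_nonneg`: `|Du(p) p| ≤ ‖Du(p)‖`.  `rayleigh_nonempty`: for a coordinate `i` let `m_i` be the mean of `x_i` over `frontier Ω` (finite measure) and `u = x_i - m_i`; if `∫ u² = 0` for every `i` then `frontier Ω` is up to a null set one point, but points are null for `μHE[n-1]`, `n ≥ 2`
(see `rayleigh_nonempty` in H62/WS/Final.lean).
-/

namespace Pool.Agent.H62.SS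

open scoped RealInnerProductSpace MeasureTheory ENNReal NNReal
open MeasureTheory Set Metric
open Pool.Agent.H62.WS (E sg cst)

variable {n : ℕ}

theorem gradSq_nonneg (u : E (n + 1) → ℝ) (p : Sp n) : 0 ≤ gradSq u p := by
  unfold gradSq
  have h1 := (fderiv ℝ u (p : E (n + 1))).le_opNorm (p : E (n + 1))
  rw [norm_coe, mul_one, Real.norm_eq_abs] at h1
  have h2 := pow_le_pow_left₀ (abs_nonneg _) h1 2
  rw [sq_abs] at h2
  linarith

theorem continuous_gradSq {u : E (n + 1) → ℝ} (hu : ContDiff ℝ 1 u) :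
    Continuous (gradSq (n := n) u) := by
  have hc : Continuous (fun p : Sp n => fderiv ℝ u (p : E (n + 1))) :=
    (hu.continuous_fderiv one_ne_zero).comp continuous_subtype_val
  unfold gradSq
  exact (hc.norm.pow 2).sub ((hc.clm_apply continuous_subtype_val).pow 2)

theorem rayleigh_nonneg {Ω : Set (Sp n)} {t : ℝ} (ht : t ∈ rayleigh Ω) : 0 ≤ t := by
  obtain ⟨u, _, _, h1, rfl⟩ := ht
  exact div_nonneg (integral_nonneg fun p => gradSq_nonneg u p) h1.le

theorem bddBelow_rayleigh (Ω : Set (Sp n)) : BddBelow (rayleigh Ω) :=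
  ⟨0, fun _ ht => rayleigh_nonneg ht⟩

theorem sigma1_nonneg (Ω : Set (Sp n)) : 0 ≤ sigma1 Ω :=
  Real.sInf_nonneg fun _ ht => rayleigh_nonneg ht

theorem bs_singleton (hn : 2 ≤ n) (p : Sp n) : bs n {p} = 0 := by
  unfold bs
  rw [Measure.euclideanHausdorffMeasure_def]
  have : NullSingletonClass (μH[((n - 1 : ℕ) : ℝ)] : Measure (Sp n)) := by
    apply Measure.nullSingletonClass_hausdorff
    have h1 : 0 < n - 1 := by omega
    exact_mod_cast h1
  rw [Measure.smul_apply, measure_singleton, smul_zero]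

theorem rayleigh_nonempty (hn : 2 ≤ n) {Ω : Set (Sp n)} (h0 : 0 < bs n (frontier Ω))
    (h1 : bs n (frontier Ω) < ∞) : (rayleigh Ω).Nonempty := by
  have hfm : IsFiniteMeasure ((bs n).restrict (frontier Ω)) :=
    ⟨by rw [Measure.restrict_apply_univ]; exact h1⟩
  set μ := (bs n).restrict (frontier Ω) with hμ
  have hμ0 : 0 < μ univ := by
    rw [hμ, Measure.restrict_apply_univ]
    exact h0
  have hμr : 0 < μ.real univ := ENNReal.toReal_pos hμ0.ne' (measure_ne_top _ _)
  have hc : ∀ i : Fin (n + 1), Continuous (fun p : Sp n => (p : E (n + 1)) i) := fun i =>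
    (EuclideanSpace.proj (𝕜 := ℝ) i).continuous.comp continuous_subtype_val
  have hint : ∀ {g : Sp n → ℝ}, Continuous g → Integrable g μ := fun hg =>
    hg.integrable_of_hasCompactSupport (HasCompactSupport.of_compactSpace _)
  let m : Fin (n + 1) → ℝ := fun i => (∫ p, (p : E (n + 1)) i ∂μ) / μ.real univ
  let u : Fin (n + 1) → E (n + 1) → ℝ := fun i z => z i - m i
  have hu : ∀ i, ContDiff ℝ 1 (u i) := fun i =>
    ((EuclideanSpace.proj (𝕜 := ℝ) i).contDiff).sub contDiff_const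
  have hu0 : ∀ i, ∫ p, u i ((p : Sp n) : E (n + 1)) ∂μ = 0 := by
    intro i
    simp only [u]
    rw [integral_sub (hint (hc i)) (integrable_const _), integral_const, smul_eq_mul]
    simp only [m]
    rw [mul_div_cancel₀ _ hμr.ne', sub_self]
  by_contra hcon
  have hall : ∀ i, ∫ p, u i ((p : Sp n) : E (n + 1)) ^ 2 ∂μ = 0 := by
    intro i
    by_contra hi
    have hpos : 0 < ∫ p, u i ((p : Sp n) : E (n + 1)) ^ 2 ∂μ :=
      lt_of_le_of_ne (integral_nonneg fun p => sq_nonneg _) (Ne.symm hi)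
    exact hcon ⟨_, u i, hu i, hu0 i, hpos, rfl⟩
  have hae : ∀ i, ∀ᵐ p ∂μ, ((p : Sp n) : E (n + 1)) i = m i := by
    intro i
    have h2 : Continuous (fun p : Sp n => u i (p : E (n + 1)) ^ 2) :=
      ((hc i).sub continuous_const).pow 2
    have h3 := (integral_eq_zero_iff_of_nonneg (fun p => sq_nonneg _) (hint h2)).1 (hall i)
    filter_upwards [h3] with p hp
    have h4 : (((p : Sp n) : E (n + 1)) i - m i) ^ 2 = 0 := hp
    exact sub_eq_zero.1 (pow_eq_zero_iff two_ne_zero |>.1 h4)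
  have hall2 : ∀ᵐ p ∂μ, ∀ i, ((p : Sp n) : E (n + 1)) i = m i := ae_all_iff.2 hae
  have hne : ∃ p : Sp n, ∀ i, ((p : Sp n) : E (n + 1)) i = m i := by
    have : NeZero μ := ⟨fun h => by rw [h] at hμ0; simp at hμ0⟩
    exact hall2.exists
  obtain ⟨p₀, hp₀⟩ := hne
  have hsub : ∀ᵐ p ∂μ, p = p₀ := by
    filter_upwards [hall2] with p hp
    ext i
    rw [hp i, hp₀ i]
  have h5 : μ {p₀}ᶜ = 0 := hsub
  have h6 : μ {p₀} = 0 := by
    rw [hμ]
    exact le_antisymm ((Measure.restrict_le_self _).trans (bs_singleton hn p₀).le) zero_le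
  have h7 := measure_union_le (μ := μ) {p₀} {p₀}ᶜ
  rw [union_compl_self, h5, h6, add_zero] at h7
  exact absurd h7 (not_le.2 hμ0)

end Pool.Agent.H62.SS
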