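import Pool.Agent.H62.SS.TestS
import Pool.Agent.H62.SS.RayS

set_option autoImplicit false

/-!
# [H62 SS UPPER] The Rayleigh bound with the test functions

For every `i`: `sigma1 Ω * ∫_{∂Ω} u_i² ≤ ∫_Ω gradSq u_i` (if `∫ u_i² > 0` the quotient belongs to `rayleigh Ω`, `csInf_le`, `bddBelow_rayleigh`; otherwise the left side is `0`).  Sum over `i` (`integral_finset_sum`; bounded continuous functions, finite measures), `sum_uH_sq`, `sum_gradSq_uH`.
-/

namespace Pool.Agent.H62.SS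

open scoped RealInnerProductSpace MeasureTheory ENNReal NNReal
open MeasureTheory Set Metric
open Pool.Agent.H62.WS (E sg cst)

variable {n : ℕ}

theorem sigma1_mul_le (hn : 2 ≤ n) {Ω : Set (Sp n)} (hfin : bs n (frontier Ω) < ∞) {H : ℝ → ℝ}
    (hH : ContDiff ℝ 1 H) (h0 : ∀ i : Fin n, ∫ p in frontier Ω, uH H i (p : E (n + 1)) ∂bs n = 0) :
    sigma1 Ω * ∫ p in frontier Ω, Fp H (rad p) ^ 2 ∂bs n ≤
      ∫ p in Ω, hp (n - 1) H (rad p) ∂sg (n + 1) := by
  have hfm : IsFiniteMeasure ((bs n).restrict (frontier Ω)) :=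
    ⟨by rw [Measure.restrict_apply_univ]; exact hfin⟩
  have hcont : ∀ i : Fin n, Continuous (fun p : Sp n => uH H i (p : E (n + 1))) := fun i =>
    (contDiff_uH hH i).continuous.comp continuous_subtype_val
  have hint : ∀ {g : Sp n → ℝ}, Continuous g → IntegrableOn g (frontier Ω) (bs n) := fun hg =>
    hg.integrable_of_hasCompactSupport (HasCompactSupport.of_compactSpace _)
  have hintv : ∀ {g : Sp n → ℝ}, Continuous g → IntegrableOn g Ω (sg (n + 1)) := fun hg =>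
    (hg.integrable_of_hasCompactSupport (HasCompactSupport.of_compactSpace _)).integrableOn
  have hi : ∀ i : Fin n, sigma1 Ω * ∫ p in frontier Ω, uH H i (p : E (n + 1)) ^ 2 ∂bs n ≤
      ∫ p in Ω, gradSq (uH H i) p ∂sg (n + 1) := by
    intro i
    by_cases hpos : 0 < ∫ p in frontier Ω, uH H i (p : E (n + 1)) ^ 2 ∂bs n
    · have h1 : sigma1 Ω ≤ (∫ p in Ω, gradSq (uH H i) p ∂sg (n + 1)) /
          ∫ p in frontier Ω, uH H i (p : E (n + 1)) ^ 2 ∂bs n :=
        csInf_le (bddBelow_rayleigh Ω) ⟨uH H i, contDiff_uH hH i, h0 i, hpos, rfl⟩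
      exact (le_div_iff₀ hpos).1 h1
    · have h1 : ∫ p in frontier Ω, uH H i (p : E (n + 1)) ^ 2 ∂bs n = 0 :=
        le_antisymm (not_lt.1 hpos) (integral_nonneg fun p => sq_nonneg _)
      rw [h1, mul_zero]
      exact integral_nonneg fun p => gradSq_nonneg _ _
  have hsum : ∑ i : Fin n, sigma1 Ω * ∫ p in frontier Ω, uH H i (p : E (n + 1)) ^ 2 ∂bs n ≤
      ∑ i : Fin n, ∫ p in Ω, gradSq (uH H i) p ∂sg (n + 1) := Finset.sum_le_sum fun i _ => hi i
  have e2 : ∫ p in frontier Ω, ∑ i : Fin n, uH H i (p : E (n + 1)) ^ 2 ∂bs n =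
      ∑ i : Fin n, ∫ p in frontier Ω, uH H i (p : E (n + 1)) ^ 2 ∂bs n :=
    integral_finsetSum _ fun i _ => hint ((hcont i).pow 2)
  have e3 : ∫ p in Ω, (∑ i : Fin n, gradSq (uH H i) p) ∂sg (n + 1) =
      ∑ i : Fin n, ∫ p in Ω, gradSq (uH H i) p ∂sg (n + 1) :=
    integral_finsetSum _ fun i _ => hintv (continuous_gradSq (contDiff_uH hH i))
  rw [← Finset.mul_sum, ← e2, ← e3] at hsum
  simp only [sum_uH_sq, sum_gradSq_uH (show 1 ≤ n by omega) hH] at hsum
  exact hsum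

end Pool.Agent.H62.SS
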