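import Pool.Agent.H62.SS.Cent
import Pool.Agent.H62.SS.UpperS
import Pool.Agent.H62.SS.SigInvS

set_option autoImplicit false

/-!
# [H62 SS MOVE] Moving the centre to the pole

`o` by `exists_center`, `Φ` with `act Φ o = nor n` (`exists_act`).  `∫_{∂(ΦΩ)} uH H i = ∫_{∂Ω} H(⟪e0, Φx⟫) ⟪e_(i+1), Φx⟫ = ∫_{∂Ω} H(⟪o,x⟫) ⟪Φ⁻¹e_(i+1), x⟫ = 0` (`setIntegral_bs_act`, `act_frontier`; `Φ⁻¹ e_(i+1) ⊥ o`).  The rest: `Dom.act`, `sigma1_act`, `bs_act_image`, `sg_act_image`.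
-/

namespace Pool.Agent.H62.SS

open scoped RealInnerProductSpace MeasureTheory ENNReal NNReal
open MeasureTheory Set Metric
open Pool.Agent.H62.WS (E sg cst)

variable {n : ℕ}

theorem exists_move (hn : 2 ≤ n) {Ω : Set (Sp n)} (h : Dom Ω) {H : ℝ → ℝ}
    (hH : ContDiff ℝ 1 H) (hp : ∀ c ∈ Icc (-1 : ℝ) 1, 0 < H c) :
    ∃ Φ : E (n + 1) ≃ₗᵢ[ℝ] E (n + 1), nor n ∈ act Φ '' Ω ∧
      ∀ i : Fin n, ∫ p in frontier (act Φ '' Ω), uH H i (p : E (n + 1)) ∂bs n = 0 := by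
  obtain ⟨o, ho, hint⟩ := exists_center hn h hH hp
  obtain ⟨Φ, hΦ⟩ := exists_act o (nor n)
  refine ⟨Φ, ⟨o, ho, hΦ⟩, fun i => ?_⟩
  rw [← act_frontier, setIntegral_bs_act]
  set e : E (n + 1) := EuclideanSpace.single i.succ 1 with he
  have hei : ∀ z : E (n + 1), ⟪e, z⟫ = z i.succ := fun z => by
    rw [he, EuclideanSpace.inner_single_left]
    simp
  have hΦo : Φ (o : E (n + 1)) = e0 n := by
    have h1 := congrArg (fun q : Sp n => (q : E (n + 1))) hΦ
    exact h1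
  have hov : ⟪(o : E (n + 1)), Φ.symm e⟫ = 0 := by
    rw [← Φ.inner_map_map, hΦo, Φ.apply_symm_apply, inner_e0, he]
    simp [EuclideanSpace.single_apply, (Fin.succ_ne_zero i).symm]
  have h2 := hint (Φ.symm e) hov
  rw [← h2]
  refine integral_congr_ae (Filter.Eventually.of_forall fun x => ?_)
  show H ((act Φ x : E (n + 1)) 0) * (act Φ x : E (n + 1)) i.succ = _
  have h3 : (act Φ x : E (n + 1)) 0 = ⟪(o : E (n + 1)), (x : E (n + 1))⟫ := by
    rw [← inner_e0, ← hΦo]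
    exact Φ.inner_map_map _ _
  have h4 : (act Φ x : E (n + 1)) i.succ = ⟪Φ.symm e, (x : E (n + 1))⟫ := by
    rw [← hei, act_coe, ← Φ.inner_map_map (Φ.symm e), Φ.apply_symm_apply]
  rw [h3, h4]

theorem integral_Fp_pos (hn : 2 ≤ n) {Ω : Set (Sp n)} (h : Dom Ω) (ho : nor n ∈ Ω) {H : ℝ → ℝ}
    (hH : ContDiff ℝ 1 H) (hp : ∀ c ∈ Icc (-1 : ℝ) 1, 0 < H c) :
    0 < ∫ p in frontier Ω, Fp H (rad p) ^ 2 ∂bs n := by
  have hpi := Real.pi_pos
  have hc : Continuous (fun p : Sp n => Fp H (rad p) ^ 2) :=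
    (((hH.continuous.comp Real.continuous_cos).mul Real.continuous_sin).comp continuous_rad).pow 2
  have hfm : IsFiniteMeasure ((bs n).restrict (frontier Ω)) :=
    ⟨by rw [Measure.restrict_apply_univ]; exact bs_frontier_lt_top hn h⟩
  have hi : IntegrableOn (fun p : Sp n => Fp H (rad p) ^ 2) (frontier Ω) (bs n) :=
    hc.integrable_of_hasCompactSupport (HasCompactSupport.of_compactSpace _)
  rw [setIntegral_pos_iff_support_of_nonneg_ae
    (Filter.Eventually.of_forall fun p => sq_nonneg _) hi]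
  refine (bs_frontier_pos hn h).trans_le (measure_mono fun p hp' => ⟨?_, hp'⟩)
  have h1 : rad p < Real.pi / 2 := by
    have h2 := h.inner_pos ho (frontier_subset_closure hp')
    rw [inner_nor, ← cos_rad] at h2
    by_contra h3
    push Not at h3
    have h4 := Real.cos_nonpos_of_pi_div_two_le_of_le h3 (by linarith [rad_le_pi p])
    linarith
  have h2 : 0 < rad p := by
    rcases (rad_nonneg p).lt_or_eq with h3 | h3
    · exact h3
    · exfalso
      obtain ⟨θ, hθ⟩ := exists_pol (by omega : 1 ≤ n) p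
      rw [← h3, pol_zero] at hθ
      rw [hθ, h.isOpen.frontier_eq] at hp'
      exact hp'.2 ho
  have h3 : 0 < Fp H (rad p) := by
    unfold Fp
    exact mul_pos (hp _ ⟨Real.neg_one_le_cos _, Real.cos_le_one _⟩)
      (Real.sin_pos_of_pos_of_lt_pi h2 (by linarith))
  rw [Function.mem_support]
  positivity

end Pool.Agent.H62.SS
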