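import Pool.Agent.H62.SS.Star
import Pool.Agent.H62.SS.MoveS
import Pool.Agent.H62.SS.IsoPer
import Pool.Agent.H62.SS.EqualS

set_option autoImplicit false

/-!
# [H62 SS CASEA] Small perimeter

`A = (bs (frontier Ω)).toReal = sin^(n-1) R c ω`, `c = (cst n).toReal`, `ω = (sg n univ).toReal` (`bs_gsph`).  `exists_prof`, `exists_move`; replace `Ω` by `act Φ '' Ω` (`sigma1_act`, ...).  `sigma1_mul_le`, `star`, `isoperimetric` (`sg Ω ≤ VS R ω`, `sg_gball`): `σ₁ I ≤ γ I/c`, `I > 0` (`integral_Fp_pos`).  Equality: `star_eq`, `eq_ball_of_rho`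
(`Φ Ω = gball (nor n) R`, so `Ω` is a ball: `act_gball` for `Φ.symm`).
-/

namespace Pool.Agent.H62.SS

open scoped RealInnerProductSpace MeasureTheory ENNReal NNReal
open MeasureTheory Set Metric
open Pool.Agent.H62.WS (E sg cst)

variable {n : ℕ}

theorem cst_toReal_pos (hn : 2 ≤ n) : 0 < (cst n).toReal :=
  ENNReal.toReal_pos (WS.cst_ne_zero hn) (WS.cst_ne_top hn)

/-- the boundary measure in real terms -/
theorem bs_toReal_of_eq (hn : 2 ≤ n) {Ω : Set (Sp n)} {R : ℝ} (h0 : 0 < R) (h1 : R < Real.pi)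
    (hR : bs n (frontier Ω) = bs n (gsph (nor n) R)) :
    (bs n (frontier Ω)).toReal =
      Real.sin R ^ (n - 1) * ((cst n).toReal * (sg n univ).toReal) := by
  have hs : 0 ≤ Real.sin R ^ (n - 1) := pow_nonneg (Real.sin_nonneg_of_nonneg_of_le_pi h0.le h1.le) _
  rw [hR, bs_gsph hn _ h0 h1, ENNReal.toReal_mul, ENNReal.toReal_mul, ENNReal.toReal_ofReal hs]

theorem sg_gball_toReal (hn : 2 ≤ n) (p : Sp n) {R : ℝ} (h0 : 0 ≤ R) (h1 : R ≤ Real.pi) :
    (sg (n + 1) (gball p R)).toReal = VS (n - 1) R * (sg n univ).toReal := by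
  have hV : 0 ≤ VS (n - 1) R := by
    have h2 := (VS_strictMono (n - 1)).monotoneOn ⟨le_rfl, Real.pi_pos.le⟩ ⟨h0, h1⟩ h0
    have h3 : VS (n - 1) 0 = 0 := by simp [VS]
    rwa [h3] at h2
  rw [sg_gball hn p h0 h1, ENNReal.toReal_mul, ENNReal.toReal_ofReal hV]

theorem case_small (hn : 3 ≤ n) {Ω : Set (Sp n)} (h : Dom Ω) {R : ℝ} (h0 : 0 < R)
    (h1 : R ≤ Real.pi / 4) (hR : bs n (frontier Ω) = bs n (gsph (nor n) R)) :
    sigma1 Ω ≤ gS (n - 1) R / (cst n).toReal ∧
      (gS (n - 1) R / (cst n).toReal ≤ sigma1 Ω → ∃ q, Ω = gball q R) := by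
  have hn2 : 2 ≤ n := by omega
  have hN : 2 ≤ n - 1 := by omega
  have hpi := Real.pi_pos
  obtain ⟨m, κ, r₀, H, P⟩ := exists_prof hN h0 h1
  obtain ⟨Φ, hoΦ, hint⟩ := exists_move hn2 h P.contDiff P.pos
  have hd : Dom (act Φ '' Ω) := h.act Φ
  set W : Set (Sp n) := act Φ '' Ω with hW
  have hbs : bs n (frontier W) = bs n (gsph (nor n) R) := by
    rw [hW, ← act_frontier, bs_act_image, hR]
  have hc := cst_toReal_pos hn2
  have hA := bs_toReal_of_eq hn2 h0 (by linarith) hbs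
  have hvol : (sg (n + 1) W).toReal ≤ VS (n - 1) R * (sg n univ).toReal := by
    rw [← sg_gball_toReal hn2 (nor n) h0.le (by linarith)]
    exact ENNReal.toReal_mono (measure_ne_top _ _)
      (isoperimetric hn2 hd h0 (by linarith) hbs)
  have hfin : bs n (frontier W) < ∞ := bs_frontier_lt_top hn2 hd
  have hup := sigma1_mul_le hn2 hfin P.contDiff hint
  have hst := star hn2 hd hoΦ P
  have hI := integral_Fp_pos hn2 hd hoΦ P.contDiff P.pos
  have hAz : (bs n (frontier W)).toReal / (cst n).toReal -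
      Real.sin R ^ (n - 1) * (sg n univ).toReal = 0 := by
    rw [hA]
    field_simp
    ring
  have hκ : 0 ≤ κ * (VS (n - 1) R * (sg n univ).toReal - (sg (n + 1) W).toReal) :=
    mul_nonneg P.kap_nonneg (by linarith)
  rw [hAz, mul_zero, zero_add] at hst
  have hsig : sigma1 W = sigma1 Ω := sigma1_act Φ Ω
  rw [hsig] at hup
  set I := ∫ p in frontier W, Fp H (rad p) ^ 2 ∂bs n with hIdef
  have e1 : gS (n - 1) R * I / (cst n).toReal = gS (n - 1) R / (cst n).toReal * I := by ring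
  constructor
  · have h2 : sigma1 Ω * I ≤ gS (n - 1) R / (cst n).toReal * I := by
      rw [← e1]
      linarith
    exact le_of_mul_le_mul_right h2 hI
  · intro hge
    have h2 : gS (n - 1) R / (cst n).toReal * I ≤ sigma1 Ω * I :=
      mul_le_mul_of_nonneg_right hge hI.le
    have h3 := star_eq hn2 hd hoΦ P (by rw [hAz, mul_zero, zero_add, ← hIdef]; linarith)
    have h4 := eq_ball_of_rho hn2 hd hoΦ h0 (by linarith) h3
    refine ⟨act Φ.symm (nor n), ?_⟩
    rw [← act_gball, ← h4, hW, image_image]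
    simp only [act_symm_act, image_id']

end Pool.Agent.H62.SS
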