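import Pool.Agent.H62.SS.Pol
import Pool.Agent.H62.SS.ProfD

set_option autoImplicit false

/-!
# [H62 SS TEST] The test functions

`uH H i z = H(z₀) z_(i+1)`.  `D u_i(p) v = H'(p₀) v₀ p_i + H(p₀) v_i`, so the gradient vector is `H' p_i e₀ + H e_i`: `‖·‖² = H'² p_i² + H²`, `D u_i(p) p = (H' p₀ + H) p_i`.  Sum over `i` with `Σ p_i² = 1 - p₀² = sin² r`, `p₀ = cos r` (`cos_rad`):
`n H² + sin² r (H'² - (H' cos r + H)²) = (H cos r - H' sin² r)² + (n-1) H²`.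
-/

namespace Pool.Agent.H62.SS

open scoped RealInnerProductSpace MeasureTheory ENNReal NNReal
open MeasureTheory Set Metric
open Pool.Agent.H62.WS (E sg cst)

variable {n : ℕ}

/-- the test functions -/
noncomputable def uH (H : ℝ → ℝ) (i : Fin n) (z : E (n + 1)) : ℝ := H (z 0) * z i.succ

theorem contDiff_coord (j : Fin (n + 1)) : ContDiff ℝ 1 (fun z : E (n + 1) => z j) :=
  (EuclideanSpace.proj (𝕜 := ℝ) j).contDiff

theorem contDiff_uH {H : ℝ → ℝ} (hH : ContDiff ℝ 1 H) (i : Fin n) : ContDiff ℝ 1 (uH H i) :=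
  (hH.comp (contDiff_coord 0)).mul (contDiff_coord i.succ)

theorem sum_succ_sq (p : Sp n) : ∑ i : Fin n, (p : E (n + 1)) i.succ ^ 2 = Real.sin (rad p) ^ 2 := by
  have h1 : ‖(p : E (n + 1))‖ ^ 2 = (p : E (n + 1)) 0 ^ 2 + ∑ i : Fin n, (p : E (n + 1)) i.succ ^ 2 := by
    rw [EuclideanSpace.real_norm_sq_eq, Fin.sum_univ_succ]
  rw [norm_coe, ← cos_rad] at h1
  have h2 := Real.sin_sq_add_cos_sq (rad p)
  linarith

theorem sum_uH_sq (H : ℝ → ℝ) (p : Sp n) :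
    ∑ i : Fin n, uH H i (p : E (n + 1)) ^ 2 = Fp H (rad p) ^ 2 := by
  simp only [uH, mul_pow]
  rw [← Finset.mul_sum, sum_succ_sq, Fp, cos_rad]
  ring

theorem hasFDerivAt_uH {H : ℝ → ℝ} (hH : ContDiff ℝ 1 H) (i : Fin n) (z : E (n + 1)) :
    HasFDerivAt (uH H i) ((H (z 0)) • (EuclideanSpace.proj (𝕜 := ℝ) i.succ : E (n + 1) →L[ℝ] ℝ) +
      (z i.succ) • (deriv H (z 0) • (EuclideanSpace.proj (𝕜 := ℝ) 0 : E (n + 1) →L[ℝ] ℝ))) z := by
  have h1 : HasDerivAt H (deriv H (z 0)) (z 0) :=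
    ((hH.differentiable one_ne_zero) (z 0)).hasDerivAt
  have h2 : HasFDerivAt (fun z : E (n + 1) => z 0)
      (EuclideanSpace.proj (𝕜 := ℝ) 0 : E (n + 1) →L[ℝ] ℝ) z :=
    (EuclideanSpace.proj (𝕜 := ℝ) (0 : Fin (n + 1))).hasFDerivAt
  have h3 : HasFDerivAt (fun z : E (n + 1) => z i.succ)
      (EuclideanSpace.proj (𝕜 := ℝ) i.succ : E (n + 1) →L[ℝ] ℝ) z :=
    (EuclideanSpace.proj (𝕜 := ℝ) i.succ).hasFDerivAt
  have h4 : HasFDerivAt (fun z : E (n + 1) => H (z 0))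
      (deriv H (z 0) • (EuclideanSpace.proj (𝕜 := ℝ) 0 : E (n + 1) →L[ℝ] ℝ)) z :=
    h1.comp_hasFDerivAt z h2
  exact h4.mul h3

theorem norm_lin (i : Fin n) (a b : ℝ) :
    ‖a • (EuclideanSpace.proj (𝕜 := ℝ) i.succ : E (n + 1) →L[ℝ] ℝ) +
      b • (EuclideanSpace.proj (𝕜 := ℝ) 0 : E (n + 1) →L[ℝ] ℝ)‖ ^ 2 = a ^ 2 + b ^ 2 := by
  let v : E (n + 1) := a • EuclideanSpace.single i.succ (1 : ℝ) + b • EuclideanSpace.single 0 (1 : ℝ)
  have h1 : a • (EuclideanSpace.proj (𝕜 := ℝ) i.succ : E (n + 1) →L[ℝ] ℝ) +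
      b • (EuclideanSpace.proj (𝕜 := ℝ) 0 : E (n + 1) →L[ℝ] ℝ) =
      InnerProductSpace.toDual ℝ (E (n + 1)) v := by
    ext w
    simp only [v, InnerProductSpace.toDual_apply_apply, inner_add_left, real_inner_smul_left,
      EuclideanSpace.inner_single_left]
    simp
  rw [h1, LinearIsometryEquiv.norm_map]
  simp only [v]
  rw [@norm_add_sq_real, norm_smul, norm_smul, real_inner_smul_left, real_inner_smul_right,
    EuclideanSpace.inner_single_left]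
  simp [Fin.succ_ne_zero, sq_abs]

theorem sum_gradSq_uH (hn : 1 ≤ n) {H : ℝ → ℝ} (hH : ContDiff ℝ 1 H) (p : Sp n) :
    ∑ i : Fin n, gradSq (uH H i) p = hp (n - 1) H (rad p) := by
  have h1 : ∀ i : Fin n, gradSq (uH H i) p = H (Real.cos (rad p)) ^ 2 +
      (deriv H (Real.cos (rad p)) ^ 2 -
        (deriv H (Real.cos (rad p)) * Real.cos (rad p) + H (Real.cos (rad p))) ^ 2) *
      (p : E (n + 1)) i.succ ^ 2 := by
    intro i
    unfold gradSq
    rw [(hasFDerivAt_uH hH i (p : E (n + 1))).fderiv, smul_smul, norm_lin]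
    have hpj : ∀ j : Fin (n + 1), (EuclideanSpace.proj (𝕜 := ℝ) j : E (n + 1) →L[ℝ] ℝ)
        (p : E (n + 1)) = (p : E (n + 1)) j := fun j => rfl
    simp only [ContinuousLinearMap.add_apply, ContinuousLinearMap.smul_apply,
      hpj, smul_eq_mul, cos_rad]
    ring
  simp only [h1]
  rw [Finset.sum_add_distrib, ← Finset.mul_sum, sum_succ_sq, Finset.sum_const, Finset.card_univ,
    Fintype.card_fin, nsmul_eq_mul]
  unfold hp Fp'
  have h2 : ((n - 1 : ℕ) : ℝ) = (n : ℝ) - 1 := by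
    rw [Nat.cast_sub hn, Nat.cast_one]
  rw [h2]
  have h3 : Real.sin (rad p) ^ 2 = 1 - Real.cos (rad p) ^ 2 := Real.sin_sq _
  rw [h3]
  ring

end Pool.Agent.H62.SS
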