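import Pool.Agent.H62.SS.Par
import Pool.Agent.H62.SS.C3
import Pool.Agent.H62.SS.C4
import Pool.Agent.H62.SS.C5
import Pool.Agent.H62.SS.C6

set_option autoImplicit false

/-!
# [H62 SS PARA] The parameters for small `N`
-/

namespace Pool.Agent.H62.SS

open MeasureTheory Set
open scoped Real

theorem up_3 : ∀ q : ℝ, 0 ≤ q → q ≤ 1 → up3 ((3 : ℕ) : ℝ) q ≤ (27/25) + (49/100) * q := by
  intro q hq hq1
  refine up3_le (by positivity) hq ?_
  unfold ee2 ee3
  push_cast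
  nlinarith [mul_nonneg hq (sub_nonneg.2 hq1), sq_nonneg (q - 1), mul_nonneg hq (sq_nonneg (q - 1))]

theorem par_3 : Par 3 (1/6) 3 4 := by
  refine mk_par (l := (551/1000)) (u := (27/25)) (s := (49/100)) (w := (5/6)) (X := (2737/1000)) (by norm_num)
    (by norm_num) (by norm_num) (by norm_num) (by norm_num) (by norm_num) (by norm_num)
    (by norm_num) up_3 (fun σ q B h1 h2 h3 h4 h5 h6 => by
      rw [Nat.cast_ofNat]
      exact PP_pos_3 h1 h2 h3 h4 h5 h6)
    (mm_of (l := (551/1000)) (by norm_num) (by norm_num) up_3 fun ζ q B b h1 h2 h3 h4 h5 h6 h7 h8 => by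
      rw [Nat.cast_ofNat]
      exact MM_pos_3 h1 h2 h3 h4 h5 h6 h7 (h8.trans (le_of_eq (by norm_num))))
    (by norm_num) (by norm_num) (by norm_num) (fun t ht ht1 => ?_) (by norm_num)
    (fun c hc hc1 => ?_)
  · nlinarith [mul_nonneg ht (sq_nonneg (t - 1)), mul_nonneg (sub_nonneg.2 ht1) (sq_nonneg (t - 1)),
      mul_nonneg (sub_nonneg.2 ht1) ht, mul_nonneg (sub_nonneg.2 ht1) (mul_nonneg ht ht), mul_nonneg (sub_nonneg.2 ht1) (sq_nonneg (t - 1/2))]
  · have hd : 0 ≤ 1 - c := sub_nonneg.2 hc1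
    have t0 : 0 ≤ (1 - c) ^ 4 := by positivity
    have t1 : 0 ≤ c * (1 - c) ^ 3 := by positivity
    have t2 : 0 ≤ c ^ 2 * (1 - c) ^ 2 := by positivity
    have t3 : 0 ≤ c ^ 3 * (1 - c) := by positivity
    have t4 : 0 ≤ c ^ 4 := by positivity
    push_cast
    have e : (3 : ℝ) * (2737/1000) * (1 + c ^ 2) - (2737/1000) * (((27/25) + (49/100)) - (((27/25) + (49/100)) - (1/6)) * (1 - c ^ 2) / (2 * (2737/1000))) ^ 2 -
        3 * c * (((2737/1000) - 1) * ((27/25) + (49/100)) + (1/6)) =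
        (2410993/15000000) + ((32783443913/9853200000) * (1 - c) ^ 4 + (5699435761/1231650000) * (c * (1 - c) ^ 3) + (1413170653/4926600000) * (c ^ 2 * (1 - c) ^ 2) +
          0 * (c ^ 3 * (1 - c)) + (1000279/1200000) * c ^ 4) := by
      ring
    rw [e]
    positivity

theorem up_4 : ∀ q : ℝ, 0 ≤ q → q ≤ 1 → up3 ((4 : ℕ) : ℝ) q ≤ (87/80) + (53/100) * q := by
  intro q hq hq1
  refine up3_le (by positivity) hq ?_
  unfold ee2 ee3
  push_cast
  nlinarith [mul_nonneg hq (sub_nonneg.2 hq1), sq_nonneg (q - 1), mul_nonneg hq (sq_nonneg (q - 1))]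

theorem par_4 : Par 4 (3/20) (18/5) (23/5) := by
  refine mk_par (l := (3/5)) (u := (87/80)) (s := (53/100)) (w := (11/15)) (X := (1269/500)) (by norm_num)
    (by norm_num) (by norm_num) (by norm_num) (by norm_num) (by norm_num) (by norm_num)
    (by norm_num) up_4 (fun σ q B h1 h2 h3 h4 h5 h6 => by
      rw [Nat.cast_ofNat]
      exact PP_pos_4 h1 h2 h3 h4 h5 h6)
    (mm_of (l := (3/5)) (by norm_num) (by norm_num) up_4 fun ζ q B b h1 h2 h3 h4 h5 h6 h7 h8 => by
      rw [Nat.cast_ofNat]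
      exact MM_pos_4 h1 h2 h3 h4 h5 h6 h7 (h8.trans (le_of_eq (by norm_num))))
    (by norm_num) (by norm_num) (by norm_num) (fun t ht ht1 => ?_) (by norm_num)
    (fun c hc hc1 => ?_)
  · nlinarith [mul_nonneg ht (sq_nonneg (t - 1)), mul_nonneg (sub_nonneg.2 ht1) (sq_nonneg (t - 1)),
      mul_nonneg (sub_nonneg.2 ht1) ht, mul_nonneg (sub_nonneg.2 ht1) (mul_nonneg ht ht), mul_nonneg (sub_nonneg.2 ht1) (sq_nonneg (t - 1/2))]
  · have hd : 0 ≤ 1 - c := sub_nonneg.2 hc1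
    have t0 : 0 ≤ (1 - c) ^ 4 := by positivity
    have t1 : 0 ≤ c * (1 - c) ^ 3 := by positivity
    have t2 : 0 ≤ c ^ 2 * (1 - c) ^ 2 := by positivity
    have t3 : 0 ≤ c ^ 3 * (1 - c) := by positivity
    have t4 : 0 ≤ c ^ 4 := by positivity
    push_cast
    have e : (4 : ℝ) * (1269/500) * (1 + c ^ 2) - (1269/500) * (((87/80) + (53/100)) - (((87/80) + (53/100)) - (3/20)) * (1 - c ^ 2) / (2 * (1269/500))) ^ 2 -
        4 * c * (((1269/500) - 1) * ((87/80) + (53/100)) + (3/20)) =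
        (537558031903/304560000000) + ((23806438771/6091200000) * (1 - c) ^ 4 + (7739589163/1522800000) * (c * (1 - c) ^ 3) + 0 * (c ^ 2 * (1 - c) ^ 2) +
          (293835641/761400000) * (c ^ 3 * (1 - c)) + (8210469259/6091200000) * c ^ 4) := by
      ring
    rw [e]
    positivity

theorem up_5 : ∀ q : ℝ, 0 ≤ q → q ≤ 1 → up3 ((5 : ℕ) : ℝ) q ≤ (217/200) + (57/100) * q := by
  intro q hq hq1
  refine up3_le (by positivity) hq ?_
  unfold ee2 ee3
  push_cast
  nlinarith [mul_nonneg hq (sub_nonneg.2 hq1), sq_nonneg (q - 1), mul_nonneg hq (sq_nonneg (q - 1))]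

theorem par_5 : Par 5 (1/5) (7/2) (7/2) := by
  refine mk_par (l := (319/500)) (u := (217/200)) (s := (57/100)) (w := (5/12)) (X := (1809/1000)) (by norm_num)
    (by norm_num) (by norm_num) (by norm_num) (by norm_num) (by norm_num) (by norm_num)
    (by norm_num) up_5 (fun σ q B h1 h2 h3 h4 h5 h6 => by
      rw [Nat.cast_ofNat]
      exact PP_pos_5 h1 h2 h3 h4 h5 h6)
    (mm_of (l := (319/500)) (by norm_num) (by norm_num) up_5 fun ζ q B b h1 h2 h3 h4 h5 h6 h7 h8 => by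
      rw [Nat.cast_ofNat]
      exact MM_pos_5 h1 h2 h3 h4 h5 h6 h7 (h8.trans (le_of_eq (by norm_num))))
    (by norm_num) (by norm_num) (by norm_num) (fun t ht ht1 => ?_) (by norm_num)
    (fun c hc hc1 => ?_)
  · nlinarith [mul_nonneg ht (sq_nonneg (t - 1)), mul_nonneg (sub_nonneg.2 ht1) (sq_nonneg (t - 1)),
      mul_nonneg (sub_nonneg.2 ht1) ht, mul_nonneg (sub_nonneg.2 ht1) (mul_nonneg ht ht), mul_nonneg (sub_nonneg.2 ht1) (sq_nonneg (t - 1/2))]
  · have hd : 0 ≤ 1 - c := sub_nonneg.2 hc1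
    have t0 : 0 ≤ (1 - c) ^ 4 := by positivity
    have t1 : 0 ≤ c * (1 - c) ^ 3 := by positivity
    have t2 : 0 ≤ c ^ 2 * (1 - c) ^ 2 := by positivity
    have t3 : 0 ≤ c ^ 3 * (1 - c) := by positivity
    have t4 : 0 ≤ c ^ 4 := by positivity
    push_cast
    have e : (5 : ℝ) * (1809/1000) * (1 + c ^ 2) - (1809/1000) * (((217/200) + (57/100)) - (((217/200) + (57/100)) - (1/5)) * (1 - c ^ 2) / (2 * (1809/1000))) ^ 2 -
        5 * c * (((1809/1000) - 1) * ((217/200) + (57/100)) + (1/5)) =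
        (85915637053/24120000000) + ((63762479/24120000) * (1 - c) ^ 4 + (69459179/24120000) * (c * (1 - c) ^ 3) + 0 * (c ^ 2 * (1 - c) ^ 2) +
          (46672379/24120000) * (c ^ 3 * (1 - c)) + (45312329/24120000) * c ^ 4) := by
      ring
    rw [e]
    positivity

theorem up_6 : ∀ q : ℝ, 0 ≤ q → q ≤ 1 → up3 ((6 : ℕ) : ℝ) q ≤ (217/200) + (3/5) * q := by
  intro q hq hq1
  refine up3_le (by positivity) hq ?_
  unfold ee2 ee3
  push_cast
  nlinarith [mul_nonneg hq (sub_nonneg.2 hq1), sq_nonneg (q - 1), mul_nonneg hq (sq_nonneg (q - 1))]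

theorem par_6 : Par 6 (27/100) (37/10) (18/5) := by
  refine mk_par (l := (669/1000)) (u := (217/200)) (s := (3/5)) (w := (7/20)) (X := (1677/1000)) (by norm_num)
    (by norm_num) (by norm_num) (by norm_num) (by norm_num) (by norm_num) (by norm_num)
    (by norm_num) up_6 (fun σ q B h1 h2 h3 h4 h5 h6 => by
      rw [Nat.cast_ofNat]
      exact PP_pos_6 h1 h2 h3 h4 h5 h6)
    (mm_of (l := (669/1000)) (by norm_num) (by norm_num) up_6 fun ζ q B b h1 h2 h3 h4 h5 h6 h7 h8 => by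
      rw [Nat.cast_ofNat]
      exact MM_pos_6 h1 h2 h3 h4 h5 h6 h7 (h8.trans (le_of_eq (by norm_num))))
    (by norm_num) (by norm_num) (by norm_num) (fun t ht ht1 => ?_) (by norm_num)
    (fun c hc hc1 => ?_)
  · nlinarith [mul_nonneg ht (sq_nonneg (t - 1)), mul_nonneg (sub_nonneg.2 ht1) (sq_nonneg (t - 1)),
      mul_nonneg (sub_nonneg.2 ht1) ht, mul_nonneg (sub_nonneg.2 ht1) (mul_nonneg ht ht), mul_nonneg (sub_nonneg.2 ht1) (sq_nonneg (t - 1/2))]
  · have hd : 0 ≤ 1 - c := sub_nonneg.2 hc1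
    have t0 : 0 ≤ (1 - c) ^ 4 := by positivity
    have t1 : 0 ≤ c * (1 - c) ^ 3 := by positivity
    have t2 : 0 ≤ c ^ 2 * (1 - c) ^ 2 := by positivity
    have t3 : 0 ≤ c ^ 3 * (1 - c) := by positivity
    have t4 : 0 ≤ c ^ 4 := by positivity
    push_cast
    have e : (6 : ℝ) * (1677/1000) * (1 + c ^ 2) - (1677/1000) * (((217/200) + (3/5)) - (((217/200) + (3/5)) - (27/100)) * (1 - c ^ 2) / (2 * (1677/1000))) ^ 2 -
        6 * c * (((1677/1000) - 1) * ((217/200) + (3/5)) + (27/100)) =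
        (912279629497/201240000000) + ((5741618249/2012400000) * (1 - c) ^ 4 + (46348231/15721875) * (c * (1 - c) ^ 3) + 0 * (c ^ 2 * (1 - c) ^ 2) +
          (1292188073/503100000) * (c ^ 3 * (1 - c)) + (4759040111/2012400000) * c ^ 4) := by
      ring
    rw [e]
    positivity

end Pool.Agent.H62.SS
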