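import Pool.Agent.H62.SS.Par
import Pool.Agent.H62.SS.C7
import Pool.Agent.H62.SS.C8
import Pool.Agent.H62.SS.C9

set_option autoImplicit false

/-!
# [H62 SS PARB] The parameters for small `N`
-/

namespace Pool.Agent.H62.SS

open MeasureTheory Set
open scoped Real

theorem up_7 : ∀ q : ℝ, 0 ≤ q → q ≤ 1 → up3 ((7 : ℕ) : ℝ) q ≤ (27/25) + (63/100) * q := by
  intro q hq hq1
  refine up3_le (by positivity) hq ?_
  unfold ee2 ee3
  push_cast
  nlinarith [mul_nonneg hq (sub_nonneg.2 hq1), sq_nonneg (q - 1), mul_nonneg hq (sq_nonneg (q - 1))]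

theorem par_7 : Par 7 (17/50) (19/5) (71/20) := by
  refine mk_par (l := (139/200)) (u := (27/25)) (s := (63/100)) (w := (17/60)) (X := (193/125)) (by norm_num)
    (by norm_num) (by norm_num) (by norm_num) (by norm_num) (by norm_num) (by norm_num)
    (by norm_num) up_7 (fun σ q B h1 h2 h3 h4 h5 h6 => by
      rw [Nat.cast_ofNat]
      exact PP_pos_7 h1 h2 h3 h4 h5 h6)
    (mm_of (l := (139/200)) (by norm_num) (by norm_num) up_7 fun ζ q B b h1 h2 h3 h4 h5 h6 h7 h8 => by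
      rw [Nat.cast_ofNat]
      exact MM_pos_7 h1 h2 h3 h4 h5 h6 h7 (h8.trans (le_of_eq (by norm_num))))
    (by norm_num) (by norm_num) (by norm_num) (fun t ht ht1 => ?_) (by norm_num)
    (fun c hc hc1 => ?_)
  · nlinarith [mul_nonneg ht (sq_nonneg (t - 1)), mul_nonneg (sub_nonneg.2 ht1) (sq_nonneg (t - 1)),
      mul_nonneg (sub_nonneg.2 ht1) ht, mul_nonneg (sub_nonneg.2 ht1) (mul_nonneg ht ht), mul_nonneg (sub_nonneg.2 ht1) (sq_nonneg (t - 1/2))]
  · have hd : 0 ≤ 1 - c := sub_nonneg.2 hc1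
    have t0 : 0 ≤ (1 - c) ^ 4 := by positivity
    have t1 : 0 ≤ c * (1 - c) ^ 3 := by positivity
    have t2 : 0 ≤ c ^ 2 * (1 - c) ^ 2 := by positivity
    have t3 : 0 ≤ c ^ 3 * (1 - c) := by positivity
    have t4 : 0 ≤ c ^ 4 := by positivity
    push_cast
    have e : (7 : ℝ) * (193/125) * (1 + c ^ 2) - (193/125) * (((27/25) + (63/100)) - (((27/25) + (63/100)) - (17/50)) * (1 - c ^ 2) / (2 * (193/125))) ^ 2 -
        7 * c * (((193/125) - 1) * ((27/25) + (63/100)) + (17/50)) =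
        (651173733/120625000) + ((113239119/38600000) * (1 - c) ^ 4 + (27434407/9650000) * (c * (1 - c) ^ 3) + 0 * (c ^ 2 * (1 - c) ^ 2) +
          (15467949/4825000) * (c ^ 3 * (1 - c)) + (27127869/9650000) * c ^ 4) := by
      ring
    rw [e]
    positivity

theorem up_8 : ∀ q : ℝ, 0 ≤ q → q ≤ 1 → up3 ((8 : ℕ) : ℝ) q ≤ (1081/1000) + (13/20) * q := by
  intro q hq hq1
  refine up3_le (by positivity) hq ?_
  unfold ee2 ee3
  push_cast
  nlinarith [mul_nonneg hq (sub_nonneg.2 hq1), sq_nonneg (q - 1), mul_nonneg hq (sq_nonneg (q - 1))]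

theorem par_8 : Par 8 (2/5) (15/4) (13/4) := by
  refine mk_par (l := (717/1000)) (u := (1081/1000)) (s := (13/20)) (w := (5/24)) (X := (697/500)) (by norm_num)
    (by norm_num) (by norm_num) (by norm_num) (by norm_num) (by norm_num) (by norm_num)
    (by norm_num) up_8 (fun σ q B h1 h2 h3 h4 h5 h6 => by
      rw [Nat.cast_ofNat]
      exact PP_pos_8 h1 h2 h3 h4 h5 h6)
    (mm_of (l := (717/1000)) (by norm_num) (by norm_num) up_8 fun ζ q B b h1 h2 h3 h4 h5 h6 h7 h8 => by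
      rw [Nat.cast_ofNat]
      exact MM_pos_8 h1 h2 h3 h4 h5 h6 h7 (h8.trans (le_of_eq (by norm_num))))
    (by norm_num) (by norm_num) (by norm_num) (fun t ht ht1 => ?_) (by norm_num)
    (fun c hc hc1 => ?_)
  · nlinarith [mul_nonneg ht (sq_nonneg (t - 1)), mul_nonneg (sub_nonneg.2 ht1) (sq_nonneg (t - 1)),
      mul_nonneg (sub_nonneg.2 ht1) ht, mul_nonneg (sub_nonneg.2 ht1) (mul_nonneg ht ht), mul_nonneg (sub_nonneg.2 ht1) (sq_nonneg (t - 1/2))]
  · have hd : 0 ≤ 1 - c := sub_nonneg.2 hc1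
    have t0 : 0 ≤ (1 - c) ^ 4 := by positivity
    have t1 : 0 ≤ c * (1 - c) ^ 3 := by positivity
    have t2 : 0 ≤ c ^ 2 * (1 - c) ^ 2 := by positivity
    have t3 : 0 ≤ c ^ 3 * (1 - c) := by positivity
    have t4 : 0 ≤ c ^ 4 := by positivity
    push_cast
    have e : (8 : ℝ) * (697/500) * (1 + c ^ 2) - (697/500) * (((1081/1000) + (13/20)) - (((1081/1000) + (13/20)) - (2/5)) * (1 - c ^ 2) / (2 * (697/500))) ^ 2 -
        8 * c * (((697/500) - 1) * ((1081/1000) + (13/20)) + (2/5)) =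
        (6496572925103/1045500000000) + ((11489956759/4182000000) * (1 - c) ^ 4 + (2439991663/1045500000) * (c * (1 - c) ^ 3) + 0 * (c ^ 2 * (1 - c) ^ 2) +
          (416998177/104550000) * (c ^ 3 * (1 - c)) + (13621266223/4182000000) * c ^ 4) := by
      ring
    rw [e]
    positivity

theorem up_9 : ∀ q : ℝ, 0 ≤ q → q ≤ 1 → up3 ((9 : ℕ) : ℝ) q ≤ (1079/1000) + (67/100) * q := by
  intro q hq hq1
  refine up3_le (by positivity) hq ?_
  unfold ee2 ee3
  push_cast
  nlinarith [mul_nonneg hq (sub_nonneg.2 hq1), sq_nonneg (q - 1), mul_nonneg hq (sq_nonneg (q - 1))]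

theorem par_9 : Par 9 (23/50) (77/20) (33/10) := by
  refine mk_par (l := (92/125)) (u := (1079/1000)) (s := (67/100)) (w := (7/40)) (X := (133/100)) (by norm_num)
    (by norm_num) (by norm_num) (by norm_num) (by norm_num) (by norm_num) (by norm_num)
    (by norm_num) up_9 (fun σ q B h1 h2 h3 h4 h5 h6 => by
      rw [Nat.cast_ofNat]
      exact PP_pos_9 h1 h2 h3 h4 h5 h6)
    (mm_of (l := (92/125)) (by norm_num) (by norm_num) up_9 fun ζ q B b h1 h2 h3 h4 h5 h6 h7 h8 => by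
      rw [Nat.cast_ofNat]
      exact MM_pos_9 h1 h2 h3 h4 h5 h6 h7 (h8.trans (le_of_eq (by norm_num))))
    (by norm_num) (by norm_num) (by norm_num) (fun t ht ht1 => ?_) (by norm_num)
    (fun c hc hc1 => ?_)
  · nlinarith [mul_nonneg ht (sq_nonneg (t - 1)), mul_nonneg (sub_nonneg.2 ht1) (sq_nonneg (t - 1)),
      mul_nonneg (sub_nonneg.2 ht1) ht, mul_nonneg (sub_nonneg.2 ht1) (mul_nonneg ht ht), mul_nonneg (sub_nonneg.2 ht1) (sq_nonneg (t - 1/2))]
  · have hd : 0 ≤ 1 - c := sub_nonneg.2 hc1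
    have t0 : 0 ≤ (1 - c) ^ 4 := by positivity
    have t1 : 0 ≤ c * (1 - c) ^ 3 := by positivity
    have t2 : 0 ≤ c ^ 2 * (1 - c) ^ 2 := by positivity
    have t3 : 0 ≤ c ^ 3 * (1 - c) := by positivity
    have t4 : 0 ≤ c ^ 4 := by positivity
    push_cast
    have e : (9 : ℝ) * (133/100) * (1 + c ^ 2) - (133/100) * (((1079/1000) + (67/100)) - (((1079/1000) + (67/100)) - (23/50)) * (1 - c ^ 2) / (2 * (133/100))) ^ 2 -
        9 * c * (((133/100) - 1) * ((1079/1000) + (67/100)) + (23/50)) =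
        (275300843683/39900000000) + ((2349234733/798000000) * (1 - c) ^ 4 + (243497999/99750000) * (c * (1 - c) ^ 3) + 0 * (c ^ 2 * (1 - c) ^ 2) +
          (888246739/199500000) * (c ^ 3 * (1 - c)) + (580501613/159600000) * c ^ 4) := by
      ring
    rw [e]
    positivity

end Pool.Agent.H62.SS
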