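import Pool.Agent.H62.SS.Par
import Pool.Agent.H62.SS.C10
import Pool.Agent.H62.SS.C11
import Pool.Agent.H62.SS.C12
import Pool.Agent.H62.SS.C13

set_option autoImplicit false

/-!
# [H62 SS PARC] The parameters for small `N`
-/

namespace Pool.Agent.H62.SS

open MeasureTheory Set
open scoped Real

theorem up_10 : ∀ q : ℝ, 0 ≤ q → q ≤ 1 → up3 ((10 : ℕ) : ℝ) q ≤ (43/40) + (69/100) * q := by
  intro q hq hq1
  refine up3_le (by positivity) hq ?_
  unfold ee2 ee3
  push_cast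
  nlinarith [mul_nonneg hq (sub_nonneg.2 hq1), sq_nonneg (q - 1), mul_nonneg hq (sq_nonneg (q - 1))]

theorem par_10 : Par 10 (51/100) (81/20) (71/20) := by
  refine mk_par (l := (753/1000)) (u := (43/40)) (s := (69/100)) (w := (19/120)) (X := (1299/1000)) (by norm_num)
    (by norm_num) (by norm_num) (by norm_num) (by norm_num) (by norm_num) (by norm_num)
    (by norm_num) up_10 (fun σ q B h1 h2 h3 h4 h5 h6 => by
      rw [Nat.cast_ofNat]
      exact PP_pos_10 h1 h2 h3 h4 h5 h6)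
    (mm_of (l := (753/1000)) (by norm_num) (by norm_num) up_10 fun ζ q B b h1 h2 h3 h4 h5 h6 h7 h8 => by
      rw [Nat.cast_ofNat]
      exact MM_pos_10 h1 h2 h3 h4 h5 h6 h7 (h8.trans (le_of_eq (by norm_num))))
    (by norm_num) (by norm_num) (by norm_num) (fun t ht ht1 => ?_) (by norm_num)
    (fun c hc hc1 => ?_)
  · nlinarith [mul_nonneg ht (sq_nonneg (t - 1)), mul_nonneg (sub_nonneg.2 ht1) (sq_nonneg (t - 1)),
      mul_nonneg (sub_nonneg.2 ht1) ht, mul_nonneg (sub_nonneg.2 ht1) (mul_nonneg ht ht), mul_nonneg (sub_nonneg.2 ht1) (sq_nonneg (t - 1/2))]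
  · have hd : 0 ≤ 1 - c := sub_nonneg.2 hc1
    have t0 : 0 ≤ (1 - c) ^ 4 := by positivity
    have t1 : 0 ≤ c * (1 - c) ^ 3 := by positivity
    have t2 : 0 ≤ c ^ 2 * (1 - c) ^ 2 := by positivity
    have t3 : 0 ≤ c ^ 3 * (1 - c) := by positivity
    have t4 : 0 ≤ c ^ 4 := by positivity
    push_cast
    have e : (10 : ℝ) * (1299/1000) * (1 + c ^ 2) - (1299/1000) * (((43/40) + (69/100)) - (((43/40) + (69/100)) - (51/100)) * (1 - c ^ 2) / (2 * (1299/1000))) ^ 2 -
        10 * c * (((1299/1000) - 1) * ((43/40) + (69/100)) + (51/100)) =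
        (1178992429873/155880000000) + ((205251143/62352000) * (1 - c) ^ 4 + (6795158/2435625) * (c * (1 - c) ^ 3) + 0 * (c ^ 2 * (1 - c) ^ 2) +
          (373920547/77940000) * (c ^ 3 * (1 - c)) + (1244705197/311760000) * c ^ 4) := by
      ring
    rw [e]
    positivity

theorem up_11 : ∀ q : ℝ, 0 ≤ q → q ≤ 1 → up3 ((11 : ℕ) : ℝ) q ≤ (2157/2000) + (7/10) * q := by
  intro q hq hq1
  refine up3_le (by positivity) hq ?_
  unfold ee2 ee3
  push_cast
  nlinarith [mul_nonneg hq (sub_nonneg.2 hq1), sq_nonneg (q - 1), mul_nonneg hq (sq_nonneg (q - 1))]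

theorem par_11 : Par 11 (11/20) 4 (67/20) := by
  refine mk_par (l := (96/125)) (u := (2157/2000)) (s := (7/10)) (w := (77/500)) (X := (1293/1000)) (by norm_num)
    (by norm_num) (by norm_num) (by norm_num) (by norm_num) (by norm_num) (by norm_num)
    (by norm_num) up_11 (fun σ q B h1 h2 h3 h4 h5 h6 => by
      rw [Nat.cast_ofNat]
      exact PP_pos_11 h1 h2 h3 h4 h5 h6)
    (mm_of (l := (96/125)) (by norm_num) (by norm_num) up_11 fun ζ q B b h1 h2 h3 h4 h5 h6 h7 h8 => by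
      rw [Nat.cast_ofNat]
      exact MM_pos_11 h1 h2 h3 h4 h5 h6 h7 (h8.trans (le_of_eq (by norm_num))))
    (by norm_num) (by norm_num) (by norm_num) (fun t ht ht1 => ?_) (by norm_num)
    (fun c hc hc1 => ?_)
  · nlinarith [mul_nonneg ht (sq_nonneg (t - (89/250))), mul_nonneg (sub_nonneg.2 ht1) (sq_nonneg (t - (89/250))),
      mul_nonneg (sub_nonneg.2 ht1) ht, mul_nonneg (sub_nonneg.2 ht1) (mul_nonneg ht ht), mul_nonneg (sub_nonneg.2 ht1) (sq_nonneg (t - 1/2))]
  · have hd : 0 ≤ 1 - c := sub_nonneg.2 hc1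
    have t0 : 0 ≤ (1 - c) ^ 4 := by positivity
    have t1 : 0 ≤ c * (1 - c) ^ 3 := by positivity
    have t2 : 0 ≤ c ^ 2 * (1 - c) ^ 2 := by positivity
    have t3 : 0 ≤ c ^ 3 * (1 - c) := by positivity
    have t4 : 0 ≤ c ^ 4 := by positivity
    push_cast
    have e : (11 : ℝ) * (1293/1000) * (1 + c ^ 2) - (1293/1000) * (((2157/2000) + (7/10)) - (((2157/2000) + (7/10)) - (11/20)) * (1 - c ^ 2) / (2 * (1293/1000))) ^ 2 -
        11 * c * (((1293/1000) - 1) * ((2157/2000) + (7/10)) + (11/20)) =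
        (14203709962033/1724000000000) + ((2611813451/689600000) * (1 - c) ^ 4 + (1451446157/431000000) * (c * (1 - c) ^ 3) + 0 * (c ^ 2 * (1 - c) ^ 2) +
          (4350390313/862000000) * (c ^ 3 * (1 - c)) + (14947921753/3448000000) * c ^ 4) := by
      ring
    rw [e]
    positivity

theorem up_12 : ∀ q : ℝ, 0 ≤ q → q ≤ 1 → up3 ((12 : ℕ) : ℝ) q ≤ (2141/2000) + (18/25) * q := by
  intro q hq hq1
  refine up3_le (by positivity) hq ?_
  unfold ee2 ee3
  push_cast
  nlinarith [mul_nonneg hq (sub_nonneg.2 hq1), sq_nonneg (q - 1), mul_nonneg hq (sq_nonneg (q - 1))]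

theorem par_12 : Par 12 (59/100) (41/10) (69/20) := by
  refine mk_par (l := (39/50)) (u := (2141/2000)) (s := (18/25)) (w := (149/1000)) (X := (257/200)) (by norm_num)
    (by norm_num) (by norm_num) (by norm_num) (by norm_num) (by norm_num) (by norm_num)
    (by norm_num) up_12 (fun σ q B h1 h2 h3 h4 h5 h6 => by
      rw [Nat.cast_ofNat]
      exact PP_pos_12 h1 h2 h3 h4 h5 h6)
    (mm_of (l := (39/50)) (by norm_num) (by norm_num) up_12 fun ζ q B b h1 h2 h3 h4 h5 h6 h7 h8 => by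
      rw [Nat.cast_ofNat]
      exact MM_pos_12 h1 h2 h3 h4 h5 h6 h7 (h8.trans (le_of_eq (by norm_num))))
    (by norm_num) (by norm_num) (by norm_num) (fun t ht ht1 => ?_) (by norm_num)
    (fun c hc hc1 => ?_)
  · nlinarith [mul_nonneg ht (sq_nonneg (t - (343/1000))), mul_nonneg (sub_nonneg.2 ht1) (sq_nonneg (t - (343/1000))),
      mul_nonneg (sub_nonneg.2 ht1) ht, mul_nonneg (sub_nonneg.2 ht1) (mul_nonneg ht ht), mul_nonneg (sub_nonneg.2 ht1) (sq_nonneg (t - 1/2))]
  · have hd : 0 ≤ 1 - c := sub_nonneg.2 hc1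
    have t0 : 0 ≤ (1 - c) ^ 4 := by positivity
    have t1 : 0 ≤ c * (1 - c) ^ 3 := by positivity
    have t2 : 0 ≤ c ^ 2 * (1 - c) ^ 2 := by positivity
    have t3 : 0 ≤ c ^ 3 * (1 - c) := by positivity
    have t4 : 0 ≤ c ^ 4 := by positivity
    push_cast
    have e : (12 : ℝ) * (257/200) * (1 + c ^ 2) - (257/200) * (((2141/2000) + (18/25)) - (((2141/2000) + (18/25)) - (59/100)) * (1 - c ^ 2) / (2 * (257/200))) ^ 2 -
        12 * c * (((257/200) - 1) * ((2141/2000) + (18/25)) + (59/100)) =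
        (1824287971011/205600000000) + ((8833688619/2056000000) * (1 - c) ^ 4 + (2047084479/514000000) * (c * (1 - c) ^ 3) + 0 * (c ^ 2 * (1 - c) ^ 2) +
          (1346217591/257000000) * (c ^ 3 * (1 - c)) + (381916397/82240000) * c ^ 4) := by
      ring
    rw [e]
    positivity

theorem up_13 : ∀ q : ℝ, 0 ≤ q → q ≤ 1 → up3 ((13 : ℕ) : ℝ) q ≤ (2143/2000) + (73/100) * q := by
  intro q hq hq1
  refine up3_le (by positivity) hq ?_
  unfold ee2 ee3
  push_cast
  nlinarith [mul_nonneg hq (sub_nonneg.2 hq1), sq_nonneg (q - 1), mul_nonneg hq (sq_nonneg (q - 1))]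

theorem par_13 : Par 13 (31/50) (79/20) (31/10) := by
  refine mk_par (l := (99/125)) (u := (2143/2000)) (s := (73/100)) (w := (153/1000)) (X := (259/200)) (by norm_num)
    (by norm_num) (by norm_num) (by norm_num) (by norm_num) (by norm_num) (by norm_num)
    (by norm_num) up_13 (fun σ q B h1 h2 h3 h4 h5 h6 => by
      rw [Nat.cast_ofNat]
      exact PP_pos_13 h1 h2 h3 h4 h5 h6)
    (mm_of (l := (99/125)) (by norm_num) (by norm_num) up_13 fun ζ q B b h1 h2 h3 h4 h5 h6 h7 h8 => by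
      rw [Nat.cast_ofNat]
      exact MM_pos_13 h1 h2 h3 h4 h5 h6 h7 (h8.trans (le_of_eq (by norm_num))))
    (by norm_num) (by norm_num) (by norm_num) (fun t ht ht1 => ?_) (by norm_num)
    (fun c hc hc1 => ?_)
  · nlinarith [mul_nonneg ht (sq_nonneg (t - (87/250))), mul_nonneg (sub_nonneg.2 ht1) (sq_nonneg (t - (87/250))),
      mul_nonneg (sub_nonneg.2 ht1) ht, mul_nonneg (sub_nonneg.2 ht1) (mul_nonneg ht ht), mul_nonneg (sub_nonneg.2 ht1) (sq_nonneg (t - 1/2))]
  · have hd : 0 ≤ 1 - c := sub_nonneg.2 hc1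
    have t0 : 0 ≤ (1 - c) ^ 4 := by positivity
    have t1 : 0 ≤ c * (1 - c) ^ 3 := by positivity
    have t2 : 0 ≤ c ^ 2 * (1 - c) ^ 2 := by positivity
    have t3 : 0 ≤ c ^ 3 * (1 - c) := by positivity
    have t4 : 0 ≤ c ^ 4 := by positivity
    push_cast
    have e : (13 : ℝ) * (259/200) * (1 + c ^ 2) - (259/200) * (((2143/2000) + (73/100)) - (((2143/2000) + (73/100)) - (31/50)) * (1 - c ^ 2) / (2 * (259/200))) ^ 2 -
        13 * c * (((259/200) - 1) * ((2143/2000) + (73/100)) + (31/50)) =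
        (1978289676171/207200000000) + ((10242847707/2072000000) * (1 - c) ^ 4 + (311129239/64750000) * (c * (1 - c) ^ 3) + 0 * (c ^ 2 * (1 - c) ^ 2) +
          (2775745971/518000000) * (c ^ 3 * (1 - c)) + (410315797/82880000) * c ^ 4) := by
      ring
    rw [e]
    positivity

end Pool.Agent.H62.SS
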