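import Pool.Agent.H62.SS.Poly

set_option autoImplicit false

/-!
# [H62 SS CBIGM] The second inequality for `N ≥ 14`
-/

namespace Pool.Agent.H62.SS

def bm0 : List (List (List (List ℤ))) :=
  [[[[7941143188079, 0, 0], [0, 0, 0], [0, 0, 0], [0, 0, 0]], [[-7558949210400, 0, 0], [-485325792000, 0, 0], [0, 0, 0], [0, 0, 0]], [[599520096000, 0, 0], [-228388608000, 0, 0], [21751296000, 0, 0], [0, 0, 0]], [[0, 0, 0], [0, 0, 0], [0, 0, 0], [0, 0, 0]], [[0, 0, 0], [0, 0, 0], [0, 0, 0], [0, 0, 0]]], [[[-1443844231200, 0, 0], [0, 0, 0], [0, 0, 0], [0, 0, 0]], [[-1443844231200, 0, 0], [275017948800, 0, 0], [0, 0, 0], [0, 0, 0]], [[-154876024800, 0, 0], [59000390400, 0, 0], [-5619084800, 0, 0], [0, 0, 0]], [[-4408236000, 0, 0], [2518992000, 0, 0], [-479808000, 0, 0], [30464000, 0, 0]], [[0, 0, 0], [0, 0, 0], [0, 0, 0], [0, 0, 0]]], [[[0, 0, 0], [0, 0, 0], [0, 0, 0], [0, 0, 0]], [[11041161768000, -177952790400, 0], [0, 0, 0], [0, 0, 0],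 [0, 0, 0]], [[299760048000, 169388217600, 0], [-283582521600, 10875648000, 0], [0, 0, 0], [0, 0, 0]], [[105503781600, -13434624000, 0], [-40191916800, 5117952000, 0], [3827801600, -487424000, 0], [0, 0, 0]], [[0, 0, 0], [0, 0, 0], [0, 0, 0], [0, 0, 0]]], [[[0, 0, 0], [0, 0, 0], [0, 0, 0], [0, 0, 0]], [[-1273980204000, 242662896000, 0], [0, 0, 0], [0, 0, 0], [0, 0, 0]], [[-1273980204000, 242662896000, 0], [242662896000, -46221504000, 0], [0, 0, 0], [0, 0, 0]], [[-136655316000, 26029584000, 0], [52059168000, -9916032000, 0], [-4958016000, 944384000, 0], [0, 0, 0]], [[-3889620000, 740880000, 0], [2222640000, -423360000, 0], [-423360000, 80640000, 0], [26880000, -5120000, 0]]], [[[0, 0, 0], [0, 0, 0], [0, 0, 0], [0, 0, 0]], [[0, 0, 0], [0, 0, 0], [0, 0, 0], [0, 0, 0]], [[552058088400, -210307843200, 20029318400], [0, 0, 0], [0, 0, 0], [0, 0, 0]], [[35559770400, -13546579200, 1290150400], [-13434624000, 5117952000, -487424000],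 [0, 0, 0], [0, 0, 0]], [[3889620000, -1481760000, 141120000], [-1481760000, 564480000, -53760000], [141120000, -53760000, 5120000], [0, 0, 0]]]]

def bm0b0 : List (List (List (List ℤ))) :=
  [[[[551878221680512, 0, 0], [-38369286144000, 0, 0], [696041472000, 0, 0], [0, 0, 0]], [[-445403463321600, 0, 0], [-45677721600000, 0, 0], [1392082944000, 0, 0], [0, 0, 0]], [[19184643072000, 0, 0], [-7308435456000, 0, 0], [696041472000, 0, 0], [0, 0, 0]], [[0, 0, 0], [0, 0, 0], [0, 0, 0], [0, 0, 0]], [[0, 0, 0], [0, 0, 0], [0, 0, 0], [0, 0, 0]]], [[[-70561164240000, 0, 0], [4882366272000, 0, 0], [-46871910400, 0, 0], [121856000, 0, 0]], [[-25632422928000, 0, 0], [5374521331200, 0, 0], [-95663052800, 0, 0], [365568000, 0, 0]], [[-1291907030400, 0, 0], [502231027200, 0, 0], [-50710374400, 0, 0], [365568000, 0, 0]], [[-17632944000, 0, 0], [10075968000, 0, 0], [-1919232000, 0, 0], [121856000, 0, 0]], [[0, 0, 0], [0, 0, 0], [0, 0, 0], [0,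 0, 0]]], [[[44869670949600, -386469350400, 0], [-607356960000, 26869248000, 0], [3827801600, -487424000, 0], [0, 0, 0]], [[45680198608800, -74562163200, 0], [-1254905836800, 58856448000, 0], [11483404800, -1462272000, 0], [0, 0, 0]], [[916031440800, 298472563200, 0], [-687740793600, 37105152000, 0], [11483404800, -1462272000, 0], [0, 0, 0]], [[105503781600, -13434624000, 0], [-40191916800, 5117952000, 0], [3827801600, -487424000, 0], [0, 0, 0]], [[0, 0, 0], [0, 0, 0], [0, 0, 0], [0, 0, 0]]], [[[-1945620337500, 370594350000, 0], [134624070000, -25642680000, 0], [-1292424000, 246176000, 0], [3360000, -640000, 0]], [[-2652396705000, 505218420000, 0], [282818592000, -53870208000, 0], [-3930192000, 748608000, 0], [13440000, -2560000, 0]], [[-742398804000, 141409296000, 0], [162042804000, -30865296000, 0], [-4036032000, 768768000, 0], [20160000, -3840000, 0]], [[-36108639000, 6877836000, 0], [14126112000, -2690688000, 0], [-1451184000,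 276416000, 0], [13440000, -2560000, 0]], [[-486202500, 92610000, 0], [277830000, -52920000, 0], [-52920000, 10080000, 0], [3360000, -640000, 0]]], [[[71351297325, -27181446600, 2588709200], [-885969000, 337512000, -32144000], [4410000, -1680000, 160000], [0, 0, 0]], [[145168181550, -55302164400, 5266872800], [-2704212000, 1030176000, -98112000], [17640000, -6720000, 640000], [0, 0, 0]], [[76404021750, -29106294000, 2772028000], [-2796822000, 1065456000, -101472000], [26460000, -10080000, 960000], [0, 0, 0]], [[2708688150, -1031881200, 98274400], [-1024884000, 390432000, -37184000], [17640000, -6720000, 640000], [0, 0, 0]], [[121550625, -46305000, 4410000], [-46305000, 17640000, -1680000], [4410000, -1680000, 160000], [0, 0, 0]]]]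

theorem bm0e0 (z q s r : ℝ) : 128 * ev4 bm0 (0 + (1/4) * z) ((1/2) + (1/2) * q) s r = ev4 bm0b0 z q s r := by
  simp only [bm0, bm0b0, ev4, ev3, ev2, ev1, evg]
  push_cast
  ring

theorem bm0n0 {z q s r : ℝ} (hz : 0 ≤ z) (hz1 : z ≤ (1/4)) (hq : (1/2) ≤ q) (hq1 : q ≤ 1) (hs : 0 ≤ s) (hs1 : s ≤ 1) (hr : 0 ≤ r) (hr1 : r ≤ 1) : 0 ≤ ev4 bm0 z q s r := by
  have h := chk4_sound (w := ((z - 0) / (1/4))) (x := ((q - (1/2)) / (1/2))) (by linarith) (by linarith) (by linarith) (by linarith) hs hs1 hr hr1 bm0b0 (by decide +kernel)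
  rw [← bm0e0] at h
  rw [show (0 + (1/4) * ((z - 0) / (1/4))) = z by ring] at h
  rw [show ((1/2) + (1/2) * ((q - (1/2)) / (1/2))) = q by ring] at h
  linarith

def bm0b1 : List (List (List (List ℤ))) :=
  [[[[63529145504632, 0, 0], [0, 0, 0], [0, 0, 0], [0, 0, 0]], [[-30235796841600, 0, 0], [-1941303168000, 0, 0], [0, 0, 0], [0, 0, 0]], [[1199040192000, 0, 0], [-456777216000, 0, 0], [43502592000, 0, 0], [0, 0, 0]], [[0, 0, 0], [0, 0, 0], [0, 0, 0], [0, 0, 0]], [[0, 0, 0], [0, 0, 0], [0, 0, 0], [0, 0, 0]]], [[[-5775376924800, 0, 0], [0, 0, 0], [0, 0, 0], [0, 0, 0]], [[-2887688462400, 0, 0], [550035897600, 0, 0], [0, 0, 0], [0, 0, 0]], [[-154876024800, 0, 0], [59000390400, 0, 0], [-5619084800, 0, 0], [0, 0, 0]], [[-2204118000, 0, 0], [1259496000, 0, 0], [-239904000, 0, 0], [15232000, 0, 0]], [[0, 0, 0], [0, 0, 0], [0, 0, 0], [0, 0, 0]]], [[[0, 0, 0], [0, 0, 0], [0, 0, 0], [0, 0, 0]], [[11041161768000, -177952790400, 0], [0,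 0, 0], [0, 0, 0], [0, 0, 0]], [[149880024000, 84694108800, 0], [-141791260800, 5437824000, 0], [0, 0, 0], [0, 0, 0]], [[26375945400, -3358656000, 0], [-10047979200, 1279488000, 0], [956950400, -121856000, 0], [0, 0, 0]], [[0, 0, 0], [0, 0, 0], [0, 0, 0], [0, 0, 0]]], [[[0, 0, 0], [0, 0, 0], [0, 0, 0], [0, 0, 0]], [[-636990102000, 121331448000, 0], [0, 0, 0], [0, 0, 0], [0, 0, 0]], [[-318495051000, 60665724000, 0], [60665724000, -11555376000, 0], [0, 0, 0], [0, 0, 0]], [[-17081914500, 3253698000, 0], [6507396000, -1239504000, 0], [-619752000, 118048000, 0], [0, 0, 0]], [[-243101250, 46305000, 0], [138915000, -26460000, 0], [-26460000, 5040000, 0], [1680000, -320000, 0]]], [[[0, 0, 0], [0, 0, 0], [0, 0, 0], [0, 0, 0]], [[0, 0, 0], [0, 0, 0], [0, 0, 0], [0, 0, 0]], [[69007261050, -26288480400, 2503664800], [0, 0, 0], [0, 0, 0], [0, 0, 0]], [[2222485650, -846661200, 80634400], [-839664000, 319872000, -30464000], [0, 0, 0], [0,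 0, 0]], [[121550625, -46305000, 4410000], [-46305000, 17640000, -1680000], [4410000, -1680000, 160000], [0, 0, 0]]]]

theorem bm0e1 (z q s r : ℝ) : 8 * ev4 bm0 (0 + (1/2) * z) (0 + (1/2) * q) s r = ev4 bm0b1 z q s r := by
  simp only [bm0, bm0b1, ev4, ev3, ev2, ev1, evg]
  push_cast
  ring

theorem bm0n1 {z q s r : ℝ} (hz : 0 ≤ z) (hz1 : z ≤ (1/2)) (hq : 0 ≤ q) (hq1 : q ≤ (1/2)) (hs : 0 ≤ s) (hs1 : s ≤ 1) (hr : 0 ≤ r) (hr1 : r ≤ 1) : 0 ≤ ev4 bm0 z q s r := by
  have h := chk4_sound (w := ((z - 0) / (1/2))) (x := ((q - 0) / (1/2))) (by linarith) (by linarith) (by linarith) (by linarith) hs hs1 hr hr1 bm0b1 (by decide +kernel)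
  rw [← bm0e1] at h
  rw [show (0 + (1/2) * ((z - 0) / (1/2))) = z by ring] at h
  rw [show (0 + (1/2) * ((q - 0) / (1/2))) = q by ring] at h
  linarith

def bm0b2 : List (List (List (List ℤ))) :=
  [[[[524312459349937, -43056447000, 2588709200], [-33960538731000, 1564080000, -32144000], [651709349200, -242928000, 160000], [125216000, -640000, 0]], [[-427862916164250, 375354092400, 5266872800], [-41277991725600, 6016416000, -98112000], [1303990744000, -720384000, 640000], [379008000, -2560000, 0]], [[18142772700150, 410775565200, 2772028000], [-7334699240400, 7305312000, -101472000], [652804930400, -703584000, 960000], [385728000, -3840000, 0]], [[54470886750, -7588669200, 98274400], [-17014720800, 2817696000, -37184000], [475025600, -217728000, 640000], [135296000, -2560000, 0]], [[-364651875, 46305000, 4410000], [231525000, -35280000, -1680000], [-48510000, 8400000, 160000], [3360000, -640000, 0]]], [[[13626721836000, 230118562800,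 10354836800], [4067980686000, -21839496000, -128576000], [-43075939200, -243040000, 640000], [131936000, -1920000, 0]], [[58351456900800, 1145322276000, 21067491200], [3702348585600, -39777024000, -392448000], [-84416259200, -705600000, 2560000], [405888000, -7680000, 0]], [[-1381424473800, 904747838400, 11088112000], [-398309436000, -14123760000, -405888000], [-39745820800, -658560000, 3840000], [426048000, -11520000, 0]], [[95883454800, -10363264800, 393097600], [-32029065600, 3725568000, -148736000], [1453379200, -172480000, 2560000], [162176000, -7680000, 0]], [[-972405000, 92610000, 17640000], [648270000, -88200000, -6720000], [-141120000, 23520000, 640000], [10080000, -1920000, 0]]], [[[39460917721050, 562225020000, 15532255200], [-208800564000, -48033720000, -192864000], [-23010400, 241024000, 960000], [10080000, -1920000, 0]], [[38594017583100, 1109280110400, 31601236800], [-422675332800, -96573120000, -588672000],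 [-201331200, 743232000, 3840000], [40320000, -7680000, 0]], [[-852740840700, 548062687200, 16632168000], [-218393313600, -49098000000, -608832000], [-465931200, 783552000, 5760000], [60480000, -11520000, 0]], [[13429993500, 1007596800, 589646400], [-3962884800, -611520000, -223104000], [-419910400, 301504000, 3840000], [40320000, -7680000, 0]], [[-729303750, 0, 26460000], [555660000, -52920000, -10080000], [-132300000, 20160000, 960000], [10080000, -1920000, 0]]], [[[-1660215148200, 261868563600, 10354836800], [131080194000, -24292632000, -128576000], [-1274784000, 239456000, 640000], [3360000, -640000, 0]], [[-2071723978800, 284009762400, 21067491200], [272001744000, -49749504000, -392448000], [-3859632000, 721728000, 2560000], [13440000, -2560000, 0]], [[-436782717000, 24984120000, 11088112000], [150855516000, -26603472000, -405888000], [-3930192000, 728448000, 3840000], [20160000, -3840000, 0]], [[-25273886400, 2750311200,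 393097600], [10026576000, -1128960000, -148736000], [-1380624000, 249536000, 2560000], [13440000, -2560000, 0]], [[0, -92610000, 17640000], [92610000, 17640000, -6720000], [-35280000, 3360000, 640000], [3360000, -640000, 0]]], [[[71351297325, -27181446600, 2588709200], [-885969000, 337512000, -32144000], [4410000, -1680000, 160000], [0, 0, 0]], [[145168181550, -55302164400, 5266872800], [-2704212000, 1030176000, -98112000], [17640000, -6720000, 640000], [0, 0, 0]], [[76404021750, -29106294000, 2772028000], [-2796822000, 1065456000, -101472000], [26460000, -10080000, 960000], [0, 0, 0]], [[2708688150, -1031881200, 98274400], [-1024884000, 390432000, -37184000], [17640000, -6720000, 640000], [0, 0, 0]], [[121550625, -46305000, 4410000], [-46305000, 17640000, -1680000], [4410000, -1680000, 160000], [0, 0, 0]]]]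

theorem bm0e2 (z q s r : ℝ) : 128 * ev4 bm0 ((1/4) + (1/4) * z) ((1/2) + (1/2) * q) s r = ev4 bm0b2 z q s r := by
  simp only [bm0, bm0b2, ev4, ev3, ev2, ev1, evg]
  push_cast
  ring

theorem bm0n2 {z q s r : ℝ} (hz : (1/4) ≤ z) (hz1 : z ≤ (1/2)) (hq : (1/2) ≤ q) (hq1 : q ≤ 1) (hs : 0 ≤ s) (hs1 : s ≤ 1) (hr : 0 ≤ r) (hr1 : r ≤ 1) : 0 ≤ ev4 bm0 z q s r := by
  have h := chk4_sound (w := ((z - (1/4)) / (1/4))) (x := ((q - (1/2)) / (1/2))) (by linarith) (by linarith) (by linarith) (by linarith) hs hs1 hr hr1 bm0b2 (by decide +kernel)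
  rw [← bm0e2] at h
  rw [show ((1/4) + (1/4) * ((z - (1/4)) / (1/4))) = z by ring] at h
  rw [show ((1/2) + (1/2) * ((q - (1/2)) / (1/2))) = q by ring] at h
  linarith

def bm0b3 : List (List (List (List ℤ))) :=
  [[[[7219221072479, 0, 0], [0, 0, 0], [0, 0, 0], [0, 0, 0]], [[-5679828409500, -14155335600, 0], [-347816817600, 0, 0], [0, 0, 0], [0, 0, 0]], [[472278200625, 59535676200, 1251832400], [-239451181200, -3058776000, 0], [18941753600, 0, 0], [0, 0, 0]], [[9312398550, -951619200, 80634400], [-3120751200, 359856000, -30464000], [97294400, -3808000, 0], [15232000, 0, 0]], [[-243101250, 0, 8820000], [185220000, -17640000, -3360000], [-44100000, 6720000, 320000], [3360000, -640000, 0]]], [[[-721922115600, 0, 0], [0, 0, 0], [0, 0, 0], [0, 0, 0]], [[4320916191900, 2022190800, 0], [137508974400, 0, 0], [0, 0, 0], [0, 0, 0]], [[-267286042800, 123115734000, 5007329600], [-21292479600, -11895240000, 0], [-2809542400, 0, 0], [0,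 0, 0]], [[8191971900, -342862800, 322537600], [-2672930400, 119952000, -121856000], [-185259200, 110432000, 0], [15232000, 0, 0]], [[-486202500, -92610000, 35280000], [463050000, -17640000, -13440000], [-123480000, 16800000, 1280000], [10080000, -1920000, 0]]], [[[0, 0, 0], [0, 0, 0], [0, 0, 0], [0, 0, 0]], [[2282547865500, 46510388400, 0], [0, 0, 0], [0, 0, 0], [0, 0, 0]], [[-195780781350, 54480199200, 7510994400], [20102955600, -14614152000, 0], [0, 0, 0], [0, 0, 0]], [[-11534884200, 1322470800, 483806400], [4436224800, -519792000, -182784000], [-902305600, 232288000, 0], [0, 0, 0]], [[0, -277830000, 52920000], [277830000, 52920000, -20160000], [-105840000, 10080000, 1920000], [10080000, -1920000, 0]]], [[[0, 0, 0], [0, 0, 0], [0, 0, 0], [0, 0, 0]], [[-159247525500, 30332862000, 0], [0, 0, 0], [0, 0, 0], [0, 0, 0]], [[-21233003400, -22244098800, 5007329600], [30332862000, -5777688000, 0], [0, 0, 0], [0, 0, 0]], [[-8191971900,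 -132946800, 322537600], [3148740000, 39984000, -121856000], [-619752000, 118048000, 0], [0, 0, 0]], [[486202500, -277830000, 35280000], [-92610000, 88200000, -13440000], [-17640000, -3360000, 1280000], [3360000, -640000, 0]]], [[[0, 0, 0], [0, 0, 0], [0, 0, 0], [0, 0, 0]], [[0, 0, 0], [0, 0, 0], [0, 0, 0], [0, 0, 0]], [[34503630525, -13144240200, 1251832400], [0, 0, 0], [0, 0, 0], [0, 0, 0]], [[2222485650, -846661200, 80634400], [-839664000, 319872000, -30464000], [0, 0, 0], [0, 0, 0]], [[243101250, -92610000, 8820000], [-92610000, 35280000, -3360000], [8820000, -3360000, 320000], [0, 0, 0]]]]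

theorem bm0e3 (z q s r : ℝ) : 1 * ev4 bm0 ((1/2) + (1/2) * z) q s r = ev4 bm0b3 z q s r := by
  simp only [bm0, bm0b3, ev4, ev3, ev2, ev1, evg]
  push_cast
  ring

theorem bm0n3 {z q s r : ℝ} (hz : (1/2) ≤ z) (hz1 : z ≤ 1) (hq : 0 ≤ q) (hq1 : q ≤ 1) (hs : 0 ≤ s) (hs1 : s ≤ 1) (hr : 0 ≤ r) (hr1 : r ≤ 1) : 0 ≤ ev4 bm0 z q s r := by
  have h := chk4_sound (w := ((z - (1/2)) / (1/2))) (by linarith) (by linarith) hq hq1 hs hs1 hr hr1 bm0b3 (by decide +kernel)
  rw [← bm0e3] at h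
  rw [show ((1/2) + (1/2) * ((z - (1/2)) / (1/2))) = z by ring] at h
  linarith

theorem bm0_nn {z q s r : ℝ} (hz : 0 ≤ z) (hz1 : z ≤ 1) (hq : 0 ≤ q) (hq1 : q ≤ 1) (hs : 0 ≤ s) (hs1 : s ≤ 1) (hr : 0 ≤ r) (hr1 : r ≤ 1) : 0 ≤ ev4 bm0 z q s r := by
  rcases le_total z (1/2) with cz2 | cz2
  · rcases le_total q (1/2) with cq4 | cq4
    · exact bm0n1 (by linarith) (by linarith) (by linarith) (by linarith) (by linarith) (by linarith) (by linarith) (by linarith)
    · rcases le_total z (1/4) with cz6 | cz6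
      · exact bm0n0 (by linarith) (by linarith) (by linarith) (by linarith) (by linarith) (by linarith) (by linarith) (by linarith)
      · exact bm0n2 (by linarith) (by linarith) (by linarith) (by linarith) (by linarith) (by linarith) (by linarith) (by linarith)
  · exact bm0n3 (by linarith) (by linarith) (by linarith) (by linarith) (by linarith) (by linarith) (by linarith) (by linarith)

def bm1 : List (List (List (List ℤ))) :=
  [[[[238214076240, 0, 0], [0, 0, 0], [0, 0, 0], [0, 0, 0]], [[-227365617360, 0, 0], [-9924028800, 0, 0], [0, 0, 0], [0, 0, 0]], [[15302876400, 0, 0], [-4742102400, 0, 0], [348051200, 0, 0], [0, 0, 0]], [[0, 0, 0], [0, 0, 0], [0, 0, 0], [0, 0, 0]], [[0, 0, 0], [0, 0, 0], [0, 0, 0], [0, 0, 0]]], [[[-35590558080, 0, 0], [0, 0, 0], [0, 0, 0], [0, 0, 0]], [[-35733300960, 0, 0], [5496733760, 0, 0], [0, 0, 0], [0, 0, 0]], [[-3364253760, 0, 0], [1000666240, 0, 0], [-68544000, 0, 0], [0, 0, 0]], [[-81496800,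 0, 0], [34574400, 0, 0], [-4300800, 0, 0], [128000, 0, 0]], [[0, 0, 0], [0, 0, 0], [0, 0, 0], [0, 0, 0]]], [[[0, 0, 0], [0, 0, 0], [0, 0, 0], [0, 0, 0]], [[316484755440, -3892575680, 0], [0, 0, 0], [0, 0, 0], [0, 0, 0]], [[6549379200, 3719045120, 0], [-5670264320, 134041600, 0], [0, 0, 0], [0, 0, 0]], [[2337147120, -233788800, 0], [-698951680, 64691200, 0], [48339200, -3840000, 0], [0, 0, 0]], [[0, 0, 0], [0, 0, 0], [0, 0, 0], [0, 0, 0]]], [[[0, 0, 0], [0, 0, 0], [0, 0, 0], [0, 0, 0]], [[-32117148000, 4962014400, 0], [0, 0, 0], [0, 0, 0], [0, 0, 0]], [[-32243097600, 4986004800, 0], [4986004800, -729612800, 0], [0, 0, 0], [0, 0, 0]], [[-3045016800, 456052800, 0], [912105600, -126515200, 0], [-63257600, 7552000, 0], [0, 0, 0]], [[-74088000, 10584000, 0], [31752000, -4032000, 0], [-4032000, 384000, 0], [128000, 0, 0]]], [[[0, 0, 0], [0, 0, 0], [0, 0, 0], [0, 0, 0]], [[0, 0, 0], [0, 0, 0], [0, 0, 0], [0, 0, 0]], [[14305075680,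 -4448086720, 328249600], [0, 0, 0], [0, 0, 0], [0, 0, 0]], [[789366480, -236203520, 16352000], [-233788800, 64691200, -3840000], [0, 0, 0], [0, 0, 0]], [[74088000, -21168000, 1344000], [-21168000, 5376000, -256000], [1344000, -256000, 0], [0, 0, 0]]]]

def bm1b0 : List (List (List (List ℤ))) :=
  [[[[238214076240, 0, 0], [0, 0, 0], [0, 0, 0], [0, 0, 0]], [[-227365617360, 0, 0], [-9924028800, 0, 0], [0, 0, 0], [0, 0, 0]], [[15302876400, 0, 0], [-4742102400, 0, 0], [348051200, 0, 0], [0, 0, 0]], [[0, 0, 0], [0, 0, 0], [0, 0, 0], [0, 0, 0]], [[0, 0, 0], [0, 0, 0], [0, 0, 0], [0, 0, 0]]], [[[-17795279040, 0, 0], [0, 0, 0], [0, 0, 0], [0, 0, 0]], [[-17866650480, 0, 0], [2748366880, 0, 0], [0, 0, 0], [0, 0, 0]], [[-1682126880, 0, 0], [500333120, 0, 0], [-34272000, 0, 0], [0, 0, 0]], [[-40748400, 0, 0], [17287200, 0, 0], [-2150400, 0, 0], [64000, 0, 0]], [[0, 0, 0], [0, 0, 0], [0, 0, 0], [0, 0, 0]]], [[[0, 0, 0], [0, 0, 0], [0,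 0, 0], [0, 0, 0]], [[79121188860, -973143920, 0], [0, 0, 0], [0, 0, 0], [0, 0, 0]], [[1637344800, 929761280, 0], [-1417566080, 33510400, 0], [0, 0, 0], [0, 0, 0]], [[584286780, -58447200, 0], [-174737920, 16172800, 0], [12084800, -960000, 0], [0, 0, 0]], [[0, 0, 0], [0, 0, 0], [0, 0, 0], [0, 0, 0]]], [[[0, 0, 0], [0, 0, 0], [0, 0, 0], [0, 0, 0]], [[-4014643500, 620251800, 0], [0, 0, 0], [0, 0, 0], [0, 0, 0]], [[-4030387200, 623250600, 0], [623250600, -91201600, 0], [0, 0, 0], [0, 0, 0]], [[-380627100, 57006600, 0], [114013200, -15814400, 0], [-7907200, 944000, 0], [0, 0, 0]], [[-9261000, 1323000, 0], [3969000, -504000, 0], [-504000, 48000, 0], [16000, 0, 0]]], [[[0, 0, 0], [0, 0, 0], [0, 0, 0], [0, 0, 0]], [[0, 0, 0], [0, 0, 0], [0, 0, 0], [0, 0, 0]], [[894067230, -278005420, 20515600], [0, 0, 0], [0, 0, 0], [0, 0, 0]], [[49335405, -14762720, 1022000], [-14611800, 4043200, -240000], [0, 0, 0], [0, 0, 0]], [[4630500, -1323000,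 84000], [-1323000, 336000, -16000], [84000, -16000, 0], [0, 0, 0]]]]

theorem bm1e0 (z q s r : ℝ) : 1 * ev4 bm1 (0 + (1/2) * z) q s r = ev4 bm1b0 z q s r := by
  simp only [bm1, bm1b0, ev4, ev3, ev2, ev1, evg]
  push_cast
  ring

theorem bm1n0 {z q s r : ℝ} (hz : 0 ≤ z) (hz1 : z ≤ (1/2)) (hq : 0 ≤ q) (hq1 : q ≤ 1) (hs : 0 ≤ s) (hs1 : s ≤ 1) (hr : 0 ≤ r) (hr1 : r ≤ 1) : 0 ≤ ev4 bm1 z q s r := by
  have h := chk4_sound (w := ((z - 0) / (1/2))) (by linarith) (by linarith) hq hq1 hs hs1 hr hr1 bm1b0 (by decide +kernel)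
  rw [← bm1e0] at h
  rw [show (0 + (1/2) * ((z - 0) / (1/2))) = z by ring] at h
  linarith

def bm1b1 : List (List (List (List ℤ))) :=
  [[[[220418797200, 0, 0], [0, 0, 0], [0, 0, 0], [0, 0, 0]], [[-170125722480, -352892120, 0], [-7175661920, 0, 0], [0, 0, 0], [0, 0, 0]], [[12121774350, 1275006460, 20515600], [-5036084760, -57691200, 0], [313779200, 0, 0], [0, 0, 0]], [[212246685, -16203320, 1022000], [-58049320, 4401600, -240000], [2027200, -16000, 0], [64000, 0, 0]], [[-4630500, 0, 84000], [2646000, -168000, -16000], [-420000, 32000, 0], [16000, 0, 0]]], [[[-17795279040, 0, 0], [0, 0, 0], [0, 0, 0], [0, 0, 0]], [[128331796740, -85532440, 0], [2748366880, 0, 0], [0, 0, 0], [0, 0, 0]], [[-6922329960, 2617252680, 82062400], [-465047240, -206584000, 0], [-34272000, 0, 0], [0, 0, 0]], [[183285480, -4925480, 4088000], [-48596240, 1075200, -960000], [-1702400, 912000, 0], [64000, 0, 0]], [[-9261000, -1323000, 336000], [6615000,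 -168000, -64000], [-1176000, 80000, 0], [48000, 0, 0]]], [[[0, 0, 0], [0, 0, 0], [0, 0, 0], [0, 0, 0]], [[67077258360, 887611480, 0], [0, 0, 0], [0, 0, 0], [0, 0, 0]], [[-5089413420, 1131480560, 123093600], [452185720, -240094400, 0], [0, 0, 0], [0, 0, 0]], [[-261582090, 23996280, 6132000], [79630880, -7011200, -1440000], [-11636800, 1872000, 0], [0, 0, 0]], [[0, -3969000, 504000], [3969000, 504000, -96000], [-1008000, 48000, 0], [48000, 0, 0]]], [[[0, 0, 0], [0, 0, 0], [0, 0, 0], [0, 0, 0]], [[-4014643500, 620251800, 0], [0, 0, 0], [0, 0, 0], [0, 0, 0]], [[-454118280, -488771080, 82062400], [623250600, -91201600, 0], [0, 0, 0], [0, 0, 0]], [[-183285480, -2044280, 4088000], [55566000, 358400, -960000], [-7907200, 944000, 0], [0, 0, 0]], [[9261000, -3969000, 336000], [-1323000, 840000, -64000], [-168000, -16000, 0], [16000, 0, 0]]], [[[0, 0, 0], [0, 0, 0], [0, 0, 0], [0, 0, 0]], [[0, 0, 0], [0, 0, 0], [0, 0, 0], [0, 0, 0]],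 [[894067230, -278005420, 20515600], [0, 0, 0], [0, 0, 0], [0, 0, 0]], [[49335405, -14762720, 1022000], [-14611800, 4043200, -240000], [0, 0, 0], [0, 0, 0]], [[4630500, -1323000, 84000], [-1323000, 336000, -16000], [84000, -16000, 0], [0, 0, 0]]]]

theorem bm1e1 (z q s r : ℝ) : 1 * ev4 bm1 ((1/2) + (1/2) * z) q s r = ev4 bm1b1 z q s r := by
  simp only [bm1, bm1b1, ev4, ev3, ev2, ev1, evg]
  push_cast
  ring

theorem bm1n1 {z q s r : ℝ} (hz : (1/2) ≤ z) (hz1 : z ≤ 1) (hq : 0 ≤ q) (hq1 : q ≤ 1) (hs : 0 ≤ s) (hs1 : s ≤ 1) (hr : 0 ≤ r) (hr1 : r ≤ 1) : 0 ≤ ev4 bm1 z q s r := by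
  have h := chk4_sound (w := ((z - (1/2)) / (1/2))) (by linarith) (by linarith) hq hq1 hs hs1 hr hr1 bm1b1 (by decide +kernel)
  rw [← bm1e1] at h
  rw [show ((1/2) + (1/2) * ((z - (1/2)) / (1/2))) = z by ring] at h
  linarith

theorem bm1_nn {z q s r : ℝ} (hz : 0 ≤ z) (hz1 : z ≤ 1) (hq : 0 ≤ q) (hq1 : q ≤ 1) (hs : 0 ≤ s) (hs1 : s ≤ 1) (hr : 0 ≤ r) (hr1 : r ≤ 1) : 0 ≤ ev4 bm1 z q s r := by
  rcases le_total z (1/2) with cz2 | cz2
  · exact bm1n0 (by linarith) (by linarith) (by linarith) (by linarith) (by linarith) (by linarith) (by linarith) (by linarith)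
  · exact bm1n1 (by linarith) (by linarith) (by linarith) (by linarith) (by linarith) (by linarith) (by linarith) (by linarith)

def bm2 : List (List (List (List ℤ))) :=
  [[[[51966451768, 0, 0], [0, 0, 0], [0, 0, 0]], [[-49825648432, 0, 0], [-1379524160, 0, 0], [0, 0, 0]], [[2761894800, 0, 0], [-668265920, 0, 0], [35468800, 0, 0]], [[0, 0, 0], [0, 0, 0], [0, 0, 0]], [[0, 0, 0], [0, 0, 0], [0, 0, 0]]], [[[-6212940496, 0, 0], [0, 0, 0], [0, 0, 0]], [[-6253044448, 0, 0], [746082400, 0, 0], [0, 0, 0]], [[-496028176, 0, 0], [107956800, 0, 0], [-4732800, 0, 0]], [[-9596160, 0, 0], [2684640, 0, 0], [-163200, 0, 0]], [[0, 0, 0], [0, 0, 0], [0, 0, 0]]], [[[0, 0, 0], [0, 0, 0], [0, 0, 0]], [[65970094736, -577121440, 0], [0, 0, 0], [0, 0, 0]], [[971611200, 555511040, 0], [-767692800, 9356800, 0], [0, 0, 0]], [[351375472, -25842880, 0], [-77275520, 4608000, 0], [3446400, -128000, 0]], [[0, 0, 0], [0, 0, 0], [0, 0, 0]]], [[[0, 0, 0],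 [0, 0, 0], [0, 0, 0]], [[-5730107040, 689762080, 0], [0, 0, 0], [0, 0, 0]], [[-5766692400, 694788640, 0], [694788640, -73276800, 0], [0, 0, 0]], [[-460474560, 50790880, 0], [101581760, -9107200, 0], [-4553600, 256000, 0]], [[-8996400, 856800, 0], [2570400, -163200, 0], [-163200, 0, 0]]], [[[0, 0, 0], [0, 0, 0], [0, 0, 0]], [[0, 0, 0], [0, 0, 0], [0, 0, 0]], [[2619998248, -638011360, 34190400], [0, 0, 0], [0, 0, 0]], [[118695248, -26096000, 1161600], [-25842880, 4608000, -128000], [0, 0, 0]], [[8996400, -1713600, 54400], [-1713600, 217600, 0], [54400, 0, 0]]]]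

def bm2b0 : List (List (List (List ℤ))) :=
  [[[[103932903536, 0, 0], [0, 0, 0], [0, 0, 0]], [[-99651296864, 0, 0], [-2759048320, 0, 0], [0, 0, 0]], [[5523789600, 0, 0], [-1336531840, 0, 0], [70937600, 0, 0]], [[0, 0, 0], [0, 0, 0], [0, 0, 0]], [[0, 0, 0], [0, 0, 0], [0, 0, 0]]], [[[-6212940496, 0, 0], [0, 0, 0], [0, 0, 0]], [[-6253044448, 0, 0], [746082400, 0, 0], [0, 0, 0]], [[-496028176, 0, 0], [107956800, 0, 0], [-4732800, 0, 0]], [[-9596160, 0, 0], [2684640, 0, 0], [-163200, 0, 0]], [[0, 0, 0], [0, 0, 0], [0, 0, 0]]], [[[0, 0, 0], [0, 0, 0], [0, 0, 0]], [[32985047368, -288560720, 0], [0, 0, 0], [0, 0, 0]], [[485805600, 277755520, 0], [-383846400, 4678400, 0], [0, 0, 0]], [[175687736, -12921440, 0], [-38637760, 2304000, 0], [1723200, -64000, 0]], [[0, 0, 0], [0, 0, 0], [0, 0, 0]]], [[[0, 0, 0], [0, 0, 0], [0, 0, 0]], [[-1432526760, 172440520, 0], [0, 0, 0], [0, 0, 0]], [[-1441673100, 173697160, 0], [173697160, -18319200,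 0], [0, 0, 0]], [[-115118640, 12697720, 0], [25395440, -2276800, 0], [-1138400, 64000, 0]], [[-2249100, 214200, 0], [642600, -40800, 0], [-40800, 0, 0]]], [[[0, 0, 0], [0, 0, 0], [0, 0, 0]], [[0, 0, 0], [0, 0, 0], [0, 0, 0]], [[327499781, -79751420, 4273800], [0, 0, 0], [0, 0, 0]], [[14836906, -3262000, 145200], [-3230360, 576000, -16000], [0, 0, 0]], [[1124550, -214200, 6800], [-214200, 27200, 0], [6800, 0, 0]]]]

theorem bm2e0 (z q s r : ℝ) : 2 * ev4 bm2 (0 + (1/2) * z) q s r = ev4 bm2b0 z q s r := by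
  simp only [bm2, bm2b0, ev4, ev3, ev2, ev1, evg]
  push_cast
  ring

theorem bm2n0 {z q s r : ℝ} (hz : 0 ≤ z) (hz1 : z ≤ (1/2)) (hq : 0 ≤ q) (hq1 : q ≤ 1) (hs : 0 ≤ s) (hs1 : s ≤ 1) (hr : 0 ≤ r) (hr1 : r ≤ 1) : 0 ≤ ev4 bm2 z q s r := by
  have h := chk4_sound (w := ((z - 0) / (1/2))) (by linarith) (by linarith) hq hq1 hs hs1 hr hr1 bm2b0 (by decide +kernel)
  rw [← bm2e0] at h
  rw [show (0 + (1/2) * ((z - 0) / (1/2))) = z by ring] at h
  linarith

def bm2b1 : List (List (List (List ℤ))) :=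
  [[[[97719963040, 0, 0], [0, 0, 0], [0, 0, 0]], [[-74351820704, -116120200, 0], [-2012965920, 0, 0], [0, 0, 0]], [[4399393705, 371701260, 4273800], [-1438724280, -13640800, 0], [66204800, 0, 0]], [[65809842, -3485720, 145200], [-13788040, 603200, -16000], [421600, 0, 0]], [[-1124550, 0, 6800], [428400, -13600, 0], [-34000, 0, 0]]], [[[-6212940496, 0, 0], [0, 0, 0], [0, 0, 0]], [[55419470008, -59799880, 0], [746082400, 0, 0], [0, 0, 0]], [[-2539437152, 757596840, 17095200], [-138644520, -45600800, 0], [-4732800, 0, 0]], [[55771016, -797720, 580800], [-11326000, 81600, -64000], [-132000, 64000, 0]], [[-2249100, -214200, 27200], [1071000, -13600, 0], [-95200, 0, 0]]], [[[0, 0, 0], [0, 0, 0], [0, 0, 0]], [[28687467088, 228760840, 0], [0, 0, 0], [0, 0, 0]], [[-1874215014, 320338480, 25642800], [137245080, -50279200, 0], [0, 0, 0]], [[-80646748, 5599720, 871200], [18166400, -1070400, -96000], [-1692000, 128000, 0]], [[0, -642600,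 40800], [642600, 40800, 0], [-81600, 0, 0]]], [[[0, 0, 0], [0, 0, 0], [0, 0, 0]], [[-1432526760, 172440520, 0], [0, 0, 0], [0, 0, 0]], [[-131673976, -145308520, 17095200], [173697160, -18319200, 0], [0, 0, 0]], [[-55771016, -350280, 580800], [12474000, 27200, -64000], [-1138400, 64000, 0]], [[2249100, -642600, 27200], [-214200, 68000, 0], [-13600, 0, 0]]], [[[0, 0, 0], [0, 0, 0], [0, 0, 0]], [[0, 0, 0], [0, 0, 0], [0, 0, 0]], [[327499781, -79751420, 4273800], [0, 0, 0], [0, 0, 0]], [[14836906, -3262000, 145200], [-3230360, 576000, -16000], [0, 0, 0]], [[1124550, -214200, 6800], [-214200, 27200, 0], [6800, 0, 0]]]]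

theorem bm2e1 (z q s r : ℝ) : 2 * ev4 bm2 ((1/2) + (1/2) * z) q s r = ev4 bm2b1 z q s r := by
  simp only [bm2, bm2b1, ev4, ev3, ev2, ev1, evg]
  push_cast
  ring

theorem bm2n1 {z q s r : ℝ} (hz : (1/2) ≤ z) (hz1 : z ≤ 1) (hq : 0 ≤ q) (hq1 : q ≤ 1) (hs : 0 ≤ s) (hs1 : s ≤ 1) (hr : 0 ≤ r) (hr1 : r ≤ 1) : 0 ≤ ev4 bm2 z q s r := by
  have h := chk4_sound (w := ((z - (1/2)) / (1/2))) (by linarith) (by linarith) hq hq1 hs hs1 hr hr1 bm2b1 (by decide +kernel)
  rw [← bm2e1] at h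
  rw [show ((1/2) + (1/2) * ((z - (1/2)) / (1/2))) = z by ring] at h
  linarith

theorem bm2_nn {z q s r : ℝ} (hz : 0 ≤ z) (hz1 : z ≤ 1) (hq : 0 ≤ q) (hq1 : q ≤ 1) (hs : 0 ≤ s) (hs1 : s ≤ 1) (hr : 0 ≤ r) (hr1 : r ≤ 1) : 0 ≤ ev4 bm2 z q s r := by
  rcases le_total z (1/2) with cz2 | cz2
  · exact bm2n0 (by linarith) (by linarith) (by linarith) (by linarith) (by linarith) (by linarith) (by linarith) (by linarith)
  · exact bm2n1 (by linarith) (by linarith) (by linarith) (by linarith) (by linarith) (by linarith) (by linarith) (by linarith)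

def bm3 : List (List (List (List ℤ))) :=
  [[[[369836768, 0, 0], [0, 0, 0], [0, 0, 0]], [[-356774376, 0, 0], [-5638560, 0, 0], [0, 0, 0]], [[15610504, 0, 0], [-2764640, 0, 0], [94400, 0, 0]], [[0, 0, 0], [0, 0, 0], [0, 0, 0]], [[0, 0, 0], [0, 0, 0], [0, 0, 0]]], [[[-34018768, 0, 0], [0, 0, 0], [0, 0, 0]], [[-34267240, 0, 0], [2974320, 0, 0], [0, 0, 0]], [[-2147040, 0, 0], [303840, 0, 0], [-6400, 0, 0]], [[-29512, 0, 0], [4080, 0, 0], [0, 0, 0]], [[0, 0, 0], [0, 0, 0], [0, 0, 0]]], [[[0, 0, 0], [0, 0, 0], [0, 0, 0]], [[448466256, -2509200, 0], [0, 0, 0], [0, 0, 0]], [[4233152, 2440640, 0], [-3042880, 12800, 0], [0, 0, 0]], [[1550584, -74400, 0], [-222720, 6400, 0], [4800, 0, 0]], [[0, 0, 0], [0, 0, 0], [0, 0, 0]]], [[[0, 0, 0], [0, 0, 0], [0, 0, 0]], [[-32045272, 2819280, 0], [0, 0, 0], [0, 0, 0]], [[-32279296, 2839920, 0], [2839920, -192000, 0], [0, 0, 0]], [[-2043832, 147440, 0], [294880, -12800, 0], [-6400, 0, 0]], [[-28560,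 1360, 0], [4080, 0, 0], [0, 0, 0]]], [[[0, 0, 0], [0, 0, 0], [0, 0, 0]], [[0, 0, 0], [0, 0, 0], [0, 0, 0]], [[15020432, -2683920, 92800], [0, 0, 0], [0, 0, 0]], [[522760, -74880, 1600], [-74400, 6400, 0], [0, 0, 0]], [[28560, -2720, 0], [-2720, 0, 0], [0, 0, 0]]]]

theorem bm3_nn {z q s r : ℝ} (hz : 0 ≤ z) (hz1 : z ≤ 1) (hq : 0 ≤ q) (hq1 : q ≤ 1) (hs : 0 ≤ s) (hs1 : s ≤ 1) (hr : 0 ≤ r) (hr1 : r ≤ 1) : 0 ≤ ev4 bm3 z q s r :=
  chk4_sound hz hz1 hq hq1 hs hs1 hr hr1 _ (by decide +kernel)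

def bm4 : List (List (List (List ℤ))) :=
  [[[[26803883, 0, 0], [0, 0, 0], [0, 0, 0]], [[-26050562, 0, 0], [-195840, 0, 0], [0, 0, 0]], [[842216, 0, 0], [-97040, 0, 0], [1600, 0, 0]], [[0, 0, 0], [0, 0, 0], [0, 0, 0]], [[0, 0, 0], [0, 0, 0], [0, 0, 0]]], [[[-1780818, 0, 0], [0, 0, 0], [0, 0, 0]], [[-1792446, 0, 0], [100640, 0, 0], [0, 0, 0]], [[-78846, 0, 0], [5440, 0, 0], [0, 0, 0]], [[-578, 0, 0], [0, 0, 0], [0, 0, 0]], [[0, 0, 0], [0, 0, 0], [0, 0, 0]]], [[[0, 0, 0], [0, 0, 0], [0, 0, 0]], [[31027040, -92480, 0], [0, 0, 0], [0, 0, 0]], [[156536, 91120, 0], [-102000, 0, 0], [0, 0, 0]], [[58038, -1360, 0], [-4080, 0, 0], [0, 0, 0]], [[0, 0, 0], [0, 0, 0], [0, 0, 0]]], [[[0, 0, 0], [0, 0, 0], [0, 0, 0]], [[-1712274, 97920, 0], [0, 0, 0], [0, 0, 0]], [[-1723566, 98400, 0], [98400, -3200, 0], [0, 0, 0]], [[-76942, 2720, 0], [5440, 0, 0], [0, 0, 0]], [[-578, 0, 0], [0, 0, 0], [0, 0, 0]]], [[[0, 0, 0], [0, 0, 0], [0, 0, 0]],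 [[0, 0, 0], [0, 0, 0], [0, 0, 0]], [[821493, -95680, 1600], [0, 0, 0], [0, 0, 0]], [[19482, -1360, 0], [-1360, 0, 0], [0, 0, 0]], [[578, 0, 0], [0, 0, 0], [0, 0, 0]]]]

theorem bm4_nn {z q s r : ℝ} (hz : 0 ≤ z) (hz1 : z ≤ 1) (hq : 0 ≤ q) (hq1 : q ≤ 1) (hs : 0 ≤ s) (hs1 : s ≤ 1) (hr : 0 ≤ r) (hr1 : r ≤ 1) : 0 ≤ ev4 bm4 z q s r :=
  chk4_sound hz hz1 hq hq1 hs hs1 hr hr1 _ (by decide +kernel)

def bm5 : List (List (List (List ℤ))) :=
  [[[[68459, 0], [0, 0]], [[-67109, 0], [-160, 0]], [[1423, 0], [-80, 0]], [[0, 0], [0, 0]]], [[[-2924, 0], [0, 0]], [[-2936, 0], [80, 0]], [[-68, 0], [0, 0]], [[0, 0], [0, 0]]], [[[0, 0], [0, 0]], [[75577, -80], [0, 0]], [[136, 80], [-80, 0]], [[51, 0], [0, 0]]], [[[0, 0], [0, 0]], [[-2868, 80], [0, 0]], [[-2880, 80], [80, 0]], [[-68, 0], [0, 0]]], [[[0, 0], [0, 0]], [[0, 0], [0, 0]], [[1406, -80], [0, 0]], [[17, 0], [0, 0]]]]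

theorem bm5_nn {z q s r : ℝ} (hz : 0 ≤ z) (hz1 : z ≤ 1) (hq : 0 ≤ q) (hq1 : q ≤ 1) (hs : 0 ≤ s) (hs1 : s ≤ 1) (hr : 0 ≤ r) (hr1 : r ≤ 1) : 0 ≤ ev4 bm5 z q s r :=
  chk4_sound hz hz1 hq hq1 hs hs1 hr hr1 _ (by decide +kernel)

def bm6 : List (List (List (List ℤ))) :=
  [[[[97]], [[-96]], [[1]]], [[[-2]], [[-2]], [[0]]], [[[0]], [[102]], [[0]]], [[[0]], [[-2]], [[-2]]], [[[0]], [[0]], [[1]]]]

theorem bm6_nn {z q s r : ℝ} (hz : 0 ≤ z) (hz1 : z ≤ 1) (hq : 0 ≤ q) (hq1 : q ≤ 1) (hs : 0 ≤ s) (hs1 : s ≤ 1) (hr : 0 ≤ r) (hr1 : r ≤ 1) : 0 ≤ ev4 bm6 z q s r :=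
  chk4_sound hz hz1 hq hq1 hs hs1 hr hr1 _ (by decide +kernel)

def bm7 : List (List (List (List ℤ))) :=
  [[[[1]], [[-1]]], [[[0]], [[0]]], [[[0]], [[1]]]]

theorem bm7_nn {z q s r : ℝ} (hz : 0 ≤ z) (hz1 : z ≤ 1) (hq : 0 ≤ q) (hq1 : q ≤ 1) (hs : 0 ≤ s) (hs1 : s ≤ 1) (hr : 0 ≤ r) (hr1 : r ≤ 1) : 0 ≤ ev4 bm7 z q s r :=
  chk4_sound hz hz1 hq hq1 hs hs1 hr hr1 _ (by decide +kernel)

/-- `N^4 MM` as a polynomial in `N`, `D = N B` and `d = N b` -/
noncomputable def MMh (N ζ q D d : ℝ) : ℝ :=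
  (N ^ 2 + D) ^ 2 * (N ^ 3 * (1 + q * ζ ^ 2) + d ^ 2 - 2 * d * D * ζ) + (N ^ 2 + d) ^ 2 * (D ^ 2 - 5 * N ^ 2 - N ^ 3 * q)

theorem MMh_eq {N : ℝ} (hN : N ≠ 0) (ζ q D d : ℝ) :
    N ^ 4 * MM N (1 - 5 / N) ζ q (D / N) (d / N) = MMh N ζ q D d := by
  unfold MM MMh
  field_simp
  ring

theorem MM_big_id (m z q s r : ℝ) :
    MMh (14 + m) z q ((14 + m) * (1 + q) - ((28/17) + (40/17) * s) * q) ((14 + m) * (1 + q * z ^ 2) - ((28/17) + (40/17) * r) * (q * z ^ 2)) - 1 =
      m ^ 0 * ev4 bm0 z q s r / 83521 + m ^ 1 * ev4 bm1 z q s r / 4913 + m ^ 2 * ev4 bm2 z q s r / 4913 + m ^ 3 * ev4 bm3 z q s r / 289 + m ^ 4 * ev4 bm4 z q s r / 289 + m ^ 5 * ev4 bm5 z q s r / 17 + m ^ 6 * ev4 bm6 z q s r / 1 + m ^ 7 * ev4 bm7 z q s r / 1 := by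
  simp only [bm0, bm1, bm2, bm3, bm4, bm5, bm6, bm7, ev4, ev3, ev2, ev1, evg, MMh]
  push_cast
  ring

theorem MM_pos_big {N ζ q v w : ℝ} (hN : 14 ≤ N) (hζ : 0 ≤ ζ) (hζ1 : ζ ≤ 1) (hq : 0 ≤ q) (hq1 : q ≤ 1)
    (hv : (28/17) ≤ v) (hv1 : v ≤ 4) (hw : (28/17) ≤ w) (hw1 : w ≤ 4) :
    0 < MM N (1 - 5 / N) ζ q (1 + q - v * q / N) (1 + q * ζ ^ 2 - w * (q * ζ ^ 2) / N) := by
  obtain ⟨s, hs, hs1, rfl⟩ := exists_param hv hv1 (by norm_num)
  obtain ⟨r, hr, hr1, rfl⟩ := exists_param hw hw1 (by norm_num)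
  obtain ⟨m, hm, rfl⟩ : ∃ m : ℝ, 0 ≤ m ∧ N = 14 + m := ⟨N - 14, by linarith, by ring⟩
  have hne : (14 + m) ≠ 0 := by positivity
  have h := MM_big_id m ζ q s r
  have h0 := bm0_nn hζ hζ1 hq hq1 hs hs1 hr hr1
  have h1 := bm1_nn hζ hζ1 hq hq1 hs hs1 hr hr1
  have h2 := bm2_nn hζ hζ1 hq hq1 hs hs1 hr hr1
  have h3 := bm3_nn hζ hζ1 hq hq1 hs hs1 hr hr1
  have h4 := bm4_nn hζ hζ1 hq hq1 hs hs1 hr hr1
  have h5 := bm5_nn hζ hζ1 hq hq1 hs hs1 hr hr1
  have h6 := bm6_nn hζ hζ1 hq hq1 hs hs1 hr hr1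
  have h7 := bm7_nn hζ hζ1 hq hq1 hs hs1 hr hr1
  have h9 : 0 ≤ m ^ 0 * ev4 bm0 ζ q s r / 83521 + m ^ 1 * ev4 bm1 ζ q s r / 4913 + m ^ 2 * ev4 bm2 ζ q s r / 4913 + m ^ 3 * ev4 bm3 ζ q s r / 289 + m ^ 4 * ev4 bm4 ζ q s r / 289 + m ^ 5 * ev4 bm5 ζ q s r / 17 + m ^ 6 * ev4 bm6 ζ q s r / 1 + m ^ 7 * ev4 bm7 ζ q s r / 1 := by positivity
  rw [← h] at h9
  have e : 1 + q - ((28/17) + s * (4 - (28/17))) * q / (14 + m) =
      ((14 + m) * (1 + q) - ((28/17) + (40/17) * s) * q) / (14 + m) := by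
    field_simp
    ring
  have e' : 1 + q * ζ ^ 2 - ((28/17) + r * (4 - (28/17))) * (q * ζ ^ 2) / (14 + m) =
      ((14 + m) * (1 + q * ζ ^ 2) - ((28/17) + (40/17) * r) * (q * ζ ^ 2)) / (14 + m) := by
    field_simp
    ring
  rw [e, e']
  rw [← MMh_eq hne] at h9
  have h10 : (0 : ℝ) < (14 + m) ^ 4 := by positivity
  by_contra hcon
  have h5 := mul_nonpos_of_nonneg_of_nonpos h10.le (not_lt.mp hcon)
  linarith

end Pool.Agent.H62.SS
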