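import Pool.Agent.H62.SS.Poly

set_option autoImplicit false

/-!
# [H62 SS CBIGP] The first inequality for `N ≥ 14`
-/

namespace Pool.Agent.H62.SS

def bp0 : List (List (List ℤ)) :=
  [[[283101799, 0, 0, 0], [566213424, -77035840, 0, 0], [306897192, -149540160, 12947200, 0], [42312480, -83088320, 14963200, -128000], [18522000, -10584000, 2016000, -128000]], [[-512288336, 0, 0, 0], [-2169691776, 367053120, 0, 0], [-3022137328, 922297600, -53312000, 0], [-1643271840, 683914560, -71321600, 128000], [-279064800, 127478400, -18188800, 768000]], [[1671677728, 0, 0, 0], [6058642240, -897240960, 0, 0], [7587017312, -1959216000, 95961600, 0], [3663240000, -1314924800, 110835200, 1280000], [474163200, -222969600, 33331200, -1536000]], [[-4448819760, 0, 0, 0], [-10788189664, 1613221120, 0, 0], [-9163113288, 2365986560, -122617600, 0], [-3059093520, 1018745280, -62899200, -3840000], [-279682200, 141825600, -23587200, 1280000]], [[6174422576, 0, 0, 0], [11987229856,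 -1980274240, 0, 0], [6843261600, -1995201600, 131756800, 0], [1010066400, -261307200, -10393600, 4480000], [55566000, -31752000, 6048000, -384000]], [[-4637557568, 0, 0, 0], [-8163306704, 1472744000, 0, 0], [-3574169760, 1216579840, -102054400, 0], [16052400, -73147200, 26118400, -2432000], [0, 0, 0, 0]], [[1833452992, 0, 0, 0], [3140343360, -598160640, 0, 0], [1259496000, -479808000, 45696000, 0], [-74088000, 42336000, -8064000, 512000], [0, 0, 0, 0]], [[-310069256, 0, 0, 0], [-547181040, 104224960, 0, 0], [-241403400, 91963200, -8758400, 0], [0, 0, 0, 0], [0, 0, 0, 0]]]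

def bp0b0 : List (List (List ℤ)) :=
  [[[4529628784, 0, 0, 0], [9059414784, -1232573440, 0, 0], [4910355072, -2392642560, 207155200, 0], [676999680, -1329413120, 239411200, -2048000], [296352000, -169344000, 32256000, -2048000]], [[-4098306688, 0, 0, 0], [-17357534208, 2936424960, 0, 0], [-24177098624, 7378380800, -426496000, 0], [-13146174720, 5471316480, -570572800, 1024000], [-2232518400, 1019827200, -145510400, 6144000]], [[6686710912, 0, 0, 0], [24234568960, -3588963840, 0, 0], [30348069248, -7836864000, 383846400, 0], [14652960000, -5259699200, 443340800, 5120000], [1896652800, -891878400, 133324800, -6144000]], [[-8897639520, 0, 0, 0], [-21576379328, 3226442240, 0, 0], [-18326226576, 4731973120, -245235200, 0], [-6118187040, 2037490560, -125798400, -7680000], [-559364400, 283651200, -47174400, 2560000]], [[6174422576, 0, 0, 0], [11987229856, -1980274240, 0, 0], [6843261600, -1995201600, 131756800, 0], [1010066400, -261307200, -10393600, 4480000],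 [55566000, -31752000, 6048000, -384000]], [[-2318778784, 0, 0, 0], [-4081653352, 736372000, 0, 0], [-1787084880, 608289920, -51027200, 0], [8026200, -36573600, 13059200, -1216000], [0, 0, 0, 0]], [[458363248, 0, 0, 0], [785085840, -149540160, 0, 0], [314874000, -119952000, 11424000, 0], [-18522000, 10584000, -2016000, 128000], [0, 0, 0, 0]], [[-38758657, 0, 0, 0], [-68397630, 13028120, 0, 0], [-30175425, 11495400, -1094800, 0], [0, 0, 0, 0], [0, 0, 0, 0]]]

theorem bp0e0 (x q s : ℝ) : 16 * ev3 bp0 (0 + (1/2) * x) q s = ev3 bp0b0 x q s := by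
  simp only [bp0, bp0b0, ev4, ev3, ev2, ev1, evg]
  push_cast
  ring

theorem bp0n0 {x q s : ℝ} (hx : 0 ≤ x) (hx1 : x ≤ (1/2)) (hq : 0 ≤ q) (hq1 : q ≤ 1) (hs : 0 ≤ s) (hs1 : s ≤ 1) : 0 ≤ ev3 bp0 x q s := by
  have h := chk3_sound (x := ((x - 0) / (1/2))) (by linarith) (by linarith) hq hq1 hs hs1 bp0b0 (by decide +kernel)
  rw [← bp0e0] at h
  rw [show (0 + (1/2) * ((x - 0) / (1/2))) = x by ring] at h
  linarith

def bp0b1 : List (List (List ℤ)) :=
  [[[2495641871, 0, 0, 0], [2982334922, -39084360, 0, 0], [-1904025585, 385479080, 10329200, 0], [-2934831480, 632397920, -12969600, -192000], [-543312000, 210504000, -21056000, 128000]], [[-1835138151, 0, 0, 0], [-1845149978, 392542920, 0, 0], [1655998169, 321971160, -61737200, 0], [1774448760, -100203040, -49660800, 832000], [104958000, -39984000, 3808000, 0]], [[-85943109, 0, 0, 0], [952213962, -397074440, 0, 0], [2647536395, -1087131640, 76778800, 0], [2161229280, -922046720, 103936000, -1280000], [551955600,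 -231436800, 28089600, -768000]], [[422974909, 0, 0, 0], [-1136193674, 134246280, 0, 0], [-3582688851, 837364920, -38318000, 0], [-2368099440, 838205760, -77100800, 640000], [-337100400, 156643200, -22982400, 1024000]], [[99424381, 0, 0, 0], [961333646, -85532440, 0, 0], [1574807325, -350693000, 9662800, 0], [772367400, -285415200, 24662400, 320000], [55566000, -31752000, 6048000, -384000]], [[-382531093, 0, 0, 0], [-807488542, 112721560, 0, 0], [-531524805, 129981320, -5474000, 0], [-103105800, 26930400, 963200, -448000], [0, 0, 0, 0]], [[187052649, 0, 0, 0], [306302430, -58343320, 0, 0], [103646025, -39484200, 3760400, 0], [-18522000, 10584000, -2016000, 128000], [0, 0, 0, 0]], [[-38758657, 0, 0, 0], [-68397630, 13028120, 0, 0], [-30175425, 11495400, -1094800, 0], [0, 0, 0, 0], [0, 0, 0, 0]]]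

theorem bp0e1 (x q s : ℝ) : 16 * ev3 bp0 ((1/2) + (1/2) * x) q s = ev3 bp0b1 x q s := by
  simp only [bp0, bp0b1, ev4, ev3, ev2, ev1, evg]
  push_cast
  ring

theorem bp0n1 {x q s : ℝ} (hx : (1/2) ≤ x) (hx1 : x ≤ 1) (hq : 0 ≤ q) (hq1 : q ≤ 1) (hs : 0 ≤ s) (hs1 : s ≤ 1) : 0 ≤ ev3 bp0 x q s := by
  have h := chk3_sound (x := ((x - (1/2)) / (1/2))) (by linarith) (by linarith) hq hq1 hs hs1 bp0b1 (by decide +kernel)
  rw [← bp0e1] at h
  rw [show ((1/2) + (1/2) * ((x - (1/2)) / (1/2))) = x by ring] at h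
  linarith

theorem bp0_nn {x q s : ℝ} (hx : 0 ≤ x) (hx1 : x ≤ 1) (hq : 0 ≤ q) (hq1 : q ≤ 1) (hs : 0 ≤ s) (hs1 : s ≤ 1) : 0 ≤ ev3 bp0 x q s := by
  rcases le_total x (1/2) with cx2 | cx2
  · exact bp0n0 (by linarith) (by linarith) (by linarith) (by linarith) (by linarith) (by linarith)
  · exact bp0n1 (by linarith) (by linarith) (by linarith) (by linarith) (by linarith) (by linarith)

def bp1 : List (List (List ℤ)) :=
  [[[74146996, 0, 0, 0], [148973720, -15536640, 0, 0], [80751020, -30654400, 1686400, 0], [10422496, -16831360, 1849600, 0], [4498200, -1713600, 163200, 0]], [[-96294800, 0, 0, 0], [-478528512, 59233440, 0, 0], [-719045600, 157613120, -5331200, 0], [-402954048, 118468000, -6771200, -64000], [-66173520, 20030080, -1414400, 0]], [[290810296, 0, 0, 0], [1253531720, -121380000, 0, 0], [1736671720, -291083520, 5712000, 0], [885588760, -207922400, 6492800, 320000], [112754880, -35185920, 2611200, 0]], [[-939837248, 0, 0, 0], [-2344835024, 221397120,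 0, 0], [-2040540124, 316406720, -3808000, 0], [-697813704, 130892160, 3116800, -640000], [-67023180, 22619520, -1876800, 0]], [[1430940728, 0, 0, 0], [2789830288, -301022400, 0, 0], [1532586720, -271815040, 5603200, 0], [178881360, 636160, -9971200, 640000], [13494600, -5140800, 489600, 0]], [[-1128575056, 0, 0, 0], [-2014827080, 244378400, 0, 0], [-850512992, 188534080, -7289600, 0], [42906360, -35523040, 6889600, -320000], [0, 0, 0, 0]], [[460289144, 0, 0, 0], [809895912, -105843360, 0, 0], [325369800, -85108800, 4406400, 0], [-27253800, 12146400, -1660800, 64000], [0, 0, 0, 0]], [[-79924684, 0, 0, 0], [-146254808, 19420800, 0, 0], [-66823260, 18011840, -1006400, 0], [0, 0, 0, 0], [0, 0, 0, 0]]]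

theorem bp1_nn {x q s : ℝ} (hx : 0 ≤ x) (hx1 : x ≤ 1) (hq : 0 ≤ q) (hq1 : q ≤ 1) (hs : 0 ≤ s) (hs1 : s ≤ 1) : 0 ≤ ev3 bp1 x q s :=
  chk3_sound hx hx1 hq hq1 hs hs1 _ (by decide +kernel)

def bp2 : List (List (List ℤ)) :=
  [[[424830, 0, 0], [855372, -61200, 0], [459242, -122000, 3200], [50120, -64880, 3200], [21420, -4080, 0]], [[-291312, 0, 0], [-2067744, 167280, 0], [-3496024, 480640, -6400], [-2027088, 359600, -6400], [-307496, 46240, 0]], [[655452, 0, 0], [4682412, -212160, 0], [7835940, -635040, -4800], [4332916, -508960, -8000], [525504, -81600, 0]], [[-3835608, 0, 0], [-9764664, 408000, 0], [-8642298, 448000, 20800], [-3021060, 113200, 35200], [-314874, 53040, 0]], [[6918660, 0, 0], [13217568, -746640, 0], [6518120, -410000, -16000], [270928, 288560, -41600], [64260, -12240, 0]], [[-5874792, 0, 0], [-10487708, 727600, 0], [-4057424, 446080, 0], [566468, -250160, 22400], [0, 0, 0]], [[2500428, 0, 0], [4488204, -350880, 0], [1774500, -270720,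 4800], [-217980, 66720, -4800], [0, 0, 0]], [[-449106, 0, 0], [-849660, 69360, 0], [-401338, 67120, -1600], [0, 0, 0], [0, 0, 0]]]

theorem bp2_nn {x q s : ℝ} (hx : 0 ≤ x) (hx1 : x ≤ 1) (hq : 0 ≤ q) (hq1 : q ≤ 1) (hs : 0 ≤ s) (hs1 : s ≤ 1) : 0 ≤ ev3 bp2 x q s :=
  chk3_sound hx hx1 hq hq1 hs hs1 _ (by decide +kernel)

def bp3 : List (List (List ℤ)) :=
  [[[1071, 0], [2154, -80], [1129, -160], [80, -80], [34, 0]], [[68, 0], [-2976, 120], [-6520, 400], [-3952, 280], [-476, 0]], [[-1462, 0], [3518, 120], [12070, 0], [7906, -120], [816, 0]], [[-4896, 0], [-12284, -160], [-10653, -720], [-3758, -560], [-493, 0]], [[13498, 0], [23780, -320], [8008, 560], [-2172, 880], [102, 0]], [[-12988, 0], [-22598, 600], [-7016, 80], [2594, -520], [0, 0]], [[5882, 0], [10662, -360], [4014, -240], [-766, 120], [0, 0]], [[-1105, 0], [-2154, 80], [-1049, 80], [0, 0], [0, 0]]]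

theorem bp3_nn {x q s : ℝ} (hx : 0 ≤ x) (hx1 : x ≤ 1) (hq : 0 ≤ q) (hq1 : q ≤ 1) (hs : 0 ≤ s) (hs1 : s ≤ 1) : 0 ≤ ev3 bp3 x q s :=
  chk3_sound hx hx1 hq hq1 hs hs1 _ (by decide +kernel)

def bp4 : List (List (List ℤ)) :=
  [[[1], [2], [1], [0]], [[1], [0], [-3], [-2]], [[-5], [-7], [1], [3]], [[1], [4], [5], [2]], [[8], [10], [-4], [-6]], [[-10], [-16], [-2], [4]], [[5], [9], [3], [-1]], [[-1], [-2], [-1], [0]]]

theorem bp4_nn {x q s : ℝ} (hx : 0 ≤ x) (hx1 : x ≤ 1) (hq : 0 ≤ q) (hq1 : q ≤ 1) (hs : 0 ≤ s) (hs1 : s ≤ 1) : 0 ≤ ev3 bp4 x q s :=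
  chk3_sound hx hx1 hq hq1 hs hs1 _ (by decide +kernel)

/-- `N^3 PP` as a polynomial in `N` and `D = N B` -/
noncomputable def PPh (N σ q D : ℝ) : ℝ :=
  N ^ 3 * ((1 + q) ^ 2 * (N * (1 - σ) + 5)) - N ^ 2 * (2 * N * (1 + q) * (1 - σ) ^ 2 * (q + (1 - σ) ^ 2)) * D
  + N * (-(σ * ((1 + q) * (4 - 3 * σ) + (2 - σ) * (1 - 4 * σ + 3 * σ ^ 2)) ^ 2)
    + 2 * N * (1 + q) * (1 - σ) ^ 3 - N * σ * (1 - σ) ^ 4 * (q + (1 - σ) ^ 2)) * D ^ 2
  + (1 - σ) ^ 2 * (2 * (q + (1 - σ) ^ 2) * (1 - 4 * σ + 3 * σ ^ 2) + N * σ * (1 - σ) ^ 3) * D ^ 3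

theorem PPh_eq {N : ℝ} (hN : N ≠ 0) (σ q D : ℝ) :
    N ^ 3 * PP N (1 - 5 / N) 4 3 σ q (D / N) = PPh N σ q D := by
  unfold PP PPh
  field_simp
  ring

theorem PP_big_id (m x q s : ℝ) :
    PPh (14 + m) x q ((14 + m) * (1 + q) - ((28/17) + (40/17) * s) * q) - 1 =
      m ^ 0 * ev3 bp0 x q s / 4913 + m ^ 1 * ev3 bp1 x q s / 4913 + m ^ 2 * ev3 bp2 x q s / 289 + m ^ 3 * ev3 bp3 x q s / 17 + m ^ 4 * ev3 bp4 x q s / 1 := by
  simp only [bp0, bp1, bp2, bp3, bp4, ev3, ev2, ev1, evg, PPh]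
  push_cast
  ring

theorem PP_pos_big {N σ q v : ℝ} (hN : 14 ≤ N) (hσ : 0 ≤ σ) (hσ1 : σ ≤ 1) (hq : 0 ≤ q) (hq1 : q ≤ 1)
    (hv : (28/17) ≤ v) (hv1 : v ≤ 4) : 0 < PP N (1 - 5 / N) 4 3 σ q (1 + q - v * q / N) := by
  obtain ⟨s, hs, hs1, rfl⟩ := exists_param hv hv1 (by norm_num)
  obtain ⟨m, hm, rfl⟩ : ∃ m : ℝ, 0 ≤ m ∧ N = 14 + m := ⟨N - 14, by linarith, by ring⟩
  have hne : (14 + m) ≠ 0 := by positivity
  have h := PP_big_id m σ q s
  have h0 := bp0_nn hσ hσ1 hq hq1 hs hs1
  have h1 := bp1_nn hσ hσ1 hq hq1 hs hs1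
  have h2 := bp2_nn hσ hσ1 hq hq1 hs hs1
  have h3 := bp3_nn hσ hσ1 hq hq1 hs hs1
  have h4 := bp4_nn hσ hσ1 hq hq1 hs hs1
  have h9 : 0 ≤ m ^ 0 * ev3 bp0 σ q s / 4913 + m ^ 1 * ev3 bp1 σ q s / 4913 + m ^ 2 * ev3 bp2 σ q s / 289 + m ^ 3 * ev3 bp3 σ q s / 17 + m ^ 4 * ev3 bp4 σ q s / 1 := by positivity
  rw [← h] at h9
  have e : 1 + q - ((28/17) + s * (4 - (28/17))) * q / (14 + m) =
      ((14 + m) * (1 + q) - ((28/17) + (40/17) * s) * q) / (14 + m) := by
    field_simp
    ring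
  rw [e]
  rw [← PPh_eq hne] at h9
  have h10 : (0 : ℝ) < (14 + m) ^ 3 := by positivity
  by_contra hcon
  have h5 := mul_nonpos_of_nonneg_of_nonpos h10.le (not_lt.mp hcon)
  linarith

end Pool.Agent.H62.SS
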