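import Pool.Agent.H62.SS.Ode1

set_option autoImplicit false

/-!
# [H62 SS ODE2] The radial functions: the Riccati equation, monotonicity
-/

namespace Pool.Agent.H62.SS

open MeasureTheory Set
open scoped Real

variable {N : ℕ} {r : ℝ}

theorem hasDerivAt_cot (h0 : Real.sin r ≠ 0) :
    HasDerivAt (fun x => Real.cos x / Real.sin x) (-(1 / Real.sin r ^ 2)) r := by
  have h := (Real.hasDerivAt_cos r).fun_div (Real.hasDerivAt_sin r) h0
  refine h.congr_deriv ?_
  have := Real.sin_sq_add_cos_sq r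
  field_simp
  linarith

theorem hasDerivAt_pow_sin (N : ℕ) (h0 : Real.sin r ≠ 0) :
    HasDerivAt (fun x => Real.sin x ^ N)
      (N * (Real.cos r / Real.sin r) * Real.sin r ^ N) r := by
  have h := (Real.hasDerivAt_sin r).fun_pow N
  refine h.congr_deriv ?_
  rcases N with _ | k
  · simp
  · rw [Nat.add_sub_cancel, pow_succ]
    field_simp

theorem hasDerivAt_fS (N : ℕ) (h0 : 0 < r) (h1 : r < π) :
    HasDerivAt (fS N) (gS N r * fS N r) r := by
  have hs : Real.sin r ≠ 0 := (Real.sin_pos_of_pos_of_lt_pi h0 h1).ne'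
  have hV : VS N r ≠ 0 := (VS_pos N h0 h1.le).ne'
  have h := (hasDerivAt_VS N r).fun_div (hasDerivAt_pow_sin N hs) (pow_ne_zero N hs)
  refine h.congr_deriv ?_
  unfold gS fS
  field_simp

theorem hasDerivAt_gS (N : ℕ) (h0 : 0 < r) (h1 : r < π) :
    HasDerivAt (gS N) (N / Real.sin r ^ 2 - gS N r ^ 2 -
      N * (Real.cos r / Real.sin r) * gS N r) r := by
  have hs : Real.sin r ≠ 0 := (Real.sin_pos_of_pos_of_lt_pi h0 h1).ne'
  have hV : VS N r ≠ 0 := (VS_pos N h0 h1.le).ne'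
  have h := ((hasDerivAt_pow_sin N hs).fun_div (hasDerivAt_VS N r) hV).fun_sub
    ((hasDerivAt_cot hs).const_mul (N : ℝ))
  refine h.congr_deriv ?_
  unfold gS
  field_simp
  ring

theorem hasDerivAt_BS (N : ℕ) (h0 : 0 < r) (h1 : r < π / 2) :
    HasDerivAt (BS N) ((N + BS N r) * (1 + Real.tan r ^ 2 - BS N r) / Real.tan r) r := by
  have hpi := Real.pi_pos
  have hs := sin_pos1 h0 h1
  have hc := cos_pos1 h0.le h1
  have hT := tan_pos1 h0 h1
  have h := (hasDerivAt_gS N h0 (by linarith)).fun_mul (Real.hasDerivAt_tan hc.ne')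
  refine h.congr_deriv ?_
  rw [← one_add_tan_sq h0.le h1]
  unfold BS
  have e2 : (N : ℝ) / Real.sin r ^ 2 = N * (1 + Real.tan r ^ 2) / Real.tan r ^ 2 := by
    rw [one_add_tan_sq h0.le h1, Real.tan_eq_sin_div_cos]
    field_simp
  have e3 : Real.cos r / Real.sin r = 1 / Real.tan r := by
    rw [Real.tan_eq_sin_div_cos]
    field_simp
  rw [e2, e3]
  field_simp
  ring

theorem BS_lt (N : ℕ) (h0 : 0 < r) (h1 : r < π / 2) : BS N r < 1 + Real.tan r ^ 2 := by
  have h2 := BS_le_up1 N h0 h1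
  have hT := tan_pos1 h0 h1
  have hN : (0 : ℝ) ≤ N := Nat.cast_nonneg N
  have h3 : up1 N (Real.tan r ^ 2) < 1 + Real.tan r ^ 2 := by
    unfold up1
    have : ((N : ℝ) + 1) * Real.tan r ^ 2 / (N + 3) < Real.tan r ^ 2 := by
      rw [div_lt_iff₀ (by positivity)]
      nlinarith [pow_pos hT 2]
    linarith
  linarith

theorem BS_ge_one (N : ℕ) (h0 : 0 < r) (h1 : r < π / 2) : 1 ≤ BS N r := by
  have h2 := lo2_le_BS N h0 h1
  have hN : (0 : ℝ) ≤ N := Nat.cast_nonneg N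
  have h3 : 1 ≤ lo2 N (Real.tan r ^ 2) := by
    unfold lo2
    have : 0 ≤ ((N : ℝ) + 1) * (N + 5) * Real.tan r ^ 2 /
      ((N + 3) * (N + 5) + 2 * (N + 2) * Real.tan r ^ 2) := by positivity
    linarith
  linarith

theorem gS_pos' (N : ℕ) (h0 : 0 < r) (h1 : r < π / 2) : 0 < gS N r := by
  have h2 := BS_ge_one N h0 h1
  have hT := tan_pos1 h0 h1
  unfold BS at h2
  by_contra hc
  push Not at hc
  linarith [mul_nonpos_of_nonpos_of_nonneg hc hT.le]

theorem BS_strictMono (N : ℕ) : StrictMonoOn (BS N) (Ioo 0 (π / 2)) := by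
  refine strictMonoOn_of_deriv_pos (convex_Ioo _ _) (fun x hx =>
    (hasDerivAt_BS N hx.1 hx.2).continuousAt.continuousWithinAt) fun x hx => ?_
  rw [interior_Ioo] at hx
  rw [(hasDerivAt_BS N hx.1 hx.2).deriv]
  have h2 := BS_ge_one N hx.1 hx.2
  have h3 := BS_lt N hx.1 hx.2
  have hT := tan_pos1 hx.1 hx.2
  have hN : (0 : ℝ) ≤ N := Nat.cast_nonneg N
  exact div_pos (mul_pos (by linarith) (by linarith)) hT

theorem fS_pos (N : ℕ) (h0 : 0 < r) (h1 : r < π) : 0 < fS N r :=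
  div_pos (VS_pos N h0 h1.le) (pow_pos (Real.sin_pos_of_pos_of_lt_pi h0 h1) N)

theorem fS_strictMono (N : ℕ) : StrictMonoOn (fS N) (Ioo 0 (π / 2)) := by
  have hpi := Real.pi_pos
  refine strictMonoOn_of_deriv_pos (convex_Ioo _ _) (fun x hx =>
    (hasDerivAt_fS N hx.1 (by linarith [hx.2])).continuousAt.continuousWithinAt) fun x hx => ?_
  rw [interior_Ioo] at hx
  rw [(hasDerivAt_fS N hx.1 (by linarith [hx.2])).deriv]
  exact mul_pos (gS_pos' N hx.1 hx.2) (fS_pos N hx.1 (by linarith [hx.2]))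

/-- `f = tan/(N + B)` -/
theorem fS_eq (N : ℕ) (h0 : 0 < r) (h1 : r < π / 2) :
    fS N r = Real.tan r / (N + BS N r) := by
  have h2 := BS_ge_one N h0 h1
  have hs := sin_pos1 h0 h1
  have hN : (0 : ℝ) ≤ N := Nat.cast_nonneg N
  have h3 := VS_eq N h0 h1
  have h4 : (N : ℝ) + BS N r ≠ 0 := by linarith
  unfold fS
  rw [div_eq_div_iff (pow_ne_zero N hs.ne') h4, h3]
  ring

end Pool.Agent.H62.SS
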