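import Pool.Agent.H62.SS.ParA
import Pool.Agent.H62.SS.ParB
import Pool.Agent.H62.SS.ParC
import Pool.Agent.H62.SS.Ode2
import Pool.Agent.H62.SS.C2
import Pool.Agent.H62.SS.CBigP
import Pool.Agent.H62.SS.CBigM

set_option autoImplicit false

/-!
# [H62 SS PARE] Parameters exist for every `N ≥ 2`
-/

namespace Pool.Agent.H62.SS

open MeasureTheory Set
open scoped Real

/-- the second inequality for `N = 2` -/
theorem MM_two {ζ q B b : ℝ} (hB : 2 * q ≤ B ^ 2) (hb : 0 < b)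
    (hbB : b < B) (hζ : 0 < ζ) (hF : ζ * (2 + B) < 2 + b) : 0 < MM 2 0 ζ q B b := by
  unfold MM
  have h1 : 0 < 2 + b := by linarith
  have h2 : 0 < 2 + B := by linarith
  have e : (2 + B) ^ 2 * (2 * (1 + q * ζ ^ 2) + b ^ 2 - 2 * b * B * ζ) +
      (2 + b) ^ 2 * (B ^ 2 + 2 * 0 - 2 * (1 + q)) =
      2 * ((2 + B) ^ 2 - (2 + b) ^ 2) + (b * (2 + B) - B * (ζ * (2 + B))) ^ 2 +
        ((2 + b) ^ 2 - (ζ * (2 + B)) ^ 2) * (B ^ 2 - 2 * q) := by ring
  rw [e]
  have h3 : 0 < (2 + B) ^ 2 - (2 + b) ^ 2 := by nlinarith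
  have h4 : 0 ≤ (2 + b) ^ 2 - (ζ * (2 + B)) ^ 2 := by
    have : 0 < ζ * (2 + B) := by positivity
    nlinarith
  have h5 : 0 ≤ B ^ 2 - 2 * q := by linarith
  have h6 := mul_nonneg h4 h5
  have h7 := sq_nonneg (b * (2 + B) - B * (ζ * (2 + B)))
  linarith

theorem up_2 : ∀ q : ℝ, 0 ≤ q → q ≤ 1 → up3 ((2 : ℕ) : ℝ) q ≤ (2153/2000) + (43/100) * q := by
  intro q hq hq1
  refine up3_le (by positivity) hq ?_
  unfold ee2 ee3
  push_cast
  nlinarith [mul_nonneg hq (sub_nonneg.2 hq1), sq_nonneg (q - 1), mul_nonneg hq (sq_nonneg (q - 1))]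

theorem mm_pos_two : ∀ R : ℝ, R ≤ π / 4 → ∀ r : ℝ, 0 < r → r < R →
    0 < MM ((2 : ℕ) : ℝ) 0 (Real.tan r / Real.tan R) (Real.tan R ^ 2) (BS 2 R) (BS 2 r) := by
  intro R h1 r hr hrR
  have hpi := Real.pi_pos
  have h0 : 0 < R := hr.trans hrR
  have hTr := Real.tan_pos_of_pos_of_lt_pi_div_two hr (by linarith)
  have hTR := Real.tan_pos_of_pos_of_lt_pi_div_two h0 (by linarith)
  have hbr := BS_ge_one 2 hr (by linarith)
  have hbR := BS_ge_one 2 h0 (by linarith)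
  rw [Nat.cast_ofNat]
  refine MM_two ?_ (by linarith) (BS_strictMono 2 ⟨hr, by linarith⟩ ⟨h0, by linarith⟩ hrR)
    (by positivity) ?_
  · have h2 := (lo2_ge (N := ((2 : ℕ) : ℝ)) (l := 61 / 125) (by norm_num) (by norm_num)
      (by norm_num) (tan_sq_mem h0 h1).1.le (tan_sq_mem h0 h1).2).trans
      (lo2_le_BS 2 h0 (by linarith))
    have h3 := (tan_sq_mem h0 h1).1
    have h4 := (tan_sq_mem h0 h1).2
    nlinarith
  · have h5 := fS_strictMono 2 (a := r) (b := R) ⟨hr, by linarith⟩ ⟨h0, by linarith⟩ hrR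
    rw [fS_eq 2 hr (by linarith), fS_eq 2 h0 (by linarith)] at h5
    rw [div_lt_div_iff₀ (by push_cast; linarith) (by push_cast; linarith)] at h5
    push_cast at h5
    rw [div_mul_eq_mul_div, div_lt_iff₀ hTR]
    linarith

theorem par_2 : Par 2 0 (11/5) (11/5) := by
  refine mk_par (l := (61/125)) (u := (2153/2000)) (s := (43/100)) (w := (19/30)) (X := (1091/500)) (by norm_num)
    (by norm_num) (by norm_num) (by norm_num) (by norm_num) (by norm_num) (by norm_num)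
    (by norm_num) up_2 (fun σ q B h1 h2 h3 h4 h5 h6 => by
      rw [Nat.cast_ofNat]
      exact PP_pos_2 h1 h2 h3 h4 h5 h6)
    mm_pos_two
    (by norm_num) (by norm_num) (by norm_num) (fun t ht ht1 => ?_) (by norm_num)
    (fun c hc hc1 => ?_)
  · nlinarith [mul_nonneg ht (sq_nonneg (t - 1)), mul_nonneg (sub_nonneg.2 ht1) (sq_nonneg (t - 1)),
      mul_nonneg (sub_nonneg.2 ht1) ht, mul_nonneg (sub_nonneg.2 ht1) (mul_nonneg ht ht), mul_nonneg (sub_nonneg.2 ht1) (sq_nonneg (t - 1/2))]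
  · have hd : 0 ≤ 1 - c := sub_nonneg.2 hc1
    have t0 : 0 ≤ (1 - c) ^ 4 := by positivity
    have t1 : 0 ≤ c * (1 - c) ^ 3 := by positivity
    have t2 : 0 ≤ c ^ 2 * (1 - c) ^ 2 := by positivity
    have t3 : 0 ≤ c ^ 3 * (1 - c) := by positivity
    have t4 : 0 ≤ c ^ 4 := by positivity
    push_cast
    have e : (2 : ℝ) * (1091/500) * (1 + c ^ 2) - (1091/500) * (((2153/2000) + (43/100)) - (((2153/2000) + (43/100)) - 0) * (1 - c ^ 2) / (2 * (1091/500))) ^ 2 -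
        2 * c * (((1091/500) - 1) * ((2153/2000) + (43/100)) + 0) =
        (115210871/2000000000) + ((2380589193/1745600000) * (1 - c) ^ 4 + (4132045353/2182000000) * (c * (1 - c) ^ 3) + (246595047/2182000000) * (c ^ 2 * (1 - c) ^ 2) +
          0 * (c ^ 3 * (1 - c)) + (1255099/8000000) * c ^ 4) := by
      ring
    rw [e]
    positivity

/-- the rescaled deficit for `N ≥ 14` -/
theorem big_v {N z B : ℝ} (hN : 14 ≤ N) (hz : 0 < z) (hz1 : z ≤ 1) (h1 : lo2 N z ≤ B)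
    (h2 : B ≤ up1 N z) : ∃ v : ℝ, 28 / 17 ≤ v ∧ v ≤ 4 ∧ B = 1 + z - v * z / N := by
  have hN0 : 0 < N := by linarith
  refine ⟨N * (1 + z - B) / z, ?_, ?_, ?_⟩
  · rw [le_div_iff₀ hz]
    unfold up1 at h2
    have h3 : z * (2 / (N + 3)) ≤ 1 + z - B := by
      have : (N + 1) * z / (N + 3) = z - z * (2 / (N + 3)) := by
        field_simp
        ring
      linarith
    have h4 : 28 / 17 ≤ N * (2 / (N + 3)) := by
      rw [mul_div_assoc', le_div_iff₀ (by linarith)]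
      linarith
    calc 28 / 17 * z ≤ N * (2 / (N + 3)) * z := by gcongr
      _ = N * (z * (2 / (N + 3))) := by ring
      _ ≤ N * (1 + z - B) := by gcongr
  · rw [div_le_iff₀ hz]
    unfold lo2 at h1
    have hD : 0 < (N + 3) * (N + 5) + 2 * (N + 2) * z := by positivity
    have h3 : 1 + z - B ≤ z * ((2 * (N + 5) + 2 * (N + 2) * z) /
        ((N + 3) * (N + 5) + 2 * (N + 2) * z)) := by
      have : (N + 1) * (N + 5) * z / ((N + 3) * (N + 5) + 2 * (N + 2) * z) = z -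
          z * ((2 * (N + 5) + 2 * (N + 2) * z) / ((N + 3) * (N + 5) + 2 * (N + 2) * z)) := by
        field_simp
        ring
      linarith
    have h4 : N * ((2 * (N + 5) + 2 * (N + 2) * z) / ((N + 3) * (N + 5) + 2 * (N + 2) * z)) ≤ 4 := by
      rw [mul_div_assoc', div_le_iff₀ hD]
      nlinarith [mul_nonneg hN0.le (sub_nonneg.2 hz1), mul_nonneg (mul_nonneg hN0.le hN0.le) (sub_nonneg.2 hz1)]
    calc N * (1 + z - B) ≤ N * (z * ((2 * (N + 5) + 2 * (N + 2) * z) /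
        ((N + 3) * (N + 5) + 2 * (N + 2) * z))) := by gcongr
      _ = N * ((2 * (N + 5) + 2 * (N + 2) * z) / ((N + 3) * (N + 5) + 2 * (N + 2) * z)) * z := by ring
      _ ≤ 4 * z := by gcongr
  · field_simp
    ring

theorem par_big {N : ℕ} (hN : 14 ≤ N) : Par N (1 - 5 / N) 4 3 := by
  have hpi := Real.pi_pos
  have hN1 : (14 : ℝ) ≤ N := by exact_mod_cast hN
  have hN0 : (0 : ℝ) < N := by linarith
  have h5 : 5 / (N : ℝ) ≤ 5 / 14 := by gcongr
  have h5' : 0 < 5 / (N : ℝ) := by positivity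
  have hv : ∀ r : ℝ, 0 < r → r ≤ π / 4 → ∃ v : ℝ, 28 / 17 ≤ v ∧ v ≤ 4 ∧
      BS N r = 1 + Real.tan r ^ 2 - v * Real.tan r ^ 2 / N := fun r h0 h1 =>
    big_v hN1 (tan_sq_mem h0 h1).1 (tan_sq_mem h0 h1).2 (lo2_le_BS N h0 (by linarith))
      (BS_le_up1 N h0 (by linarith))
  have h14 := one_le_BS N (r := π / 4) (by linarith) (by linarith)
  have h2 : BS N (π / 4) ≤ 2 := by
    have := BS_lt N (r := π / 4) (by linarith) (by linarith)
    rw [Real.tan_pi_div_four] at this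
    linarith
  refine ⟨by linarith, by linarith, by norm_num, by norm_num, by norm_num,
    fun R h0 h1 σ hσ hσ1 => ?_, fun R h1 r hr hrR => ?_, fun R h0 h1 => ?_, 961 / 729,
    by norm_num, fun t ht ht1 => ?_, fun c hc hc1 => ?_⟩
  · obtain ⟨v, hv1, hv2, hv3⟩ := hv R h0 h1
    rw [hv3]
    exact PP_pos_big hN1 hσ hσ1 (tan_sq_mem h0 h1).1.le (tan_sq_mem h0 h1).2 hv1 hv2
  · have h0 : 0 < R := hr.trans hrR
    obtain ⟨v, hv1, hv2, hv3⟩ := hv R h0 h1
    obtain ⟨w, hw1, hw2, hw3⟩ := hv r hr (by linarith)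
    have hTr := Real.tan_pos_of_pos_of_lt_pi_div_two hr (by linarith)
    have hTR := Real.tan_pos_of_pos_of_lt_pi_div_two h0 (by linarith)
    have hlt : Real.tan r < Real.tan R :=
      Real.tan_lt_tan_of_lt_of_lt_pi_div_two (by linarith) (by linarith) hrR
    have e : Real.tan r ^ 2 = Real.tan R ^ 2 * (Real.tan r / Real.tan R) ^ 2 := by
      field_simp
    rw [hv3, hw3, e]
    exact MM_pos_big hN1 (by positivity) (by rw [div_le_one hTR]; exact hlt.le)
      (tan_sq_mem h0 h1).1.le (tan_sq_mem h0 h1).2 hv1 hv2 hw1 hw2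
  · refine kap_of hN0.le (tan_sq_mem h0 h1).1.le (tan_sq_mem h0 h1).2
      (by linarith [one_le_BS N h0 (by linarith)]) (BS_le_up1 N h0 (by linarith)) ?_ (Or.inl ?_)
    · have : (N : ℝ) * (1 - (1 - 5 / N)) = 5 := by field_simp; ring
      linarith
    · have : (N : ℝ) * (2 - (1 - 5 / N)) = N + 5 := by field_simp; ring
      linarith
  · refine sq_of_w (w := 4 / 27) (u := 2) (by norm_num) ht ?_ (by linarith) h2 (by norm_num)
    nlinarith [mul_nonneg (sq_nonneg (t - 1 / 3)) (by linarith : (0 : ℝ) ≤ 4 / 3 - t)]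
  · set γ := BS N (π / 4) with hγ
    set lam : ℝ := 1 - 5 / N with hlam
    have hlam0 : 0 ≤ lam := by linarith
    have hlam1 : lam ≤ 1 := by linarith
    have hc2 : 0 ≤ 1 - c ^ 2 := by nlinarith
    have h6 : 0 ≤ (γ - lam) * (1 - c ^ 2) / (2 * (961 / 729)) := by
      have : 0 ≤ γ - lam := by linarith
      positivity
    have h7 : (γ - lam) * (1 - c ^ 2) / (2 * (961 / 729)) ≤ γ := by
      rw [div_le_iff₀ (by norm_num)]
      nlinarith [mul_nonneg (by linarith : (0 : ℝ) ≤ γ - lam) (sq_nonneg c)]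
    have h8 : (γ - (γ - lam) * (1 - c ^ 2) / (2 * (961 / 729))) ^ 2 ≤ 4 := by nlinarith
    have h9 : (961 / 729 - 1) * γ + lam ≤ 2 * (961 / 729) - 1 := by linarith
    have h10 : (N : ℝ) * c * ((961 / 729 - 1) * γ + lam) ≤ N * c * (2 * (961 / 729) - 1) := by
      gcongr
    have h11 : (3 : ℝ) / 4 ≤ 961 / 729 * (1 + c ^ 2) - c * (2 * (961 / 729) - 1) := by
      nlinarith [sq_nonneg (c - 1 / 2), sq_nonneg (1 - c)]
    have h12 : (N : ℝ) * (3 / 4) ≤ N * (961 / 729 * (1 + c ^ 2) - c * (2 * (961 / 729) - 1)) := by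
      gcongr
    nlinarith

theorem exists_par {N : ℕ} (hN : 2 ≤ N) : ∃ lam a b : ℝ, Par N lam a b := by
  rcases lt_or_ge N 14 with h | h
  · interval_cases N
    · exact ⟨_, _, _, par_2⟩
    · exact ⟨_, _, _, par_3⟩
    · exact ⟨_, _, _, par_4⟩
    · exact ⟨_, _, _, par_5⟩
    · exact ⟨_, _, _, par_6⟩
    · exact ⟨_, _, _, par_7⟩
    · exact ⟨_, _, _, par_8⟩
    · exact ⟨_, _, _, par_9⟩
    · exact ⟨_, _, _, par_10⟩
    · exact ⟨_, _, _, par_11⟩
    · exact ⟨_, _, _, par_12⟩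
    · exact ⟨_, _, _, par_13⟩
  · exact ⟨_, _, _, par_big h⟩

end Pool.Agent.H62.SS
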