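import Pool.Agent.H62.SS.ActB
import Pool.Agent.H62.SS.Cone

set_option autoImplicit false

/-!
# [H62 SS ACTC] Domains and bodies under the linear isometries

`cn (act Φ '' K) = Φ '' cn K` (linear image of a convex set); openness and compactness: `act Φ` is an isometry equivalence; the pole: `Φ w`.
-/

namespace Pool.Agent.H62.SS

open scoped RealInnerProductSpace MeasureTheory ENNReal NNReal
open MeasureTheory Set Metric
open Pool.Agent.H62.WS (E sg cst)

variable {n : ℕ}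

theorem cn_act (Φ : E (n + 1) ≃ₗᵢ[ℝ] E (n + 1)) (K : Set (Sp n)) :
    cn (SS.act Φ '' K) = Φ.toLinearEquiv.toLinearMap '' cn K := by
  ext z
  constructor
  · rintro ⟨t, ht, _, ⟨x, hx, rfl⟩, rfl⟩
    refine ⟨t • (x : E (n + 1)), ⟨t, ht, x, hx, rfl⟩, ?_⟩
    simp [act_coe]
  · rintro ⟨_, ⟨t, ht, x, hx, rfl⟩, rfl⟩
    refine ⟨t, ht, SS.act Φ x, ⟨x, hx, rfl⟩, ?_⟩
    simp [act_coe]

theorem Dom.act {Ω : Set (Sp n)} (h : Dom Ω) (Φ : E (n + 1) ≃ₗᵢ[ℝ] E (n + 1)) :
    Dom (SS.act Φ '' Ω) where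
  isOpen := (SS.act Φ).toHomeomorph.isOpenMap _ h.isOpen
  nonempty := h.nonempty.image _
  conv := by
    rw [cn_act]
    exact h.conv.linear_image _
  diam := by
    rintro _ ⟨p, hp, rfl⟩ _ ⟨q, hq, rfl⟩
    rw [inner_act]
    exact h.diam p hp q hq

theorem Body.act {K : Set (Sp n)} (h : Body K) (Φ : E (n + 1) ≃ₗᵢ[ℝ] E (n + 1)) :
    Body (SS.act Φ '' K) where
  isCompact := h.isCompact.image (SS.act Φ).isometry.continuous
  conv := by
    rw [cn_act]
    exact h.conv.linear_image _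
  pole := by
    obtain ⟨w, hw⟩ := h.pole
    refine ⟨Φ w, ?_⟩
    rintro _ ⟨p, hp, rfl⟩
    rw [act_coe, Φ.inner_map_map]
    exact hw p hp

end Pool.Agent.H62.SS
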