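import Pool.Agent.H62.SS.Cone

set_option autoImplicit false

/-!
# [H62 SS CONEB] Cones: convexity, topology

`isOpen_cn`: the preimage of `K` under the map `nrm`, continuous on the open set `{z ≠ 0}` (`continuousAt_nrm`, `mem_cn_iff`).  `isClosed_cn_zero`: if `t_k x_k → z`, `x_k ∈ K`, then `t_k = ‖t_k x_k‖ → ‖z‖`; compactness of `K`.  The rest is elementary (`x + y = 2 • (x/2 + y/2)`).
-/

namespace Pool.Agent.H62.SS

open scoped RealInnerProductSpace MeasureTheory ENNReal NNReal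
open MeasureTheory Set Metric
open Pool.Agent.H62.WS (E sg cst)

variable {n : ℕ}

theorem add_mem_cn {K : Set (Sp n)} (hK : Convex ℝ (cn K)) {x y : E (n + 1)} (hx : x ∈ cn K)
    (hy : y ∈ cn K) : x + y ∈ cn K := by
  have h1 := hK hx hy (a := 1 / 2) (b := 1 / 2) (by norm_num) (by norm_num) (by norm_num)
  have h2 := smul_mem_cn h1 (t := 2) (by norm_num)
  rw [smul_add, smul_smul, smul_smul] at h2
  norm_num at h2
  exact h2

theorem convex_cn_of_add {K : Set (Sp n)} (h : ∀ x ∈ cn K, ∀ y ∈ cn K, x + y ∈ cn K) :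
    Convex ℝ (cn K) := by
  intro x hx y hy a b ha hb hab
  rcases ha.eq_or_lt with ha | ha
  · subst ha
    have : b = 1 := by linarith
    subst this
    simpa using hy
  rcases hb.eq_or_lt with hb | hb
  · subst hb
    have : a = 1 := by linarith
    subst this
    simpa using hx
  exact h _ (smul_mem_cn hx ha) _ (smul_mem_cn hy hb)

theorem cn_inter (K L : Set (Sp n)) : cn (K ∩ L) = cn K ∩ cn L := by
  ext z
  rw [mem_inter_iff, mem_cn_iff, mem_cn_iff, mem_cn_iff, mem_inter_iff]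
  tauto

theorem cn_mono {K L : Set (Sp n)} (h : K ⊆ L) : cn K ⊆ cn L := by
  intro z hz
  rw [mem_cn_iff] at hz ⊢
  exact ⟨hz.1, h hz.2⟩

theorem isOpen_cn {K : Set (Sp n)} (hK : IsOpen K) : IsOpen (cn K) := by
  rw [isOpen_iff_mem_nhds]
  intro z hz
  rw [mem_cn_iff] at hz
  have h1 := (continuousAt_nrm hz.1).preimage_mem_nhds (hK.mem_nhds hz.2)
  filter_upwards [h1, isOpen_ne.mem_nhds hz.1] with y hy hy2
  rw [mem_cn_iff]
  exact ⟨hy2, hy⟩

theorem isClosed_cn_zero {K : Set (Sp n)} (hK : IsCompact K) : IsClosed (cn K ∪ {0}) := by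
  rw [← isOpen_compl_iff, isOpen_iff_mem_nhds]
  intro z hz
  have h0 : z ≠ 0 := fun h => hz (Or.inr h)
  have hK2 : nrm z ∉ K := fun h => hz (Or.inl (mem_cn_iff.2 ⟨h0, h⟩))
  have h1 := (continuousAt_nrm h0).preimage_mem_nhds (hK.isClosed.isOpen_compl.mem_nhds hK2)
  filter_upwards [h1, isOpen_ne.mem_nhds h0] with y hy hy2
  rintro (hc | hc)
  · exact hy (mem_cn_iff.1 hc).2
  · exact hy2 hc

theorem convex_cn_zero {K : Set (Sp n)} (hK : Convex ℝ (cn K)) : Convex ℝ (cn K ∪ {0}) := by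
  have key : ∀ x ∈ cn K ∪ {0}, ∀ y ∈ cn K ∪ {0}, x + y ∈ cn K ∪ {0} := by
    rintro x (hx | hx) y (hy | hy)
    · exact Or.inl (add_mem_cn hK hx hy)
    · rw [mem_singleton_iff] at hy
      subst hy
      rw [add_zero]
      exact Or.inl hx
    · rw [mem_singleton_iff] at hx
      subst hx
      rw [zero_add]
      exact Or.inl hy
    · rw [mem_singleton_iff] at hx hy
      subst hx
      subst hy
      exact Or.inr (by simp)
  have key2 : ∀ x ∈ cn K ∪ {0}, ∀ t : ℝ, 0 ≤ t → t • x ∈ cn K ∪ {0} := by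
    rintro x (hx | hx) t ht
    · rcases ht.eq_or_lt with ht | ht
      · subst ht
        exact Or.inr (by simp)
      · exact Or.inl (smul_mem_cn hx ht)
    · rw [mem_singleton_iff] at hx
      subst hx
      exact Or.inr (by simp)
  intro x hx y hy a b ha hb _
  exact key _ (key2 x hx a ha) _ (key2 y hy b hb)

end Pool.Agent.H62.SS
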