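import Pool.Agent.H62.SS.Balls
import Pool.Agent.H62.SS.ActC
import Pool.Agent.H62.SS.ConeB

set_option autoImplicit false

/-!
# [H62 SS BALLCONV] Geodesic balls: convexity

`cn (gball p R) = {z | cos R * ‖z‖ < ⟪p,z⟫}` minus nothing else when `0 ≤ cos R` (for `z = t • x`, `t > 0`): a convex set, because the norm is convex and `cos R ≥ 0`.  The same with `≤` and `z ≠ 0` for `cball`: for `cos R > 0` the set
`{z | cos R * ‖z‖ ≤ ⟪p,z⟫}` is a closed convex cone and a convex combination of two nonzero elements is nonzero (`⟪p,·⟫ > 0`).  `ball_diam`: if `π/4 < R` then for a unit vector `v ⊥ p` (`n ≥ 1`) and `r` slightly smaller than `min R (π/2)`, `r > π/4`, the points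
`cos r p ± sin r v` lie in the ball and have inner product `cos 2r < 0`.  `inner_nonneg_of_ball`: angles: `∠(x,y) ≤ ∠(x,p) + ∠(p,y) < 2R ≤ π/2` (`InnerProductGeometry.angle_le_angle_add_angle`).
-/

namespace Pool.Agent.H62.SS

open scoped RealInnerProductSpace MeasureTheory ENNReal NNReal
open MeasureTheory Set Metric
open Pool.Agent.H62.WS (E sg cst)

variable {n : ℕ}

theorem mem_cn_gball {p : Sp n} {R : ℝ} {z : E (n + 1)} :
    z ∈ cn (gball p R) ↔ Real.cos R * ‖z‖ < ⟪(p : E (n + 1)), z⟫ := by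
  constructor
  · rintro ⟨t, ht, x, hx, rfl⟩
    simp only [gball, mem_setOf_eq] at hx
    rw [norm_smul, norm_coe, real_inner_smul_right, Real.norm_of_nonneg ht.le]
    nlinarith
  · intro h
    have hz : z ≠ 0 := by
      rintro rfl
      simp at h
    have hz' : 0 < ‖z‖ := norm_pos_iff.2 hz
    rw [mem_cn_iff]
    refine ⟨hz, ?_⟩
    simp only [gball, mem_setOf_eq]
    rw [coe_nrm hz, real_inner_smul_right, inv_mul_eq_div, lt_div_iff₀ hz']
    exact h

theorem mem_cn_cball {p : Sp n} {R : ℝ} {z : E (n + 1)} :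
    z ∈ cn (cball p R) ↔ z ≠ 0 ∧ Real.cos R * ‖z‖ ≤ ⟪(p : E (n + 1)), z⟫ := by
  constructor
  · rintro ⟨t, ht, x, hx, rfl⟩
    simp only [cball, mem_setOf_eq] at hx
    rw [norm_smul, norm_coe, real_inner_smul_right, Real.norm_of_nonneg ht.le]
    exact ⟨smul_ne_zero ht.ne' (coe_ne_zero x), by nlinarith⟩
  · rintro ⟨hz, h⟩
    have hz' : 0 < ‖z‖ := norm_pos_iff.2 hz
    rw [mem_cn_iff]
    refine ⟨hz, ?_⟩
    simp only [cball, mem_setOf_eq]
    rw [coe_nrm hz, real_inner_smul_right, inv_mul_eq_div, le_div_iff₀ hz']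
    exact h

theorem convex_cn_gball (p : Sp n) {R : ℝ} (h0 : 0 ≤ R) (h1 : R ≤ Real.pi / 2) :
    Convex ℝ (cn (gball p R)) := by
  have hc : 0 ≤ Real.cos R := Real.cos_nonneg_of_neg_pi_div_two_le_of_le (by linarith) h1
  apply convex_cn_of_add
  intro x hx y hy
  rw [mem_cn_gball] at hx hy ⊢
  rw [inner_add_right]
  nlinarith [mul_le_mul_of_nonneg_left (norm_add_le x y) hc]

theorem body_cball (p : Sp n) {R : ℝ} (h0 : 0 ≤ R) (h1 : R < Real.pi / 2) :
    Body (cball p R) where
  isCompact := (isClosed_cball p R).isCompact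
  conv := by
    have hc : 0 < Real.cos R := Real.cos_pos_of_mem_Ioo ⟨by linarith [Real.pi_pos], h1⟩
    apply convex_cn_of_add
    intro x hx y hy
    rw [mem_cn_cball] at hx hy ⊢
    have hx' : 0 < ‖x‖ := norm_pos_iff.2 hx.1
    constructor
    · intro h
      have h2 : ⟪(p : E (n + 1)), x + y⟫ = 0 := by rw [h, inner_zero_right]
      rw [inner_add_right] at h2
      nlinarith [mul_pos hc hx', mul_nonneg hc.le (norm_nonneg y)]
    · rw [inner_add_right]
      nlinarith [mul_le_mul_of_nonneg_left (norm_add_le x y) hc.le]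
  pole := by
    have hc : 0 < Real.cos R := Real.cos_pos_of_mem_Ioo ⟨by linarith [Real.pi_pos], h1⟩
    refine ⟨p, fun x hx => ?_⟩
    simp only [cball, mem_setOf_eq] at hx
    rw [real_inner_comm]
    linarith

theorem self_mem_gball (p : Sp n) {R : ℝ} (h0 : 0 < R) (h1 : R ≤ Real.pi) : p ∈ gball p R := by
  simp only [gball, mem_setOf_eq]
  rw [real_inner_self_eq_norm_sq, norm_coe, one_pow, ← Real.cos_zero]
  exact Real.strictAntiOn_cos ⟨le_rfl, Real.pi_pos.le⟩ ⟨h0.le, h1⟩ h0

theorem angle_lt_of_mem_gball {p x : Sp n} {R : ℝ} (h0 : 0 ≤ R) (h1 : R ≤ Real.pi)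
    (hx : x ∈ gball p R) : InnerProductGeometry.angle (p : E (n + 1)) (x : E (n + 1)) < R := by
  simp only [gball, mem_setOf_eq] at hx
  have h2 := InnerProductGeometry.cos_angle (p : E (n + 1)) (x : E (n + 1))
  rw [norm_coe, norm_coe, mul_one, div_one] at h2
  rw [← h2] at hx
  exact (Real.strictAntiOn_cos.lt_iff_gt ⟨h0, h1⟩
    ⟨InnerProductGeometry.angle_nonneg _ _, InnerProductGeometry.angle_le_pi _ _⟩).1 hx

theorem dom_gball (p : Sp n) {R : ℝ} (h0 : 0 < R) (h1 : R ≤ Real.pi / 4) : Dom (gball p R) where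
  isOpen := isOpen_gball p R
  nonempty := ⟨p, self_mem_gball p h0 (by linarith [Real.pi_pos])⟩
  conv := convex_cn_gball p h0.le (by linarith [Real.pi_pos])
  diam := by
    intro x hx y hy
    have hpi := Real.pi_pos
    have hx' := angle_lt_of_mem_gball h0.le (by linarith) hx
    have hy' := angle_lt_of_mem_gball h0.le (by linarith) hy
    have h3 := InnerProductGeometry.angle_le_angle_add_angle (x : E (n + 1)) (p : E (n + 1))
      (y : E (n + 1))
    rw [InnerProductGeometry.angle_comm (x : E (n + 1)) (p : E (n + 1))] at h3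
    have h2 := InnerProductGeometry.cos_angle (x : E (n + 1)) (y : E (n + 1))
    rw [norm_coe, norm_coe, mul_one, div_one] at h2
    rw [← h2]
    exact Real.cos_nonneg_of_neg_pi_div_two_le_of_le
      (by linarith [InnerProductGeometry.angle_nonneg (x : E (n + 1)) (y : E (n + 1))])
      (by linarith)

theorem ball_diam (hn : 1 ≤ n) (p : Sp n) {R : ℝ} (h0 : 0 ≤ R) (h1 : R ≤ Real.pi)
    (h : ∀ x ∈ gball p R, ∀ y ∈ gball p R, 0 ≤ ⟪(x : E (n + 1)), (y : E (n + 1))⟫) :
    R ≤ Real.pi / 4 := by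
  by_contra hR
  push Not at hR
  have hpi := Real.pi_pos
  obtain ⟨Φ, rfl⟩ := exists_act (nor n) p
  obtain ⟨r, hr1, hr2⟩ := exists_between (lt_min hR (show Real.pi / 4 < Real.pi / 2 by linarith))
  obtain ⟨hr3, hr4⟩ := lt_min_iff.1 hr2
  let θ : sphere (0 : E n) 1 := ⟨EuclideanSpace.single ⟨0, hn⟩ 1, by simp⟩
  have hm : ∀ η : sphere (0 : E n) 1, act Φ (pol r η) ∈ gball (act Φ (nor n)) R := by
    intro η
    rw [← act_gball]
    refine ⟨_, ?_, rfl⟩
    rw [pol_mem_gball (by linarith) (by linarith) h0 h1]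
    exact hr3
  have h2 := h _ (hm θ) _ (hm (-θ))
  rw [inner_act, inner_pol] at h2
  have h3 : ⟪(θ : E n), ((-θ : sphere (0 : E n) 1) : E n)⟫ = -1 := by
    have : ((-θ : sphere (0 : E n) 1) : E n) = -(θ : E n) := rfl
    rw [this, inner_neg_right, real_inner_self_eq_norm_sq, norm_theta]
    norm_num
  rw [h3] at h2
  have h4 : Real.cos (2 * r) < 0 :=
    Real.cos_neg_of_pi_div_two_lt_of_lt (by linarith) (by linarith)
  rw [Real.cos_two_mul] at h4
  nlinarith [Real.sin_sq_add_cos_sq r]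

end Pool.Agent.H62.SS
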