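import Pool.Agent.H62.SS.Act

set_option autoImplicit false

/-!
# [H62 SS BSPOL] The boundary measure of geodesic spheres

`pol t` multiplies distances by `sin t` (`dist_pol_pol`): Lipschitz estimates for `pol t` and for its inverse (`euclideanHausdorffMeasure_image_le`, H62/WS/HLoc, both with exact constants `sin t`, `1/sin t`), `hsph` (H62/WS/HSph):
`μHE[n-1] D = cst n * sg n D`.  `gsph (nor n) t = pol t '' univ` (`exists_pol`, `rad_pol`, `inner_nor`); other centres: `exists_act`, `act_gsph`, `bs_act_image`.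
-/

namespace Pool.Agent.H62.SS

open scoped RealInnerProductSpace MeasureTheory ENNReal NNReal
open MeasureTheory Set Metric
open Pool.Agent.H62.WS (E sg cst)

variable {n : ℕ}

open Classical in
theorem bs_pol_image (hn : 2 ≤ n) {t : ℝ} (h0 : 0 < t) (h1 : t < Real.pi)
    {D : Set (sphere (0 : E n) 1)} (hD : MeasurableSet D) :
    bs n (pol t '' D) = ENNReal.ofReal (Real.sin t ^ (n - 1)) * (cst n * sg n D) := by
  have hs : 0 < Real.sin t := Real.sin_pos_of_pos_of_lt_pi h0 h1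
  have hd : ∀ θ η : sphere (0 : E n) 1, dist (pol t θ) (pol t η) = Real.sin t * dist θ η :=
    dist_pol_pol hs.le
  have hL : LipschitzOnWith (Real.sin t).toNNReal (pol t) D := by
    refine LipschitzOnWith.of_dist_le_mul ?_
    intro x _ y _
    rw [hd, Real.coe_toNNReal _ hs.le]
  have hinj : Function.Injective (pol t : sphere (0 : E n) 1 → Sp n) := by
    intro x y hxy
    exact (pol_inj ⟨h0, h1⟩ ⟨h0, h1⟩ hxy).2
  let g : Sp n → sphere (0 : E n) 1 := fun p => if h : ∃ θ, pol t θ = p then h.choose else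
    (⟨EuclideanSpace.single ⟨0, by omega⟩ 1, by simp⟩ : sphere (0 : E n) 1)
  have hg : ∀ θ, g (pol t θ) = θ := by
    intro θ
    have hex : ∃ θ', pol t θ' = pol t θ := ⟨θ, rfl⟩
    have : g (pol t θ) = hex.choose := dif_pos hex
    rw [this]
    exact hinj hex.choose_spec
  have hL2 : LipschitzOnWith (Real.sin t)⁻¹.toNNReal g (pol t '' D) := by
    refine LipschitzOnWith.of_dist_le_mul ?_
    rintro _ ⟨x, _, rfl⟩ _ ⟨y, _, rfl⟩
    rw [hg, hg, hd, Real.coe_toNNReal _ (inv_pos.2 hs).le, ← mul_assoc, inv_mul_cancel₀ hs.ne',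
      one_mul]
  have h3 := Pool.Agent.H62.WS.euclideanHausdorffMeasure_image_le (n - 1) hL
  have h4 := Pool.Agent.H62.WS.euclideanHausdorffMeasure_image_le (n - 1) hL2
  have h5 : g '' (pol t '' D) = D := by
    rw [image_image]
    simp [hg]
  rw [h5] at h4
  have hc1 : ((Real.sin t).toNNReal : ℝ≥0∞) ^ (n - 1) = ENNReal.ofReal (Real.sin t ^ (n - 1)) := by
    rw [ENNReal.ofReal_pow hs.le]
    rfl
  have hc2 : ((Real.sin t)⁻¹.toNNReal : ℝ≥0∞) ^ (n - 1) =
      (ENNReal.ofReal (Real.sin t ^ (n - 1)))⁻¹ := by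
    rw [← ENNReal.ofReal_inv_of_pos (by positivity), ← inv_pow,
      ENNReal.ofReal_pow (inv_pos.2 hs).le]
    rfl
  rw [hc1] at h3
  rw [hc2] at h4
  have hp : ENNReal.ofReal (Real.sin t ^ (n - 1)) ≠ 0 := by
    rw [Ne, ENNReal.ofReal_eq_zero, not_le]
    positivity
  unfold bs
  rw [← Pool.Agent.H62.WS.hsph hn hD]
  refine le_antisymm h3 ?_
  calc ENNReal.ofReal (Real.sin t ^ (n - 1)) * μHE[n - 1] D
      ≤ ENNReal.ofReal (Real.sin t ^ (n - 1)) *
          ((ENNReal.ofReal (Real.sin t ^ (n - 1)))⁻¹ * μHE[n - 1] (pol t '' D)) :=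
        mul_le_mul_right h4 _
    _ = μHE[n - 1] (pol t '' D) := by
        rw [← mul_assoc, ENNReal.mul_inv_cancel hp ENNReal.ofReal_ne_top, one_mul]

theorem gsph_nor_eq (hn : 1 ≤ n) {t : ℝ} (h0 : 0 ≤ t) (h1 : t ≤ Real.pi) :
    gsph (nor n) t = range (pol t) := by
  ext p
  simp only [gsph, mem_setOf_eq, mem_range]
  rw [inner_nor]
  constructor
  · intro h
    obtain ⟨θ, hθ⟩ := exists_pol hn p
    have : rad p = t := by
      unfold rad
      rw [h, Real.arccos_cos h0 h1]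
    rw [this] at hθ
    exact ⟨θ, hθ.symm⟩
  · rintro ⟨θ, rfl⟩
    exact pol_apply_zero t θ

theorem bs_gsph (hn : 2 ≤ n) (p : Sp n) {t : ℝ} (h0 : 0 < t) (h1 : t < Real.pi) :
    bs n (gsph p t) = ENNReal.ofReal (Real.sin t ^ (n - 1)) * (cst n * sg n univ) := by
  obtain ⟨Φ, rfl⟩ := exists_act (nor n) p
  rw [← act_gsph, bs_act_image, gsph_nor_eq (by omega) h0.le h1.le, ← image_univ,
    bs_pol_image hn h0 h1 MeasurableSet.univ]

theorem bs_gsph_diff (hn : 2 ≤ n) {t : ℝ} (h0 : 0 < t) (h1 : t < Real.pi) {Ω : Set (Sp n)}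
    (hΩ : MeasurableSet Ω) :
    bs n (gsph (nor n) t \ Ω) =
      ENNReal.ofReal (Real.sin t ^ (n - 1)) * (cst n * sg n {θ | pol t θ ∉ Ω}) := by
  have hm : MeasurableSet {θ : sphere (0 : E n) 1 | pol t θ ∉ Ω} := by
    exact ((continuous_pol_right t).measurable hΩ).compl
  have he : gsph (nor n) t \ Ω = pol t '' {θ : sphere (0 : E n) 1 | pol t θ ∉ Ω} := by
    rw [gsph_nor_eq (by omega) h0.le h1.le]
    ext p
    constructor
    · rintro ⟨⟨θ, rfl⟩, hp⟩
      exact ⟨θ, hp, rfl⟩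
    · rintro ⟨θ, hθ, rfl⟩
      exact ⟨⟨θ, rfl⟩, hθ⟩
  rw [he]
  exact bs_pol_image hn h0 h1 hm

end Pool.Agent.H62.SS
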