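import Pool.Agent.H62.SS.SymMain
import Pool.Agent.H62.SS.BallConv
import Pool.Agent.H62.SS.DomA

set_option autoImplicit false

/-!
# [H62 SS ISOD] The isodiametric inequality

Suppose `sg (closure Ω) > sg (gball o (π/4))`.  `sg (cball o r)` is a continuous function of `r` (`sg_cball`, `sg_gball`, `continuous_VS`), so `sg (cball o r) ≤ sg (closure Ω)` for some `r ∈ (π/4, π/2)`.  `C = {L | sg (cball o r) ≤ sg L, ∀ x y ∈ L, 0 ≤ ⟪x,y⟫}` is closed (`usc_inter` with `B = univ`; points of the limit are limits of points), contains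
`closure Ω` (`Dom.closure_diam`), stable (`sg_plz`, `plz_inner`); `sym_main`: some `L ∈ C` contains `cball o r ⊇ gball o r`, so `r ≤ π/4` by `ball_diam`, a contradiction.
-/

namespace Pool.Agent.H62.SS

open scoped RealInnerProductSpace MeasureTheory ENNReal NNReal
open MeasureTheory Set Metric
open Pool.Agent.H62.WS (E sg cst)

variable {n : ℕ}

theorem inner_sub_le (x y x' y' : Sp n) :
    ⟪(x' : E (n + 1)), (y' : E (n + 1))⟫ ≤ ⟪(x : E (n + 1)), (y : E (n + 1))⟫ +
      dist x x' + dist y y' := by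
  have h1 : ⟪(x' : E (n + 1)), (y' : E (n + 1))⟫ - ⟪(x : E (n + 1)), (y : E (n + 1))⟫ =
      ⟪(x' : E (n + 1)) - (x : E (n + 1)), (y' : E (n + 1))⟫ +
      ⟪(x : E (n + 1)), (y' : E (n + 1)) - (y : E (n + 1))⟫ := by
    rw [inner_sub_left, inner_sub_right]
    ring
  have h2 := real_inner_le_norm ((x' : E (n + 1)) - (x : E (n + 1))) (y' : E (n + 1))
  have h3 := real_inner_le_norm (x : E (n + 1)) ((y' : E (n + 1)) - (y : E (n + 1)))
  rw [norm_coe, mul_one] at h2
  rw [norm_coe, one_mul] at h3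
  have h4 : dist x x' = ‖(x' : E (n + 1)) - (x : E (n + 1))‖ := by
    rw [Subtype.dist_eq, dist_comm, dist_eq_norm]
  have h5 : dist y y' = ‖(y' : E (n + 1)) - (y : E (n + 1))‖ := by
    rw [Subtype.dist_eq, dist_comm, dist_eq_norm]
  linarith

theorem isClosed_diam_class (c : ℝ≥0∞) : IsClosed {L : TopologicalSpace.NonemptyCompacts (Sp n) |
    c ≤ sg (n + 1) (L : Set (Sp n)) ∧
      ∀ x ∈ (L : Set (Sp n)), ∀ y ∈ (L : Set (Sp n)),
        0 ≤ ⟪(x : E (n + 1)), (y : E (n + 1))⟫} := by
  apply IsSeqClosed.isClosed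
  intro Kj K hKj hK
  constructor
  · have h1 := usc_inter hK (B := univ) isClosed_univ (c := c) (fun j => by
      rw [inter_univ]
      exact (hKj j).1)
    rwa [inter_univ] at h1
  · intro x hx y hy
    refine le_of_forall_pos_le_add fun ε hε => ?_
    obtain ⟨j, hj⟩ := (Metric.tendsto_atTop.1 hK (ε / 2) (by linarith)).imp fun j hj => hj j le_rfl
    rw [dist_comm] at hj
    have hfin : hausdorffEDist (K : Set (Sp n)) (Kj j : Set (Sp n)) ≠ ⊤ :=
      hausdorffEDist_ne_top_of_nonempty_of_bounded K.nonempty (Kj j).nonempty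
        K.isCompact.isBounded (Kj j).isCompact.isBounded
    obtain ⟨x', hx', hxx⟩ := exists_dist_lt_of_hausdorffDist_lt hx hj hfin
    obtain ⟨y', hy', hyy⟩ := exists_dist_lt_of_hausdorffDist_lt hy hj hfin
    have h2 := (hKj j).2 x' hx' y' hy'
    have h3 := inner_sub_le x y x' y'
    linarith

theorem gball_subset_cball' (o : Sp n) (r : ℝ) : gball o r ⊆ cball o r := fun x hx => by
  simp only [gball, mem_setOf_eq] at hx
  exact hx.le

theorem isodiametric (hn : 2 ≤ n) {Ω : Set (Sp n)} (h : Dom Ω) (o : Sp n) :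
    sg (n + 1) Ω ≤ sg (n + 1) (gball o (Real.pi / 4)) := by
  by_contra hlt
  push Not at hlt
  have hpi := Real.pi_pos
  have hω : sg n univ ≠ ∞ := measure_ne_top _ _
  have hlt2 : sg (n + 1) (gball o (Real.pi / 4)) < sg (n + 1) (closure Ω) :=
    hlt.trans_le (measure_mono subset_closure)
  rw [sg_gball hn o (by linarith) (by linarith)] at hlt2
  have hcl : sg (n + 1) (closure Ω) ≠ ∞ := measure_ne_top _ _
  have hcont : Continuous (fun r : ℝ => ENNReal.ofReal (VS (n - 1) r) * sg n univ) :=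
    (ENNReal.continuous_mul_const hω).comp (ENNReal.continuous_ofReal.comp (continuous_VS _))
  have hopen : IsOpen {r : ℝ | ENNReal.ofReal (VS (n - 1) r) * sg n univ < sg (n + 1) (closure Ω)} :=
    isOpen_lt hcont continuous_const
  obtain ⟨δ, hδ, hball⟩ := Metric.isOpen_iff.1 hopen (Real.pi / 4) hlt2
  obtain ⟨s, hs0, hs1, hs2⟩ : ∃ s : ℝ, 0 < s ∧ s < δ ∧ s < Real.pi / 4 :=
    ⟨min (δ / 2) (Real.pi / 8), by positivity, (min_le_left _ _).trans_lt (by linarith),
      (min_le_right _ _).trans_lt (by linarith)⟩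
  set r : ℝ := Real.pi / 4 + s with hr
  have hr1 : ENNReal.ofReal (VS (n - 1) r) * sg n univ < sg (n + 1) (closure Ω) := by
    apply hball
    rw [mem_ball, Real.dist_eq, hr, add_sub_cancel_left, abs_of_pos hs0]
    exact hs1
  rw [← sg_cball hn o (by linarith) (by linarith)] at hr1
  let K0 : TopologicalSpace.NonemptyCompacts (Sp n) :=
    ⟨⟨closure Ω, isClosed_closure.isCompact⟩, h.nonempty.closure⟩
  obtain ⟨K, hK, hsub⟩ := sym_main hn o (r := r) (by linarith) (by linarith)
    (isClosed_diam_class (n := n) (sg (n + 1) (cball o r)))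
    ⟨K0, hr1.le, fun x hx y hy => h.closure_diam hx hy⟩ (fun K hK => hK.1)
    (fun K hK u _ K' hK' => by
      constructor
      · rw [hK', sg_plz hn u K.isCompact.isClosed.measurableSet]
        exact hK.1
      · rw [hK']
        exact plz_inner u hK.2)
  have h5 := ball_diam (by omega) o (R := r) (by linarith) (by linarith) (fun x hx y hy =>
    hK.2 x (hsub (gball_subset_cball' o r hx)) y (hsub (gball_subset_cball' o r hy)))
  linarith

end Pool.Agent.H62.SS
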