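import Pool.Agent.H62.SS.CaseA
import Pool.Agent.H62.SS.Isod

set_option autoImplicit false

/-!
# [H62 SS CASEB] Large perimeter

Data of `exists_prof_quarter` (`R' = π/4`), `exists_move`.  `I = ∫ F²`, `A = (bs (frontier Ω)).toReal = sin^(n-1) R c ω`, `I ≤ X A` (`rad p < π/2` on `frontier Ω`).  `sigma1_mul_le`, `star` (for `π/4`), `isodiametric` (the `κ` term is `≥ 0`): `σ₁ I ≤ γ₁ I/c - m (A/c)(1 - (s₁/s_R)^(n-1)) ≤ (I/c)(γ₁ - m (1 - (s₁/s_R)^(n-1))/X) < (I/c) gS R`.
-/

namespace Pool.Agent.H62.SS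

open scoped RealInnerProductSpace MeasureTheory ENNReal NNReal
open MeasureTheory Set Metric
open Pool.Agent.H62.WS (E sg cst)

variable {n : ℕ}

theorem case_large (hn : 3 ≤ n) {Ω : Set (Sp n)} (h : Dom Ω) {R : ℝ} (h0 : Real.pi / 4 < R)
    (h1 : R < Real.pi / 2) (hR : bs n (frontier Ω) = bs n (gsph (nor n) R)) :
    sigma1 Ω < gS (n - 1) R / (cst n).toReal := by
  have hn2 : 2 ≤ n := by omega
  have hN : 2 ≤ n - 1 := by omega
  have hpi := Real.pi_pos
  have hR0 : 0 < R := by linarith
  obtain ⟨m, κ, r₀, H, X, P, hX, hFX, hR2⟩ := exists_prof_quarter hN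
  have hgR := hR2 R ⟨h0, h1⟩
  obtain ⟨Φ, hoΦ, hint⟩ := exists_move hn2 h P.contDiff P.pos
  have hd : Dom (act Φ '' Ω) := h.act Φ
  set W : Set (Sp n) := act Φ '' Ω with hW
  have hbs : bs n (frontier W) = bs n (gsph (nor n) R) := by
    rw [hW, ← act_frontier, bs_act_image, hR]
  have hc := cst_toReal_pos hn2
  have hA := bs_toReal_of_eq hn2 hR0 (by linarith) hbs
  have hvol : (sg (n + 1) W).toReal ≤ VS (n - 1) (Real.pi / 4) * (sg n univ).toReal := by
    rw [← sg_gball_toReal hn2 (nor n) (by linarith) (by linarith)]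
    exact ENNReal.toReal_mono (measure_ne_top _ _) (isodiametric hn2 hd (nor n))
  have hfin : bs n (frontier W) < ∞ := bs_frontier_lt_top hn2 hd
  have hup := sigma1_mul_le hn2 hfin P.contDiff hint
  have hst := star hn2 hd hoΦ P
  have hI := integral_Fp_pos hn2 hd hoΦ P.contDiff P.pos
  have hκ : 0 ≤ κ * (VS (n - 1) (Real.pi / 4) * (sg n univ).toReal - (sg (n + 1) W).toReal) :=
    mul_nonneg P.kap_nonneg (by linarith)
  have hsig : sigma1 W = sigma1 Ω := sigma1_act Φ Ω
  rw [hsig] at hup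
  set I := ∫ p in frontier W, Fp H (rad p) ^ 2 ∂bs n with hIdef
  set c := (cst n).toReal with hcdef
  set ω := (sg n univ).toReal with hωdef
  set A := (bs n (frontier W)).toReal with hAdef
  have hsR : 0 < Real.sin R := Real.sin_pos_of_pos_of_lt_pi hR0 (by linarith)
  have hIX : I ≤ X * A := by
    have hfin' : IsFiniteMeasure ((bs n).restrict (frontier W)) := ⟨by simpa using hfin⟩
    have h2 : I ≤ ∫ _p in frontier W, X ∂bs n := by
      refine setIntegral_mono_on ?_ ?_ isClosed_frontier.measurableSet ?_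
      · refine Integrable.of_bound (C := X)
          (((continuous_Fp P.contDiff).comp continuous_rad).pow 2).aestronglyMeasurable ?_
        rw [ae_restrict_iff' isClosed_frontier.measurableSet]
        refine Filter.Eventually.of_forall fun p hp => ?_
        rw [Real.norm_eq_abs, abs_of_nonneg (sq_nonneg _)]
        exact hFX _ ⟨rad_nonneg p,
          (rad_lt_of_mem_closure hd hoΦ (frontier_subset_closure hp)).le⟩
      · exact integrable_const _
      · intro p hp
        exact hFX _ ⟨rad_nonneg p,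
          (rad_lt_of_mem_closure hd hoΦ (frontier_subset_closure hp)).le⟩
    rw [setIntegral_const, smul_eq_mul] at h2
    have h3 : (bs n).real (frontier W) = A := rfl
    rw [h3] at h2
    linarith
  -- the quantity `δ = 1 - (s₁/s_R)^N`
  set δ := 1 - (Real.sin (Real.pi / 4) / Real.sin R) ^ (n - 1) with hδ
  have hs1 : 0 < Real.sin (Real.pi / 4) := Real.sin_pos_of_pos_of_lt_pi (by linarith) (by linarith)
  have hs1R : Real.sin (Real.pi / 4) < Real.sin R :=
    Real.sin_lt_sin_of_lt_of_le_pi_div_two (by linarith) h1.le h0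
  have hδ0 : 0 ≤ δ := by
    have : (Real.sin (Real.pi / 4) / Real.sin R) ^ (n - 1) ≤ 1 :=
      pow_le_one₀ (by positivity) (by rw [div_le_one hsR]; exact hs1R.le)
    linarith
  have e1 : A / c - Real.sin (Real.pi / 4) ^ (n - 1) * ω = A / c * δ := by
    rw [hδ, hA, div_pow]
    field_simp
  rw [e1] at hst
  have hAI : I / X ≤ A := by
    rw [div_le_iff₀ hX]
    linarith
  have h2 : m * (I / X / c * δ) ≤ m * (A / c * δ) := by
    have := P.m_pos
    gcongr
  have h3 : sigma1 Ω * I ≤ (gS (n - 1) (Real.pi / 4) - m * δ / X) / c * I := by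
    have e2 : (gS (n - 1) (Real.pi / 4) - m * δ / X) / c * I =
        gS (n - 1) (Real.pi / 4) * I / c - m * (I / X / c * δ) := by
      field_simp
    rw [e2]
    linarith
  have h4 : sigma1 Ω ≤ (gS (n - 1) (Real.pi / 4) - m * δ / X) / c :=
    le_of_mul_le_mul_right h3 hI
  refine h4.trans_lt ?_
  have h5 : gS (n - 1) (Real.pi / 4) - m * δ / X < gS (n - 1) R := by
    have h6 : gS (n - 1) (Real.pi / 4) - gS (n - 1) R < m * δ / X := by
      rw [lt_div_iff₀ hX]
      exact hgR
    linarith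
  gcongr

end Pool.Agent.H62.SS
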