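import Pool.Agent.H62.SS.Act

set_option autoImplicit false

/-!
# [H62 SS BALLS] Geodesic balls: topology

Transport to the pole by `exists_act`.  `gball (nor n) R = {p | cos R < p 0}`, so with `exists_pol`: `pol r θ ∈ gball ↔ r < R` (`cos` strictly decreasing on `[0,π]`).  Closure/interior: a point `pol R θ` is the limit of `pol r θ`, `r → R`
from both sides (`continuous_pol`).
-/

namespace Pool.Agent.H62.SS

open scoped RealInnerProductSpace MeasureTheory ENNReal NNReal
open MeasureTheory Set Metric
open Pool.Agent.H62.WS (E sg cst)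

variable {n : ℕ}

theorem continuous_inner_left (z : E (n + 1)) :
    Continuous (fun x : Sp n => ⟪z, (x : E (n + 1))⟫) :=
  continuous_const.inner continuous_subtype_val

theorem isOpen_gball (p : Sp n) (R : ℝ) : IsOpen (gball p R) := by
  exact isOpen_lt continuous_const (continuous_inner_left _)

theorem isClosed_cball (p : Sp n) (R : ℝ) : IsClosed (cball p R) := by
  exact isClosed_le continuous_const (continuous_inner_left _)

theorem isClosed_gsph (p : Sp n) (R : ℝ) : IsClosed (gsph p R) := by
  exact isClosed_eq (continuous_inner_left _) continuous_const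

theorem pol_mem_gball {r R : ℝ} (h0 : 0 ≤ r) (h1 : r ≤ Real.pi) (h2 : 0 ≤ R) (h3 : R ≤ Real.pi)
    (θ : sphere (0 : E n) 1) : pol r θ ∈ gball (nor n) R ↔ r < R := by
  simp only [gball, mem_setOf_eq]
  rw [inner_nor, pol_apply_zero]
  exact Real.strictAntiOn_cos.lt_iff_gt ⟨h2, h3⟩ ⟨h0, h1⟩

theorem mem_gball_nor {R : ℝ} (h2 : 0 ≤ R) (h3 : R ≤ Real.pi) (p : Sp n) :
    p ∈ gball (nor n) R ↔ rad p < R := by
  simp only [gball, mem_setOf_eq]
  rw [inner_nor, ← cos_rad]
  exact Real.strictAntiOn_cos.lt_iff_gt ⟨h2, h3⟩ ⟨rad_nonneg p, rad_le_pi p⟩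

theorem mem_cball_nor {R : ℝ} (h2 : 0 ≤ R) (h3 : R ≤ Real.pi) (p : Sp n) :
    p ∈ cball (nor n) R ↔ rad p ≤ R := by
  simp only [cball, mem_setOf_eq]
  rw [inner_nor, ← cos_rad]
  exact Real.strictAntiOn_cos.le_iff_ge ⟨h2, h3⟩ ⟨rad_nonneg p, rad_le_pi p⟩

theorem closure_gball_nor (hn : 1 ≤ n) {R : ℝ} (h0 : 0 < R) (h1 : R < Real.pi) :
    closure (gball (nor n) R) = cball (nor n) R := by
  apply subset_antisymm
  · refine closure_minimal ?_ (isClosed_cball _ _)
    intro x hx
    simp only [gball, mem_setOf_eq] at hx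
    simp only [cball, mem_setOf_eq]
    exact hx.le
  · intro x hx
    rw [mem_cball_nor h0.le h1.le] at hx
    obtain ⟨θ, hθ⟩ := exists_pol hn x
    rcases hx.eq_or_lt with h | h
    · rw [hθ, h]
      have h2 : Filter.Tendsto (fun r => pol r θ) (nhdsWithin R (Iio R)) (nhds (pol R θ)) := by
        have hc : Continuous (fun r : ℝ => pol r θ) :=
          continuous_pol.comp (continuous_id.prodMk continuous_const)
        exact (hc.tendsto R).mono_left nhdsWithin_le_nhds
      refine mem_closure_of_tendsto h2 ?_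
      filter_upwards [Ioo_mem_nhdsLT h0] with r hr
      rw [pol_mem_gball hr.1.le (hr.2.trans h1).le h0.le h1.le]
      exact hr.2
    · apply subset_closure
      rw [mem_gball_nor h0.le h1.le]
      exact h

theorem interior_cball_nor (hn : 1 ≤ n) {R : ℝ} (h0 : 0 < R) (h1 : R < Real.pi) :
    interior (cball (nor n) R) = gball (nor n) R := by
  apply subset_antisymm
  · intro x hx
    have hx2 := interior_subset hx
    rw [mem_cball_nor h0.le h1.le] at hx2
    rw [mem_gball_nor h0.le h1.le]
    rcases hx2.eq_or_lt with h | h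
    · exfalso
      obtain ⟨θ, hθ⟩ := exists_pol hn x
      have h2 : Filter.Tendsto (fun r => pol r θ) (nhdsWithin R (Ioi R)) (nhds x) := by
        have hc : Continuous (fun r : ℝ => pol r θ) :=
          continuous_pol.comp (continuous_id.prodMk continuous_const)
        have h3 := (hc.tendsto R).mono_left (nhdsWithin_le_nhds (s := Ioi R))
        rw [h] at hθ
        rw [hθ]
        exact h3
      have h3 := h2.eventually (isOpen_interior.mem_nhds hx)
      obtain ⟨r, hr, hr2⟩ := (h3.and (Ioo_mem_nhdsGT h1)).exists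
      have h4 := interior_subset hr
      rw [mem_cball_nor h0.le h1.le, rad_pol (h0.trans hr2.1).le hr2.2.le] at h4
      exact absurd hr2.1 (not_lt.2 h4)
    · exact h
  · refine interior_maximal ?_ (isOpen_gball _ _)
    intro x hx
    simp only [gball, mem_setOf_eq] at hx
    simp only [cball, mem_setOf_eq]
    exact hx.le

theorem closure_gball (hn : 1 ≤ n) (p : Sp n) {R : ℝ} (h0 : 0 < R) (h1 : R < Real.pi) :
    closure (gball p R) = cball p R := by
  obtain ⟨Φ, rfl⟩ := exists_act (nor n) p
  rw [← act_gball, ← act_cball, ← closure_gball_nor hn h0 h1]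
  exact ((act Φ).toHomeomorph.image_closure _).symm

theorem interior_cball (hn : 1 ≤ n) (p : Sp n) {R : ℝ} (h0 : 0 < R) (h1 : R < Real.pi) :
    interior (cball p R) = gball p R := by
  obtain ⟨Φ, rfl⟩ := exists_act (nor n) p
  rw [← act_gball, ← act_cball, ← interior_cball_nor hn h0 h1]
  exact ((act Φ).toHomeomorph.image_interior _).symm

theorem frontier_gball (hn : 1 ≤ n) (p : Sp n) {R : ℝ} (h0 : 0 < R) (h1 : R < Real.pi) :
    frontier (gball p R) = gsph p R := by
  rw [frontier, closure_gball hn p h0 h1, (isOpen_gball p R).interior_eq]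
  ext x
  simp only [mem_diff, gball, cball, gsph, mem_setOf_eq, not_lt]
  exact ⟨fun h => le_antisymm h.2 h.1, fun h => ⟨h.ge, h.le⟩⟩

theorem frontier_cball (hn : 1 ≤ n) (p : Sp n) {R : ℝ} (h0 : 0 < R) (h1 : R < Real.pi) :
    frontier (cball p R) = gsph p R := by
  rw [frontier, (isClosed_cball p R).closure_eq, interior_cball hn p h0 h1]
  ext x
  simp only [mem_diff, gball, cball, gsph, mem_setOf_eq, not_lt]
  exact ⟨fun h => le_antisymm h.2 h.1, fun h => ⟨h.ge, h.le⟩⟩

end Pool.Agent.H62.SS
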