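import Pool.Agent.H62.SS.Mono
import Pool.Agent.H62.SS.BallConv
import Pool.Agent.H62.SS.BsPol

set_option autoImplicit false

/-!
# [H62 SS SIZE] The size of the boundary

`Ω ⊆ cball p R'`, `R' < π/2` (`Dom.subset_gball`): `bs (frontier Ω) = bs (frontier (closure Ω)) ≤ bs (gsph p R') < bs (gsph p (π/2))` (`bs_mono`, `bs_gsph`, `cst_ne_zero`, `cst_ne_top`, `sg_univ_pos`).  `Ω` is open: it contains a ball `cball p δ`, `0 < δ < π/2`: positivity.  `exists_radius`: intermediate value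
theorem for `R ↦ sin R ^ (n-1)`.
-/

namespace Pool.Agent.H62.SS

open scoped RealInnerProductSpace MeasureTheory ENNReal NNReal
open MeasureTheory Set Metric
open Pool.Agent.H62.WS (E sg cst)

variable {n : ℕ}

theorem cst_sg_ne_top (hn : 2 ≤ n) : cst n * sg n univ ≠ ∞ :=
  ENNReal.mul_ne_top (Pool.Agent.H62.WS.cst_ne_top hn) (measure_ne_top _ _)

theorem cst_sg_ne_zero (hn : 2 ≤ n) : cst n * sg n univ ≠ 0 :=
  mul_ne_zero (Pool.Agent.H62.WS.cst_ne_zero hn) (Pool.Agent.H62.WS.sg_univ_pos hn).ne'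

theorem bs_gsph_lt_top (hn : 2 ≤ n) (p : Sp n) {t : ℝ} (h0 : 0 < t) (h1 : t < Real.pi) :
    bs n (gsph p t) < ∞ := by
  rw [bs_gsph hn p h0 h1]
  exact (ENNReal.mul_ne_top ENNReal.ofReal_ne_top (cst_sg_ne_top hn)).lt_top

theorem bs_gsph_strictMono (hn : 2 ≤ n) (p q : Sp n) {s t : ℝ} (h0 : 0 < s) (h1 : s < t)
    (h2 : t ≤ Real.pi / 2) : bs n (gsph p s) < bs n (gsph q t) := by
  have hpi := Real.pi_pos
  rw [bs_gsph hn p h0 (by linarith), bs_gsph hn q (by linarith) (by linarith)]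
  refine ENNReal.mul_lt_mul_left (cst_sg_ne_zero hn) (cst_sg_ne_top hn) ?_
  have hs : 0 < Real.sin s := Real.sin_pos_of_pos_of_lt_pi h0 (by linarith)
  have hst : Real.sin s < Real.sin t := Real.sin_lt_sin_of_lt_of_le_pi_div_two (by linarith) h2 h1
  have hp : Real.sin s ^ (n - 1) < Real.sin t ^ (n - 1) :=
    pow_lt_pow_left₀ hst hs.le (by omega)
  exact (ENNReal.ofReal_lt_ofReal_iff ((pow_pos hs _).trans hp)).2 hp

theorem bs_frontier_lt (hn : 2 ≤ n) {Ω : Set (Sp n)} (h : Dom Ω) :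
    bs n (frontier Ω) < bs n (gsph (nor n) (Real.pi / 2)) := by
  obtain ⟨p, hp⟩ := h.nonempty
  obtain ⟨R, hR0, hR1, hR⟩ := h.subset_gball hp
  have h1 := bs_mono h.body_closure (body_cball p hR0.le hR1) hR
  rw [h.frontier_closure, frontier_cball (by omega) p hR0 (by linarith [Real.pi_pos])] at h1
  exact h1.trans_lt (bs_gsph_strictMono hn _ _ hR0 hR1 le_rfl)

theorem bs_frontier_pos (hn : 2 ≤ n) {Ω : Set (Sp n)} (h : Dom Ω) : 0 < bs n (frontier Ω) := by
  obtain ⟨p, hp⟩ := h.nonempty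
  obtain ⟨r, hr, hr2⟩ := Metric.isOpen_iff.1 h.isOpen p hp
  have hpi := Real.pi_gt_three
  obtain ⟨δ, hδ0, hδ1, hδ2⟩ : ∃ δ : ℝ, 0 < δ ∧ δ < r ∧ δ < Real.pi / 2 :=
    ⟨min (r / 2) 1, by positivity, (min_le_left _ _).trans_lt (by linarith),
      (min_le_right _ _).trans_lt (by linarith)⟩
  have hsub : cball p δ ⊆ closure Ω := by
    intro x hx
    apply subset_closure
    apply hr2
    rw [mem_ball]
    have h1 : Real.cos δ ≤ ⟪(p : E (n + 1)), (x : E (n + 1))⟫ := hx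
    have h2 := dist_sq_eq x p
    rw [real_inner_comm] at h2
    have h3 := Real.one_sub_sq_div_two_le_cos (x := δ)
    exact lt_of_pow_lt_pow_left₀ 2 hr.le (by nlinarith)
  have h1 := bs_mono (body_cball p hδ0.le hδ2) h.body_closure hsub
  rw [h.frontier_closure, frontier_cball (by omega) p hδ0 (by linarith)] at h1
  refine lt_of_lt_of_le ?_ h1
  rw [bs_gsph hn p hδ0 (by linarith)]
  have hs : 0 < Real.sin δ := Real.sin_pos_of_pos_of_lt_pi hδ0 (by linarith)
  exact (mul_ne_zero (ENNReal.ofReal_pos.2 (pow_pos hs _)).ne' (cst_sg_ne_zero hn)).bot_lt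

theorem bs_frontier_lt_top (hn : 2 ≤ n) {Ω : Set (Sp n)} (h : Dom Ω) :
    bs n (frontier Ω) < ∞ :=
  (bs_frontier_lt hn h).trans_le le_top

theorem exists_radius (hn : 2 ≤ n) {Ω : Set (Sp n)} (h : Dom Ω) :
    ∃ R : ℝ, 0 < R ∧ R < Real.pi / 2 ∧ ∀ p : Sp n, bs n (gsph p R) = bs n (frontier Ω) := by
  have hpi := Real.pi_pos
  have hb := bs_frontier_lt hn h
  have hb0 := bs_frontier_pos hn h
  have hc0 := cst_sg_ne_zero (n := n) hn
  have hct := cst_sg_ne_top (n := n) hn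
  rw [bs_gsph hn _ (by positivity) (by linarith), Real.sin_pi_div_two, one_pow, ENNReal.ofReal_one,
    one_mul] at hb
  set b := bs n (frontier Ω) with hbdef
  set c := cst n * sg n univ with hcdef
  have hbt : b ≠ ∞ := (hb.trans hct.lt_top).ne
  have hq0 : 0 < (b / c).toReal := ENNReal.toReal_pos (ENNReal.div_pos hb0.ne' hct).ne'
    (ENNReal.div_lt_top hbt hc0).ne
  have hq1 : (b / c).toReal < 1 := by
    have h1 : b / c < 1 := by
      rw [ENNReal.div_lt_iff (Or.inl hc0) (Or.inl hct), one_mul]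
      exact hb
    have := (ENNReal.toReal_lt_toReal h1.ne_top ENNReal.one_ne_top).2 h1
    simpa using this
  have hcont : ContinuousOn (fun R : ℝ => Real.sin R ^ (n - 1)) (Icc 0 (Real.pi / 2)) :=
    (Real.continuous_sin.pow _).continuousOn
  have hivt := intermediate_value_Icc (by positivity) hcont
  have hmem : (b / c).toReal ∈ Icc (Real.sin 0 ^ (n - 1)) (Real.sin (Real.pi / 2) ^ (n - 1)) := by
    rw [Real.sin_zero, Real.sin_pi_div_two, one_pow, zero_pow (by omega)]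
    exact ⟨hq0.le, hq1.le⟩
  obtain ⟨R, hR, hR2⟩ := hivt hmem
  simp only at hR2
  have hR0 : R ≠ 0 := by
    rintro rfl
    rw [Real.sin_zero, zero_pow (by omega)] at hR2
    exact hq0.ne hR2
  have hR1 : R ≠ Real.pi / 2 := by
    rintro rfl
    rw [Real.sin_pi_div_two, one_pow] at hR2
    exact hq1.ne' hR2
  have hR0' : 0 < R := lt_of_le_of_ne hR.1 (Ne.symm hR0)
  have hR1' : R < Real.pi / 2 := lt_of_le_of_ne hR.2 hR1
  refine ⟨R, hR0', hR1', ?_⟩
  intro p
  rw [bs_gsph hn p hR0' (by linarith), hR2, ENNReal.ofReal_toReal (ENNReal.div_lt_top hbt hc0).ne,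
    ← hcdef]
  exact ENNReal.div_mul_cancel hc0 hct

end Pool.Agent.H62.SS
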