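import Pool.Agent.H62.SS.BsPol

set_option autoImplicit false

/-!
# [H62 SS OUTM] The lower bound of the boundary measure by projection

Let `S = K ∩ {p | ∃ θ ∈ D, ∃ t, r ≤ t ∧ t ≤ π/2 ∧ p = pol t θ}`.  The map `g : S → Sp n`, `g (pol t θ) = pol r θ` (e.g. `g p = pol r (dn p/‖dn p‖)`, `dn (pol t θ) = sin t θ`), is `1`-Lipschitz on `S` (`sin_mul_dist_le`, `dist_pol_pol`) and `pol r '' D ⊆ g '' S`.
`euclideanHausdorffMeasure_image_le` (H62/WS/HLoc, `K = 1`) and `bs_pol_image`.  (See H62/WS/Out.lean.)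
-/

namespace Pool.Agent.H62.SS

open scoped RealInnerProductSpace MeasureTheory ENNReal NNReal
open MeasureTheory Set Metric
open Pool.Agent.H62.WS (E sg cst)

variable {n : ℕ}

theorem outer_meas (hn : 2 ≤ n) {r : ℝ} (h0 : 0 < r) (h1 : r ≤ Real.pi / 2)
    {D : Set (sphere (0 : E n) 1)} (hD : MeasurableSet D) (K : Set (Sp n))
    (h : ∀ θ ∈ D, ∃ t, r ≤ t ∧ t ≤ Real.pi / 2 ∧ pol t θ ∈ K) :
    ENNReal.ofReal (Real.sin r ^ (n - 1)) * (cst n * sg n D) ≤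
      bs n (K ∩ {p | ∃ θ ∈ D, ∃ t, r ≤ t ∧ t ≤ Real.pi / 2 ∧ p = pol t θ}) := by
  have hpi := Real.pi_pos
  set S := K ∩ {p | ∃ θ ∈ D, ∃ t, r ≤ t ∧ t ≤ Real.pi / 2 ∧ p = pol t θ} with hS
  have hex : ∀ p : Sp n, ∃ q : Sp n, ∀ θ t, r ≤ t → t ≤ Real.pi / 2 → p = pol t θ → q = pol r θ := by
    intro p
    by_cases hp : ∃ θ : sphere (0 : E n) 1, ∃ t, r ≤ t ∧ t ≤ Real.pi / 2 ∧ p = pol t θ
    · obtain ⟨θ, t, ht1, ht2, ht3⟩ := hp
      refine ⟨pol r θ, ?_⟩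
      intro θ' t' h1' h2' h3'
      have := pol_inj (r := t) (s := t') (θ := θ) (η := θ') ⟨by linarith, by linarith⟩
        ⟨by linarith, by linarith⟩ (ht3.symm.trans h3')
      rw [this.2]
    · refine ⟨p, ?_⟩
      intro θ t h1' h2' h3'
      exact absurd ⟨θ, t, h1', h2', h3'⟩ hp
  choose g hg using hex
  have hL : LipschitzOnWith 1 g S := by
    refine LipschitzOnWith.of_dist_le_mul ?_
    rintro p ⟨-, θ, -, t, ht1, ht2, ht3⟩ q ⟨-, η, -, s, hs1, hs2, hs3⟩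
    rw [hg p θ t ht1 ht2 ht3, hg q η s hs1 hs2 hs3, ht3, hs3, NNReal.coe_one, one_mul,
      dist_pol_pol (Real.sin_nonneg_of_nonneg_of_le_pi h0.le (by linarith))]
    exact sin_mul_dist_le h0.le ht1 hs1 ht2 hs2 θ η
  have h2 := Pool.Agent.H62.WS.euclideanHausdorffMeasure_image_le (n - 1) hL
  rw [ENNReal.coe_one, one_pow, one_mul] at h2
  rw [← bs_pol_image hn h0 (by linarith) hD]
  refine (measure_mono ?_).trans h2
  rintro _ ⟨θ, hθ, rfl⟩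
  obtain ⟨t, ht1, ht2, ht3⟩ := h θ hθ
  exact ⟨pol t θ, ⟨ht3, θ, hθ, t, ht1, ht2, rfl⟩, hg _ θ t ht1 ht2 rfl⟩

end Pool.Agent.H62.SS
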