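import Pool.Agent.H62.SS.ProfM

set_option autoImplicit false

/-!
# [H62 SS PROFE] Existence of the comparison profile (the one-dimensional part)
-/

namespace Pool.Agent.H62.SS

open MeasureTheory Set

theorem exists_prof {N : ℕ} (hN : 2 ≤ N) {R : ℝ} (h0 : 0 < R) (h1 : R ≤ Real.pi / 4) :
    ∃ (m κ r₀ : ℝ) (H : ℝ → ℝ), Prof N R (gS N R) m κ r₀ H := by
  obtain ⟨lam, a, b, P⟩ := exists_par hN
  obtain ⟨κ, r₀, H, h, -, -⟩ := prof_of_par hN h0 h1 P
  exact ⟨_, κ, r₀, H, h⟩

theorem exists_prof_quarter {N : ℕ} (hN : 2 ≤ N) :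
    ∃ (m κ r₀ : ℝ) (H : ℝ → ℝ) (X : ℝ), Prof N (Real.pi / 4) (gS N (Real.pi / 4)) m κ r₀ H ∧
      0 < X ∧ (∀ t ∈ Icc 0 (Real.pi / 2), Fp H t ^ 2 ≤ X) ∧
      ∀ R ∈ Ioo (Real.pi / 4) (Real.pi / 2),
        (gS N (Real.pi / 4) - gS N R) * X <
          m * (1 - (Real.sin (Real.pi / 4) / Real.sin R) ^ N) := by
  have hpi := Real.pi_pos
  obtain ⟨lam, a, b, P⟩ := exists_par hN
  obtain ⟨κ, r₀, H, h, hin, hout⟩ := prof_of_par hN (R := Real.pi / 4) (by linarith) le_rfl P
  obtain ⟨X, hX1, hX2, hX3⟩ := P.quarter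
  rw [Real.tan_pi_div_four, div_one] at h
  refine ⟨_, κ, r₀, H, X, h, by linarith, fun t ht => ?_, fun R hR => ?_⟩
  · rcases le_or_gt t (Real.pi / 4) with h2 | h2
    · rw [hin t ⟨ht.1, h2⟩]
      have hf := fS_pos N (r := Real.pi / 4) (by linarith) (by linarith)
      rcases ht.1.eq_or_lt with h3 | h3
      · rw [← h3]
        have : fS N 0 = 0 := by
          unfold fS
          rw [VS_zero, zero_div]
        rw [this]
        simp
        linarith
      · have h4 := fS_pos N (r := t) h3 (by linarith)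
        have h5 : fS N t ≤ fS N (Real.pi / 4) :=
          (fS_strictMono N).monotoneOn ⟨h3, by linarith⟩ ⟨by linarith, by linarith⟩ h2
        have h6 : fS N t / fS N (Real.pi / 4) ≤ 1 := by
          rw [div_le_one hf]
          exact h5
        have h7 : 0 ≤ fS N t / fS N (Real.pi / 4) := by positivity
        have h8 : (fS N t / fS N (Real.pi / 4)) ^ 2 ≤ 1 := by nlinarith
        linarith
    · rw [hout t ⟨h2.le, ht.2⟩, Real.tan_pi_div_four]
      have hs : 0 < Real.sin t := Real.sin_pos_of_pos_of_lt_pi (by linarith) (by linarith [ht.2])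
      have hc : 0 ≤ Real.cos t := Real.cos_nonneg_of_mem_Icc ⟨by linarith, ht.2⟩
      have hcs : Real.cos t ≤ Real.sin t := by
        have h3 : Real.cos t ≤ Real.cos (Real.pi / 4) :=
          Real.cos_le_cos_of_nonneg_of_le_pi (by linarith) (by linarith [ht.2]) h2.le
        have h4 : Real.sin (Real.pi / 4) ≤ Real.sin t :=
          Real.sin_le_sin_of_le_of_le_pi_div_two (by linarith) ht.2 h2.le
        rw [Real.cos_pi_div_four] at h3
        rw [Real.sin_pi_div_four] at h4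
        linarith
      have h3 := hX2 (1 - Real.cos t / Real.sin t) (by
        have : Real.cos t / Real.sin t ≤ 1 := by
          rw [div_le_one hs]
          exact hcs
        linarith) (by
        have : 0 ≤ Real.cos t / Real.sin t := by positivity
        linarith)
      refine le_trans (le_of_eq ?_) h3
      unfold Gf
      norm_num
  · exact quarter_ineq hN P.lam1 hX1 hX3 hR.1 hR.2

theorem gS_pos {N : ℕ} (_hN : 2 ≤ N) {R : ℝ} (h0 : 0 < R) (h1 : R < Real.pi / 2) :
    0 < gS N R := gS_pos' N h0 h1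

theorem hasDerivAt_Fp {H : ℝ → ℝ} (hH : ContDiff ℝ 1 H) (r : ℝ) : HasDerivAt (Fp H) (Fp' H r) r :=
  hasDerivAt_Fp0 hH r

theorem continuous_Fp {H : ℝ → ℝ} (hH : ContDiff ℝ 1 H) : Continuous (Fp H) :=
  continuous_Fp0 hH

theorem continuous_Fp' {H : ℝ → ℝ} (hH : ContDiff ℝ 1 H) : Continuous (Fp' H) :=
  continuous_Fp0' hH

theorem continuous_hp (N : ℕ) {H : ℝ → ℝ} (hH : ContDiff ℝ 1 H) : Continuous (hp N H) :=
  continuous_hp0 N hH

end Pool.Agent.H62.SS
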