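import Pool.Agent.H62.SS.Pol

set_option autoImplicit false

/-!
# [H62 SS ACT] The action of the linear isometries

* `bs_act_image`: `IsometryEquiv`/`Isometry.euclideanHausdorffMeasure_image`.
* `exists_act`: the reflection in the hyperplane orthogonal to `p - q` (`Submodule.reflection`, Mathlib `reflection_sub`), the identity if `p = q`.
-/

namespace Pool.Agent.H62.SS

open scoped RealInnerProductSpace MeasureTheory ENNReal NNReal
open MeasureTheory Set Metric
open Pool.Agent.H62.WS (E sg cst)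

variable {n : ℕ}

/-- the action of a linear isometry on the sphere -/
noncomputable def act (Φ : E (n + 1) ≃ₗᵢ[ℝ] E (n + 1)) : Sp n ≃ᵢ Sp n where
  toFun p := ⟨Φ p, by simpa using norm_coe p⟩
  invFun p := ⟨Φ.symm p, by simpa using norm_coe p⟩
  left_inv p := by ext1; simp
  right_inv p := by ext1; simp
  isometry_toFun := Isometry.of_dist_eq fun p q => by
    simp only [Subtype.dist_eq]
    exact Φ.dist_map _ _

theorem act_coe (Φ : E (n + 1) ≃ₗᵢ[ℝ] E (n + 1)) (p : Sp n) : (act Φ p : E (n + 1)) = Φ p := rfl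

theorem inner_act (Φ : E (n + 1) ≃ₗᵢ[ℝ] E (n + 1)) (p q : Sp n) :
    ⟪(act Φ p : E (n + 1)), (act Φ q : E (n + 1))⟫ = ⟪(p : E (n + 1)), (q : E (n + 1))⟫ :=
  Φ.inner_map_map _ _

theorem act_symm_act (Φ : E (n + 1) ≃ₗᵢ[ℝ] E (n + 1)) (p : Sp n) : act Φ.symm (act Φ p) = p := by
  ext1
  exact Φ.symm_apply_apply _

theorem act_act_symm (Φ : E (n + 1) ≃ₗᵢ[ℝ] E (n + 1)) (p : Sp n) : act Φ (act Φ.symm p) = p := by
  ext1
  exact Φ.apply_symm_apply _

theorem exists_act (p q : Sp n) : ∃ Φ : E (n + 1) ≃ₗᵢ[ℝ] E (n + 1), act Φ p = q := by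
  refine ⟨Submodule.reflection (ℝ ∙ ((p : E (n + 1)) - (q : E (n + 1))))ᗮ, ?_⟩
  ext1
  exact Submodule.reflection_sub (by rw [norm_coe, norm_coe])

theorem bs_act_image (Φ : E (n + 1) ≃ₗᵢ[ℝ] E (n + 1)) (A : Set (Sp n)) :
    bs n (act Φ '' A) = bs n A := by
  exact (act Φ).isometry.euclideanHausdorffMeasure_image A

theorem act_gball (Φ : E (n + 1) ≃ₗᵢ[ℝ] E (n + 1)) (p : Sp n) (R : ℝ) :
    act Φ '' gball p R = gball (act Φ p) R := by
  ext x
  constructor
  · rintro ⟨y, hy, rfl⟩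
    simp only [gball, mem_setOf_eq] at hy ⊢
    rwa [inner_act]
  · intro hx
    refine ⟨act Φ.symm x, ?_, act_act_symm Φ x⟩
    simp only [gball, mem_setOf_eq] at hx ⊢
    rw [← inner_act Φ, act_act_symm]
    exact hx

theorem act_cball (Φ : E (n + 1) ≃ₗᵢ[ℝ] E (n + 1)) (p : Sp n) (R : ℝ) :
    act Φ '' cball p R = cball (act Φ p) R := by
  ext x
  constructor
  · rintro ⟨y, hy, rfl⟩
    simp only [cball, mem_setOf_eq] at hy ⊢
    rwa [inner_act]
  · intro hx
    refine ⟨act Φ.symm x, ?_, act_act_symm Φ x⟩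
    simp only [cball, mem_setOf_eq] at hx ⊢
    rw [← inner_act Φ, act_act_symm]
    exact hx

theorem act_gsph (Φ : E (n + 1) ≃ₗᵢ[ℝ] E (n + 1)) (p : Sp n) (R : ℝ) :
    act Φ '' gsph p R = gsph (act Φ p) R := by
  ext x
  constructor
  · rintro ⟨y, hy, rfl⟩
    simp only [gsph, mem_setOf_eq] at hy ⊢
    rwa [inner_act]
  · intro hx
    refine ⟨act Φ.symm x, ?_, act_act_symm Φ x⟩
    simp only [gsph, mem_setOf_eq] at hx ⊢
    rw [← inner_act Φ, act_act_symm]
    exact hx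

theorem act_frontier (Φ : E (n + 1) ≃ₗᵢ[ℝ] E (n + 1)) (A : Set (Sp n)) :
    act Φ '' frontier A = frontier (act Φ '' A) := by
  exact (act Φ).toHomeomorph.image_frontier A

end Pool.Agent.H62.SS
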