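import Pool.Agent.H62.SS.BallPairS
import Pool.Agent.H62.WS.PoinS

set_option autoImplicit false

/-!
# [H62 SS BALLLOW] The lower bound for balls

`ω = (sg n).real univ`, `b(θ) = u(pol R θ)`: `∫ b = 0` by `h0` and `integral_bs_gsph` (`cst_ne_zero`, `cst_ne_top`, `sin R > 0`), so `∬ (b θ - b η)² = 2ω ∫ b²` (`double_integral_sq`, H62/WS/PoinS).  For `r ∈ (0,R]`: `∬ (a θ - a η)² ≤ 2ω ∫ a²`, `a θ = Du(pol r θ)(tau r θ)`, and `poincare_sphere` (H62/WS/PoinS) for
`w(x) = u(cos r e0 + inc x)`, `s = sin r` (`Dw(x) = Du(..) ∘ inc`): `(n-1) ∬ (u(pol r θ) - u(pol r η))²/s² ≤ 2ω ∫ (‖Du ∘ inc‖² - (Du (inc θ))²)`.  So the bracket on the right of `pair_int` is `≤ 2ω ∫ gradSq u (pol r θ) dsg` (`gradSq_pol`), `integral_ball_polar`: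
`g s^N(R) 2ω ∫ b² ≤ 2ω ∫_ball gradSq u`, multiply by `(cst n).toReal`, divide by `2ω > 0`.  (See H62/WS/BallLow.lean.)
-/

namespace Pool.Agent.H62.SS

open scoped RealInnerProductSpace MeasureTheory ENNReal NNReal
open MeasureTheory Set Metric
open Pool.Agent.H62.WS (E sg cst)

variable {n : ℕ}

theorem wpol_eq {u : E (n + 1) → ℝ} (r : ℝ) (θ : sphere (0 : E n) 1) :
    u (Real.cos r • e0 n + inc n (Real.sin r • (θ : E n))) = u (pol r θ) := by
  rw [pol_coe, map_smul]

theorem fderiv_wpol {u : E (n + 1) → ℝ} (hu : ContDiff ℝ 1 u) (r : ℝ) (x : E n) :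
    fderiv ℝ (fun x : E n => u (Real.cos r • e0 n + inc n x)) x =
      (fderiv ℝ u (Real.cos r • e0 n + inc n x)).comp (inc n).toContinuousLinearMap := by
  have h1 : HasFDerivAt u (fderiv ℝ u (Real.cos r • e0 n + inc n x))
      (Real.cos r • e0 n + inc n x) := ((hu.differentiable one_ne_zero) _).hasFDerivAt
  have h2 : HasFDerivAt (fun x : E n => Real.cos r • e0 n + inc n x)
      (inc n).toContinuousLinearMap x :=
    ((inc n).toContinuousLinearMap.hasFDerivAt).const_add _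
  exact (h1.comp x h2).fderiv

theorem contDiff_wpol {u : E (n + 1) → ℝ} (hu : ContDiff ℝ 1 u) (r : ℝ) :
    ContDiff ℝ 1 (fun x : E n => u (Real.cos r • e0 n + inc n x)) :=
  hu.comp (contDiff_const.add (inc n).toContinuousLinearMap.contDiff)

theorem poincare_pol (hn : 2 ≤ n) {r : ℝ} (hr : 0 < r) (hr' : r < Real.pi) {u : E (n + 1) → ℝ}
    (hu : ContDiff ℝ 1 u) :
    ((n - 1 : ℕ) : ℝ) * (∫ θ, (∫ η, (u (pol r θ) - u (pol r η)) ^ 2 ∂sg n) ∂sg n) /
        Real.sin r ^ 2 ≤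
      2 * (sg n).real univ * ∫ θ, (‖(fderiv ℝ u (pol r θ)).comp
        (inc n).toContinuousLinearMap‖ ^ 2 -
          (fderiv ℝ u (pol r θ) (inc n (θ : E n))) ^ 2) ∂sg n := by
  have hs : 0 < Real.sin r := Real.sin_pos_of_pos_of_lt_pi hr hr'
  have h2 := Pool.Agent.H62.WS.poincare_sphere hn (contDiff_wpol hu r) hs
  simp only [wpol_eq, fderiv_wpol hu] at h2
  have h3 : ∫ θ : sphere (0 : E n) 1, Real.sin r ^ 2 * (‖(fderiv ℝ u (Real.cos r • e0 n +
        inc n (Real.sin r • (θ : E n)))).comp (inc n).toContinuousLinearMap‖ ^ 2 -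
        ((fderiv ℝ u (Real.cos r • e0 n +
        inc n (Real.sin r • (θ : E n)))).comp (inc n).toContinuousLinearMap (θ : E n)) ^ 2) ∂sg n =
      Real.sin r ^ 2 * ∫ θ, (‖(fderiv ℝ u (pol r θ)).comp
        (inc n).toContinuousLinearMap‖ ^ 2 -
          (fderiv ℝ u (pol r θ) (inc n (θ : E n))) ^ 2) ∂sg n := by
    rw [← integral_const_mul]
    apply integral_congr_ae
    filter_upwards with θ
    rw [pol_coe, map_smul]
    rfl
  rw [h3] at h2
  rw [div_le_iff₀ (by positivity)]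
  calc _ ≤ _ := h2
    _ = _ := by ring

theorem pair_sq {a : sphere (0 : E n) 1 → ℝ} (ha : Continuous a) :
    ∫ θ, (∫ η, (a θ - a η) ^ 2 ∂sg n) ∂sg n =
      2 * (sg n).real univ * (∫ θ, a θ ^ 2 ∂sg n) - 2 * (∫ θ, a θ ∂sg n) ^ 2 :=
  Pool.Agent.H62.WS.double_integral_sq
    (Pool.Agent.H62.WS.integrable_of_continuous_sphere ha)
    (Pool.Agent.H62.WS.integrable_of_continuous_sphere (ha.pow 2))

theorem continuous_fdpol {u : E (n + 1) → ℝ} (hu : ContDiff ℝ 1 u) (r : ℝ) :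
    Continuous (fun θ : sphere (0 : E n) 1 => fderiv ℝ u ((pol r θ : Sp n) : E (n + 1))) := by
  have h1 : Continuous (fun θ : sphere (0 : E n) 1 => ((pol r θ : Sp n) : E (n + 1))) :=
    continuous_subtype_val.comp (continuous_pol_right r)
  exact (hu.continuous_fderiv one_ne_zero).comp h1

theorem ball_step (hn : 2 ≤ n) {r : ℝ} (hr : 0 < r) (hr' : r < Real.pi) {u : E (n + 1) → ℝ}
    (hu : ContDiff ℝ 1 u) :
    (∫ θ, (∫ η, (fderiv ℝ u (pol r θ) (tau r (θ : E n)) -
        fderiv ℝ u (pol r η) (tau r (η : E n))) ^ 2 ∂sg n) ∂sg n) +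
      ((n - 1 : ℕ) : ℝ) * (∫ θ, (∫ η, (u (pol r θ) - u (pol r η)) ^ 2 ∂sg n) ∂sg n) /
        Real.sin r ^ 2 ≤
      2 * (sg n).real univ * ∫ θ, gradSq u (pol r θ) ∂sg n := by
  have hfd := continuous_fdpol hu r
  have hta : Continuous (fun θ : sphere (0 : E n) 1 => tau r (θ : E n)) := by
    have h5 : Continuous (fun θ : sphere (0 : E n) 1 => (r, θ)) := Continuous.prodMk_right r
    have h6 := (continuous_tau (n := n)).comp h5
    exact h6
  have hinc : Continuous (fun θ : sphere (0 : E n) 1 => inc n (θ : E n)) :=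
    (inc n).continuous.comp continuous_subtype_val
  have hc2 : Continuous (fun θ : sphere (0 : E n) 1 =>
      fderiv ℝ u ((pol r θ : Sp n) : E (n + 1)) (tau r (θ : E n))) := hfd.clm_apply hta
  have hc3 : Continuous (fun θ : sphere (0 : E n) 1 =>
      fderiv ℝ u ((pol r θ : Sp n) : E (n + 1)) (inc n (θ : E n))) := hfd.clm_apply hinc
  have hc4 : Continuous (fun θ : sphere (0 : E n) 1 =>
      (fderiv ℝ u ((pol r θ : Sp n) : E (n + 1))).comp (inc n).toContinuousLinearMap) :=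
    hfd.clm_comp continuous_const
  have h1 := pair_sq hc2
  have h2 := poincare_pol hn hr hr' hu
  have i1 : Integrable (fun θ : sphere (0 : E n) 1 =>
      (fderiv ℝ u ((pol r θ : Sp n) : E (n + 1)) (tau r (θ : E n))) ^ 2) (sg n) :=
    Pool.Agent.H62.WS.integrable_of_continuous_sphere (hc2.pow 2)
  have i2 : Integrable (fun θ : sphere (0 : E n) 1 =>
      (‖(fderiv ℝ u ((pol r θ : Sp n) : E (n + 1))).comp (inc n).toContinuousLinearMap‖ ^ 2 -
        (fderiv ℝ u ((pol r θ : Sp n) : E (n + 1)) (inc n (θ : E n))) ^ 2)) (sg n) :=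
    Pool.Agent.H62.WS.integrable_of_continuous_sphere ((hc4.norm.pow 2).sub (hc3.pow 2))
  have h4 : ∫ θ, gradSq u (pol r θ) ∂sg n =
      (∫ θ, (fderiv ℝ u (pol r θ) (tau r (θ : E n))) ^ 2 ∂sg n) +
      ∫ θ, (‖(fderiv ℝ u (pol r θ)).comp (inc n).toContinuousLinearMap‖ ^ 2 -
          (fderiv ℝ u (pol r θ) (inc n (θ : E n))) ^ 2) ∂sg n := by
    rw [← integral_add i1 i2]
    exact integral_congr_ae (Filter.Eventually.of_forall fun θ => gradSq_pol hu r θ)
  rw [h1, h4, mul_add]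
  have h6 := sq_nonneg (∫ θ, fderiv ℝ u (pol r θ) (tau r (θ : E n)) ∂sg n)
  linarith

theorem continuous_gradSq' {u : E (n + 1) → ℝ} (hu : ContDiff ℝ 1 u) :
    Continuous (gradSq (n := n) u) := by
  have hc : Continuous (fun p : Sp n => fderiv ℝ u (p : E (n + 1))) :=
    (hu.continuous_fderiv one_ne_zero).comp continuous_subtype_val
  unfold gradSq
  exact (hc.norm.pow 2).sub ((hc.clm_apply continuous_subtype_val).pow 2)

theorem continuous_int_gradSq {u : E (n + 1) → ℝ} (hu : ContDiff ℝ 1 u) :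
    Continuous (fun r : ℝ => ∫ θ, gradSq u (pol r θ) ∂sg n) := by
  have h5 : Continuous (fun q : ℝ × sphere (0 : E n) 1 => gradSq u (pol q.1 q.2)) :=
    (continuous_gradSq' hu).comp continuous_pol
  have h6 := continuous_parametric_integral_of_continuous (μ := sg n)
    (f := fun (r : ℝ) (θ : sphere (0 : E n) 1) => gradSq u (pol r θ))
    h5 (s := univ) isCompact_univ
  simpa using h6

theorem ball_energy (hn : 2 ≤ n) {R : ℝ} (hR : 0 < R) (hR' : R < Real.pi / 2)
    {u : E (n + 1) → ℝ} (hu : ContDiff ℝ 1 u) :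
    gS (n - 1) R * Real.sin R ^ (n - 1) *
        ∫ θ, (∫ η, (u (pol R θ) - u (pol R η)) ^ 2 ∂sg n) ∂sg n ≤
      2 * (sg n).real univ * ∫ p in gball (nor n) R, gradSq u p ∂sg (n + 1) := by
  have hpi := Real.pi_pos
  refine (pair_int hn hR hR' hu).trans ?_
  rw [integral_ball_polar hn hR (by linarith) (continuous_gradSq' hu),
    ← intervalIntegral.integral_const_mul, intervalIntegral.integral_of_le hR.le,
    intervalIntegral.integral_of_le hR.le]
  have hcont : Continuous (fun r : ℝ => 2 * (sg n).real univ *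
      (Real.sin r ^ (n - 1) * ∫ θ, gradSq u (pol r θ) ∂sg n)) :=
    continuous_const.mul ((Real.continuous_sin.pow _).mul (continuous_int_gradSq hu))
  apply integral_mono_of_nonneg
  · refine ae_restrict_of_forall_mem measurableSet_Ioc fun r hr => ?_
    have hs : 0 < Real.sin r := sin_pos1 hr.1 (hr.2.trans_lt hR')
    simp only [Pi.zero_apply]
    apply mul_nonneg (pow_nonneg hs.le _)
    apply add_nonneg
    · exact integral_nonneg fun θ => integral_nonneg fun η => sq_nonneg _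
    · apply div_nonneg _ (sq_nonneg _)
      exact mul_nonneg (Nat.cast_nonneg _)
        (integral_nonneg fun θ => integral_nonneg fun η => sq_nonneg _)
  · exact (hcont.integrableOn_Icc (a := 0) (b := R)).mono_set Ioc_subset_Icc_self
  · refine ae_restrict_of_forall_mem measurableSet_Ioc fun r hr => ?_
    have hs : 0 < Real.sin r := sin_pos1 hr.1 (hr.2.trans_lt hR')
    have h5 := mul_le_mul_of_nonneg_left (ball_step hn hr.1 (by linarith [hr.2]) hu)
      (pow_nonneg hs.le (n - 1))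
    calc _ ≤ _ := h5
      _ = _ := by ring

theorem ball_lower (hn : 2 ≤ n) {R : ℝ} (hR : 0 < R) (hR' : R < Real.pi / 2)
    {u : E (n + 1) → ℝ} (hu : ContDiff ℝ 1 u)
    (h0 : ∫ p in gsph (nor n) R, u (p : E (n + 1)) ∂bs n = 0) :
    gS (n - 1) R * ∫ p in gsph (nor n) R, u (p : E (n + 1)) ^ 2 ∂bs n ≤
      (cst n).toReal * ∫ p in gball (nor n) R, gradSq u p ∂sg (n + 1) := by
  have hpi := Real.pi_pos
  have hcs : 0 < (cst n).toReal := ENNReal.toReal_pos (Pool.Agent.H62.WS.cst_ne_zero hn)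
    (Pool.Agent.H62.WS.cst_ne_top hn)
  have hsR : 0 < Real.sin R := sin_pos1 hR hR'
  have hω : 0 < (sg n).real univ :=
    ENNReal.toReal_pos (Pool.Agent.H62.WS.sg_univ_pos hn).ne' (measure_ne_top _ _)
  have hb : Continuous (fun θ : sphere (0 : E n) 1 => u ((pol R θ : Sp n) : E (n + 1))) :=
    hu.continuous.comp (continuous_subtype_val.comp (continuous_pol_right R))
  rw [integral_bs_gsph hn hR (by linarith) (fun p : Sp n => u (p : E (n + 1)))] at h0
  have h1 : ∫ θ, u (pol R θ) ∂sg n = 0 := by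
    rcases mul_eq_zero.mp h0 with h2 | h2
    · exact absurd h2 (pow_pos hsR _).ne'
    · rcases mul_eq_zero.mp h2 with h3 | h3
      · exact absurd h3 hcs.ne'
      · exact h3
  have h2 := pair_sq hb
  rw [h1] at h2
  have h5 := ball_energy hn hR hR' hu
  rw [h2] at h5
  have h7 : gS (n - 1) R * Real.sin R ^ (n - 1) * (∫ θ, u (pol R θ) ^ 2 ∂sg n) ≤
      ∫ p in gball (nor n) R, gradSq u p ∂sg (n + 1) := by
    have h8 : (2 * (sg n).real univ) *
        (gS (n - 1) R * Real.sin R ^ (n - 1) * (∫ θ, u (pol R θ) ^ 2 ∂sg n)) ≤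
        (2 * (sg n).real univ) * ∫ p in gball (nor n) R, gradSq u p ∂sg (n + 1) := by
      calc _ = _ := by ring
        _ ≤ _ := h5
    exact le_of_mul_le_mul_left h8 (by positivity)
  rw [integral_bs_gsph hn hR (by linarith) (fun p : Sp n => u (p : E (n + 1)) ^ 2)]
  calc _ = (cst n).toReal *
        (gS (n - 1) R * Real.sin R ^ (n - 1) * (∫ θ, u (pol R θ) ^ 2 ∂sg n)) := by ring
    _ ≤ _ := mul_le_mul_of_nonneg_left h7 hcs.le

end Pool.Agent.H62.SS
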