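import Pool.Agent.H62.SS.Balls
import Pool.Agent.H62.SS.PolarS
import Pool.Agent.H62.SS.BsPol

set_option autoImplicit false

/-!
# [H62 SS BALLPOL] Energy density and integrals over balls in polar coordinates

`tau r θ = -sin r e0 + cos r inc θ` is the derivative of `r ↦ pol r θ`; `L = fderiv ℝ u (pol r θ)`.  `gradSq_pol`: with the orthonormal pair `p = pol r θ`, `tau` and the space `inc (θ^⊥)` orthogonal to both: `‖L‖² = (L p)² + (L tau)² + ‖L|inc(θ^⊥)‖²` and `‖L ∘ inc‖² = (L (inc θ))² + ‖L|inc(θ^⊥)‖²`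
(write `L = ⟪v,·⟫`; `‖v‖² = (v 0)² + ‖dn v‖²`, `L p = cos r v₀ + sin r ⟪dn v,θ⟫`, `L tau = -sin r v₀ + cos r ⟪dn v,θ⟫`, so `‖v‖² - (L p)² = (L tau)² + ‖dn v‖² - ⟪dn v,θ⟫²`).
`integral_ball_polar`: `lintegral_sg` for positive and negative parts (see H62/WS/BallPol.lean).  `integral_bs_gsph`: `pol R` and `bs_pol_image` (`bs.restrict (gsph (nor n) R)` is the image under `pol R` of the measure `sin^(n-1) R cst sg n`).
-/

namespace Pool.Agent.H62.SS

open scoped RealInnerProductSpace MeasureTheory ENNReal NNReal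
open MeasureTheory Set Metric
open Pool.Agent.H62.WS (E sg cst)

variable {n : ℕ}

/-- the direction of the meridian -/
noncomputable def tau (r : ℝ) (θ : E n) : E (n + 1) :=
  -(Real.sin r • e0 n) + Real.cos r • inc n θ

theorem gradSq_pol {u : E (n + 1) → ℝ} (hu : ContDiff ℝ 1 u) (r : ℝ) (θ : sphere (0 : E n) 1) :
    gradSq u (pol r θ) = (fderiv ℝ u (pol r θ) (tau r (θ : E n))) ^ 2 +
      (‖(fderiv ℝ u (pol r θ)).comp (inc n).toContinuousLinearMap‖ ^ 2 -
        (fderiv ℝ u (pol r θ) (inc n (θ : E n))) ^ 2) := by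
  set L := fderiv ℝ u (pol r θ) with hL
  let v : E (n + 1) := (InnerProductSpace.toDual ℝ (E (n + 1))).symm L
  have hv : ∀ a, L a = ⟪v, a⟫ := fun a => InnerProductSpace.toDual_symm_apply.symm
  have hnv : ‖L‖ = ‖v‖ := (LinearIsometryEquiv.norm_map _ _).symm
  have hinc : ∀ x : E n, L (inc n x) = ⟪dn n v, x⟫ := by
    intro x
    rw [hv, inner_eq]
    have h1 : dn n (inc n x) = x := by
      ext i
      simp
    rw [h1, inc_zero_apply]
    ring
  have hcomp : L.comp (inc n).toContinuousLinearMap = InnerProductSpace.toDual ℝ (E n) (dn n v) := by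
    ext x
    exact hinc x
  have hnc : ‖L.comp (inc n).toContinuousLinearMap‖ = ‖dn n v‖ := by
    rw [hcomp, LinearIsometryEquiv.norm_map]
  have he0 : L (e0 n) = v 0 := by
    rw [hv, real_inner_comm, inner_e0]
  have hp : L ((pol r θ : Sp n) : E (n + 1)) =
      Real.cos r * v 0 + Real.sin r * ⟪dn n v, (θ : E n)⟫ := by
    rw [pol_coe, map_add, map_smul, map_smul, he0, hinc, smul_eq_mul, smul_eq_mul]
  have ht : L (tau r (θ : E n)) = -(Real.sin r * v 0) + Real.cos r * ⟪dn n v, (θ : E n)⟫ := by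
    unfold tau
    rw [map_add, map_neg, map_smul, map_smul, he0, hinc, smul_eq_mul, smul_eq_mul]
  unfold gradSq
  rw [← hL, hnc, hp, ht, hinc, hnv, norm_sq_eq]
  have h1 := Real.sin_sq_add_cos_sq r
  have h2 : Real.sin r ^ 2 = 1 - Real.cos r ^ 2 := by linarith
  ring_nf
  rw [h2]
  ring

theorem measurable_pol_prod :
    Measurable (fun q : sphere (0 : E n) 1 × ℝ => pol q.2 q.1) := measurable_pol_swap

/-- the radial measure -/
noncomputable def radS (n : ℕ) : Measure ℝ :=
  (volume.restrict (Ioo 0 Real.pi)).withDensity (fun r => ENNReal.ofReal (Real.sin r ^ (n - 1)))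

instance : SFinite (radS n) := by
  unfold radS
  infer_instance

theorem sg_eq_map (hn : 2 ≤ n) :
    sg (n + 1) = ((sg n).prod (radS n)).map
      (fun q : sphere (0 : E n) 1 × ℝ => pol q.2 q.1) := by
  have hm := measurable_pol_prod (n := n)
  ext A hA
  rw [Measure.map_apply hm hA, ← lintegral_indicator_one hA,
    lintegral_sg hn (measurable_one.indicator hA), Measure.prod_apply (hm hA)]
  refine lintegral_congr fun θ => ?_
  have h1 : MeasurableSet (Prod.mk θ ⁻¹' ((fun q : sphere (0 : E n) 1 × ℝ => pol q.2 q.1) ⁻¹' A)) :=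
    measurable_prodMk_left (hm hA)
  unfold radS
  rw [withDensity_apply _ h1, ← lintegral_indicator h1]
  refine lintegral_congr fun r => ?_
  by_cases h : pol r θ ∈ A
  · rw [indicator_of_mem h, indicator_of_mem (by exact h)]
    simp
  · rw [indicator_of_notMem h, indicator_of_notMem (by exact h)]
    simp

theorem integral_ball_polar (hn : 2 ≤ n) {R : ℝ} (hR : 0 < R) (hR' : R < Real.pi) {F : Sp n → ℝ}
    (hF : Continuous F) :
    ∫ p in gball (nor n) R, F p ∂sg (n + 1) =
      ∫ r in (0 : ℝ)..R, Real.sin r ^ (n - 1) * ∫ θ, F (pol r θ) ∂sg n := by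
  have hm := measurable_pol_prod (n := n)
  have hmb : MeasurableSet (gball (nor n) R) := (isOpen_gball _ _).measurableSet
  have hb : IntegrableOn F (gball (nor n) R) (sg (n + 1)) :=
    (hF.integrable_of_hasCompactSupport (HasCompactSupport.of_compactSpace _)).integrableOn
  have hi : Integrable ((gball (nor n) R).indicator F) (sg (n + 1)) :=
    (integrable_indicator_iff hmb).2 hb
  rw [← integral_indicator hmb]
  rw [sg_eq_map hn] at hi ⊢
  have hi2 : Integrable (fun q : sphere (0 : E n) 1 × ℝ =>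
      (gball (nor n) R).indicator F (pol q.2 q.1)) ((sg n).prod (radS n)) :=
    hi.comp_measurable hm
  rw [integral_map hm.aemeasurable hi.aestronglyMeasurable, integral_prod_symm _ hi2]
  unfold radS
  have hmd : Measurable (fun r : ℝ => ENNReal.ofReal (Real.sin r ^ (n - 1))) :=
    (Real.measurable_sin.pow_const _).ennreal_ofReal
  rw [integral_withDensity_eq_integral_toReal_smul hmd
    (ae_of_all _ fun r => ENNReal.ofReal_lt_top)]
  rw [intervalIntegral.integral_of_le hR.le, integral_Ioc_eq_integral_Ioo]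
  have hsub : Ioo (0 : ℝ) R ⊆ Ioo 0 Real.pi := fun r hr => ⟨hr.1, hr.2.trans hR'⟩
  refine (setIntegral_eq_of_subset_of_forall_sdiff_eq_zero measurableSet_Ioo hsub ?_).trans
    (setIntegral_congr_fun measurableSet_Ioo fun r hr => ?_)
  rotate_left
  · have h1 : 0 ≤ Real.sin r ^ (n - 1) :=
      pow_nonneg (Real.sin_nonneg_of_nonneg_of_le_pi hr.1.le (hr.2.trans hR').le) _
    simp only [smul_eq_mul]
    rw [ENNReal.toReal_ofReal h1]
    congr 1
    refine integral_congr_ae (ae_of_all _ fun θ => ?_)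
    simp only
    rw [indicator_of_mem]
    rw [pol_mem_gball hr.1.le (hr.2.trans hR').le hR.le hR'.le]
    exact hr.2
  · intro r hr
    have hr0 : 0 < r := hr.1.1
    have hrR : ¬ r < R := fun h => hr.2 ⟨hr0, h⟩
    have h2 : ∀ θ : sphere (0 : E n) 1, (gball (nor n) R).indicator F (pol r θ) = 0 := by
      intro θ
      rw [indicator_of_notMem]
      rw [pol_mem_gball hr0.le hr.1.2.le hR.le hR'.le]
      exact hrR
    simp [h2]

theorem integral_bs_gsph (hn : 2 ≤ n) {R : ℝ} (hR : 0 < R) (hR' : R < Real.pi) (F : Sp n → ℝ) :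
    ∫ p in gsph (nor n) R, F p ∂bs n =
      Real.sin R ^ (n - 1) * ((cst n).toReal * ∫ θ, F (pol R θ) ∂sg n) := by
  have hc := continuous_pol_right (n := n) R
  have hinj : Function.Injective (fun θ : sphere (0 : E n) 1 => pol R θ) := by
    intro x y hxy
    exact (pol_inj ⟨hR, hR'⟩ ⟨hR, hR'⟩ hxy).2
  have hemb : MeasurableEmbedding (fun θ : sphere (0 : E n) 1 => pol R θ) :=
    (hc.isClosedEmbedding hinj).measurableEmbedding
  have hs0 : 0 ≤ Real.sin R ^ (n - 1) :=
    pow_nonneg (Real.sin_nonneg_of_nonneg_of_le_pi hR.le hR'.le) _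
  have key : (bs n).restrict (gsph (nor n) R) =
      ((ENNReal.ofReal (Real.sin R ^ (n - 1)) * cst n) • sg n).map
        (fun θ : sphere (0 : E n) 1 => pol R θ) := by
    ext A hA
    rw [Measure.restrict_apply hA, Measure.map_apply hc.measurable hA, Measure.smul_apply,
      smul_eq_mul, mul_assoc, ← bs_pol_image hn hR hR' (hc.measurable hA),
      gsph_nor_eq (by omega) hR.le hR'.le]
    congr 1
    ext p
    constructor
    · rintro ⟨hp, θ, rfl⟩
      exact ⟨θ, hp, rfl⟩
    · rintro ⟨θ, hθ, rfl⟩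
      exact ⟨hθ, θ, rfl⟩
  rw [key, hemb.integral_map, integral_smul_measure, ENNReal.toReal_mul,
    ENNReal.toReal_ofReal hs0, smul_eq_mul, mul_assoc]

end Pool.Agent.H62.SS
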