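import Pool.Agent.H62.SS.PairS
import Pool.Agent.H62.SS.BallPolS

set_option autoImplicit false

/-!
# [H62 SS BALLPAIR] The pair inequality, integrated

`pair_ineq` with `D(r) = u(pol r θ) - u(pol r η)`, `D'(r) = Du(pol r θ)(tau r θ) - Du(pol r η)(tau r η)` for fixed `θ, η` (`N = n - 1`), `D 0 = 0` (`pol_zero`), integrate over `θ, η` (`sg n` finite) and swap the integrals: all integrands are continuous and bounded except for the factor `D²/sin²`, which is
bounded too: `|D(r)| ≤ M r ≤ M (π/2) sin r` (mean value inequality; `‖Du‖` bounded on the unit ball), measurable.  (See H62/WS/BallPair.lean.)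
-/

namespace Pool.Agent.H62.SS

open scoped RealInnerProductSpace MeasureTheory ENNReal NNReal
open MeasureTheory Set Metric
open Pool.Agent.H62.WS (E sg cst)

variable {n : ℕ}

theorem hasDerivAt_pol {u : E (n + 1) → ℝ} (hu : ContDiff ℝ 1 u) (r : ℝ)
    (θ : sphere (0 : E n) 1) :
    HasDerivAt (fun r : ℝ => u (pol r θ)) (fderiv ℝ u (pol r θ) (tau r (θ : E n))) r := by
  have h1 : HasFDerivAt u (fderiv ℝ u (pol r θ)) ((pol r θ : Sp n) : E (n + 1)) :=
    ((hu.differentiable one_ne_zero) _).hasFDerivAt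
  have h2 : HasDerivAt (fun r : ℝ => ((pol r θ : Sp n) : E (n + 1))) (tau r (θ : E n)) r := by
    have h3 := ((Real.hasDerivAt_cos r).smul_const (e0 n)).add
      ((Real.hasDerivAt_sin r).smul_const (inc n (θ : E n)))
    refine h3.congr_deriv ?_
    unfold tau
    rw [neg_smul]
  exact h1.comp_hasDerivAt r h2

theorem norm_tau_le (r : ℝ) (θ : sphere (0 : E n) 1) : ‖tau r (θ : E n)‖ ≤ 2 := by
  unfold tau
  refine (norm_add_le _ _).trans ?_
  rw [norm_neg, norm_smul, norm_smul, norm_e0, norm_inc, norm_theta, Real.norm_eq_abs,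
    Real.norm_eq_abs]
  linarith [Real.abs_sin_le_one r, Real.abs_cos_le_one r]

/-- the difference of `u` in two directions -/
noncomputable def dif (u : E (n + 1) → ℝ) (r : ℝ)
    (q : sphere (0 : E n) 1 × sphere (0 : E n) 1) : ℝ :=
  u ((pol r q.1 : Sp n) : E (n + 1)) - u ((pol r q.2 : Sp n) : E (n + 1))

/-- the radial derivative -/
noncomputable def rdv (u : E (n + 1) → ℝ) (r : ℝ) (θ : sphere (0 : E n) 1) : ℝ :=
  fderiv ℝ u ((pol r θ : Sp n) : E (n + 1)) (tau r (θ : E n))

/-- the derivative of `dif` -/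
noncomputable def dif' (u : E (n + 1) → ℝ) (r : ℝ)
    (q : sphere (0 : E n) 1 × sphere (0 : E n) 1) : ℝ :=
  rdv u r q.1 - rdv u r q.2

theorem continuous_upol {u : E (n + 1) → ℝ} (hu : ContDiff ℝ 1 u) :
    Continuous fun p : ℝ × sphere (0 : E n) 1 => u ((pol p.1 p.2 : Sp n) : E (n + 1)) := by
  have hx : Continuous fun p : ℝ × sphere (0 : E n) 1 => ((pol p.1 p.2 : Sp n) : E (n + 1)) :=
    continuous_subtype_val.comp continuous_pol
  exact hu.continuous.comp hx

theorem continuous_tau : Continuous fun p : ℝ × sphere (0 : E n) 1 => tau p.1 (p.2 : E n) := by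
  have hs : Continuous fun p : ℝ × sphere (0 : E n) 1 => Real.sin p.1 • e0 n :=
    (Real.continuous_sin.comp continuous_fst).smul continuous_const
  have hi : Continuous fun p : ℝ × sphere (0 : E n) 1 => inc n (p.2 : E n) :=
    (inc n).continuous.comp (continuous_subtype_val.comp continuous_snd)
  have hc : Continuous fun p : ℝ × sphere (0 : E n) 1 => Real.cos p.1 • inc n (p.2 : E n) :=
    (Real.continuous_cos.comp continuous_fst).smul hi
  exact hs.neg.add hc

theorem continuous_rdv {u : E (n + 1) → ℝ} (hu : ContDiff ℝ 1 u) :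
    Continuous fun p : ℝ × sphere (0 : E n) 1 => rdv u p.1 p.2 := by
  have hx : Continuous fun p : ℝ × sphere (0 : E n) 1 => ((pol p.1 p.2 : Sp n) : E (n + 1)) :=
    continuous_subtype_val.comp continuous_pol
  have hf : Continuous fun p : ℝ × sphere (0 : E n) 1 =>
      fderiv ℝ u ((pol p.1 p.2 : Sp n) : E (n + 1)) :=
    (hu.continuous_fderiv one_ne_zero).comp hx
  exact hf.clm_apply continuous_tau

theorem continuous_dif {u : E (n + 1) → ℝ} (hu : ContDiff ℝ 1 u) :
    Continuous fun p : ℝ × (sphere (0 : E n) 1 × sphere (0 : E n) 1) => dif u p.1 p.2 := by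
  have h1 : Continuous fun p : ℝ × (sphere (0 : E n) 1 × sphere (0 : E n) 1) => (p.1, p.2.1) :=
    continuous_fst.prodMk (continuous_fst.comp continuous_snd)
  have h2 : Continuous fun p : ℝ × (sphere (0 : E n) 1 × sphere (0 : E n) 1) => (p.1, p.2.2) :=
    continuous_fst.prodMk (continuous_snd.comp continuous_snd)
  have h3 := (continuous_upol hu).comp h1
  have h4 := (continuous_upol hu).comp h2
  exact h3.sub h4

theorem continuous_dif' {u : E (n + 1) → ℝ} (hu : ContDiff ℝ 1 u) :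
    Continuous fun p : ℝ × (sphere (0 : E n) 1 × sphere (0 : E n) 1) => dif' u p.1 p.2 := by
  have h1 : Continuous fun p : ℝ × (sphere (0 : E n) 1 × sphere (0 : E n) 1) => (p.1, p.2.1) :=
    continuous_fst.prodMk (continuous_fst.comp continuous_snd)
  have h2 : Continuous fun p : ℝ × (sphere (0 : E n) 1 × sphere (0 : E n) 1) => (p.1, p.2.2) :=
    continuous_fst.prodMk (continuous_snd.comp continuous_snd)
  have h3 := (continuous_rdv hu).comp h1
  have h4 := (continuous_rdv hu).comp h2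
  exact h3.sub h4

theorem exists_bound_dif {u : E (n + 1) → ℝ} (hu : ContDiff ℝ 1 u) : ∃ M : ℝ, 0 ≤ M ∧
    (∀ (r : ℝ) (q : sphere (0 : E n) 1 × sphere (0 : E n) 1), |dif' u r q| ≤ 4 * M) ∧
    ∀ r ∈ Icc 0 Real.pi, ∀ q : sphere (0 : E n) 1 × sphere (0 : E n) 1,
      |dif u r q| ≤ 2 * M * Real.sin r := by
  obtain ⟨M, hM⟩ : ∃ M, ∀ x ∈ closedBall (0 : E (n + 1)) 1, ‖fderiv ℝ u x‖ ≤ M :=
    (isCompact_closedBall (0 : E (n + 1)) 1).exists_bound_of_continuousOn
      (hu.continuous_fderiv one_ne_zero).continuousOn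
  have hM0 : 0 ≤ M := (norm_nonneg _).trans (hM 0 (mem_closedBall_self zero_le_one))
  have hmem : ∀ p : Sp n, (p : E (n + 1)) ∈ closedBall (0 : E (n + 1)) 1 := by
    intro p
    rw [mem_closedBall_zero_iff, norm_coe]
  refine ⟨M, hM0, ?_, ?_⟩
  · have hdb : ∀ (r : ℝ) (θ : sphere (0 : E n) 1), |rdv u r θ| ≤ M * 2 := by
      intro r θ
      have h4 := (fderiv ℝ u ((pol r θ : Sp n) : E (n + 1))).le_opNorm (tau r (θ : E n))
      rw [Real.norm_eq_abs] at h4
      exact h4.trans (mul_le_mul (hM _ (hmem _)) (norm_tau_le r θ) (norm_nonneg _) hM0)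
    intro r q
    have h3 := abs_sub (rdv u r q.1) (rdv u r q.2)
    have h4 := hdb r q.1
    have h5 := hdb r q.2
    unfold dif'
    linarith
  · intro r hr q
    have hs0 : 0 ≤ Real.sin r := Real.sin_nonneg_of_nonneg_of_le_pi hr.1 hr.2
    have h5 := (convex_closedBall (0 : E (n + 1)) 1).norm_image_sub_le_of_norm_fderiv_le
      (𝕜 := ℝ) (f := u) (fun x _ => hu.differentiable one_ne_zero x) hM
      (hmem (pol r q.2)) (hmem (pol r q.1))
    rw [Real.norm_eq_abs] at h5
    refine h5.trans ?_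
    have h6 : ‖((pol r q.1 : Sp n) : E (n + 1)) - ((pol r q.2 : Sp n) : E (n + 1))‖ ≤
        2 * Real.sin r := by
      rw [← dist_eq_norm, ← Subtype.dist_eq, dist_pol_pol hs0]
      have h7 : dist q.1 q.2 ≤ 2 := by
        rw [Subtype.dist_eq, dist_eq_norm]
        refine (norm_sub_le _ _).trans ?_
        rw [norm_theta, norm_theta]
        norm_num
      nlinarith
    calc M * ‖((pol r q.1 : Sp n) : E (n + 1)) - ((pol r q.2 : Sp n) : E (n + 1))‖
        ≤ M * (2 * Real.sin r) := by gcongr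
      _ = 2 * M * Real.sin r := by ring

/-- the integrand -/
noncomputable def phi (N : ℕ) (u : E (n + 1) → ℝ) (r : ℝ)
    (q : sphere (0 : E n) 1 × sphere (0 : E n) 1) : ℝ :=
  Real.sin r ^ N * (dif' u r q ^ 2 + N * dif u r q ^ 2 / Real.sin r ^ 2)

theorem measurable_phi (N : ℕ) {u : E (n + 1) → ℝ} (hu : ContDiff ℝ 1 u) :
    Measurable fun p : (sphere (0 : E n) 1 × sphere (0 : E n) 1) × ℝ => phi N u p.2 p.1 := by
  have hs : Measurable fun p : (sphere (0 : E n) 1 × sphere (0 : E n) 1) × ℝ => Real.sin p.2 :=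
    (Real.continuous_sin.comp continuous_snd).measurable
  have t1 : Measurable fun p : (sphere (0 : E n) 1 × sphere (0 : E n) 1) × ℝ =>
      dif' u p.2 p.1 := ((continuous_dif' hu).comp continuous_swap).measurable
  have t2 : Measurable fun p : (sphere (0 : E n) 1 × sphere (0 : E n) 1) × ℝ =>
      dif u p.2 p.1 := ((continuous_dif hu).comp continuous_swap).measurable
  have t3 : Measurable fun p : (sphere (0 : E n) 1 × sphere (0 : E n) 1) × ℝ =>
      (N : ℝ) * dif u p.2 p.1 ^ 2 / Real.sin p.2 ^ 2 :=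
    ((t2.pow_const 2).const_mul _).div (hs.pow_const 2)
  exact (hs.pow_const N).mul ((t1.pow_const 2).add t3)

theorem phi_bound (N : ℕ) {u : E (n + 1) → ℝ} (hu : ContDiff ℝ 1 u) {R : ℝ}
    (hR' : R < Real.pi / 2) : ∃ C : ℝ, ∀ r ∈ Ioc 0 R,
      ∀ q : sphere (0 : E n) 1 × sphere (0 : E n) 1, ‖phi N u r q‖ ≤ C := by
  obtain ⟨M, hM0, hD'b, hDb⟩ := exists_bound_dif hu
  refine ⟨1 * ((4 * M) ^ 2 + N * (2 * M) ^ 2), ?_⟩
  intro r hr q
  have hs : 0 < Real.sin r := sin_pos1 hr.1 (hr.2.trans_lt hR')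
  have h3 : dif' u r q ^ 2 ≤ (4 * M) ^ 2 := by
    rw [← sq_abs]
    exact pow_le_pow_left₀ (abs_nonneg _) (hD'b r q) 2
  have h4 : dif u r q ^ 2 ≤ (2 * M * Real.sin r) ^ 2 := by
    rw [← sq_abs]
    exact pow_le_pow_left₀ (abs_nonneg _)
      (hDb r ⟨hr.1.le, by linarith [hr.2, Real.pi_pos]⟩ q) 2
  have h5 : (N : ℝ) * dif u r q ^ 2 / Real.sin r ^ 2 ≤ N * (2 * M) ^ 2 := by
    rw [div_le_iff₀ (by positivity)]
    calc (N : ℝ) * dif u r q ^ 2 ≤ N * (2 * M * Real.sin r) ^ 2 := by gcongr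
      _ = N * (2 * M) ^ 2 * Real.sin r ^ 2 := by ring
  have h6 : 0 ≤ (N : ℝ) * dif u r q ^ 2 / Real.sin r ^ 2 := by positivity
  have h7 : Real.sin r ^ N ≤ 1 := pow_le_one₀ hs.le (Real.sin_le_one r)
  unfold phi
  rw [Real.norm_of_nonneg (by positivity)]
  exact mul_le_mul h7 (by linarith) (by positivity) (by positivity)

theorem integrable_phi (N : ℕ) {u : E (n + 1) → ℝ} (hu : ContDiff ℝ 1 u) {R : ℝ}
    (hR' : R < Real.pi / 2) :
    Integrable (fun p : (sphere (0 : E n) 1 × sphere (0 : E n) 1) × ℝ => phi N u p.2 p.1)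
      (((sg n).prod (sg n)).prod (volume.restrict (Ioc 0 R))) := by
  have : IsFiniteMeasure (volume.restrict (Ioc 0 R)) :=
    ⟨by rw [Measure.restrict_apply_univ, Real.volume_Ioc]; exact ENNReal.ofReal_lt_top⟩
  obtain ⟨C, hC⟩ := phi_bound (n := n) N hu hR'
  refine Integrable.of_bound (measurable_phi N hu).aestronglyMeasurable C ?_
  have e : ((sg n).prod (sg n)).prod (volume.restrict (Ioc 0 R)) =
      (((sg n).prod (sg n)).prod volume).restrict (univ ×ˢ Ioc 0 R) := by
    rw [← Measure.prod_restrict, Measure.restrict_univ]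
  rw [e]
  filter_upwards [ae_restrict_mem (MeasurableSet.univ.prod measurableSet_Ioc)] with p hp
  exact hC p.2 hp.2 p.1

theorem pair_pt {N : ℕ} (hN : 1 ≤ N) {R : ℝ} (hR : 0 < R) (hR' : R < Real.pi / 2)
    {u : E (n + 1) → ℝ} (hu : ContDiff ℝ 1 u) (q : sphere (0 : E n) 1 × sphere (0 : E n) 1) :
    gS N R * Real.sin R ^ N * dif u R q ^ 2 ≤ ∫ r in Ioc 0 R, phi N u r q := by
  have hc : Continuous (fun r : ℝ => dif' u r q) := by
    have h5 : Continuous (fun r : ℝ => (r, q)) := Continuous.prodMk_left q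
    have h6 := (continuous_dif' hu).comp h5
    exact h6
  have h0 : dif u 0 q = 0 := by
    unfold dif
    rw [pol_zero, pol_zero, sub_self]
  have hd : ∀ r ∈ Icc 0 R, HasDerivAt (fun r => dif u r q) (dif' u r q) r := by
    intro r _
    have h1 := hasDerivAt_pol hu r q.1
    have h2 := hasDerivAt_pol hu r q.2
    have h4 := h1.fun_sub h2
    unfold dif dif' rdv
    exact h4
  have h3 := pair_ineq hN hR hR' (D := fun r => dif u r q) (D' := fun r => dif' u r q)
    hd hc.continuousOn h0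
  rwa [intervalIntegral.integral_of_le hR.le] at h3

theorem integrable_sph2 {f : sphere (0 : E n) 1 × sphere (0 : E n) 1 → ℝ} (hf : Continuous f) :
    Integrable f ((sg n).prod (sg n)) :=
  hf.integrable_of_hasCompactSupport (HasCompactSupport.of_compactSpace _)

theorem integral_dif_sq {u : E (n + 1) → ℝ} (hu : ContDiff ℝ 1 u) (r : ℝ) :
    ∫ q, dif u r q ^ 2 ∂((sg n).prod (sg n)) =
      ∫ θ, (∫ η, (u (pol r θ) - u (pol r η)) ^ 2 ∂sg n) ∂sg n := by
  have hc : Continuous fun q : sphere (0 : E n) 1 × sphere (0 : E n) 1 => dif u r q ^ 2 :=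
    ((continuous_dif hu).comp (continuous_const.prodMk continuous_id)).pow 2
  rw [integral_prod _ (integrable_sph2 hc)]
  rfl

theorem integral_dif'_sq {u : E (n + 1) → ℝ} (hu : ContDiff ℝ 1 u) (r : ℝ) :
    ∫ q, dif' u r q ^ 2 ∂((sg n).prod (sg n)) =
      ∫ θ, (∫ η, (fderiv ℝ u (pol r θ) (tau r (θ : E n)) -
        fderiv ℝ u (pol r η) (tau r (η : E n))) ^ 2 ∂sg n) ∂sg n := by
  have hc : Continuous fun q : sphere (0 : E n) 1 × sphere (0 : E n) 1 => dif' u r q ^ 2 :=
    ((continuous_dif' hu).comp (continuous_const.prodMk continuous_id)).pow 2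
  rw [integral_prod _ (integrable_sph2 hc)]
  rfl

theorem integral_phi (N : ℕ) {u : E (n + 1) → ℝ} (hu : ContDiff ℝ 1 u) (r : ℝ) :
    ∫ q, phi N u r q ∂((sg n).prod (sg n)) = Real.sin r ^ N *
        ((∫ θ, (∫ η, (fderiv ℝ u (pol r θ) (tau r (θ : E n)) -
            fderiv ℝ u (pol r η) (tau r (η : E n))) ^ 2 ∂sg n) ∂sg n) +
          (N : ℝ) * (∫ θ, (∫ η, (u (pol r θ) - u (pol r η)) ^ 2 ∂sg n) ∂sg n) /
            Real.sin r ^ 2) := by
  have hc1 : Continuous fun q : sphere (0 : E n) 1 × sphere (0 : E n) 1 => dif' u r q ^ 2 :=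
    ((continuous_dif' hu).comp (continuous_const.prodMk continuous_id)).pow 2
  have hc2 : Continuous fun q : sphere (0 : E n) 1 × sphere (0 : E n) 1 =>
      (N : ℝ) * dif u r q ^ 2 / Real.sin r ^ 2 := by
    have : Continuous fun q : sphere (0 : E n) 1 × sphere (0 : E n) 1 => dif u r q ^ 2 :=
      ((continuous_dif hu).comp (continuous_const.prodMk continuous_id)).pow 2
    exact (continuous_const.mul this).div_const _
  unfold phi
  rw [integral_const_mul, integral_add (integrable_sph2 hc1) (integrable_sph2 hc2), integral_div,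
    integral_const_mul, integral_dif_sq hu, integral_dif'_sq hu]

theorem pair_int (hn : 2 ≤ n) {R : ℝ} (hR : 0 < R) (hR' : R < Real.pi / 2) {u : E (n + 1) → ℝ}
    (hu : ContDiff ℝ 1 u) :
    gS (n - 1) R * Real.sin R ^ (n - 1) *
        ∫ θ, (∫ η, (u (pol R θ) - u (pol R η)) ^ 2 ∂sg n) ∂sg n ≤
      ∫ r in (0 : ℝ)..R, Real.sin r ^ (n - 1) *
        ((∫ θ, (∫ η, (fderiv ℝ u (pol r θ) (tau r (θ : E n)) -
            fderiv ℝ u (pol r η) (tau r (η : E n))) ^ 2 ∂sg n) ∂sg n) +
          ((n - 1 : ℕ) : ℝ) * (∫ θ, (∫ η, (u (pol r θ) - u (pol r η)) ^ 2 ∂sg n) ∂sg n) /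
            Real.sin r ^ 2) := by
  have hN : 1 ≤ n - 1 := by omega
  have hc : Continuous fun q : sphere (0 : E n) 1 × sphere (0 : E n) 1 => dif u R q ^ 2 :=
    ((continuous_dif hu).comp (continuous_const.prodMk continuous_id)).pow 2
  have hLi : Integrable (fun q => gS (n - 1) R * Real.sin R ^ (n - 1) * dif u R q ^ 2)
      ((sg n).prod (sg n)) := (integrable_sph2 hc).const_mul _
  have hΦi := integrable_phi (n := n) (n - 1) hu hR'
  have hmain := integral_mono hLi hΦi.integral_prod_left (fun q => pair_pt hN hR hR' hu q)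
  rw [integral_const_mul, integral_integral_swap hΦi, integral_dif_sq hu] at hmain
  refine hmain.trans_eq ?_
  rw [intervalIntegral.integral_of_le hR.le]
  exact integral_congr_ae (Filter.Eventually.of_forall fun r => integral_phi (n - 1) hu r)

end Pool.Agent.H62.SS
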