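import Pool.Agent.H62.SS.BallLowS
import Pool.Agent.H62.SS.RayS
import Pool.Agent.H62.SS.Size

set_option autoImplicit false

/-!
# [H62 SS BALLSIG] The first Steklov eigenvalue of a ball is at least `g(R)`

`sInf` of a nonempty set (`rayleigh_nonempty`, `frontier_gball`, `bs_gsph`), `le_csInf`, `ball_lower`.
-/

namespace Pool.Agent.H62.SS

open scoped RealInnerProductSpace MeasureTheory ENNReal NNReal
open MeasureTheory Set Metric
open Pool.Agent.H62.WS (E sg cst)

variable {n : ℕ}

theorem rayleigh_ball_nonempty (hn : 2 ≤ n) {R : ℝ} (hR : 0 < R) (hR' : R < Real.pi / 2) :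
    (rayleigh (gball (nor n) R)).Nonempty := by
  have hpi := Real.pi_pos
  apply rayleigh_nonempty hn
  · rw [frontier_gball (by omega) _ hR (by linarith), bs_gsph hn _ hR (by linarith)]
    exact (mul_ne_zero (ENNReal.ofReal_pos.2 (pow_pos (sin_pos1 hR hR') _)).ne'
      (cst_sg_ne_zero hn)).bot_lt
  · rw [frontier_gball (by omega) _ hR (by linarith)]
    exact bs_gsph_lt_top hn _ hR (by linarith)

theorem le_sigma1_ball (hn : 2 ≤ n) {R : ℝ} (hR : 0 < R) (hR' : R < Real.pi / 2) :
    gS (n - 1) R / (cst n).toReal ≤ sigma1 (gball (nor n) R) := by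
  have hpi := Real.pi_pos
  have hcs : 0 < (cst n).toReal := ENNReal.toReal_pos (Pool.Agent.H62.WS.cst_ne_zero hn)
    (Pool.Agent.H62.WS.cst_ne_top hn)
  unfold sigma1
  apply le_csInf (rayleigh_ball_nonempty hn hR hR')
  rintro t ⟨u, hu, h0, h1, rfl⟩
  rw [frontier_gball (by omega) _ hR (by linarith)] at h0 h1 ⊢
  have h2 := ball_lower hn hR hR' hu h0
  rw [div_le_div_iff₀ hcs h1]
  linarith

end Pool.Agent.H62.SS
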