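import Mathlib

set_option autoImplicit false

/-!
# [H62 SS BERN] Positivity of polynomials on the unit cube by Bernstein coefficients

A polynomial in several variables with integer coefficients is a nested list; `chk1`, `chk2`, `chk3`, `chk4` check that
all its Bernstein coefficients are nonnegative.
-/

namespace Pool.Agent.H62.SS

/-- the value at `x` of the polynomial with the coefficients `φ a` -/
noncomputable def evg {α : Type} (φ : α → ℝ) : List α → ℝ → ℝ
  | [], _ => 0
  | a :: l, x => φ a + x * evg φ l x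

/-- the homogeneous value `∑ φ (l i) x^i y^(d-i)` -/
noncomputable def hev {α : Type} (φ : α → ℝ) : List α → ℝ → ℝ → ℝ
  | [], _, _ => 0
  | a :: l, x, y => φ a * y ^ l.length + x * hev φ l x y

/-- multiplication of a binomial row by `x + y` -/
def pas (r : List ℤ) : List ℤ := List.zipWith (· + ·) (r ++ [0]) (0 :: r)

/-- the Bernstein coefficients (with the binomial factors) and the binomial row -/
def HB {α : Type} (add : α → α → α) (smul : ℤ → α → α) (z : α) : List α → List α × List ℤ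
  | [] => ([], [1])
  | a :: l =>
    (List.zipWith add ((HB add smul z l).2.map fun c => smul c a) (z :: (HB add smul z l).1),
      pas (HB add smul z l).2)

/-- addition of lists of different lengths -/
def padd {α : Type} (add : α → α → α) : List α → List α → List α
  | [], l => l
  | a :: l, [] => a :: l
  | a :: l, b :: m => add a b :: padd add l m

def smulZ (c a : ℤ) : ℤ := c * a
def addZ (a b : ℤ) : ℤ := a + b
def add1 : List ℤ → List ℤ → List ℤ := padd addZ
def smul1 (c : ℤ) (l : List ℤ) : List ℤ := l.map (smulZ c)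
def add2 : List (List ℤ) → List (List ℤ) → List (List ℤ) := padd add1
def smul2 (c : ℤ) (l : List (List ℤ)) : List (List ℤ) := l.map (smul1 c)
def add3 : List (List (List ℤ)) → List (List (List ℤ)) → List (List (List ℤ)) := padd add2
def smul3 (c : ℤ) (l : List (List (List ℤ))) : List (List (List ℤ)) := l.map (smul2 c)

def chk0 (c : ℤ) : Bool := decide (0 ≤ c)
def chk1 (l : List ℤ) : Bool := (HB addZ smulZ 0 l).1.all chk0
def chk2 (l : List (List ℤ)) : Bool := (HB add1 smul1 [] l).1.all chk1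
def chk3 (l : List (List (List ℤ))) : Bool := (HB add2 smul2 [] l).1.all chk2
def chk4 (l : List (List (List (List ℤ)))) : Bool := (HB add3 smul3 [] l).1.all chk3

noncomputable def ev1 (l : List ℤ) (s : ℝ) : ℝ := evg (fun c : ℤ => (c : ℝ)) l s
noncomputable def ev2 (l : List (List ℤ)) (q s : ℝ) : ℝ := evg (fun c => ev1 c s) l q
noncomputable def ev3 (l : List (List (List ℤ))) (x q s : ℝ) : ℝ := evg (fun c => ev2 c q s) l x
noncomputable def ev4 (l : List (List (List (List ℤ)))) (w x q s : ℝ) : ℝ := evg (fun c => ev3 c x q s) l w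

theorem hev_zip {α : Type} (φ : α → ℝ) (add : α → α → α) (hadd : ∀ a b, φ (add a b) = φ a + φ b) (x y : ℝ) :
    ∀ l m : List α, l.length = m.length →
      hev φ (List.zipWith add l m) x y = hev φ l x y + hev φ m x y
  | [], [], _ => by simp [hev]
  | a :: l, b :: m, h => by
    have h' : l.length = m.length := by simpa using h
    have h2 : (List.zipWith add l m).length = l.length := by simp [h']
    simp only [List.zipWith_cons_cons, hev, hev_zip φ add hadd x y l m h', hadd, h2, h']
    ring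

theorem hev_map {α : Type} (φ : α → ℝ) (smul : ℤ → α → α) (hsmul : ∀ c a, φ (smul c a) = c * φ a) (a : α)
    (x y : ℝ) : ∀ r : List ℤ,
      hev φ (r.map fun c => smul c a) x y = hev (fun c : ℤ => (c : ℝ)) r x y * φ a
  | [] => by simp [hev]
  | c :: r => by
    simp only [List.map_cons, hev, hev_map φ smul hsmul a x y r, hsmul, List.length_map]
    ring

theorem hev_append_zero (x y : ℝ) : ∀ r : List ℤ,
    hev (fun c : ℤ => (c : ℝ)) (r ++ [0]) x y = y * hev (fun c : ℤ => (c : ℝ)) r x y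
  | [] => by simp [hev]
  | c :: r => by
    simp only [List.cons_append, hev, hev_append_zero x y r, List.length_append, List.length_cons,
      List.length_nil, zero_add, pow_succ]
    ring

theorem length_pas (r : List ℤ) : (pas r).length = r.length + 1 := by
  simp [pas]

theorem hev_pas (x y : ℝ) (r : List ℤ) :
    hev (fun c : ℤ => (c : ℝ)) (pas r) x y = (x + y) * hev (fun c : ℤ => (c : ℝ)) r x y := by
  unfold pas
  rw [hev_zip _ (· + ·) (fun a b => by push_cast; ring) x y _ _ (by simp), hev_append_zero]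
  simp only [hev, Int.cast_zero, zero_mul, zero_add]
  ring

theorem HB_spec {α : Type} (φ : α → ℝ) (add : α → α → α) (smul : ℤ → α → α) (z : α)
    (hadd : ∀ a b, φ (add a b) = φ a + φ b) (hsmul : ∀ c a, φ (smul c a) = c * φ a) (hz : φ z = 0)
    {x y : ℝ} (hxy : x + y = 1) : ∀ l : List α,
      (HB add smul z l).1.length = l.length ∧ (HB add smul z l).2.length = l.length + 1 ∧
      hev φ (HB add smul z l).1 x y = evg φ l x ∧
      hev (fun c : ℤ => (c : ℝ)) (HB add smul z l).2 x y = 1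
  | [] => by simp [HB, hev, evg]
  | a :: l => by
    obtain ⟨h1, h2, h3, h4⟩ := HB_spec φ add smul z hadd hsmul hz hxy l
    refine ⟨?_, ?_, ?_, ?_⟩
    · simp [HB, h1, h2]
    · simp [HB, length_pas, h2]
    · simp only [HB]
      rw [hev_zip φ add hadd x y _ _ (by simp [h1, h2]), hev_map φ smul hsmul, h4]
      simp only [hev, hz, zero_mul, zero_add, h3, evg, one_mul]
    · simp only [HB]
      rw [hev_pas, h4, hxy, one_mul]

theorem hev_nonneg {α : Type} (φ : α → ℝ) {x y : ℝ} (hx : 0 ≤ x) (hy : 0 ≤ y) : ∀ l : List α,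
    (∀ a ∈ l, 0 ≤ φ a) → 0 ≤ hev φ l x y
  | [], _ => by simp [hev]
  | a :: l, h => by
    have h1 := h a (by simp)
    have h2 := hev_nonneg φ hx hy l fun b hb => h b (by simp [hb])
    simp only [hev]
    positivity

theorem evg_nonneg {α : Type} (φ : α → ℝ) (add : α → α → α) (smul : ℤ → α → α) (z : α)
    (hadd : ∀ a b, φ (add a b) = φ a + φ b) (hsmul : ∀ c a, φ (smul c a) = c * φ a) (hz : φ z = 0)
    (chk : α → Bool) (hchk : ∀ a, chk a = true → 0 ≤ φ a) {l : List α}
    (h : (HB add smul z l).1.all chk = true) {x : ℝ} (hx : 0 ≤ x) (hx1 : x ≤ 1) : 0 ≤ evg φ l x := by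
  obtain ⟨-, -, h3, -⟩ := HB_spec φ add smul z hadd hsmul hz (x := x) (y := 1 - x) (by ring) l
  rw [← h3]
  refine hev_nonneg φ hx (by linarith) _ fun a ha => hchk a ?_
  rw [List.all_eq_true] at h
  exact h a ha

theorem evg_padd {α : Type} (φ : α → ℝ) (add : α → α → α) (hadd : ∀ a b, φ (add a b) = φ a + φ b) (x : ℝ) :
    ∀ l m : List α, evg φ (padd add l m) x = evg φ l x + evg φ m x
  | [], m => by simp [padd, evg]
  | a :: l, [] => by simp [padd, evg]
  | a :: l, b :: m => by
    simp only [padd, evg, evg_padd φ add hadd x l m, hadd]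
    ring

theorem evg_map {α : Type} (φ : α → ℝ) (smul : ℤ → α → α) (hsmul : ∀ c a, φ (smul c a) = c * φ a) (c : ℤ)
    (x : ℝ) : ∀ l : List α, evg φ (l.map (smul c)) x = c * evg φ l x
  | [] => by simp [evg]
  | a :: l => by
    simp only [List.map_cons, evg, evg_map φ smul hsmul c x l, hsmul]
    ring

theorem castadd (a b : ℤ) : ((addZ a b : ℤ) : ℝ) = (a : ℝ) + b := by simp [addZ]
theorem castsmul (c a : ℤ) : ((smulZ c a : ℤ) : ℝ) = (c : ℝ) * a := by simp [smulZ]

theorem ev1_add (s : ℝ) (a b : List ℤ) : ev1 (add1 a b) s = ev1 a s + ev1 b s := evg_padd _ _ castadd s a b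
theorem ev1_smul (s : ℝ) (c : ℤ) (a : List ℤ) : ev1 (smul1 c a) s = c * ev1 a s := evg_map _ _ castsmul c s a
theorem ev2_add (q s : ℝ) (a b : List (List ℤ)) : ev2 (add2 a b) q s = ev2 a q s + ev2 b q s :=
  evg_padd _ _ (ev1_add s) q a b
theorem ev2_smul (q s : ℝ) (c : ℤ) (a : List (List ℤ)) : ev2 (smul2 c a) q s = c * ev2 a q s :=
  evg_map _ _ (ev1_smul s) c q a
theorem ev3_add (x q s : ℝ) (a b : List (List (List ℤ))) : ev3 (add3 a b) x q s = ev3 a x q s + ev3 b x q s :=
  evg_padd _ _ (ev2_add q s) x a b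
theorem ev3_smul (x q s : ℝ) (c : ℤ) (a : List (List (List ℤ))) : ev3 (smul3 c a) x q s = c * ev3 a x q s :=
  evg_map _ _ (ev2_smul q s) c x a

theorem chk1_sound {s : ℝ} (hs : 0 ≤ s) (hs1 : s ≤ 1) (l : List ℤ) (h : chk1 l = true) : 0 ≤ ev1 l s :=
  evg_nonneg _ _ _ _ castadd castsmul (by simp) chk0
    (fun a ha => by simp only [chk0, decide_eq_true_eq] at ha; exact_mod_cast ha) h hs hs1

theorem chk2_sound {q s : ℝ} (hq : 0 ≤ q) (hq1 : q ≤ 1) (hs : 0 ≤ s) (hs1 : s ≤ 1) (l : List (List ℤ))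
    (h : chk2 l = true) : 0 ≤ ev2 l q s :=
  evg_nonneg _ _ _ _ (ev1_add s) (ev1_smul s) (by simp [ev1, evg]) chk1 (chk1_sound hs hs1) h hq hq1

theorem chk3_sound {x q s : ℝ} (hx : 0 ≤ x) (hx1 : x ≤ 1) (hq : 0 ≤ q) (hq1 : q ≤ 1) (hs : 0 ≤ s) (hs1 : s ≤ 1)
    (l : List (List (List ℤ))) (h : chk3 l = true) : 0 ≤ ev3 l x q s :=
  evg_nonneg _ _ _ _ (ev2_add q s) (ev2_smul q s) (by simp [ev2, evg]) chk2 (chk2_sound hq hq1 hs hs1) h hx hx1

theorem chk4_sound {w x q s : ℝ} (hw : 0 ≤ w) (hw1 : w ≤ 1) (hx : 0 ≤ x) (hx1 : x ≤ 1) (hq : 0 ≤ q) (hq1 : q ≤ 1)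
    (hs : 0 ≤ s) (hs1 : s ≤ 1) (l : List (List (List (List ℤ)))) (h : chk4 l = true) : 0 ≤ ev4 l w x q s :=
  evg_nonneg _ _ _ _ (ev3_add x q s) (ev3_smul x q s) (by simp [ev3, evg]) chk3
    (chk3_sound hx hx1 hq hq1 hs hs1) h hw hw1

end Pool.Agent.H62.SS
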