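import Pool.Agent.H62.SS.DomA
import Pool.Agent.H62.SS.BallConv
import Pool.Agent.H62.SS.BsPol

set_option autoImplicit false

/-!
# [H62 SS RHO] The radial function of a convex domain containing the pole

`nor n ∈ Ω` implies `p 0 > 0`, i.e. `rad p < π/2`, for `p ∈ closure Ω` (`Dom.inner_pos`, `inner_nor`).  `mem_iff`: if `pol t θ ∈ Ω` (`0 < t < π/2`) then `pol t' θ ∈ Ω` for `0 < t' ≤ t`, as `pol t' θ` is a combination of `nor n` and `pol t θ` with nonnegative
coefficients (`Dom.seg_mem`, `mem_cn_iff`); an open set of `t`'s does not contain its supremum.  `pol_rho_mem_frontier`: limit of `pol t θ ∈ Ω`, `t → rho`, and not in `Ω`.  `mem_frontier`: `p = pol (rad p) θ`; if `rad p < rho` then `p ∈ Ω`, open; if `rad p > rho`: by `Dom.seg_mem` the point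
`pol t θ`, `rho < t < rad p`, is in `Ω`, a contradiction (`rad p = 0`: `p = nor n ∈ Ω`).  `measurable_rho`: `{θ | a < rho θ}` is open: for `0 < a < π/2` it is `{θ | pol a θ ∈ Ω}`.
-/

namespace Pool.Agent.H62.SS

open scoped RealInnerProductSpace MeasureTheory ENNReal NNReal
open MeasureTheory Set Metric
open Pool.Agent.H62.WS (E sg cst)

variable {n : ℕ}

/-- the radial function -/
noncomputable def rho (Ω : Set (Sp n)) (θ : sphere (0 : E n) 1) : ℝ :=
  sSup {t | t ∈ Ioo (0 : ℝ) (Real.pi / 2) ∧ pol t θ ∈ Ω}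

theorem rad_lt_of_mem_closure {Ω : Set (Sp n)} (h : Dom Ω) (ho : nor n ∈ Ω) {p : Sp n}
    (hp : p ∈ closure Ω) : rad p < Real.pi / 2 := by
  have h1 := h.inner_pos ho hp
  rw [inner_nor] at h1
  exact Real.arccos_lt_pi_div_two.2 h1

theorem pol_mem_of_lt {Ω : Set (Sp n)} (h : Dom Ω) (ho : nor n ∈ Ω) {s t : ℝ} (h0 : 0 < t)
    (h1 : t < s) (h2 : s < Real.pi) {θ : sphere (0 : E n) 1} (hs : pol s θ ∈ closure Ω) :
    pol t θ ∈ Ω := by
  have hss : 0 < Real.sin s := Real.sin_pos_of_pos_of_lt_pi (h0.trans h1) h2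
  have hst : 0 < Real.sin t := Real.sin_pos_of_pos_of_lt_pi h0 (h1.trans h2)
  have hd : 0 < Real.sin (s - t) := Real.sin_pos_of_pos_of_lt_pi (by linarith) (by linarith)
  have h3 := h.seg_mem ho hs (s := Real.sin (s - t) / Real.sin s) (t := Real.sin t / Real.sin s)
    (by positivity) (by positivity)
  rw [← coe_mem_cn]
  have h4 : ((pol t θ : Sp n) : E (n + 1)) = (Real.sin (s - t) / Real.sin s) • (nor n : E (n + 1)) +
      (Real.sin t / Real.sin s) • ((pol s θ : Sp n) : E (n + 1)) := by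
    rw [pol_coe, pol_coe]
    have h5 : (nor n : E (n + 1)) = e0 n := rfl
    rw [h5, smul_add, smul_smul, smul_smul, ← add_assoc, ← add_smul]
    congr 2
    · rw [Real.sin_sub]
      field_simp
      ring
    · field_simp
  rw [h4]
  exact h3

theorem rho_bddAbove (Ω : Set (Sp n)) (θ : sphere (0 : E n) 1) :
    BddAbove {t | t ∈ Ioo (0 : ℝ) (Real.pi / 2) ∧ pol t θ ∈ Ω} :=
  ⟨Real.pi / 2, fun _ ht => ht.1.2.le⟩

theorem exists_small {Ω : Set (Sp n)} (h : Dom Ω) (ho : nor n ∈ Ω) (θ : sphere (0 : E n) 1) :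
    ∃ t, t ∈ Ioo (0 : ℝ) (Real.pi / 2) ∧ pol t θ ∈ Ω := by
  have h1 : Filter.Tendsto (fun t => pol t θ) (nhdsWithin 0 (Ioi 0)) (nhds (nor n)) := by
    have h2 := ((continuous_pol_left θ).tendsto 0).mono_left (nhdsWithin_le_nhds (s := Ioi 0))
    rwa [pol_zero] at h2
  have h3 := h1.eventually (h.isOpen.mem_nhds ho)
  obtain ⟨t, ht, ht2⟩ := (h3.and (Ioo_mem_nhdsGT Real.pi_div_two_pos)).exists
  exact ⟨t, ht2, ht⟩

theorem rho_pos {Ω : Set (Sp n)} (h : Dom Ω) (ho : nor n ∈ Ω) (θ : sphere (0 : E n) 1) :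
    0 < rho Ω θ := by
  obtain ⟨t, ht⟩ := exists_small h ho θ
  exact ht.1.1.trans_le (le_csSup (rho_bddAbove Ω θ) ht)

theorem rho_le {Ω : Set (Sp n)} (h : Dom Ω) (ho : nor n ∈ Ω) (θ : sphere (0 : E n) 1) :
    rho Ω θ ≤ Real.pi / 2 :=
  csSup_le (exists_small h ho θ) fun _ ht => ht.1.2.le

theorem pol_rho_mem_closure {Ω : Set (Sp n)} (h : Dom Ω) (ho : nor n ∈ Ω)
    (θ : sphere (0 : E n) 1) : pol (rho Ω θ) θ ∈ closure Ω := by
  have h1 := csSup_mem_closure (exists_small h ho θ) (rho_bddAbove Ω θ)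
  exact map_mem_closure (f := fun t => pol t θ) (continuous_pol_left θ) h1 (fun t ht => ht.2)

theorem rho_lt {Ω : Set (Sp n)} (h : Dom Ω) (ho : nor n ∈ Ω) (θ : sphere (0 : E n) 1) :
    rho Ω θ < Real.pi / 2 := by
  have h1 := rad_lt_of_mem_closure h ho (pol_rho_mem_closure h ho θ)
  rwa [rad_pol (rho_pos h ho θ).le (by linarith [rho_le h ho θ, Real.pi_pos])] at h1

theorem pol_mem_iff {Ω : Set (Sp n)} (h : Dom Ω) (ho : nor n ∈ Ω) {t : ℝ}
    (ht : t ∈ Ioo 0 Real.pi) (θ : sphere (0 : E n) 1) : pol t θ ∈ Ω ↔ t < rho Ω θ := by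
  constructor
  · intro h1
    have h2 := rad_lt_of_mem_closure h ho (subset_closure h1)
    rw [rad_pol ht.1.le ht.2.le] at h2
    have h3 : Filter.Tendsto (fun t => pol t θ) (nhdsWithin t (Ioi t)) (nhds (pol t θ)) :=
      ((continuous_pol_left θ).tendsto t).mono_left nhdsWithin_le_nhds
    have h4 := h3.eventually (h.isOpen.mem_nhds h1)
    obtain ⟨s, hs, hs2⟩ := (h4.and (Ioo_mem_nhdsGT h2)).exists
    exact hs2.1.trans_le (le_csSup (rho_bddAbove Ω θ) ⟨⟨ht.1.trans hs2.1, hs2.2⟩, hs⟩)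
  · intro h1
    obtain ⟨s, hs, hs2⟩ := exists_lt_of_lt_csSup (exists_small h ho θ) h1
    exact pol_mem_of_lt h ho ht.1 hs2 (by linarith [hs.1.2, Real.pi_pos]) (subset_closure hs.2)

theorem pol_rho_mem_frontier {Ω : Set (Sp n)} (h : Dom Ω) (ho : nor n ∈ Ω)
    (θ : sphere (0 : E n) 1) : pol (rho Ω θ) θ ∈ frontier Ω := by
  rw [h.isOpen.frontier_eq]
  refine ⟨pol_rho_mem_closure h ho θ, ?_⟩
  rw [pol_mem_iff h ho ⟨rho_pos h ho θ, by linarith [rho_lt h ho θ, Real.pi_pos]⟩]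
  exact lt_irrefl _

theorem frontier_eq_rho (hn : 1 ≤ n) {Ω : Set (Sp n)} (h : Dom Ω) (ho : nor n ∈ Ω) {p : Sp n}
    (hp : p ∈ frontier Ω) : ∃ θ : sphere (0 : E n) 1, rad p = rho Ω θ ∧ p = pol (rho Ω θ) θ := by
  rw [h.isOpen.frontier_eq] at hp
  obtain ⟨θ, hθ⟩ := exists_pol hn p
  have h1 := rad_lt_of_mem_closure h ho hp.1
  have h2 : rad p ≠ 0 := by
    intro h3
    rw [h3, pol_zero] at hθ
    rw [hθ] at hp
    exact hp.2 ho
  have h3 : 0 < rad p := lt_of_le_of_ne (rad_nonneg p) (Ne.symm h2)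
  have hpi := Real.pi_pos
  have h4 : rad p = rho Ω θ := by
    rcases lt_trichotomy (rad p) (rho Ω θ) with h5 | h5 | h5
    · exfalso
      rw [← pol_mem_iff h ho ⟨h3, by linarith⟩, ← hθ] at h5
      exact hp.2 h5
    · exact h5
    · exfalso
      obtain ⟨t, ht1, ht2⟩ := exists_between h5
      have h6 : pol t θ ∈ Ω := by
        refine pol_mem_of_lt h ho ((rho_pos h ho θ).trans ht1) ht2 (by linarith) ?_
        rw [← hθ]
        exact hp.1
      rw [pol_mem_iff h ho ⟨(rho_pos h ho θ).trans ht1, by linarith⟩] at h6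
      exact absurd h6 (not_lt.2 ht1.le)
  refine ⟨θ, h4, ?_⟩
  rw [← h4]
  exact hθ

theorem measurable_rho {Ω : Set (Sp n)} (h : Dom Ω) (ho : nor n ∈ Ω) : Measurable (rho Ω) := by
  refine measurable_of_Ioi fun a => ?_
  rcases le_or_gt a 0 with h1 | h1
  · have : rho Ω ⁻¹' Ioi a = univ := by
      ext θ
      simp only [mem_preimage, mem_Ioi, mem_univ, iff_true]
      exact h1.trans_lt (rho_pos h ho θ)
    rw [this]
    exact MeasurableSet.univ
  rcases lt_or_ge a (Real.pi / 2) with h2 | h2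
  · have : rho Ω ⁻¹' Ioi a = (fun θ => pol a θ) ⁻¹' Ω := by
      ext θ
      simp only [mem_preimage, mem_Ioi]
      rw [pol_mem_iff h ho ⟨h1, by linarith [Real.pi_pos]⟩]
    rw [this]
    exact (h.isOpen.preimage (continuous_pol_right a)).measurableSet
  · have : rho Ω ⁻¹' Ioi a = ∅ := by
      ext θ
      simp only [mem_preimage, mem_Ioi, mem_empty_iff_false, iff_false, not_lt]
      linarith [rho_lt h ho θ]
    rw [this]
    exact MeasurableSet.empty

end Pool.Agent.H62.SS
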