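import Pool.Agent.H62.SS.OutM
import Pool.Agent.H62.SS.RhoS
import Pool.Agent.H62.SS.ActC
import Pool.Agent.H62.WS.HSph

set_option autoImplicit false

/-!
# [H62 SS SIDEPOS] The boundary is not contained in a hyperplane

Take `p ∈ Ω`; by `exists_act`, `Dom.act` (and `inner_act`, `act_frontier`, `bs_act_image`) we may assume `p = nor n`.  `c = ⟪ν, e0⟫ < 0`.  Let `D = {θ | ⟪ν, inc θ⟫ ≤ 0}`; `D ∪ -D` is the sphere and `sg n` is invariant under `θ ↦ -θ`, so `sg n D > 0`.  For `θ ∈ D`: `⟪ν, pol (rho θ) θ⟫ = c cos rho + sin rho ⟪ν, inc θ⟫ < 0`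
(`0 < rho < π/2`).  For small `a > 0` the set `D_a = {θ ∈ D | a < rho θ}` has positive measure (`rho > 0`); `outer_meas` with `K = frontier Ω ∩ {⟪ν,·⟫ < 0}`, `r = a`, `D_a`.
-/

namespace Pool.Agent.H62.SS

open scoped RealInnerProductSpace MeasureTheory ENNReal NNReal
open MeasureTheory Set Metric
open Pool.Agent.H62.WS (E sg cst)

variable {n : ℕ}

/-- a closed half of the equator has positive measure -/
private theorem sg_half_pos (hn : 2 ≤ n) (w : E n) :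
    0 < sg n {θ : sphere (0 : E n) 1 | ⟪w, (θ : E n)⟫ ≤ 0} := by
  obtain ⟨m, rfl⟩ : ∃ m, n = m + 1 := ⟨n - 1, by omega⟩
  by_contra h0
  rw [not_lt, nonpos_iff_eq_zero] at h0
  have h1 : sg (m + 1) (act (LinearIsometryEquiv.neg ℝ) ''
      {θ : Sp m | ⟪w, (θ : E (m + 1))⟫ ≤ 0}) = 0 := by
    rw [sg_act_image]
    exact h0
  have h2 : (univ : Set (Sp m)) ⊆ {θ : Sp m | ⟪w, (θ : E (m + 1))⟫ ≤ 0} ∪
      act (LinearIsometryEquiv.neg ℝ) '' {θ : Sp m | ⟪w, (θ : E (m + 1))⟫ ≤ 0} := by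
    intro θ _
    rcases le_total ⟪w, (θ : E (m + 1))⟫ 0 with h | h
    · exact Or.inl h
    · right
      refine ⟨act (LinearIsometryEquiv.neg ℝ) θ, ?_, ?_⟩
      · have h3 : (act (LinearIsometryEquiv.neg ℝ) θ : E (m + 1)) = -(θ : E (m + 1)) := rfl
        rw [mem_setOf_eq, h3, inner_neg_right]
        linarith
      · ext1
        exact neg_neg (θ : E (m + 1))
  have h3 := (measure_mono (μ := sg (m + 1)) h2).trans (measure_union_le _ _)
  rw [h1, add_zero] at h3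
  have h4 := WS.sg_univ_pos hn
  rw [h0] at h3
  exact absurd (h4.trans_le h3) (lt_irrefl _)

private theorem side_core (hn : 2 ≤ n) {Ω : Set (Sp n)} (h : Dom Ω) (ho : nor n ∈ Ω) {ν : Sp n}
    (hν : ⟪(ν : E (n + 1)), e0 n⟫ < 0) :
    0 < bs n (frontier Ω ∩ {x | ⟪(ν : E (n + 1)), (x : E (n + 1))⟫ < 0}) := by
  obtain ⟨D, hD⟩ : ∃ D : Set (sphere (0 : E n) 1),
      D = {θ : sphere (0 : E n) 1 | ⟪(ν : E (n + 1)), inc n (θ : E n)⟫ ≤ 0} := ⟨_, rfl⟩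
  have hDm : MeasurableSet D := by
    rw [hD]
    exact (isClosed_le (by fun_prop) continuous_const).measurableSet
  have hDpos : 0 < sg n D := by
    have h1 := sg_half_pos hn (dn n (ν : E (n + 1)))
    have h2 : D = {θ : sphere (0 : E n) 1 | ⟪dn n (ν : E (n + 1)), (θ : E n)⟫ ≤ 0} := by
      rw [hD]
      ext θ
      rw [mem_setOf_eq, mem_setOf_eq, inner_eq, inc_zero_apply, mul_zero, zero_add]
      rfl
    rw [h2]
    exact h1
  have hU : D ⊆ ⋃ k : ℕ, D ∩ {θ | 1 / ((k : ℝ) + 1) < rho Ω θ} := by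
    intro θ hθ
    obtain ⟨k, hk⟩ := exists_nat_one_div_lt (rho_pos h ho θ)
    exact mem_iUnion.2 ⟨k, hθ, hk⟩
  have hex : ∃ k : ℕ, sg n (D ∩ {θ | 1 / ((k : ℝ) + 1) < rho Ω θ}) ≠ 0 := by
    by_contra hc
    push Not at hc
    have h1 := measure_iUnion_null (μ := sg n) hc
    exact hDpos.ne' (measure_mono_null hU h1)
  obtain ⟨k, hk⟩ := hex
  have hk0 : (0 : ℝ) < 1 / ((k : ℝ) + 1) := by positivity
  have hk1 : 1 / ((k : ℝ) + 1) ≤ 1 := by
    rw [div_le_one (by positivity)]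
    linarith [Nat.cast_nonneg (α := ℝ) k]
  have hpi : (1 : ℝ) ≤ Real.pi / 2 := by linarith [Real.pi_gt_three]
  have h1 := outer_meas hn hk0 (hk1.trans hpi) (D := D ∩ {θ | 1 / ((k : ℝ) + 1) < rho Ω θ})
    (hDm.inter (measurableSet_lt measurable_const (measurable_rho h ho)))
    (frontier Ω ∩ {x | ⟪(ν : E (n + 1)), (x : E (n + 1))⟫ < 0}) (by
      rintro θ ⟨hθ, hθ2⟩
      refine ⟨rho Ω θ, le_of_lt hθ2, (rho_lt h ho θ).le, pol_rho_mem_frontier h ho θ, ?_⟩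
      have h2 : ((pol (rho Ω θ) θ : Sp n) : E (n + 1)) =
          Real.cos (rho Ω θ) • e0 n + Real.sin (rho Ω θ) • inc n (θ : E n) := rfl
      rw [mem_setOf_eq, h2, inner_add_right, inner_smul_right, inner_smul_right]
      rw [hD, mem_setOf_eq] at hθ
      have h3 : 0 < Real.cos (rho Ω θ) := Real.cos_pos_of_mem_Ioo
        ⟨by linarith [rho_pos h ho θ, Real.pi_pos], rho_lt h ho θ⟩
      have h4 : 0 < Real.sin (rho Ω θ) := Real.sin_pos_of_pos_of_lt_pi (rho_pos h ho θ)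
        (by linarith [rho_lt h ho θ, Real.pi_pos])
      nlinarith [mul_neg_of_pos_of_neg h3 hν, mul_nonneg h4.le (neg_nonneg.2 hθ)])
  refine lt_of_lt_of_le ?_ (h1.trans (measure_mono inter_subset_left))
  have h5 : 0 < Real.sin (1 / ((k : ℝ) + 1)) := Real.sin_pos_of_pos_of_lt_pi hk0
    (by linarith [Real.pi_gt_three])
  have h6 : ENNReal.ofReal (Real.sin (1 / ((k : ℝ) + 1)) ^ (n - 1)) ≠ 0 := by
    rw [Ne, ENNReal.ofReal_eq_zero, not_le]
    positivity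
  exact pos_iff_ne_zero.2 (mul_ne_zero h6 (mul_ne_zero (WS.cst_ne_zero hn) hk))

theorem bs_side_pos (hn : 2 ≤ n) {Ω : Set (Sp n)} (h : Dom Ω) {ν : Sp n}
    (hν : ∀ y ∈ Ω, ⟪(ν : E (n + 1)), (y : E (n + 1))⟫ < 0) :
    0 < bs n (frontier Ω ∩ {x | ⟪(ν : E (n + 1)), (x : E (n + 1))⟫ < 0}) := by
  obtain ⟨p, hp⟩ := h.nonempty
  obtain ⟨Φ, hΦ⟩ := exists_act p (nor n)
  have h1 := side_core hn (h.act Φ) (by rw [← hΦ]; exact ⟨p, hp, rfl⟩) (ν := act Φ ν) (by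
    have h2 : ((nor n : Sp n) : E (n + 1)) = e0 n := rfl
    rw [← h2, ← hΦ, inner_act]
    exact hν p hp)
  have h2 : frontier (act Φ '' Ω) ∩ {x | ⟪(act Φ ν : E (n + 1)), (x : E (n + 1))⟫ < 0} =
      act Φ '' (frontier Ω ∩ {x | ⟪(ν : E (n + 1)), (x : E (n + 1))⟫ < 0}) := by
    rw [← act_frontier]
    ext x
    constructor
    · rintro ⟨⟨y, hy, rfl⟩, hx⟩
      rw [mem_setOf_eq, inner_act] at hx
      exact ⟨y, ⟨hy, hx⟩, rfl⟩
    · rintro ⟨y, ⟨hy, hx⟩, rfl⟩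
      refine ⟨⟨y, hy, rfl⟩, ?_⟩
      rw [mem_setOf_eq, inner_act]
      exact hx
  rw [h2, bs_act_image] at h1
  exact h1

end Pool.Agent.H62.SS
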