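import Pool.Agent.H62.SS.CentS
import Pool.Agent.H62.SS.SidePos
import Pool.Agent.H62.SS.SepS

set_option autoImplicit false

/-!
# [H62 SS CENT] The centre

`o` from `exists_min_Gp` with `K = frontier Ω`; `center_stationary`.  `o ∈ Ω`: otherwise `ν` by `Dom.sep`: `⟪ν,x⟫ ≤ 0` on `frontier Ω`.  If `⟪ν,o⟫ > 0`: `o' = o - 2⟪ν,o⟫ ν` (unit vector) has `⟪o',x⟫ = ⟪o,x⟫ - 2⟪ν,o⟫⟪ν,x⟫ ≥ ⟪o,x⟫`, strict on `{⟪ν,x⟫ < 0}`, which has positive measure in `frontier Ω` (`bs_side_pos`),
so the integral for `o'` is strictly smaller (`Gp_strictAnti`; `setIntegral_pos_iff`-type argument for the difference), a contradiction.  If `⟪ν,o⟫ = 0`: `center_stationary` with `v = ν`: the integrand is `≤ 0` and `< 0` on a set of positive measure (`H > 0` on `[-1,1]`), a contradiction.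
-/

namespace Pool.Agent.H62.SS

open scoped RealInnerProductSpace MeasureTheory ENNReal NNReal
open MeasureTheory Set Metric
open Pool.Agent.H62.WS (E sg cst)

variable {n : ℕ}

theorem exists_center (hn : 2 ≤ n) {Ω : Set (Sp n)} (h : Dom Ω) {H : ℝ → ℝ}
    (hH : ContDiff ℝ 1 H) (hp : ∀ c ∈ Icc (-1 : ℝ) 1, 0 < H c) :
    ∃ o ∈ Ω, ∀ v : E (n + 1), ⟪(o : E (n + 1)), v⟫ = 0 →
      ∫ x in frontier Ω, H ⟪(o : E (n + 1)), (x : E (n + 1))⟫ * ⟪v, (x : E (n + 1))⟫ ∂bs n =
        0 := by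
  have hfin := bs_frontier_lt_top hn h
  obtain ⟨o, ho⟩ := exists_min_Gp hH hfin
  refine ⟨o, ?_, fun v hv => center_stationary hH hfin ho hv⟩
  by_contra hoΩ
  obtain ⟨ν, hν1, hν2⟩ := h.sep hoΩ
  have hside := bs_side_pos hn h hν1
  have hcν : Continuous (fun x : Sp n => ⟪(ν : E (n + 1)), (x : E (n + 1))⟫) :=
    continuous_const.inner continuous_subtype_val
  have hνf : ∀ x ∈ frontier Ω, ⟪(ν : E (n + 1)), (x : E (n + 1))⟫ ≤ 0 := by
    intro x hx
    have h1 : closure Ω ⊆ {x | ⟪(ν : E (n + 1)), (x : E (n + 1))⟫ ≤ 0} :=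
      closure_minimal (fun y hy => (hν1 y hy).le) (isClosed_le hcν continuous_const)
    exact h1 (frontier_subset_closure hx)
  rcases hν2.eq_or_lt with h0 | h0
  · -- the centre is on the boundary of the half space
    have h1 := center_stationary hH hfin ho (v := (ν : E (n + 1))) (by
      rw [real_inner_comm]
      exact h0.symm)
    have hf0 : ∀ x ∈ frontier Ω, 0 ≤ -(H ⟪(o : E (n + 1)), (x : E (n + 1))⟫ *
        ⟪(ν : E (n + 1)), (x : E (n + 1))⟫) := by
      intro x hx
      have h2 := hp _ (inner_mem_Icc o x)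
      have h3 := hνf x hx
      nlinarith
    have hint : IntegrableOn (fun x : Sp n => -(H ⟪(o : E (n + 1)), (x : E (n + 1))⟫ *
        ⟪(ν : E (n + 1)), (x : E (n + 1))⟫)) (frontier Ω) (bs n) := by
      have hfm : IsFiniteMeasure ((bs n).restrict (frontier Ω)) :=
        ⟨by rw [Measure.restrict_apply_univ]; exact hfin⟩
      have hc : Continuous (fun x : Sp n => -(H ⟪(o : E (n + 1)), (x : E (n + 1))⟫ *
          ⟪(ν : E (n + 1)), (x : E (n + 1))⟫)) :=
        ((hH.continuous.comp (continuous_const.inner continuous_subtype_val)).mul hcν).neg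
      exact hc.integrable_of_hasCompactSupport (HasCompactSupport.of_compactSpace _)
    have h4 : 0 < ∫ x in frontier Ω, -(H ⟪(o : E (n + 1)), (x : E (n + 1))⟫ *
        ⟪(ν : E (n + 1)), (x : E (n + 1))⟫) ∂bs n := by
      rw [setIntegral_pos_iff_support_of_nonneg_ae
        (ae_restrict_of_forall_mem isClosed_frontier.measurableSet hf0) hint]
      refine hside.trans_le (measure_mono ?_)
      rintro x ⟨hx1, hx2⟩
      refine ⟨?_, hx1⟩
      have hx3 : ⟪(ν : E (n + 1)), (x : E (n + 1))⟫ < 0 := hx2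
      have h2 := hp _ (inner_mem_Icc o x)
      rw [Function.mem_support]
      exact (neg_pos.2 (mul_neg_of_pos_of_neg h2 hx3)).ne'
    rw [integral_neg, h1, neg_zero] at h4
    exact lt_irrefl _ h4
  · -- reflect the centre
    have hn1 : ‖(o : E (n + 1)) - (2 * ⟪(ν : E (n + 1)), (o : E (n + 1))⟫) • (ν : E (n + 1))‖ =
        1 := by
      have h2 : ‖(o : E (n + 1)) - (2 * ⟪(ν : E (n + 1)), (o : E (n + 1))⟫) •
          (ν : E (n + 1))‖ ^ 2 = 1 := by
        rw [@norm_sub_sq_real, norm_smul, norm_coe, norm_coe, real_inner_smul_right,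
          real_inner_comm (ν : E (n + 1)) (o : E (n + 1)), Real.norm_eq_abs, mul_one, sq_abs]
        ring
      exact (pow_eq_one_iff_of_nonneg (norm_nonneg _) two_ne_zero).1 h2
    let o' : Sp n := ⟨(o : E (n + 1)) - (2 * ⟪(ν : E (n + 1)), (o : E (n + 1))⟫) •
      (ν : E (n + 1)), by
        rw [mem_sphere_zero_iff_norm]
        exact hn1⟩
    have hin : ∀ x : Sp n, ⟪(o' : E (n + 1)), (x : E (n + 1))⟫ =
        ⟪(o : E (n + 1)), (x : E (n + 1))⟫ -
          2 * ⟪(ν : E (n + 1)), (o : E (n + 1))⟫ * ⟪(ν : E (n + 1)), (x : E (n + 1))⟫ := by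
      intro x
      simp only [o', inner_sub_left, real_inner_smul_left]
    have hG := Gp_strictAnti hH hp
    have i1 := integrable_Gp (K := frontier Ω) hH hfin o
    have i2 := integrable_Gp (K := frontier Ω) hH hfin o'
    have h4 : 0 < ∫ x in frontier Ω, (Gp H ⟪(o : E (n + 1)), (x : E (n + 1))⟫ -
        Gp H ⟪(o' : E (n + 1)), (x : E (n + 1))⟫) ∂bs n := by
      have hf0 : ∀ x ∈ frontier Ω, 0 ≤ Gp H ⟪(o : E (n + 1)), (x : E (n + 1))⟫ -
          Gp H ⟪(o' : E (n + 1)), (x : E (n + 1))⟫ := by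
        intro x hx
        have h5 : ⟪(o : E (n + 1)), (x : E (n + 1))⟫ ≤ ⟪(o' : E (n + 1)), (x : E (n + 1))⟫ := by
          rw [hin]
          nlinarith [hνf x hx]
        have h6 := hG.antitoneOn (inner_mem_Icc o x) (inner_mem_Icc o' x) h5
        linarith
      rw [setIntegral_pos_iff_support_of_nonneg_ae
        (ae_restrict_of_forall_mem isClosed_frontier.measurableSet hf0) (i1.sub i2)]
      refine hside.trans_le (measure_mono ?_)
      rintro x ⟨hx1, hx2⟩
      refine ⟨?_, hx1⟩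
      have hx3 : ⟪(ν : E (n + 1)), (x : E (n + 1))⟫ < 0 := hx2
      have h5 : ⟪(o : E (n + 1)), (x : E (n + 1))⟫ < ⟪(o' : E (n + 1)), (x : E (n + 1))⟫ := by
        rw [hin]
        nlinarith
      have h6 := hG (inner_mem_Icc o x) (inner_mem_Icc o' x) h5
      rw [Function.mem_support]
      linarith
    rw [integral_sub i1 i2] at h4
    have h7 := ho o'
    linarith

end Pool.Agent.H62.SS
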