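import Pool.Agent.H62.SS.Size

set_option autoImplicit false

/-!
# [H62 SS CENTA] The potential of the centre and its minimum

`Gp H y = -∫_0^y H` has the continuous derivative `-H` (`intervalIntegral.integral_hasDerivAt_right`), negative on `[-1,1]`.  `a ↦ ∫_{∂Ω} Gp H ⟪a,x⟫` is continuous on the compact sphere (dominated convergence: `continuous_of_dominated`, bounded integrand, `bs.restrict (frontier Ω)` finite), so it has a minimum.
-/

namespace Pool.Agent.H62.SS

open scoped RealInnerProductSpace MeasureTheory ENNReal NNReal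
open MeasureTheory Set Metric
open Pool.Agent.H62.WS (E sg cst)

variable {n : ℕ}

/-- the potential -/
noncomputable def Gp (H : ℝ → ℝ) (y : ℝ) : ℝ := -∫ z in (0 : ℝ)..y, H z

private theorem Gp_continuous {H : ℝ → ℝ} (hH : ContDiff ℝ 1 H) : Continuous (Gp H) := by
  have h : ∀ y, HasDerivAt (Gp H) (-H y) y := fun y =>
    (hH.continuous.integral_hasStrictDerivAt 0 y).hasDerivAt.neg
  exact continuous_iff_continuousAt.2 fun y => (h y).continuousAt

private theorem Gp_inner_mem (a x : Sp n) : ⟪(a : E (n + 1)), (x : E (n + 1))⟫ ∈ Icc (-1 : ℝ) 1 := by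
  have h := abs_real_inner_le_norm (a : E (n + 1)) (x : E (n + 1))
  rw [norm_coe, norm_coe, one_mul] at h
  exact ⟨(abs_le.1 h).1, (abs_le.1 h).2⟩

private theorem Gp_bound {H : ℝ → ℝ} (hH : ContDiff ℝ 1 H) :
    ∃ C : ℝ, ∀ a x : Sp n, ‖Gp H ⟪(a : E (n + 1)), (x : E (n + 1))⟫‖ ≤ C := by
  obtain ⟨C, hC⟩ := (isCompact_Icc (a := (-1 : ℝ)) (b := 1)).exists_bound_of_continuousOn
    (Gp_continuous hH).continuousOn
  exact ⟨C, fun a x => hC _ (Gp_inner_mem a x)⟩

private theorem Gp_cont_right {H : ℝ → ℝ} (hH : ContDiff ℝ 1 H) (a : Sp n) :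
    Continuous fun x : Sp n => Gp H ⟪(a : E (n + 1)), (x : E (n + 1))⟫ :=
  (Gp_continuous hH).comp (by fun_prop)

private theorem Gp_cont_left {H : ℝ → ℝ} (hH : ContDiff ℝ 1 H) (x : Sp n) :
    Continuous fun a : Sp n => Gp H ⟪(a : E (n + 1)), (x : E (n + 1))⟫ :=
  (Gp_continuous hH).comp (by fun_prop)

theorem hasDerivAt_Gp {H : ℝ → ℝ} (hH : ContDiff ℝ 1 H) (y : ℝ) :
    HasDerivAt (Gp H) (-H y) y := by
  exact (hH.continuous.integral_hasStrictDerivAt 0 y).hasDerivAt.neg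

theorem Gp_strictAnti {H : ℝ → ℝ} (hH : ContDiff ℝ 1 H) (hp : ∀ c ∈ Icc (-1 : ℝ) 1, 0 < H c) :
    StrictAntiOn (Gp H) (Icc (-1) 1) := by
  apply strictAntiOn_of_deriv_neg (convex_Icc _ _) (Gp_continuous hH).continuousOn
  intro x hx
  rw [interior_Icc] at hx
  rw [(hasDerivAt_Gp hH x).deriv, neg_lt_zero]
  exact hp x ⟨hx.1.le, hx.2.le⟩

theorem integrable_Gp {H : ℝ → ℝ} (hH : ContDiff ℝ 1 H) {K : Set (Sp n)} (hK : bs n K < ∞)
    (a : Sp n) :
    IntegrableOn (fun x : Sp n => Gp H ⟪(a : E (n + 1)), (x : E (n + 1))⟫) K (bs n) := by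
  obtain ⟨C, hC⟩ := Gp_bound (n := n) hH
  exact Measure.integrableOn_of_bounded hK.ne (Gp_cont_right hH a).aestronglyMeasurable
    (Filter.Eventually.of_forall fun x => hC a x)

theorem exists_min_Gp {H : ℝ → ℝ} (hH : ContDiff ℝ 1 H) {K : Set (Sp n)} (hK : bs n K < ∞) :
    ∃ o : Sp n, ∀ a : Sp n, ∫ x in K, Gp H ⟪(o : E (n + 1)), (x : E (n + 1))⟫ ∂bs n ≤
      ∫ x in K, Gp H ⟪(a : E (n + 1)), (x : E (n + 1))⟫ ∂bs n := by
  obtain ⟨C, hC⟩ := Gp_bound (n := n) hH
  haveI : IsFiniteMeasure ((bs n).restrict K) := ⟨by rwa [Measure.restrict_apply_univ]⟩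
  have hc : Continuous fun a : Sp n => ∫ x in K, Gp H ⟪(a : E (n + 1)), (x : E (n + 1))⟫ ∂bs n := by
    apply continuous_of_dominated (bound := fun _ => C)
    · intro a
      exact (Gp_cont_right hH a).aestronglyMeasurable
    · intro a
      exact Filter.Eventually.of_forall fun x => hC a x
    · exact integrable_const C
    · exact Filter.Eventually.of_forall fun x => Gp_cont_left hH x
  haveI : Nonempty (Sp n) := ⟨nor n⟩
  obtain ⟨o, _, ho⟩ := isCompact_univ.exists_isMinOn univ_nonempty hc.continuousOn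
  exact ⟨o, fun a => ho (mem_univ a)⟩

end Pool.Agent.H62.SS
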