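import Pool.Agent.H62.SS.CentA

set_option autoImplicit false

/-!
# [H62 SS CENTS] The centre condition at a minimum of the potential

For a unit vector `v ⊥ o`, `t ↦ ∫ Gp H (cos t ⟪o,x⟫ + sin t ⟪v,x⟫)` is minimal at `t = 0` (`cos t o + sin t v` is a point of the sphere); its derivative at `0` is `-∫ H(⟪o,x⟫) ⟪v,x⟫` (`hasDerivAt_Gp`, `hasDerivAt_integral_of_dominated_loc_of_deriv_le`: `H` is bounded on `[-2,2]`, `(bs n).restrict K` is finite);
`IsLocalMin.hasDerivAt_eq_zero`; scale for general `v`.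
-/

namespace Pool.Agent.H62.SS

open scoped RealInnerProductSpace MeasureTheory ENNReal NNReal
open MeasureTheory Set Metric
open Pool.Agent.H62.WS (E sg cst)

variable {n : ℕ}

theorem inner_mem_Icc (a x : Sp n) : ⟪(a : E (n + 1)), (x : E (n + 1))⟫ ∈ Icc (-1 : ℝ) 1 := by
  have h := abs_real_inner_le_norm (a : E (n + 1)) (x : E (n + 1))
  rw [norm_coe, norm_coe, one_mul] at h
  exact ⟨(abs_le.1 h).1, (abs_le.1 h).2⟩

theorem norm_rot {o v : Sp n} (hv : ⟪(o : E (n + 1)), (v : E (n + 1))⟫ = 0) (t : ℝ) :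
    ‖Real.cos t • (o : E (n + 1)) + Real.sin t • (v : E (n + 1))‖ = 1 := by
  have h2 : ‖Real.cos t • (o : E (n + 1)) + Real.sin t • (v : E (n + 1))‖ ^ 2 = 1 := by
    rw [@norm_add_sq_real, norm_smul, norm_smul, norm_coe, norm_coe, real_inner_smul_left,
      real_inner_smul_right, hv]
    simp
  exact (pow_eq_one_iff_of_nonneg (norm_nonneg _) two_ne_zero).1 h2

theorem center_unit {H : ℝ → ℝ} (hH : ContDiff ℝ 1 H) {K : Set (Sp n)} (hK : bs n K < ∞)
    {o : Sp n} (ho : ∀ a : Sp n, ∫ x in K, Gp H ⟪(o : E (n + 1)), (x : E (n + 1))⟫ ∂bs n ≤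
      ∫ x in K, Gp H ⟪(a : E (n + 1)), (x : E (n + 1))⟫ ∂bs n)
    {v : Sp n} (hv : ⟪(o : E (n + 1)), (v : E (n + 1))⟫ = 0) :
    ∫ x in K, H ⟪(o : E (n + 1)), (x : E (n + 1))⟫ * ⟪(v : E (n + 1)), (x : E (n + 1))⟫ ∂bs n =
      0 := by
  have hfin : IsFiniteMeasure ((bs n).restrict K) := ⟨by rwa [Measure.restrict_apply_univ]⟩
  have hG : Continuous (Gp H) :=
    continuous_iff_continuousAt.2 fun y => (hasDerivAt_Gp hH y).continuousAt
  have hco : Continuous (fun x : Sp n => ⟪(o : E (n + 1)), (x : E (n + 1))⟫) :=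
    continuous_const.inner continuous_subtype_val
  have hcv : Continuous (fun x : Sp n => ⟪(v : E (n + 1)), (x : E (n + 1))⟫) :=
    continuous_const.inner continuous_subtype_val
  obtain ⟨C, hC⟩ := (isCompact_Icc (a := (-2 : ℝ)) (b := 2)).exists_bound_of_continuousOn
    hH.continuous.continuousOn
  have hC0 : 0 ≤ C := (norm_nonneg _).trans (hC 0 ⟨by norm_num, by norm_num⟩)
  let F : ℝ → Sp n → ℝ := fun t x => Gp H (Real.cos t * ⟪(o : E (n + 1)), (x : E (n + 1))⟫ +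
    Real.sin t * ⟪(v : E (n + 1)), (x : E (n + 1))⟫)
  let F' : ℝ → Sp n → ℝ := fun t x =>
    -H (Real.cos t * ⟪(o : E (n + 1)), (x : E (n + 1))⟫ +
      Real.sin t * ⟪(v : E (n + 1)), (x : E (n + 1))⟫) *
      (-Real.sin t * ⟪(o : E (n + 1)), (x : E (n + 1))⟫ +
        Real.cos t * ⟪(v : E (n + 1)), (x : E (n + 1))⟫)
  have hFc : ∀ t, Continuous (F t) := fun t =>
    hG.comp ((continuous_const.mul hco).add (continuous_const.mul hcv))
  have hF'c : ∀ t, Continuous (F' t) := fun t =>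
    (hH.continuous.comp ((continuous_const.mul hco).add (continuous_const.mul hcv))).neg.mul
      ((continuous_const.mul hco).add (continuous_const.mul hcv))
  have hd : ∀ (x : Sp n) (t : ℝ), HasDerivAt (fun t => F t x) (F' t x) t := by
    intro x t
    have h1 : HasDerivAt (fun t : ℝ => Real.cos t * ⟪(o : E (n + 1)), (x : E (n + 1))⟫ +
        Real.sin t * ⟪(v : E (n + 1)), (x : E (n + 1))⟫)
        (-Real.sin t * ⟪(o : E (n + 1)), (x : E (n + 1))⟫ +
        Real.cos t * ⟪(v : E (n + 1)), (x : E (n + 1))⟫) t :=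
      ((Real.hasDerivAt_cos t).mul_const _).fun_add ((Real.hasDerivAt_sin t).mul_const _)
    exact (hasDerivAt_Gp hH _).comp t h1
  have hb : ∀ (x : Sp n) (t : ℝ), ‖F' t x‖ ≤ C * 2 := by
    intro x t
    have h1 := inner_mem_Icc o x
    have h2 := inner_mem_Icc v x
    have a1 : |Real.cos t * ⟪(o : E (n + 1)), (x : E (n + 1))⟫| ≤ 1 := by
      rw [abs_mul]
      exact mul_le_one₀ (Real.abs_cos_le_one t) (abs_nonneg _) (abs_le.2 ⟨h1.1, h1.2⟩)
    have a2 : |Real.sin t * ⟪(v : E (n + 1)), (x : E (n + 1))⟫| ≤ 1 := by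
      rw [abs_mul]
      exact mul_le_one₀ (Real.abs_sin_le_one t) (abs_nonneg _) (abs_le.2 ⟨h2.1, h2.2⟩)
    have a3 : |-Real.sin t * ⟪(o : E (n + 1)), (x : E (n + 1))⟫| ≤ 1 := by
      rw [abs_mul, abs_neg]
      exact mul_le_one₀ (Real.abs_sin_le_one t) (abs_nonneg _) (abs_le.2 ⟨h1.1, h1.2⟩)
    have a4 : |Real.cos t * ⟪(v : E (n + 1)), (x : E (n + 1))⟫| ≤ 1 := by
      rw [abs_mul]
      exact mul_le_one₀ (Real.abs_cos_le_one t) (abs_nonneg _) (abs_le.2 ⟨h2.1, h2.2⟩)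
    rw [abs_le] at a1 a2 a3 a4
    have h3 := hC (Real.cos t * ⟪(o : E (n + 1)), (x : E (n + 1))⟫ +
      Real.sin t * ⟪(v : E (n + 1)), (x : E (n + 1))⟫) ⟨by linarith, by linarith⟩
    simp only [F']
    rw [norm_mul, norm_neg]
    refine mul_le_mul h3 ?_ (norm_nonneg _) hC0
    rw [Real.norm_eq_abs, abs_le]
    constructor <;> linarith
  have hint : Integrable (F 0) ((bs n).restrict K) :=
    (hFc 0).integrable_of_hasCompactSupport (HasCompactSupport.of_compactSpace _)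
  have key := (hasDerivAt_integral_of_dominated_loc_of_deriv_le (μ := (bs n).restrict K)
    (F := F) (F' := F') (x₀ := 0) (s := univ) (bound := fun _ => C * 2) Filter.univ_mem
    (Filter.Eventually.of_forall fun t => (hFc t).aestronglyMeasurable) hint
    (hF'c 0).aestronglyMeasurable
    (Filter.Eventually.of_forall fun x t _ => hb x t) (integrable_const _)
    (Filter.Eventually.of_forall fun x t _ => hd x t)).2
  have hmin : IsLocalMin (fun t => ∫ x, F t x ∂((bs n).restrict K)) 0 := by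
    refine Filter.Eventually.of_forall fun t => ?_
    have h1 := ho ⟨Real.cos t • (o : E (n + 1)) + Real.sin t • (v : E (n + 1)), by
      rw [mem_sphere_zero_iff_norm]
      exact norm_rot hv t⟩
    have h2 : ∫ x, F 0 x ∂((bs n).restrict K) =
        ∫ x in K, Gp H ⟪(o : E (n + 1)), (x : E (n + 1))⟫ ∂bs n := by
      congr 1
      funext x
      simp only [F, Real.cos_zero, Real.sin_zero, one_mul, zero_mul, add_zero]
    have h3 : ∫ x, F t x ∂((bs n).restrict K) =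
        ∫ x in K, Gp H ⟪Real.cos t • (o : E (n + 1)) + Real.sin t • (v : E (n + 1)),
          (x : E (n + 1))⟫ ∂bs n := by
      congr 1
      funext x
      simp only [F, inner_add_left, real_inner_smul_left]
    simp only
    rw [h2, h3]
    exact h1
  have h0 := hmin.hasDerivAt_eq_zero key
  have h4 : ∫ x in K, H ⟪(o : E (n + 1)), (x : E (n + 1))⟫ *
      ⟪(v : E (n + 1)), (x : E (n + 1))⟫ ∂bs n = -∫ x, F' 0 x ∂((bs n).restrict K) := by
    rw [← integral_neg]
    congr 1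
    funext x
    simp only [F', Real.cos_zero, Real.sin_zero, one_mul, zero_mul, add_zero, neg_zero, zero_add]
    ring
  rw [h4, h0, neg_zero]

theorem center_stationary {H : ℝ → ℝ} (hH : ContDiff ℝ 1 H) {K : Set (Sp n)} (hK : bs n K < ∞)
    {o : Sp n} (ho : ∀ a : Sp n, ∫ x in K, Gp H ⟪(o : E (n + 1)), (x : E (n + 1))⟫ ∂bs n ≤
      ∫ x in K, Gp H ⟪(a : E (n + 1)), (x : E (n + 1))⟫ ∂bs n)
    {v : E (n + 1)} (hv : ⟪(o : E (n + 1)), v⟫ = 0) :
    ∫ x in K, H ⟪(o : E (n + 1)), (x : E (n + 1))⟫ * ⟪v, (x : E (n + 1))⟫ ∂bs n = 0 := by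
  by_cases h0 : v = 0
  · simp [h0]
  have hpos : 0 < ‖v‖ := norm_pos_iff.2 h0
  let w : Sp n := ⟨‖v‖⁻¹ • v, by
    rw [mem_sphere_zero_iff_norm, norm_smul, norm_inv, norm_norm, inv_mul_cancel₀ hpos.ne']⟩
  have hw : ⟪(o : E (n + 1)), (w : E (n + 1))⟫ = 0 := by
    have : (w : E (n + 1)) = ‖v‖⁻¹ • v := rfl
    rw [this, real_inner_smul_right, hv, mul_zero]
  have h1 := center_unit hH hK ho hw
  have h2 : ∫ x in K, H ⟪(o : E (n + 1)), (x : E (n + 1))⟫ * ⟪v, (x : E (n + 1))⟫ ∂bs n =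
      ‖v‖ * ∫ x in K, H ⟪(o : E (n + 1)), (x : E (n + 1))⟫ *
        ⟪(w : E (n + 1)), (x : E (n + 1))⟫ ∂bs n := by
    rw [← integral_const_mul]
    congr 1
    funext x
    have : (w : E (n + 1)) = ‖v‖⁻¹ • v := rfl
    rw [this, real_inner_smul_left]
    field_simp
  rw [h2, h1, mul_zero]

end Pool.Agent.H62.SS
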