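import Pool.Agent.H62.SS.Cut

set_option autoImplicit false

/-!
# [H62 SS COVER] Cutting a body down to a neighbourhood of a smaller one

The compact set `L \ {x | ∃ y ∈ K, dist x y < ε}` is covered by the open sets `{0 < ⟪u,·⟫}`, `u` with `⟪u,·⟫ ≤ 0` on `K` (`Body.sep`): finitely many `u`; cut `L` successively (induction on the finite set: `Body.cut`, `bs_frontier_cut_le`).
-/

namespace Pool.Agent.H62.SS

open scoped RealInnerProductSpace MeasureTheory ENNReal NNReal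
open MeasureTheory Set Metric
open Pool.Agent.H62.WS (E sg cst)

variable {n : ℕ}

theorem exists_cut_finset {K L : Set (Sp n)} (hL : Body L) (hKL : K ⊆ L) (t : Finset (Sp n))
    (ht : ∀ u ∈ t, ∀ y ∈ K, ⟪(u : E (n + 1)), (y : E (n + 1))⟫ ≤ 0) :
    ∃ L' : Set (Sp n), Body L' ∧ K ⊆ L' ∧ L' ⊆ L ∧
      (∀ u ∈ t, ∀ x ∈ L', ⟪(u : E (n + 1)), (x : E (n + 1))⟫ ≤ 0) ∧
      bs n (frontier L') ≤ bs n (frontier L) := by
  classical
  induction t using Finset.induction_on with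
  | empty => exact ⟨L, hL, hKL, Subset.rfl, by simp, le_rfl⟩
  | insert u t hu ih =>
    obtain ⟨L', h1, h2, h3, h4, h5⟩ := ih (fun v hv => ht v (Finset.mem_insert_of_mem hv))
    refine ⟨L' ∩ {x | ⟪(u : E (n + 1)), (x : E (n + 1))⟫ ≤ 0}, h1.cut u, ?_, ?_, ?_, ?_⟩
    · intro y hy
      exact ⟨h2 hy, ht u (Finset.mem_insert_self u t) y hy⟩
    · intro y hy
      exact h3 hy.1
    · intro v hv x hx
      rcases Finset.mem_insert.1 hv with rfl | hv
      · exact hx.2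
      · exact h4 v hv x hx.1
    · exact (bs_frontier_cut_le h1 u).trans h5

theorem exists_cut_body {K L : Set (Sp n)} (hK : Body K) (hL : Body L) (hKL : K ⊆ L) {ε : ℝ}
    (hε : 0 < ε) : ∃ L' : Set (Sp n), Body L' ∧ K ⊆ L' ∧ L' ⊆ L ∧
      (∀ x ∈ L', ∃ y ∈ K, dist x y ≤ ε) ∧ bs n (frontier L') ≤ bs n (frontier L) := by
  classical
  have hN : IsOpen (⋃ y ∈ K, ball y ε) := isOpen_biUnion fun y _ => isOpen_ball
  have hS : IsCompact (L \ ⋃ y ∈ K, ball y ε) := hL.isCompact.diff hN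
  let T := {u : Sp n // ∀ y ∈ K, ⟪(u : E (n + 1)), (y : E (n + 1))⟫ ≤ 0}
  have hcov : L \ (⋃ y ∈ K, ball y ε) ⊆
      ⋃ u : T, {x : Sp n | 0 < ⟪(u.1 : E (n + 1)), (x : E (n + 1))⟫} := by
    rintro x ⟨hx, hx2⟩
    have hxK : x ∉ K := fun h => hx2 (mem_biUnion h (mem_ball_self hε))
    obtain ⟨u, hu1, hu2⟩ := hK.sep hxK
    exact mem_iUnion.2 ⟨⟨u, hu1⟩, hu2⟩
  obtain ⟨t, ht⟩ := hS.elim_finite_subcover _
    (fun u : T => isOpen_lt continuous_const (continuous_const.inner continuous_subtype_val)) hcov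
  obtain ⟨L', h1, h2, h3, h4, h5⟩ := exists_cut_finset hL hKL (t.image Subtype.val) (by
    intro u hu
    obtain ⟨v, _, rfl⟩ := Finset.mem_image.1 hu
    exact v.2)
  refine ⟨L', h1, h2, h3, ?_, h5⟩
  intro x hx
  by_contra hcon
  push Not at hcon
  have hxS : x ∈ L \ ⋃ y ∈ K, ball y ε := by
    refine ⟨h3 hx, ?_⟩
    intro hx2
    obtain ⟨y, hy, hy2⟩ := mem_iUnion₂.1 hx2
    exact absurd (mem_ball.1 hy2) (not_lt.2 (hcon y hy).le)
  obtain ⟨u, hu, hu2⟩ := mem_iUnion₂.1 (ht hxS)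
  have h6 := h4 u.1 (Finset.mem_image_of_mem _ hu) x hx
  exact absurd hu2 (not_lt.2 h6)

end Pool.Agent.H62.SS
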