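import Pool.Agent.H62.SS.CutR
import Pool.Agent.H62.SS.SepS

set_option autoImplicit false

/-!
# [H62 SS CUT] Cutting a body by a half space does not increase the boundary measure

`w` the pole of `L`.  If `w = c u`: `c > 0`: `L ∩ H = ∅`; `c < 0`: `L ∩ H = L` (`H = {⟪u,·⟫ ≤ 0}`).  Otherwise `e` = the normalised `w - ⟪u,w⟫ u`, `w = ⟪u,w⟫ u + b e`, `b > 0`.
`frontier (L ∩ H) ⊆ (frontier L ∩ H) ∪ D`, `D = {y ∈ interior L | ⟪u,y⟫ = 0}`, and `D ⊆ r '' (frontier L ∩ {0 < ⟪u,·⟫})`, `r` = the map of the sphere induced by `ret e u` (`norm_ret`; `1`-Lipschitz by `norm_ret_sub_le`): for `y ∈ D` we have `⟪e,y⟫ > 0` (`0 < ⟪y,w⟫ = b ⟪e,y⟫`);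
the arc `y_φ` of `ret_rot`, `0 ≤ φ ≤ π`, starts in the interior of `L` and ends at a point with `⟪·,w⟫ = -b ⟪e,y⟫ < 0`, not in `L`; so it meets `frontier L` at some `0 < φ < π`, where `⟪u,y_φ⟫ = ⟪e,y⟫ sin φ > 0`.
The sets `frontier L ∩ H` and `frontier L ∩ {0 < ⟪u,·⟫}` are disjoint and measurable: add the measures (`euclideanHausdorffMeasure_image_le`, H62/WS/HLoc, `K = 1`).
-/

namespace Pool.Agent.H62.SS

open scoped RealInnerProductSpace MeasureTheory ENNReal NNReal
open MeasureTheory Set Metric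
open Pool.Agent.H62.WS (E sg cst)

variable {n : ℕ}

theorem Body.cut {L : Set (Sp n)} (hL : Body L) (u : Sp n) :
    Body (L ∩ {x | ⟪(u : E (n + 1)), (x : E (n + 1))⟫ ≤ 0}) where
  isCompact := by
    refine hL.isCompact.inter_right (isClosed_le ?_ continuous_const)
    exact continuous_const.inner continuous_subtype_val
  conv := by
    have key : ∀ z : E (n + 1), z ∈ cn (L ∩ {x | ⟪(u : E (n + 1)), (x : E (n + 1))⟫ ≤ 0}) ↔
        z ∈ cn L ∧ ⟪(u : E (n + 1)), z⟫ ≤ 0 := by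
      intro z
      constructor
      · rintro ⟨t, ht, x, hx, rfl⟩
        refine ⟨⟨t, ht, x, hx.1, rfl⟩, ?_⟩
        rw [real_inner_smul_right]
        exact mul_nonpos_of_nonneg_of_nonpos ht.le hx.2
      · rintro ⟨⟨t, ht, x, hx, rfl⟩, h⟩
        rw [real_inner_smul_right] at h
        exact ⟨t, ht, x, ⟨hx, nonpos_of_mul_nonpos_right h ht⟩, rfl⟩
    apply convex_cn_of_add
    intro x hx y hy
    rw [key] at hx hy ⊢
    refine ⟨add_mem_cn hL.conv hx.1 hy.1, ?_⟩
    rw [inner_add_right]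
    linarith [hx.2, hy.2]
  pole := by
    obtain ⟨w, hw⟩ := hL.pole
    exact ⟨w, fun x hx => hw x hx.1⟩

theorem cut_aux {L : Set (Sp n)} (hL : Body L) (u : Sp n) :
    (L ∩ {x | ⟪(u : E (n + 1)), (x : E (n + 1))⟫ ≤ 0} = ∅) ∨
    (L ∩ {x | ⟪(u : E (n + 1)), (x : E (n + 1))⟫ ≤ 0} = L) ∨
    ∃ e : Sp n, ⟪(e : E (n + 1)), (u : E (n + 1))⟫ = 0 ∧ ∀ y : Sp n,
      y ∈ L → ⟪(u : E (n + 1)), (y : E (n + 1))⟫ = 0 → 0 < ⟪(e : E (n + 1)), (y : E (n + 1))⟫ ∧
        ∀ z : Sp n, (z : E (n + 1)) = (y : E (n + 1)) -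
          (2 * ⟪(e : E (n + 1)), (y : E (n + 1))⟫) • (e : E (n + 1)) → z ∉ L := by
  obtain ⟨w, hw⟩ := hL.pole
  by_cases h0 : w - ⟪(u : E (n + 1)), w⟫ • (u : E (n + 1)) = 0
  · have hw2 : w = ⟪(u : E (n + 1)), w⟫ • (u : E (n + 1)) := sub_eq_zero.1 h0
    have h1 : ∀ x ∈ L, 0 < ⟪(u : E (n + 1)), w⟫ * ⟪(u : E (n + 1)), (x : E (n + 1))⟫ := by
      intro x hx
      have h2 := hw x hx
      rw [hw2, real_inner_smul_right, real_inner_comm (u : E (n + 1)) (x : E (n + 1))] at h2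
      exact h2
    rcases lt_or_ge 0 ⟪(u : E (n + 1)), w⟫ with h3 | h3
    · left
      rw [eq_empty_iff_forall_notMem]
      rintro x ⟨hx, hx2⟩
      have h4 := h1 x hx
      have h5 : ⟪(u : E (n + 1)), (x : E (n + 1))⟫ ≤ 0 := hx2
      nlinarith
    · right; left
      apply inter_eq_left.2
      intro x hx
      have h4 := h1 x hx
      change ⟪(u : E (n + 1)), (x : E (n + 1))⟫ ≤ 0
      by_contra h5
      push Not at h5
      nlinarith
  · right; right
    have hpos : 0 < ‖w - ⟪(u : E (n + 1)), w⟫ • (u : E (n + 1))‖ := norm_pos_iff.2 h0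
    refine ⟨nrm (w - ⟪(u : E (n + 1)), w⟫ • (u : E (n + 1))), ?_, ?_⟩
    · rw [coe_nrm h0, real_inner_smul_left, inner_sub_left, real_inner_smul_left,
        real_inner_self_eq_norm_sq, norm_coe, real_inner_comm]
      ring
    · have hkey : ∀ z : E (n + 1), ⟪(u : E (n + 1)), z⟫ = 0 → ⟪z, w⟫ =
          ‖w - ⟪(u : E (n + 1)), w⟫ • (u : E (n + 1))‖ *
            ⟪((nrm (w - ⟪(u : E (n + 1)), w⟫ • (u : E (n + 1))) : Sp n) : E (n + 1)), z⟫ := by
        intro z hz
        rw [coe_nrm h0, real_inner_smul_left, inner_sub_left, real_inner_smul_left, hz,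
          mul_inv_cancel_left₀ hpos.ne', mul_zero, sub_zero, real_inner_comm]
      intro y hy hy2
      have h1 := hw y hy
      rw [hkey _ hy2] at h1
      have h2 := pos_of_mul_pos_right h1 hpos.le
      refine ⟨(pos_iff_pos_of_mul_pos h1).1 hpos, ?_⟩
      intro z hz hzL
      have h3 := hw z hzL
      have he : ⟪(u : E (n + 1)),
          ((nrm (w - ⟪(u : E (n + 1)), w⟫ • (u : E (n + 1))) : Sp n) : E (n + 1))⟫ = 0 := by
        rw [coe_nrm h0, real_inner_smul_right, inner_sub_right, real_inner_smul_right,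
          real_inner_self_eq_norm_sq, norm_coe]
        ring
      rw [hkey, hz, inner_sub_right, real_inner_smul_right, real_inner_self_eq_norm_sq,
        norm_coe] at h3
      · have h4 := (pos_iff_pos_of_mul_pos h1).1 hpos
        nlinarith [mul_pos hpos h4]
      · rw [hz, inner_sub_right, real_inner_smul_right, he, hy2]
        ring

theorem bs_frontier_cut_le {L : Set (Sp n)} (hL : Body L) (u : Sp n) :
    bs n (frontier (L ∩ {x | ⟪(u : E (n + 1)), (x : E (n + 1))⟫ ≤ 0})) ≤ bs n (frontier L) := by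
  rcases cut_aux hL u with h | h | ⟨e, heu, h⟩
  · rw [h, frontier_empty, measure_empty]
    exact zero_le
  · rw [h]
  have hcu : Continuous (fun x : Sp n => ⟪(u : E (n + 1)), (x : E (n + 1))⟫) :=
    continuous_const.inner continuous_subtype_val
  set H : Set (Sp n) := {x | ⟪(u : E (n + 1)), (x : E (n + 1))⟫ ≤ 0} with hH
  have hHc : IsClosed H := isClosed_le hcu continuous_const
  let r : Sp n → Sp n := fun p => ⟨ret (e : E (n + 1)) (u : E (n + 1)) (p : E (n + 1)), by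
    rw [mem_sphere_zero_iff_norm, norm_ret (norm_coe e) (norm_coe u) heu, norm_coe]⟩
  have hr : LipschitzOnWith 1 r (frontier L ∩ Hᶜ) := by
    refine LipschitzOnWith.of_dist_le_mul ?_
    intro x _ y _
    rw [NNReal.coe_one, one_mul, Subtype.dist_eq, Subtype.dist_eq, dist_eq_norm, dist_eq_norm]
    exact norm_ret_sub_le (norm_coe e) (norm_coe u) heu _ _
  have hLc := hL.isCompact.isClosed
  have hsub : frontier (L ∩ H) ⊆ (frontier L ∩ H) ∪ r '' (frontier L ∩ Hᶜ) := by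
    intro y hy
    have hy1 : y ∈ L ∩ H := (hLc.inter hHc).frontier_subset hy
    by_cases hyf : y ∈ frontier L
    · exact Or.inl ⟨hyf, hy1.2⟩
    right
    have hyi : y ∈ interior L := by
      by_contra hcon
      exact hyf ⟨subset_closure hy1.1, hcon⟩
    have hy0 : ⟪(u : E (n + 1)), (y : E (n + 1))⟫ = 0 := by
      rcases (show ⟪(u : E (n + 1)), (y : E (n + 1))⟫ ≤ 0 from hy1.2).lt_or_eq with h2 | h2
      · exfalso
        have h3 : IsOpen (interior L ∩ {x : Sp n | ⟪(u : E (n + 1)), (x : E (n + 1))⟫ < 0}) :=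
          isOpen_interior.inter (isOpen_lt hcu continuous_const)
        have h4 : interior L ∩ {x : Sp n | ⟪(u : E (n + 1)), (x : E (n + 1))⟫ < 0} ⊆
            interior (L ∩ H) := by
          refine interior_maximal ?_ h3
          rintro x ⟨hx1, hx2⟩
          have hx3 : ⟪(u : E (n + 1)), (x : E (n + 1))⟫ < 0 := hx2
          exact ⟨interior_subset hx1, hx3.le⟩
        exact hy.2 (h4 ⟨hyi, h2⟩)
      · exact h2
    obtain ⟨hpos, hfar⟩ := h y hy1.1 hy0
    have hnorm : ∀ φ : ℝ, ‖(y : E (n + 1)) - ⟪(e : E (n + 1)), (y : E (n + 1))⟫ • (e : E (n + 1)) +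
        (⟪(e : E (n + 1)), (y : E (n + 1))⟫ * Real.cos φ) • (e : E (n + 1)) +
        (⟪(e : E (n + 1)), (y : E (n + 1))⟫ * Real.sin φ) • (u : E (n + 1))‖ = 1 := by
      intro φ
      rw [← norm_ret (norm_coe e) (norm_coe u) heu, ret_rot (norm_coe e) (norm_coe u) heu hy0
        hpos.le, norm_coe]
    let γ : ℝ → Sp n := fun φ => ⟨(y : E (n + 1)) -
        ⟪(e : E (n + 1)), (y : E (n + 1))⟫ • (e : E (n + 1)) +
        (⟪(e : E (n + 1)), (y : E (n + 1))⟫ * Real.cos φ) • (e : E (n + 1)) +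
        (⟪(e : E (n + 1)), (y : E (n + 1))⟫ * Real.sin φ) • (u : E (n + 1)), by
          rw [mem_sphere_zero_iff_norm]
          exact hnorm φ⟩
    have hγ : Continuous γ := by
      refine Continuous.subtype_mk ?_ _
      fun_prop
    have hγ0 : γ 0 = y := by
      ext1
      simp only [γ, Real.cos_zero, Real.sin_zero, mul_one, mul_zero, zero_smul, add_zero]
      abel
    have hγπ : γ Real.pi ∉ L := by
      apply hfar
      simp only [γ, Real.cos_pi, Real.sin_pi, mul_zero, zero_smul, add_zero, mul_neg, mul_one,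
        neg_smul, two_mul, add_smul]
      abel
    obtain ⟨φ, hφ, hφ2⟩ := exists_path_frontier hγ Real.pi_pos.le (L := L)
      (by rw [hγ0]; exact hy1.1) hγπ
    have hφ0 : φ ≠ 0 := by
      rintro rfl
      rw [hγ0] at hφ2
      exact hφ2.2 hyi
    have hφπ : φ ≠ Real.pi := by
      rintro rfl
      exact hγπ (hLc.frontier_subset hφ2)
    have hsin : 0 < Real.sin φ := Real.sin_pos_of_pos_of_lt_pi
      (lt_of_le_of_ne hφ.1 (Ne.symm hφ0)) (lt_of_le_of_ne hφ.2 hφπ)
    refine ⟨γ φ, ⟨hφ2, ?_⟩, ?_⟩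
    · intro hcon
      have h5 : ⟪(u : E (n + 1)), ((γ φ : Sp n) : E (n + 1))⟫ ≤ 0 := hcon
      have h6 : ⟪(u : E (n + 1)), (e : E (n + 1))⟫ = 0 := by rw [real_inner_comm, heu]
      have h7 : ⟪(u : E (n + 1)), (u : E (n + 1))⟫ = 1 := by
        rw [real_inner_self_eq_norm_sq, norm_coe, one_pow]
      simp only [γ, inner_sub_right, inner_add_right, real_inner_smul_right, h6, h7, hy0] at h5
      nlinarith [mul_pos hpos hsin]
    · ext1
      exact ret_rot (norm_coe e) (norm_coe u) heu hy0 hpos.le φ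
  have h1 := Pool.Agent.H62.WS.euclideanHausdorffMeasure_image_le (n - 1) hr
  rw [ENNReal.coe_one, one_pow, one_mul] at h1
  calc bs n (frontier (L ∩ H)) ≤ bs n ((frontier L ∩ H) ∪ r '' (frontier L ∩ Hᶜ)) :=
        measure_mono hsub
    _ ≤ bs n (frontier L ∩ H) + bs n (r '' (frontier L ∩ Hᶜ)) := measure_union_le _ _
    _ ≤ bs n (frontier L ∩ H) + bs n (frontier L ∩ Hᶜ) := add_le_add_right h1 _
    _ = bs n (frontier L) := measure_inter_add_sdiff _ hHc.measurableSet

end Pool.Agent.H62.SS
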