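import Pool.Agent.H62.SS.Sph

set_option autoImplicit false

/-!
# [H62 SS CUTR] A retraction on a half space

For orthonormal vectors `e, u`: `ret e u z = z - ⟪e,z⟫ e - ⟪u,z⟫ u + √(⟪e,z⟫² + ⟪u,z⟫²) e`.  With `z' = z - ⟪e,z⟫ e - ⟪u,z⟫ u`: `‖ret x - ret y‖² = ‖x' - y'‖² + (|a| - |b|)² ≤ ‖x - y‖²`, `a = (⟪e,x⟫,⟪u,x⟫)`, `b = (⟪e,y⟫,⟪u,y⟫)` in the plane.
-/

namespace Pool.Agent.H62.SS

open scoped RealInnerProductSpace MeasureTheory ENNReal NNReal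
open MeasureTheory Set Metric
open Pool.Agent.H62.WS (E sg cst)

variable {n : ℕ}

/-- the retraction `(x_e, x_u, x') ↦ (√(x_e² + x_u²), 0, x')` -/
noncomputable def ret (e u : E (n + 1)) (z : E (n + 1)) : E (n + 1) :=
  z - ⟪e, z⟫ • e - ⟪u, z⟫ • u + √(⟪e, z⟫ ^ 2 + ⟪u, z⟫ ^ 2) • e

theorem inner_ret {e u : E (n + 1)} (he : ‖e‖ = 1) (hu : ‖u‖ = 1) (heu : ⟪e, u⟫ = 0)
    (x y : E (n + 1)) : ⟪ret e u x, ret e u y⟫ = ⟪x, y⟫ - ⟪e, x⟫ * ⟪e, y⟫ - ⟪u, x⟫ * ⟪u, y⟫ +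
      √(⟪e, x⟫ ^ 2 + ⟪u, x⟫ ^ 2) * √(⟪e, y⟫ ^ 2 + ⟪u, y⟫ ^ 2) := by
  have h1 : ⟪e, e⟫ = 1 := by rw [real_inner_self_eq_norm_sq, he, one_pow]
  have h2 : ⟪u, u⟫ = 1 := by rw [real_inner_self_eq_norm_sq, hu, one_pow]
  have h3 : ⟪u, e⟫ = 0 := by rw [real_inner_comm, heu]
  have h4 : ⟪x, e⟫ = ⟪e, x⟫ := real_inner_comm _ _
  have h5 : ⟪x, u⟫ = ⟪u, x⟫ := real_inner_comm _ _
  simp only [ret, inner_sub_left, inner_sub_right, inner_add_left, inner_add_right,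
    real_inner_smul_left, real_inner_smul_right, h1, h2, h3, heu, h4, h5]
  ring

theorem norm_ret {e u : E (n + 1)} (he : ‖e‖ = 1) (hu : ‖u‖ = 1) (heu : ⟪e, u⟫ = 0)
    (z : E (n + 1)) : ‖ret e u z‖ = ‖z‖ := by
  have h := inner_ret he hu heu z z
  rw [real_inner_self_eq_norm_sq, real_inner_self_eq_norm_sq,
    Real.mul_self_sqrt (by positivity)] at h
  have h2 : ‖ret e u z‖ ^ 2 = ‖z‖ ^ 2 := by rw [h]; ring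
  exact (pow_left_inj₀ (norm_nonneg _) (norm_nonneg _) two_ne_zero).1 h2

theorem norm_ret_sub_le {e u : E (n + 1)} (he : ‖e‖ = 1) (hu : ‖u‖ = 1) (heu : ⟪e, u⟫ = 0)
    (x y : E (n + 1)) : ‖ret e u x - ret e u y‖ ≤ ‖x - y‖ := by
  have h := inner_ret he hu heu x y
  have h2 : ⟪e, x⟫ * ⟪e, y⟫ + ⟪u, x⟫ * ⟪u, y⟫ ≤
      √(⟪e, x⟫ ^ 2 + ⟪u, x⟫ ^ 2) * √(⟪e, y⟫ ^ 2 + ⟪u, y⟫ ^ 2) := by
    rw [← Real.sqrt_mul (by positivity)]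
    apply Real.le_sqrt_of_sq_le
    nlinarith [sq_nonneg (⟪e, x⟫ * ⟪u, y⟫ - ⟪u, x⟫ * ⟪e, y⟫)]
  have h3 : ‖ret e u x - ret e u y‖ ^ 2 ≤ ‖x - y‖ ^ 2 := by
    rw [@norm_sub_sq_real, @norm_sub_sq_real, norm_ret he hu heu, norm_ret he hu heu]
    linarith
  exact (pow_le_pow_iff_left₀ (norm_nonneg _) (norm_nonneg _) two_ne_zero).1 h3

/-- the rotated point is mapped to the original one -/
theorem ret_rot {e u : E (n + 1)} (he : ‖e‖ = 1) (hu : ‖u‖ = 1) (heu : ⟪e, u⟫ = 0)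
    {y : E (n + 1)} (hyu : ⟪u, y⟫ = 0) (hye : 0 ≤ ⟪e, y⟫) (φ : ℝ) :
    ret e u (y - ⟪e, y⟫ • e + (⟪e, y⟫ * Real.cos φ) • e + (⟪e, y⟫ * Real.sin φ) • u) = y := by
  have h1 : ⟪e, e⟫ = 1 := by rw [real_inner_self_eq_norm_sq, he, one_pow]
  have h2 : ⟪u, u⟫ = 1 := by rw [real_inner_self_eq_norm_sq, hu, one_pow]
  have h3 : ⟪u, e⟫ = 0 := by rw [real_inner_comm, heu]
  have ha : ⟪e, y - ⟪e, y⟫ • e + (⟪e, y⟫ * Real.cos φ) • e + (⟪e, y⟫ * Real.sin φ) • u⟫ =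
      ⟪e, y⟫ * Real.cos φ := by
    simp only [inner_sub_right, inner_add_right, real_inner_smul_right, h1, heu]
    ring
  have hb : ⟪u, y - ⟪e, y⟫ • e + (⟪e, y⟫ * Real.cos φ) • e + (⟪e, y⟫ * Real.sin φ) • u⟫ =
      ⟪e, y⟫ * Real.sin φ := by
    simp only [inner_sub_right, inner_add_right, real_inner_smul_right, h2, h3, hyu]
    ring
  have hc : √((⟪e, y⟫ * Real.cos φ) ^ 2 + (⟪e, y⟫ * Real.sin φ) ^ 2) = ⟪e, y⟫ := by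
    have : (⟪e, y⟫ * Real.cos φ) ^ 2 + (⟪e, y⟫ * Real.sin φ) ^ 2 = ⟪e, y⟫ ^ 2 := by
      rw [mul_pow, mul_pow, ← mul_add, Real.cos_sq_add_sin_sq, mul_one]
    rw [this, Real.sqrt_sq hye]
  unfold ret
  rw [ha, hb, hc]
  abel

end Pool.Agent.H62.SS
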