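import Pool.Agent.H62.SS.BsPol
import Pool.Agent.H62.SS.Act

set_option autoImplicit false

/-!
# [H62 SS EDGE] The boundary measure of an edge is zero

`u = nor n` by `exists_act` (`act_gsph`, `bs_act_image`); `gsph (nor n) (π/2) ∩ gsph v (π/2) = pol (π/2) '' {θ | ⟪dn v, θ⟫ = 0}`, `dn v ≠ 0`; `bs_pol_image` and `sg n {θ | ⟪dn v,θ⟫ = 0} = 0` (the cone over it is in a hyperplane of `E n`: `Measure.toSphere_apply'`, `Measure.addHaar_submodule`).
-/

namespace Pool.Agent.H62.SS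

open scoped RealInnerProductSpace MeasureTheory ENNReal NNReal
open MeasureTheory Set Metric
open Pool.Agent.H62.WS (E sg cst)

variable {n : ℕ}

open scoped Pointwise in
/-- a great subsphere is a null set -/
private theorem sg_perp (hn : 1 ≤ n) {a : E n} (ha : a ≠ 0) :
    sg n {θ : sphere (0 : E n) 1 | ⟪a, (θ : E n)⟫ = 0} = 0 := by
  have hm : MeasurableSet {θ : sphere (0 : E n) 1 | ⟪a, (θ : E n)⟫ = 0} :=
    (isClosed_eq (by fun_prop) continuous_const).measurableSet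
  unfold sg
  rw [Measure.toSphere_apply' _ hm]
  have h1 : Ioo (0 : ℝ) 1 • (Subtype.val '' {θ : sphere (0 : E n) 1 | ⟪a, (θ : E n)⟫ = 0} :
      Set (E n)) ⊆ ((ℝ ∙ a)ᗮ : Submodule ℝ (E n)) := by
    rintro _ ⟨t, _, _, ⟨θ, hθ, rfl⟩, rfl⟩
    have hθ' : ⟪a, (θ : E n)⟫ = 0 := hθ
    rw [SetLike.mem_coe, Submodule.mem_orthogonal_singleton_iff_inner_right]
    simp only [real_inner_smul_right]
    rw [hθ', mul_zero]
  have h2 : ((ℝ ∙ a)ᗮ : Submodule ℝ (E n)) ≠ ⊤ := by
    intro h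
    rw [Submodule.orthogonal_eq_top_iff, Submodule.span_singleton_eq_bot] at h
    exact ha h
  have h3 : (volume : Measure (E n)) ((ℝ ∙ a)ᗮ : Submodule ℝ (E n)) = 0 :=
    Measure.addHaar_submodule _ _ h2
  rw [measure_mono_null h1 h3, mul_zero]

theorem bs_edge (hn : 2 ≤ n) {u v : Sp n} (h1 : u ≠ v) (h2 : (u : E (n + 1)) ≠ -(v : E (n + 1))) :
    bs n (gsph u (Real.pi / 2) ∩ gsph v (Real.pi / 2)) = 0 := by
  obtain ⟨Φ, hΦ⟩ := exists_act (nor n) u
  obtain ⟨w, hw⟩ : ∃ w, w = act Φ.symm v := ⟨_, rfl⟩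
  have hv : act Φ w = v := by
    rw [hw]
    exact act_act_symm Φ v
  have hset : gsph u (Real.pi / 2) ∩ gsph v (Real.pi / 2) =
      act Φ '' (gsph (nor n) (Real.pi / 2) ∩ gsph w (Real.pi / 2)) := by
    rw [image_inter (act Φ).injective, act_gsph, act_gsph, hΦ, hv]
  rw [hset, bs_act_image]
  have hpi := Real.pi_pos
  have hD : gsph (nor n) (Real.pi / 2) ∩ gsph w (Real.pi / 2) =
      pol (Real.pi / 2) '' {θ : sphere (0 : E n) 1 | ⟪dn n (w : E (n + 1)), (θ : E n)⟫ = 0} := by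
    have h3 : ∀ θ : sphere (0 : E n) 1, pol (Real.pi / 2) θ ∈ gsph w (Real.pi / 2) ↔
        ⟪dn n (w : E (n + 1)), (θ : E n)⟫ = 0 := by
      intro θ
      unfold gsph
      rw [mem_setOf_eq, pol_coe, Real.cos_pi_div_two, Real.sin_pi_div_two, zero_smul, zero_add,
        one_smul, inner_eq, inc_zero_apply, mul_zero, zero_add]
      rfl
    rw [gsph_nor_eq (by omega) (by linarith) (by linarith)]
    ext x
    constructor
    · rintro ⟨⟨θ, rfl⟩, hx⟩
      exact ⟨θ, (h3 θ).1 hx, rfl⟩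
    · rintro ⟨θ, hθ, rfl⟩
      exact ⟨⟨θ, rfl⟩, (h3 θ).2 hθ⟩
  have hm : MeasurableSet {θ : sphere (0 : E n) 1 | ⟪dn n (w : E (n + 1)), (θ : E n)⟫ = 0} :=
    (isClosed_eq (by fun_prop) continuous_const).measurableSet
  have ha : dn n (w : E (n + 1)) ≠ 0 := by
    intro h
    have h3 := norm_sq_eq (w : E (n + 1))
    rw [norm_coe, h, norm_zero] at h3
    have h4 : (w : E (n + 1)) 0 = 1 ∨ (w : E (n + 1)) 0 = -1 := by
      have : ((w : E (n + 1)) 0 - 1) * ((w : E (n + 1)) 0 + 1) = 0 := by nlinarith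
      rcases mul_eq_zero.1 this with h5 | h5
      · left
        linarith
      · right
        linarith
    have h5 := decomp (w : E (n + 1))
    rw [h, map_zero, add_zero] at h5
    rcases h4 with h4 | h4
    · rw [h4, one_smul] at h5
      apply h1
      rw [← hΦ, ← hv]
      congr 1
      ext1
      exact h5.symm
    · rw [h4, neg_smul, one_smul] at h5
      apply h2
      rw [← hΦ, ← hv, act_coe, act_coe, h5, map_neg, neg_neg]
      rfl
  rw [hD, bs_pol_image hn (by linarith) (by linarith) hm, sg_perp (by omega) ha, mul_zero,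
    mul_zero]

end Pool.Agent.H62.SS
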