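import Pool.Agent.H62.SS.PolyS
import Pool.Agent.H62.SS.Edge
import Pool.Agent.H62.SS.VolBall

set_option autoImplicit false

/-!
# [H62 SS FACETS] The facets of a polytope

`pt U ∩ gsph u (π/2) ⊆ frontier (pt U)` for `u ∈ U` (`⟪u,x⟫ = 0`; near `x` there are points with `⟪u,·⟫ > 0`).  Different `u, v ∈ U` are not antipodal: otherwise `pt U ⊆ gsph u (π/2)`, a null set (`sg_gsph`).  So the facets are pairwise almost disjoint (`bs_edge`): `measure_biUnion_finset₀`.
-/

namespace Pool.Agent.H62.SS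

open scoped RealInnerProductSpace MeasureTheory ENNReal NNReal
open MeasureTheory Set Metric
open Pool.Agent.H62.WS (E sg cst)

variable {n : ℕ}

theorem pt_not_antipodal (hn : 2 ≤ n) {U : Finset (Sp n)} (hpos : 0 < sg (n + 1) (pt U))
    {u v : Sp n} (hu : u ∈ U) (hv : v ∈ U) : (u : E (n + 1)) ≠ -(v : E (n + 1)) := by
  intro huv
  have h1 : pt U ⊆ gsph u (Real.pi / 2) := by
    intro x hx
    have h2 := hx u hu
    have h3 := hx v hv
    have h4 : ⟪(u : E (n + 1)), (x : E (n + 1))⟫ = -⟪(v : E (n + 1)), (x : E (n + 1))⟫ := by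
      rw [huv, inner_neg_left]
    simp only [gsph, mem_setOf_eq]
    rw [Real.cos_pi_div_two]
    linarith
  have h5 := measure_mono (μ := sg (n + 1)) h1
  rw [sg_gsph hn] at h5
  exact absurd hpos (not_lt.2 h5)

theorem norm_cos_add_sin {u x : E (n + 1)} (hu : ‖u‖ = 1) (hx : ‖x‖ = 1) (hux : ⟪u, x⟫ = 0)
    (t : ℝ) : ‖Real.cos t • x + Real.sin t • u‖ = 1 := by
  have h2 : ‖Real.cos t • x + Real.sin t • u‖ ^ 2 = 1 := by
    rw [@norm_add_sq_real, norm_smul, norm_smul, hu, hx, inner_smul_left, inner_smul_right,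
      real_inner_comm, hux]
    simp
  have h3 := norm_nonneg (Real.cos t • x + Real.sin t • u)
  nlinarith

theorem facet_subset_frontier {U : Finset (Sp n)} {u : Sp n} (hu : u ∈ U) :
    pt U ∩ gsph u (Real.pi / 2) ⊆ frontier (pt U) := by
  rintro x ⟨hx, hxu⟩
  simp only [gsph, mem_setOf_eq] at hxu
  rw [Real.cos_pi_div_two] at hxu
  rw [(isClosed_pt U).frontier_eq]
  refine ⟨hx, fun hint => ?_⟩
  have hn1 := norm_cos_add_sin (norm_coe u) (norm_coe x) hxu
  let γ : ℝ → Sp n := fun t =>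
    ⟨Real.cos t • (x : E (n + 1)) + Real.sin t • (u : E (n + 1)), by simpa using hn1 t⟩
  have hγ : Continuous γ := by
    refine Continuous.subtype_mk ?_ _
    exact (Real.continuous_cos.smul continuous_const).add (Real.continuous_sin.smul continuous_const)
  have hγ0 : γ 0 = x := by
    ext1
    simp [γ]
  have h1 : ∀ᶠ t in nhds (0 : ℝ), γ t ∈ pt U := by
    have h2 : pt U ∈ nhds (γ 0) := by
      rw [hγ0]
      exact mem_interior_iff_mem_nhds.1 hint
    exact hγ.continuousAt.eventually_mem h2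
  obtain ⟨δ, hδ, h3⟩ := Metric.eventually_nhds_iff.1 h1
  have hpi := Real.pi_pos
  obtain ⟨t, ht0, ht1, ht2⟩ : ∃ t : ℝ, 0 < t ∧ t < δ ∧ t < Real.pi :=
    ⟨min (δ / 2) (Real.pi / 2), by positivity, (min_le_left _ _).trans_lt (by linarith),
      (min_le_right _ _).trans_lt (by linarith)⟩
  have h4 := h3 (y := t) (by rw [Real.dist_eq, sub_zero, abs_of_pos ht0]; exact ht1) u hu
  have h5 : ⟪(u : E (n + 1)), (γ t : E (n + 1))⟫ = Real.sin t := by
    show ⟪(u : E (n + 1)), Real.cos t • (x : E (n + 1)) + Real.sin t • (u : E (n + 1))⟫ = Real.sin t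
    rw [inner_add_right, real_inner_smul_right, real_inner_smul_right, hxu,
      real_inner_self_eq_norm_sq, norm_coe]
    ring
  rw [h5] at h4
  linarith [Real.sin_pos_of_pos_of_lt_pi ht0 ht2]

theorem sum_facets_le (hn : 2 ≤ n) {U : Finset (Sp n)} (hpos : 0 < sg (n + 1) (pt U)) :
    ∑ u ∈ U, bs n (pt U ∩ gsph u (Real.pi / 2)) ≤ bs n (frontier (pt U)) := by
  rw [← measure_biUnion_finset₀]
  · exact measure_mono (iUnion₂_subset fun u hu => facet_subset_frontier hu)
  · intro u hu v hv huv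
    have h1 := bs_edge hn huv (pt_not_antipodal hn hpos hu hv)
    refine measure_mono_null ?_ h1
    rintro x ⟨⟨-, h2⟩, -, h3⟩
    exact ⟨h2, h3⟩
  · intro u _
    exact ((isClosed_pt U).inter (isClosed_gsph u _)).measurableSet.nullMeasurableSet

end Pool.Agent.H62.SS
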