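import Pool.Agent.H62.SS.CaseB
import Pool.Agent.H62.SS.BallSigS
import Pool.Agent.H62.SS.GConv

set_option autoImplicit false

/-!
# [H62 SS FINAL] The Weinstock inequality for convex domains of the sphere of diameter at most `π/2`

`Dom Ω` by `convex_cn_of_gconvex`.  `R` from `exists_radius`; `case_small`, `case_large`, `le_sigma1_ball` (other centres: `exists_act`, `act_gball`, `sigma1_act`).  If `Ω = gball q S`: replace `S` by `arccos (cos S) ∈ [0,π]` (the same set), `S > 0` (nonempty), `S ≤ π/4` (`ball_diam`), `bs (frontier Ω) = bs (gsph q S)` (`frontier_gball`), so `S = R`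
(`bs_gsph_strictMono`) and `sigma1 Ω = sigma1 (gball p R)`.
-/

namespace Pool.Agent.H62.SS

open scoped RealInnerProductSpace MeasureTheory ENNReal NNReal
open MeasureTheory Set Metric
open Pool.Agent.H62.WS (E sg cst)

variable {n : ℕ}

theorem sigma1_gball (p q : Sp n) (R : ℝ) : sigma1 (gball p R) = sigma1 (gball q R) := by
  obtain ⟨Φ, hΦ⟩ := exists_act p q
  rw [← sigma1_act Φ (gball p R), act_gball, hΦ]

theorem rayleigh_gball (p q : Sp n) (R : ℝ) : rayleigh (gball p R) = rayleigh (gball q R) := by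
  obtain ⟨Φ, hΦ⟩ := exists_act p q
  rw [← rayleigh_act Φ (gball p R), act_gball, hΦ]

theorem gball_arccos (p : Sp n) (S : ℝ) :
    gball p S = gball p (Real.arccos (Real.cos S)) := by
  unfold gball
  rw [Real.cos_arccos (Real.neg_one_le_cos S) (Real.cos_le_one S)]

theorem gball_zero (p : Sp n) : gball p 0 = ∅ := by
  ext x
  simp only [gball, mem_setOf_eq, Real.cos_zero, mem_empty_iff_false, iff_false, not_lt]
  have h := real_inner_le_norm (p : E (n + 1)) (x : E (n + 1))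
  rwa [norm_coe, norm_coe, mul_one] at h

theorem radius_unique (hn : 2 ≤ n) {R S : ℝ} (hR : R ∈ Ioo 0 (Real.pi / 2))
    (hS : S ∈ Ioo 0 (Real.pi / 2)) {p q : Sp n} (h : bs n (gsph p R) = bs n (gsph q S)) :
    S = R := by
  rcases lt_trichotomy S R with h1 | h1 | h1
  · exact absurd (bs_gsph_strictMono hn q p hS.1 h1 hR.2.le) (by rw [h]; exact lt_irrefl _)
  · exact h1
  · exact absurd (bs_gsph_strictMono hn p q hR.1 h1 hS.2.le) (by rw [h]; exact lt_irrefl _)

theorem weinstock_sphere (hn : 3 ≤ n) {Ω : Set (Sp n)} (hΩ : IsOpen Ω) (hne : Ω.Nonempty)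
    (hc : GConvex Ω)
    (hd : ∀ p ∈ Ω, ∀ q ∈ Ω, 0 ≤ ⟪(p : E (n + 1)), (q : E (n + 1))⟫) :
    0 < bs n (frontier Ω) ∧ bs n (frontier Ω) < ∞ ∧
    (∀ p : Sp n, bs n (frontier Ω) < bs n (frontier (gball p (Real.pi / 2)))) ∧
    (rayleigh Ω).Nonempty ∧
    ∃ R : ℝ, R ∈ Ioo 0 (Real.pi / 2) ∧
      (∀ p : Sp n, bs n (frontier (gball p R)) = bs n (frontier Ω)) ∧
      (∀ (p : Sp n) (S : ℝ), S ∈ Ioo 0 (Real.pi / 2) →
        bs n (frontier (gball p S)) = bs n (frontier Ω) → S = R) ∧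
      (∀ p : Sp n, (rayleigh (gball p R)).Nonempty ∧ 0 < sigma1 (gball p R)) ∧
      (∀ p : Sp n, sigma1 Ω ≤ sigma1 (gball p R)) ∧
      ∀ p : Sp n, (sigma1 Ω = sigma1 (gball p R) ↔ ∃ (q : Sp n) (S : ℝ), Ω = gball q S) := by
  have hn2 : 2 ≤ n := by omega
  have hn1 : 1 ≤ n := by omega
  have hN : 2 ≤ n - 1 := by omega
  have hpi := Real.pi_pos
  have h : Dom Ω := ⟨hΩ, hne, convex_cn_of_gconvex hc hd, hd⟩
  have hpos := bs_frontier_pos hn2 h
  have hfin := bs_frontier_lt_top hn2 h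
  obtain ⟨R, hR0, hR1, hR⟩ := exists_radius hn2 h
  have hRf : ∀ p : Sp n, bs n (frontier (gball p R)) = bs n (frontier Ω) := fun p => by
    rw [frontier_gball hn1 p hR0 (by linarith), hR p]
  have hcst := cst_toReal_pos hn2
  have hball : ∀ p : Sp n, gS (n - 1) R / (cst n).toReal ≤ sigma1 (gball p R) := fun p => by
    rw [sigma1_gball p (nor n) R]
    exact le_sigma1_ball hn2 hR0 hR1
  have hle : sigma1 Ω ≤ gS (n - 1) R / (cst n).toReal ∧
      (gS (n - 1) R / (cst n).toReal ≤ sigma1 Ω → ∃ q, Ω = gball q R) := by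
    rcases le_or_gt R (Real.pi / 4) with h4 | h4
    · exact case_small hn h hR0 h4 (hR (nor n)).symm
    · have h5 := case_large hn h h4 hR1 (hR (nor n)).symm
      exact ⟨h5.le, fun h6 => absurd h6 (not_le.2 h5)⟩
  refine ⟨hpos, hfin, fun p => ?_, rayleigh_nonempty hn2 hpos hfin, R, ⟨hR0, hR1⟩, hRf,
    fun p S hS hSe => ?_, fun p => ⟨?_, ?_⟩, fun p => hle.1.trans (hball p), fun p => ⟨?_, ?_⟩⟩
  · rw [frontier_gball hn1 p (by linarith) (by linarith), ← hR (nor n)]
    exact bs_gsph_strictMono hn2 (nor n) p hR0 hR1 le_rfl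
  · refine radius_unique hn2 ⟨hR0, hR1⟩ hS (p := p) (q := p) ?_
    rw [hR p, ← hSe, frontier_gball hn1 p hS.1 (by linarith [hS.2])]
  · rw [rayleigh_gball p (nor n) R]
    exact rayleigh_ball_nonempty hn2 hR0 hR1
  · exact (div_pos (gS_pos hN hR0 hR1) hcst).trans_le (hball p)
  · intro he
    obtain ⟨q, hq⟩ := hle.2 (he ▸ hball p)
    exact ⟨q, R, hq⟩
  · rintro ⟨q, S, hS⟩
    rw [gball_arccos] at hS
    set T := Real.arccos (Real.cos S) with hT
    have hT0 : 0 ≤ T := Real.arccos_nonneg _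
    have hT1 : T ≤ Real.pi := Real.arccos_le_pi _
    have hTpos : 0 < T := by
      rcases hT0.eq_or_lt with h5 | h5
      · rw [← h5, gball_zero] at hS
        rw [hS] at hne
        exact absurd hne not_nonempty_empty
      · exact h5
    have hT4 : T ≤ Real.pi / 4 := by
      refine ball_diam hn1 q hT0 hT1 ?_
      rw [← hS]
      exact hd
    have hTR : T = R := by
      refine radius_unique hn2 ⟨hR0, hR1⟩ ⟨hTpos, by linarith⟩ (p := q) (q := q) ?_
      rw [hR q, hS, frontier_gball hn1 q hTpos (by linarith)]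
    rw [hS, hTR]
    exact sigma1_gball q p R

end Pool.Agent.H62.SS
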