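import Mathlib

set_option autoImplicit false

/-!
# [H62 SS GLUE] Glueing three functions of class `C^1`
-/

namespace Pool.Agent.H62.SS

open Set Filter Topology

theorem hd_two {k p q : ℝ → ℝ} {d x u v : ℝ} (hu : u < x) (hv : x < v) (hp : HasDerivAt p d x)
    (hq : HasDerivAt q d x) (kp : ∀ y ∈ Ioc u x, k y = p y) (kq : ∀ y ∈ Ico x v, k y = q y) :
    HasDerivAt k d x := by
  have h1 : HasDerivWithinAt k d (Iic x) x := by
    refine (hp.hasDerivWithinAt (s := Iic x)).congr_of_eventuallyEq ?_ (kp x ⟨hu, le_rfl⟩)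
    have : Ioc u x ∈ 𝓝[≤] x := Ioc_mem_nhdsLE hu
    filter_upwards [this] with y hy using kp y hy
  have h2 : HasDerivWithinAt k d (Ici x) x := by
    refine (hq.hasDerivWithinAt (s := Ici x)).congr_of_eventuallyEq ?_ (kq x ⟨le_rfl, hv⟩)
    have : Ico x v ∈ 𝓝[≥] x := Ico_mem_nhdsGE hv
    filter_upwards [this] with y hy using kq y hy
  have h3 := h1.union h2
  rwa [Iic_union_Ici, hasDerivWithinAt_univ] at h3

theorem ct_two {k p q : ℝ → ℝ} {x u v : ℝ} (hu : u < x) (hv : x < v)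
    (hp : ContinuousWithinAt p (Iic x) x) (hq : ContinuousWithinAt q (Ici x) x)
    (kp : ∀ y ∈ Ioc u x, k y = p y) (kq : ∀ y ∈ Ico x v, k y = q y) : ContinuousAt k x := by
  have h1 : ContinuousWithinAt k (Iic x) x := by
    refine hp.congr_of_eventuallyEq ?_ (kp x ⟨hu, le_rfl⟩)
    have : Ioc u x ∈ 𝓝[≤] x := Ioc_mem_nhdsLE hu
    filter_upwards [this] with y hy using kp y hy
  have h2 : ContinuousWithinAt k (Ici x) x := by
    refine hq.congr_of_eventuallyEq ?_ (kq x ⟨le_rfl, hv⟩)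
    have : Ico x v ∈ 𝓝[≥] x := Ico_mem_nhdsGE hv
    filter_upwards [this] with y hy using kq y hy
  have h3 := h1.union h2
  rwa [Iic_union_Ici, continuousWithinAt_univ] at h3

theorem glue3 {a b : ℝ} (hab : a < b) {f g h f' g' h' : ℝ → ℝ}
    (hf : ∀ x, x ≤ a → HasDerivAt f (f' x) x) (hg : ∀ x ∈ Icc a b, HasDerivAt g (g' x) x)
    (hh : ∀ x, b ≤ x → HasDerivAt h (h' x) x) (hfc : ContinuousOn f' (Iic a))
    (hgc : ContinuousOn g' (Icc a b)) (hhc : ContinuousOn h' (Ici b)) (e1 : f a = g a)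
    (e1' : f' a = g' a) (e2 : g b = h b) (e2' : g' b = h' b) :
    ∃ k : ℝ → ℝ, ContDiff ℝ 1 k ∧ (∀ x, x ≤ a → k x = f x) ∧ (∀ x ∈ Icc a b, k x = g x) ∧
      ∀ x, b ≤ x → k x = h x := by
  have key : ∀ f g h : ℝ → ℝ, f a = g a → g b = h b → ∃ k : ℝ → ℝ, (∀ x, x ≤ a → k x = f x) ∧
      (∀ x ∈ Icc a b, k x = g x) ∧ ∀ x, b ≤ x → k x = h x := by
    intro f g h e1 e2
    refine ⟨fun x => if x ≤ a then f x else if x ≤ b then g x else h x, ?_, ?_, ?_⟩
    · intro x hx
      simp only [if_pos hx]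
    · rintro x ⟨hx, hx'⟩
      rcases hx.eq_or_lt with h0 | h0
      · subst h0
        simp only [le_refl, if_true]
        exact e1
      · simp only [if_neg (not_le.2 h0), if_pos hx']
    · intro x hx
      rcases hx.eq_or_lt with h0 | h0
      · subst h0
        simp only [if_neg (not_le.2 hab), le_refl, if_true]
        exact e2
      · simp only [if_neg (not_le.2 (hab.trans h0)), if_neg (not_le.2 h0)]
  obtain ⟨k, k1, k2, k3⟩ := key f g h e1 e2
  obtain ⟨k', k1', k2', k3'⟩ := key f' g' h' e1' e2'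
  have hd : ∀ x, HasDerivAt k (k' x) x := by
    intro x
    rcases lt_trichotomy x a with hx | hx | hx
    · rw [k1' x hx.le]
      exact hd_two (u := x - 1) (v := a) (by linarith) hx (hf x hx.le) (hf x hx.le)
        (fun y hy => k1 y (hy.2.trans hx.le)) fun y hy => k1 y hy.2.le
    · subst hx
      refine hd_two (u := x - 1) (v := b) (by linarith) hab (k1' x le_rfl ▸ hf x le_rfl)
        (k2' x ⟨le_rfl, hab.le⟩ ▸ hg x ⟨le_rfl, hab.le⟩) (fun y hy => k1 y hy.2)
        fun y hy => k2 y ⟨hy.1, hy.2.le⟩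
    · rcases lt_trichotomy x b with hx' | hx' | hx'
      · rw [k2' x ⟨hx.le, hx'.le⟩]
        exact hd_two (u := a) (v := b) hx hx' (hg x ⟨hx.le, hx'.le⟩) (hg x ⟨hx.le, hx'.le⟩)
          (fun y hy => k2 y ⟨hy.1.le, hy.2.trans hx'.le⟩)
          fun y hy => k2 y ⟨hx.le.trans hy.1, hy.2.le⟩
      · subst hx'
        refine hd_two (u := a) (v := x + 1) hab (by linarith)
          (k2' x ⟨hab.le, le_rfl⟩ ▸ hg x ⟨hab.le, le_rfl⟩) (k3' x le_rfl ▸ hh x le_rfl)
          (fun y hy => k2 y ⟨hy.1.le, hy.2⟩) fun y hy => k3 y hy.1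
      · rw [k3' x hx'.le]
        exact hd_two (u := b) (v := x + 1) hx' (by linarith) (hh x hx'.le) (hh x hx'.le)
          (fun y hy => k3 y hy.1.le) fun y hy => k3 y (hx'.le.trans hy.1)
  have hc : Continuous k' := by
    rw [continuous_iff_continuousAt]
    intro x
    rcases lt_trichotomy x a with hx | hx | hx
    · have h0 := hfc.continuousAt (Iic_mem_nhds hx)
      exact ct_two (u := x - 1) (v := a) (by linarith) hx h0.continuousWithinAt
        h0.continuousWithinAt (fun y hy => k1' y (hy.2.trans hx.le)) fun y hy => k1' y hy.2.le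
    · subst hx
      refine ct_two (u := x - 1) (v := b) (by linarith) hab (hfc x (mem_Iic.2 le_rfl))
        ((hgc x ⟨le_rfl, hab.le⟩).mono_of_mem_nhdsWithin (Icc_mem_nhdsGE hab))
        (fun y hy => k1' y hy.2) fun y hy => k2' y ⟨hy.1, hy.2.le⟩
    · rcases lt_trichotomy x b with hx' | hx' | hx'
      · have h0 := hgc.continuousAt (Icc_mem_nhds hx hx')
        exact ct_two (u := a) (v := b) hx hx' h0.continuousWithinAt h0.continuousWithinAt
          (fun y hy => k2' y ⟨hy.1.le, hy.2.trans hx'.le⟩)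
          fun y hy => k2' y ⟨hx.le.trans hy.1, hy.2.le⟩
      · subst hx'
        refine ct_two (u := a) (v := x + 1) hab (by linarith)
          ((hgc x ⟨hab.le, le_rfl⟩).mono_of_mem_nhdsWithin (Icc_mem_nhdsLE hab))
          (hhc x (mem_Ici.2 le_rfl)) (fun y hy => k2' y ⟨hy.1.le, hy.2⟩) fun y hy => k3' y hy.1
      · have h0 := hhc.continuousAt (Ici_mem_nhds hx')
        exact ct_two (u := b) (v := x + 1) hx' (by linarith) h0.continuousWithinAt
          h0.continuousWithinAt (fun y hy => k3' y hy.1.le) fun y hy => k3' y (hx'.le.trans hy.1)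
  refine ⟨k, ?_, k1, k2, k3⟩
  rw [contDiff_one_iff_deriv]
  refine ⟨fun x => (hd x).differentiableAt, ?_⟩
  rw [show deriv k = k' from funext fun x => (hd x).deriv]
  exact hc

end Pool.Agent.H62.SS
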