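import Pool.Agent.H62.SS.RhoS
import Pool.Agent.H62.SS.Inner
import Pool.Agent.H62.SS.Balls
import Pool.Agent.H62.SS.Size

set_option autoImplicit false

/-!
# [H62 SS ININT] The inner integral inequality

Tonelli (`lintegral_lintegral_swap`; `bs n` restricted to the frontier is finite: `bs_frontier_lt_top`): `∫⁻_{∂Ω} ∫⁻ t in Ioo (rad p) r₀, b t = ∫⁻ t in Ioo 0 r₀, b t * bs (∂Ω ∩ gball (nor n) t)` (`mem_gball_nor`) `≤ ∫⁻ t in Ioo 0 r₀, b t * bs (gsph (nor n) t \ Ω)` (`inner_bound`, `t < r₀ ≤ π/2`),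
`bs_gsph_diff`, `{θ | pol t θ ∉ Ω} = {θ | rho θ ≤ t}` (`pol_mem_iff`), Tonelli again (`measurable_rho`).  (See H62/WS/InInt.lean.)
-/

namespace Pool.Agent.H62.SS

open scoped RealInnerProductSpace MeasureTheory ENNReal NNReal
open MeasureTheory Set Metric
open Pool.Agent.H62.WS (E sg cst)

variable {n : ℕ}

theorem inner_int (hn : 2 ≤ n) {Ω : Set (Sp n)} (h : Dom Ω) (ho : nor n ∈ Ω) {r₀ : ℝ}
    (h0 : 0 < r₀) (h1 : r₀ ≤ Real.pi / 2) {b : ℝ → ℝ≥0∞} (hb : Measurable b) :
    ∫⁻ p in frontier Ω, (∫⁻ t in Ioo (rad p) r₀, b t) ∂bs n ≤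
      cst n * ∫⁻ θ, (∫⁻ t in Ico (rho Ω θ) r₀,
        b t * ENNReal.ofReal (Real.sin t ^ (n - 1))) ∂sg n := by
  have hfm : IsFiniteMeasure ((bs n).restrict (frontier Ω)) :=
    ⟨by rw [Measure.restrict_apply_univ]; exact bs_frontier_lt_top hn h⟩
  have hpi := Real.pi_pos
  -- the left side
  obtain ⟨G, hG⟩ : ∃ G : Sp n → ℝ → ℝ≥0∞, G = fun p t =>
    (Ioi (rad p)).indicator b t := ⟨_, rfl⟩
  have hGm : Measurable (Function.uncurry G) := by
    have h1 : MeasurableSet {q : Sp n × ℝ | rad q.1 < q.2} :=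
      (isOpen_lt (continuous_rad.comp continuous_fst) continuous_snd).measurableSet
    have h2 : Function.uncurry G =
        {q : Sp n × ℝ | rad q.1 < q.2}.indicator (fun q => b q.2) := by
      ext q
      rw [hG]
      simp only [Function.uncurry, indicator, mem_Ioi, mem_setOf_eq]
    rw [h2]
    exact (hb.comp measurable_snd).indicator h1
  have hL : ∀ p : Sp n, ∫⁻ t in Ioo (rad p) r₀, b t = ∫⁻ t in Ioo 0 r₀, G p t := by
    intro p
    rw [hG]
    simp only
    rw [lintegral_indicator measurableSet_Ioi, Measure.restrict_restrict measurableSet_Ioi]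
    congr 2
    ext t
    simp only [mem_inter_iff, mem_Ioi, mem_Ioo]
    constructor
    · rintro ⟨h1, h2⟩
      exact ⟨h1, lt_of_le_of_lt (rad_nonneg p) h1, h2⟩
    · rintro ⟨h1, _, h2⟩
      exact ⟨h1, h2⟩
  -- the right side
  have hsm : Measurable fun t : ℝ => b t * ENNReal.ofReal (Real.sin t ^ (n - 1)) :=
    hb.mul (Real.continuous_sin.pow (n - 1)).measurable.ennreal_ofReal
  obtain ⟨H, hH⟩ : ∃ H : sphere (0 : E n) 1 → ℝ → ℝ≥0∞, H = fun θ t =>
    {t : ℝ | rho Ω θ ≤ t}.indicator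
      (fun t => b t * ENNReal.ofReal (Real.sin t ^ (n - 1))) t := ⟨_, rfl⟩
  have hHm : Measurable (Function.uncurry H) := by
    have h2 : Function.uncurry H = {q : sphere (0 : E n) 1 × ℝ | rho Ω q.1 ≤ q.2}.indicator
        (fun q => b q.2 * ENNReal.ofReal (Real.sin q.2 ^ (n - 1))) := by
      ext q
      rw [hH]
      rfl
    rw [h2]
    exact (hsm.comp measurable_snd).indicator
      (measurableSet_le ((measurable_rho h ho).comp measurable_fst) measurable_snd)
  have hR : ∀ θ : sphere (0 : E n) 1,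
      ∫⁻ t in Ico (rho Ω θ) r₀, b t * ENNReal.ofReal (Real.sin t ^ (n - 1)) =
        ∫⁻ t in Ioo 0 r₀, H θ t := by
    intro θ
    have hcl : MeasurableSet {t : ℝ | rho Ω θ ≤ t} := measurableSet_Ici
    rw [hH]
    simp only
    rw [lintegral_indicator hcl, Measure.restrict_restrict hcl]
    congr 2
    ext t
    simp only [mem_inter_iff, mem_Ioo, mem_Ico, mem_setOf_eq]
    constructor
    · rintro ⟨h1, h2⟩
      exact ⟨h1, (rho_pos h ho θ).trans_le h1, h2⟩
    · rintro ⟨h1, h2⟩
      exact ⟨h1, h2.2⟩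
  simp only [hL, hR]
  rw [lintegral_lintegral_swap hGm.aemeasurable, lintegral_lintegral_swap hHm.aemeasurable,
    ← lintegral_const_mul' _ _ (Pool.Agent.H62.WS.cst_ne_top hn)]
  refine setLIntegral_mono' measurableSet_Ioo fun t ht => ?_
  have h2 : ∫⁻ p in frontier Ω, G p t ∂bs n = b t * bs n (frontier Ω ∩ gball (nor n) t) := by
    have h2 : ∀ p, G p t = (gball (nor n) t).indicator (fun _ => b t) p := by
      intro p
      have h5 := mem_gball_nor ht.1.le (by linarith [ht.2]) p
      rw [hG]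
      by_cases h6 : rad p < t
      · have h7 : t ∈ Ioi (rad p) := h6
        simp only
        rw [indicator_of_mem h7, indicator_of_mem (h5.2 h6)]
      · have h7 : t ∉ Ioi (rad p) := h6
        simp only
        rw [indicator_of_notMem h7, indicator_of_notMem (fun h8 => h6 (h5.1 h8))]
    simp only [h2]
    have hms : MeasurableSet (gball (nor n) t) := (isOpen_gball _ _).measurableSet
    rw [lintegral_indicator hms, lintegral_const, Measure.restrict_apply_univ,
      Measure.restrict_apply hms, inter_comm]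
  have h3 : ∫⁻ θ, H θ t ∂sg n =
      b t * ENNReal.ofReal (Real.sin t ^ (n - 1)) * sg n {θ | pol t θ ∉ Ω} := by
    have hms : MeasurableSet {θ : sphere (0 : E n) 1 | pol t θ ∉ Ω} :=
      ((continuous_pol_right t).measurable h.isOpen.measurableSet).compl
    have h4 : ∀ θ, H θ t = {θ : sphere (0 : E n) 1 | pol t θ ∉ Ω}.indicator
        (fun _ => b t * ENNReal.ofReal (Real.sin t ^ (n - 1))) θ := by
      intro θ
      rw [hH]
      have h5 := pol_mem_iff h ho (t := t) ⟨ht.1, by linarith [ht.2]⟩ θ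
      simp only [indicator, mem_setOf_eq, h5, not_lt]
    simp only [h4]
    rw [lintegral_indicator hms, lintegral_const, Measure.restrict_apply_univ]
  rw [h2, h3]
  calc b t * bs n (frontier Ω ∩ gball (nor n) t)
      ≤ b t * bs n (gsph (nor n) t \ Ω) :=
        mul_le_mul_right (inner_bound hn h _ ht.1 (ht.2.trans_le h1)) _
    _ = cst n * (b t * ENNReal.ofReal (Real.sin t ^ (n - 1)) * sg n {θ | pol t θ ∉ Ω}) := by
        rw [bs_gsph_diff hn ht.1 (by linarith [ht.2]) h.isOpen.measurableSet]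
        ring

end Pool.Agent.H62.SS
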