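import Pool.Agent.H62.SS.Plz

set_option autoImplicit false

/-!
# [H62 SS PLZNB] Two-point symmetrization and neighbourhoods

`onb K ε = {x | ∃ y ∈ K, cos ε < ⟪x,y⟫}`.  `onb_plz`: let `y ∈ plz u K`, `cos ε < ⟪x,y⟫`, `σ = act (rf u)`; note `x ∈ onb (σK) ε ↔ σx ∈ onb K ε`.  If `y ∈ K ∩ σK`: `x` and `σx` are in `onb K ε`, so `x ∈ plz u (onb K ε)`.  Otherwise `0 ≤ ⟪u,y⟫` and `y ∈ K ∪ σK`: if `0 ≤ ⟪u,x⟫` then `x ∈ onb K ε ∪ σ(onb K ε)`, done; if `⟪u,x⟫ < 0` then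
`⟪σx,y⟫ = ⟪x,y⟫ - 2⟪u,x⟫⟪u,y⟫ ≥ ⟪x,y⟫ > cos ε` (`inner_rf_right`, `inner_rf_left`), so both `x` and `σx` are in `onb {y} ε`, hence both in `onb K ε` (or both in `σ(onb K ε)`, the same).
`onb_cball`: `⊇`: by `exists_act` take `p = nor n`, `x = pol s θ` with `s < r + ε`: `y = pol (min s r) θ`, `⟪x,y⟫ = cos (s - min s r) > cos ε`.
-/

namespace Pool.Agent.H62.SS

open scoped RealInnerProductSpace MeasureTheory ENNReal NNReal
open MeasureTheory Set Metric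
open Pool.Agent.H62.WS (E sg cst)

variable {n : ℕ}

/-- the open neighbourhood of radius `ε` for the geodesic distance -/
def onb (K : Set (Sp n)) (ε : ℝ) : Set (Sp n) :=
  {x | ∃ y ∈ K, Real.cos ε < ⟪(x : E (n + 1)), (y : E (n + 1))⟫}

private theorem plznb_mem {u : Sp n} {A : Set (Sp n)} {x : Sp n} :
    x ∈ act (rf u) '' A ↔ act (rf u) x ∈ A := by
  constructor
  · rintro ⟨y, hy, rfl⟩
    rw [rf_rf]
    exact hy
  · intro h
    exact ⟨act (rf u) x, h, rf_rf u x⟩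

private theorem plznb_self (x : Sp n) : ⟪(x : E (n + 1)), (x : E (n + 1))⟫ = 1 := by
  rw [real_inner_self_eq_norm_sq, norm_coe, one_pow]

private theorem plznb_cos {ε : ℝ} (h0 : 0 < ε) (h1 : ε ≤ Real.pi) : Real.cos ε < 1 := by
  rw [← Real.cos_zero]
  exact Real.strictAntiOn_cos ⟨le_rfl, Real.pi_pos.le⟩ ⟨h0.le, h1⟩ h0

theorem isOpen_onb (K : Set (Sp n)) (ε : ℝ) : IsOpen (onb K ε) := by
  have h : onb K ε = ⋃ y ∈ K, {x : Sp n | Real.cos ε < ⟪(x : E (n + 1)), (y : E (n + 1))⟫} := by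
    ext x
    simp [onb]
  rw [h]
  exact isOpen_biUnion fun y _ => isOpen_lt continuous_const (by fun_prop)

theorem subset_onb (K : Set (Sp n)) {ε : ℝ} (h0 : 0 < ε) (h1 : ε ≤ Real.pi) : K ⊆ onb K ε := by
  intro x hx
  refine ⟨x, hx, ?_⟩
  rw [plznb_self]
  exact plznb_cos h0 h1

theorem onb_plz (u : Sp n) (K : Set (Sp n)) (ε : ℝ) : onb (plz u K) ε ⊆ plz u (onb K ε) := by
  rintro x ⟨y, hy, hxy⟩
  rcases hy with ⟨hy, huy⟩ | ⟨hy, hy2⟩
  · have hyy : y ∈ K ∨ act (rf u) y ∈ K := by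
      rcases hy with hy | hy
      · exact Or.inl hy
      · exact Or.inr (plznb_mem.1 hy)
    have hboth : Real.cos ε < ⟪(act (rf u) x : E (n + 1)), (act (rf u) y : E (n + 1))⟫ := by
      rw [inner_act]
      exact hxy
    rcases le_or_gt 0 ⟪(u : E (n + 1)), (x : E (n + 1))⟫ with h | h
    · left
      refine ⟨?_, h⟩
      rcases hyy with h2 | h2
      · exact Or.inl ⟨y, h2, hxy⟩
      · right
        rw [plznb_mem]
        exact ⟨act (rf u) y, h2, hboth⟩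
    · have h3 : Real.cos ε < ⟪(x : E (n + 1)), (act (rf u) y : E (n + 1))⟫ := by
        rw [inner_rf_right]
        rw [mem_setOf_eq] at huy
        nlinarith [mul_nonneg (neg_nonneg.2 h.le) huy]
      have h4 : Real.cos ε < ⟪(act (rf u) x : E (n + 1)), (y : E (n + 1))⟫ := by
        rw [inner_rf_left]
        exact h3
      right
      rcases hyy with h2 | h2
      · refine ⟨⟨y, h2, hxy⟩, ?_⟩
        rw [plznb_mem]
        exact ⟨y, h2, h4⟩
      · refine ⟨⟨act (rf u) y, h2, h3⟩, ?_⟩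
        rw [plznb_mem]
        exact ⟨act (rf u) y, h2, hboth⟩
  · right
    refine ⟨⟨y, hy, hxy⟩, ?_⟩
    rw [plznb_mem]
    refine ⟨act (rf u) y, plznb_mem.1 hy2, ?_⟩
    rw [inner_act]
    exact hxy

theorem gball_subset_onb (hn : 1 ≤ n) (p : Sp n) {r ε : ℝ} (h0 : 0 < r) (h1 : 0 < ε)
    (h2 : r + ε ≤ Real.pi) : gball p (r + ε) ⊆ onb (cball p r) ε := by
  obtain ⟨Φ, rfl⟩ := exists_act (nor n) p
  intro x hx
  rw [← act_gball] at hx
  obtain ⟨x, hx, rfl⟩ := hx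
  rw [← act_cball]
  suffices h : ∃ y ∈ cball (nor n) r, Real.cos ε < ⟪(x : E (n + 1)), (y : E (n + 1))⟫ by
    obtain ⟨y, hy, hxy⟩ := h
    refine ⟨act Φ y, ⟨y, hy, rfl⟩, ?_⟩
    rw [inner_act]
    exact hxy
  have hx' : rad x < r + ε := (mem_gball_nor (by linarith) h2 x).1 hx
  rcases le_or_gt (rad x) r with h | h
  · refine ⟨x, (mem_cball_nor h0.le (by linarith) x).2 h, ?_⟩
    rw [plznb_self]
    exact plznb_cos h1 (by linarith)
  · obtain ⟨θ, hθ⟩ := exists_pol hn x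
    refine ⟨pol r θ, (mem_cball_nor h0.le (by linarith) _).2 ?_, ?_⟩
    · rw [rad_pol h0.le (by linarith)]
    · rw [hθ, inner_pol, real_inner_self_eq_norm_sq, norm_theta, one_pow, mul_one, ← Real.cos_sub]
      exact Real.strictAntiOn_cos ⟨by linarith, by linarith⟩ ⟨h1.le, by linarith⟩ (by linarith)

end Pool.Agent.H62.SS
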