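import Pool.Agent.H62.SS.SymMain
import Pool.Agent.H62.SS.PlzNb

set_option autoImplicit false

/-!
# [H62 SS LEVY] Levy's isoperimetric inequality for neighbourhoods

`C = {L | sg (cball o r) ≤ sg L, sg (onb L ε) ≤ sg (onb K ε)}`: closed (`NonemptyCompacts (Sp n)` is a metric space: sequences; the first condition by `usc_inter` with `B = univ`, the second by `lsc_open`: if `L_j → L`, `x ∈ onb L ε`, `y ∈ L` with `⟪x,y⟫ > cos ε`, there are `y_j ∈ L_j`, `y_j → y`), contains `K`, stable
(`sg_plz`, `onb_plz`, `sg_plz` for the open set `onb L ε`).  `sym_main`: some `L ∈ C` contains `cball o r`: `gball o (r + ε) ⊆ onb L ε` (`gball_subset_onb`).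
-/

namespace Pool.Agent.H62.SS

open scoped RealInnerProductSpace MeasureTheory ENNReal NNReal
open MeasureTheory Set Metric
open Pool.Agent.H62.WS (E sg cst)

variable {n : ℕ}

private theorem levy_near {L : TopologicalSpace.NonemptyCompacts (Sp n)}
    {Lj : ℕ → TopologicalSpace.NonemptyCompacts (Sp n)}
    (h : Filter.Tendsto Lj Filter.atTop (nhds L)) {ε : ℝ} {x : Sp n}
    (hx : x ∈ onb (L : Set (Sp n)) ε) :
    ∀ᶠ j in Filter.atTop, x ∈ onb (Lj j : Set (Sp n)) ε := by
  obtain ⟨y, hy, hxy⟩ := hx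
  have h1 : Filter.Tendsto (fun j => infDist y (Lj j : Set (Sp n))) Filter.atTop (nhds 0) := by
    have h2 := ((lipschitz_infDist_set y).continuous.tendsto L).comp h
    rw [infDist_zero_of_mem hy] at h2
    exact h2
  have h3 : 0 < ⟪(x : E (n + 1)), (y : E (n + 1))⟫ - Real.cos ε := by linarith
  filter_upwards [h1.eventually_lt_const h3] with j hj
  rw [infDist_lt_iff (Lj j).nonempty] at hj
  obtain ⟨z, hz, hyz⟩ := hj
  refine ⟨z, hz, ?_⟩
  have h4 : ⟪(x : E (n + 1)), (y : E (n + 1))⟫ - ⟪(x : E (n + 1)), (z : E (n + 1))⟫ ≤ dist y z := by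
    rw [← inner_sub_right]
    refine (real_inner_le_norm _ _).trans ?_
    rw [norm_coe, one_mul, Subtype.dist_eq, dist_eq_norm]
  linarith

theorem levy (hn : 2 ≤ n) (o : Sp n) {r ε : ℝ} (h0 : 0 < r) (h1 : 0 < ε) (h2 : r + ε < Real.pi)
    {K : Set (Sp n)} (hK : IsCompact K) (hv : sg (n + 1) (cball o r) ≤ sg (n + 1) K) :
    sg (n + 1) (gball o (r + ε)) ≤ sg (n + 1) (onb K ε) := by
  have hr : r < Real.pi := by linarith
  -- `K` is not empty
  have hne : K.Nonempty := by
    rw [nonempty_iff_ne_empty]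
    rintro rfl
    rw [measure_empty, nonpos_iff_eq_zero] at hv
    have h3 : 0 < sg (n + 1) (gball o r) := by
      apply sg_pos_of_isOpen (by omega) (isOpen_gball o r)
      refine ⟨o, ?_⟩
      show Real.cos r < ⟪(o : E (n + 1)), (o : E (n + 1))⟫
      rw [real_inner_self_eq_norm_sq, norm_coe, one_pow]
      have h4 := Real.cos_lt_cos_of_nonneg_of_le_pi (le_refl 0) hr.le h0
      rwa [Real.cos_zero] at h4
    have h5 : sg (n + 1) (gball o r) ≤ sg (n + 1) (cball o r) := by
      apply measure_mono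
      intro x hx
      exact le_of_lt (show Real.cos r < ⟪(o : E (n + 1)), (x : E (n + 1))⟫ from hx)
    rw [hv, nonpos_iff_eq_zero] at h5
    exact h3.ne' h5
  let C : Set (TopologicalSpace.NonemptyCompacts (Sp n)) :=
    {L | sg (n + 1) (cball o r) ≤ sg (n + 1) (L : Set (Sp n)) ∧
      sg (n + 1) (onb (L : Set (Sp n)) ε) ≤ sg (n + 1) (onb K ε)}
  have hC : IsClosed C := by
    apply IsSeqClosed.isClosed
    intro Lj L hLj hlim
    constructor
    · have h3 := usc_inter hlim (isClosed_univ) (c := sg (n + 1) (cball o r)) (fun j => by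
        rw [inter_univ]
        exact (hLj j).1)
      rwa [inter_univ] at h3
    · exact lsc_open (fun j => (isOpen_onb _ ε).measurableSet) (fun x hx => levy_near hlim hx)
        (fun j => (hLj j).2)
  have hCne : C.Nonempty := ⟨⟨⟨K, hK⟩, hne⟩, hv, le_rfl⟩
  have hpol : ∀ L ∈ C, ∀ u : Sp n, 0 ≤ ⟪(o : E (n + 1)), (u : E (n + 1))⟫ →
      ∀ K' : TopologicalSpace.NonemptyCompacts (Sp n),
        (K' : Set (Sp n)) = plz u (L : Set (Sp n)) → K' ∈ C := by
    intro L hL u _ K' hK'
    constructor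
    · rw [hK', sg_plz hn u L.isCompact.isClosed.measurableSet]
      exact hL.1
    · rw [hK']
      refine (measure_mono (onb_plz u _ ε)).trans ?_
      rw [sg_plz hn u (isOpen_onb _ ε).measurableSet]
      exact hL.2
  obtain ⟨L, hL, hLB⟩ := sym_main hn o h0 hr hC hCne (fun L hL => hL.1) hpol
  refine le_trans (measure_mono ?_) hL.2
  refine (gball_subset_onb (by omega) o h0 h1 h2.le).trans ?_
  rintro x ⟨y, hy, hxy⟩
  exact ⟨y, hLB hy, hxy⟩

end Pool.Agent.H62.SS
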