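import Pool.Agent.H62.SS.PolyNb
import Pool.Agent.H62.SS.Levy
import Pool.Agent.H62.SS.BallConv

set_option autoImplicit false

/-!
# [H62 SS ISOPOLY] The isoperimetric inequality for polytopes

`0 < sg (pt U) ≤ sg (gball p (π/2))`: there is `r ∈ (0,π/2]` with `sg (cball o r) = sg (pt U)`, `o = nor n` (`sg_cball`, `continuous_VS`, `VS_strictMono`).  `levy` and `sg_onb_pt_le`: for small `ε > 0`, with `ω = sg n univ`: `ω (VS (r+ε) - VS r) ≤ ε ω sin^(n-1) R + C ε²`
(`bs_gsph`: `cst⁻¹ bs (gsph (nor n) R) = sin^(n-1) R ω`); divide by `ε`, `ε → 0` (derivative of `VS`): `sin^(n-1) r ≤ sin^(n-1) R`, `r, R ∈ (0,π/2]`: `r ≤ R`.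
-/

namespace Pool.Agent.H62.SS

open scoped RealInnerProductSpace MeasureTheory ENNReal NNReal
open MeasureTheory Set Metric
open Pool.Agent.H62.WS (E sg cst)

variable {n : ℕ}

theorem iso_polytope (hn : 2 ≤ n) {U : Finset (Sp n)} (hpos : 0 < sg (n + 1) (pt U)) {p : Sp n}
    (hp : pt U ⊆ gball p (Real.pi / 2)) {R : ℝ} (h0 : 0 < R) (h1 : R < Real.pi / 2)
    (hR : bs n (frontier (pt U)) ≤ bs n (gsph (nor n) R)) :
    sg (n + 1) (pt U) ≤ sg (n + 1) (gball (nor n) R) := by
  have hpi := Real.pi_pos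
  set N := n - 1 with hN
  have hωt : sg n univ ≠ ∞ := measure_ne_top _ _
  have hω0 : sg n univ ≠ 0 := (Pool.Agent.H62.WS.sg_univ_pos hn).ne'
  have hw : 0 < (sg n univ).toReal := ENNReal.toReal_pos hω0 hωt
  set w : ℝ := (sg n univ).toReal with hwdef
  have hωw : sg n univ = ENNReal.ofReal w := (ENNReal.ofReal_toReal hωt).symm
  have hPt : sg (n + 1) (pt U) ≠ ∞ := measure_ne_top _ _
  set V : ℝ := (sg (n + 1) (pt U)).toReal with hV
  have hVpos : 0 < V := ENNReal.toReal_pos hpos.ne' hPt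
  have hVeq : sg (n + 1) (pt U) = ENNReal.ofReal V := (ENNReal.ofReal_toReal hPt).symm
  have hVSnn : ∀ t : ℝ, 0 ≤ t → t ≤ Real.pi → 0 ≤ VS N t := by
    intro t h2 h3
    have h4 := (VS_strictMono N).monotoneOn ⟨le_rfl, hpi.le⟩ ⟨h2, h3⟩ h2
    have h5 : VS N 0 = 0 := by simp [VS]
    linarith
  have hVle : V ≤ VS N (Real.pi / 2) * w := by
    have h2 : sg (n + 1) (pt U) ≤ sg (n + 1) (gball p (Real.pi / 2)) := measure_mono hp
    rw [sg_gball hn p (by linarith) (by linarith), hωw, hVeq,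
      ← ENNReal.ofReal_mul (hVSnn _ (by linarith) (by linarith))] at h2
    exact (ENNReal.ofReal_le_ofReal_iff (mul_nonneg (hVSnn _ (by linarith) (by linarith)) hw.le)).1 h2
  obtain ⟨r, hr, hrV⟩ : ∃ r ∈ Icc (0 : ℝ) (Real.pi / 2), VS N r = V / w := by
    have h2 := intermediate_value_Icc (show (0 : ℝ) ≤ Real.pi / 2 by linarith)
      (continuous_VS N).continuousOn
    have h3 : V / w ∈ Icc (VS N 0) (VS N (Real.pi / 2)) := by
      have h5 : VS N 0 = 0 := by simp [VS]
      rw [h5]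
      exact ⟨by positivity, by rw [div_le_iff₀ hw]; exact hVle⟩
    obtain ⟨r, hr, h4⟩ := h2 h3
    exact ⟨r, hr, h4⟩
  have hr0 : 0 < r := by
    rcases hr.1.lt_or_eq with h2 | h2
    · exact h2
    · exfalso
      rw [← h2] at hrV
      have h5 : VS N 0 = 0 := by simp [VS]
      rw [h5] at hrV
      have : 0 < V / w := by positivity
      linarith
  have hrV' : VS N r * w = V := by
    rw [hrV]
    field_simp
  -- the comparison for small `ε`
  obtain ⟨C, hC0, hC⟩ := sg_onb_pt_le hn hpos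
  have hsR : 0 ≤ Real.sin R ^ N :=
    pow_nonneg (Real.sin_nonneg_of_nonneg_of_le_pi h0.le (by linarith)) _
  have hbs : (cst n)⁻¹ * bs n (frontier (pt U)) ≤ ENNReal.ofReal (Real.sin R ^ N * w) := by
    refine (mul_le_mul_right hR _).trans (le_of_eq ?_)
    rw [bs_gsph hn _ h0 (by linarith), ENNReal.ofReal_mul hsR, ← hωw, mul_left_comm,
      ← mul_assoc (cst n)⁻¹, ENNReal.inv_mul_cancel (Pool.Agent.H62.WS.cst_ne_zero hn)
        (Pool.Agent.H62.WS.cst_ne_top hn), one_mul]
  have hkey : ∀ ε : ℝ, 0 < ε → ε < Real.pi / 2 →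
      VS N (r + ε) * w ≤ VS N r * w + ε * (Real.sin R ^ N * w) + C * ε ^ 2 := by
    intro ε he0 he1
    have h2 := levy hn (nor n) (r := r) (ε := ε) hr0 he0 (by linarith [hr.2])
      (K := pt U) (isClosed_pt U).isCompact (by
        rw [sg_cball hn _ hr0.le (by linarith [hr.2]), hVeq, hωw,
          ← ENNReal.ofReal_mul (hVSnn _ hr0.le (by linarith [hr.2])), hrV'])
    have h3 := h2.trans (hC ε he0 he1)
    rw [sg_gball hn _ (by linarith) (by linarith [hr.2]), hωw, hVeq,
      ← ENNReal.ofReal_mul (hVSnn _ (by linarith) (by linarith [hr.2]))] at h3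
    have h4 : ENNReal.ofReal (VS N (r + ε) * w) ≤
        ENNReal.ofReal (V + ε * (Real.sin R ^ N * w) + C * ε ^ 2) := by
      refine h3.trans ?_
      rw [ENNReal.ofReal_add (by positivity) (by positivity),
        ENNReal.ofReal_add (by positivity) (by positivity), ENNReal.ofReal_mul he0.le]
      exact add_le_add (add_le_add le_rfl (mul_le_mul_right hbs _)) le_rfl
    rw [hrV']
    exact (ENNReal.ofReal_le_ofReal_iff (by positivity)).1 h4
  -- the derivative
  have hder : HasDerivAt (VS N) (Real.sin r ^ N) r := by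
    have hc : Continuous fun t : ℝ => Real.sin t ^ N := Real.continuous_sin.pow N
    exact intervalIntegral.integral_hasDerivAt_right (hc.intervalIntegrable _ _)
      (hc.stronglyMeasurableAtFilter _ _) hc.continuousAt
  have hlim := hder.tendsto_slope_zero_right
  have hlim2 : Filter.Tendsto (fun ε : ℝ => Real.sin R ^ N + C / w * ε) (nhdsWithin 0 (Ioi 0))
      (nhds (Real.sin R ^ N)) := by
    have h2 : Continuous (fun ε : ℝ => Real.sin R ^ N + C / w * ε) := by fun_prop
    have h3 := (h2.tendsto 0).mono_left (nhdsWithin_le_nhds (s := Ioi (0 : ℝ)))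
    simpa using h3
  have hle : Real.sin r ^ N ≤ Real.sin R ^ N := by
    refine le_of_tendsto_of_tendsto hlim hlim2 ?_
    have h2 : ∀ᶠ ε : ℝ in nhdsWithin 0 (Ioi 0), ε ∈ Ioo (0 : ℝ) (Real.pi / 2) :=
      Ioo_mem_nhdsGT (by linarith)
    filter_upwards [h2] with ε he
    have h3 := hkey ε he.1 he.2
    have he0 := he.1
    rw [smul_eq_mul, inv_mul_le_iff₀ he0]
    have h4 : (VS N (r + ε) - VS N r) * w ≤ (ε * (Real.sin R ^ N + C / w * ε)) * w := by
      have h5 : (ε * (Real.sin R ^ N + C / w * ε)) * w =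
          ε * (Real.sin R ^ N * w) + C * ε ^ 2 := by
        field_simp
      rw [h5]
      linarith
    exact le_of_mul_le_mul_right h4 hw
  have hrR : r ≤ R := by
    by_contra h2
    push Not at h2
    have h3 : Real.sin R < Real.sin r :=
      Real.sin_lt_sin_of_lt_of_le_pi_div_two (by linarith) hr.2 h2
    have h4 : 0 ≤ Real.sin R := Real.sin_nonneg_of_nonneg_of_le_pi h0.le (by linarith)
    have h5 : Real.sin R ^ N < Real.sin r ^ N := pow_lt_pow_left₀ h3 h4 (by omega)
    linarith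
  rw [sg_gball hn _ h0.le (by linarith), hVeq, hωw, ← ENNReal.ofReal_mul
    (hVSnn _ h0.le (by linarith)), ← hrV']
  refine ENNReal.ofReal_le_ofReal (mul_le_mul_of_nonneg_right ?_ hw.le)
  exact (VS_strictMono N).monotoneOn ⟨hr0.le, by linarith [hr.2]⟩ ⟨h0.le, by linarith⟩ hrR

end Pool.Agent.H62.SS
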