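import Pool.Agent.H62.SS.OutMe

set_option autoImplicit false

/-!
# [H62 SS OUTINT] The outer integral inequality

By `outer_measure_le` the two measures `A ↦ cst * ∫⁻ θ in {rho ∈ A}, ofReal (sin rho ^ N)` (the image under `rho` of `sg n` with a density) and `A ↦ bs (frontier Ω ∩ {rad ∈ A})` (the image of `(bs n).restrict (frontier Ω)` under `rad`) are comparable (`Measure.le_iff`), hence so are the integrals of `φ`
(`lintegral_mono'`, `lintegral_map`, `lintegral_withDensity_eq_lintegral_mul`).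
-/

namespace Pool.Agent.H62.SS

open scoped RealInnerProductSpace MeasureTheory ENNReal NNReal
open MeasureTheory Set Metric
open Pool.Agent.H62.WS (E sg cst)

variable {n : ℕ}

theorem outer_int (hn : 2 ≤ n) {Ω : Set (Sp n)} (h : Dom Ω) (ho : nor n ∈ Ω) {φ : ℝ → ℝ≥0∞}
    (hφ : Measurable φ) :
    cst n * ∫⁻ θ, φ (rho Ω θ) * ENNReal.ofReal (Real.sin (rho Ω θ) ^ (n - 1)) ∂sg n ≤
      ∫⁻ p in frontier Ω, φ (rad p) ∂bs n := by
  let μ₁ : Measure ℝ := (cst n • ((sg n).withDensity
    (fun θ => ENNReal.ofReal (Real.sin (rho Ω θ) ^ (n - 1))))).map (rho Ω)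
  let μ₂ : Measure ℝ := ((bs n).restrict (frontier Ω)).map rad
  have hrm := measurable_rho h ho
  have hfm : Measurable (fun θ => ENNReal.ofReal (Real.sin (rho Ω θ) ^ (n - 1))) :=
    ((Real.measurable_sin.comp hrm).pow_const _).ennreal_ofReal
  have hle : μ₁ ≤ μ₂ := by
    refine Measure.le_iff.2 fun A hA => ?_
    simp only [μ₁, μ₂]
    rw [Measure.map_apply hrm hA, Measure.map_apply continuous_rad.measurable hA,
      Measure.smul_apply, withDensity_apply _ (hrm hA),
      Measure.restrict_apply (continuous_rad.measurable hA), inter_comm, smul_eq_mul]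
    exact outer_measure_le hn h ho hA
  have h1 := lintegral_mono' hle (le_refl φ)
  simp only [μ₁, μ₂] at h1
  have h2 : ∫⁻ θ, φ (rho Ω θ) ∂(sg n).withDensity
      (fun θ => ENNReal.ofReal (Real.sin (rho Ω θ) ^ (n - 1))) =
      ∫⁻ θ, φ (rho Ω θ) * ENNReal.ofReal (Real.sin (rho Ω θ) ^ (n - 1)) ∂sg n := by
    have h3 := lintegral_withDensity_eq_lintegral_mul (sg n) hfm (hφ.comp hrm)
    refine Eq.trans h3 ?_
    apply lintegral_congr
    intro θ
    rw [Pi.mul_apply, mul_comm]
    rfl
  rw [lintegral_map hφ hrm, lintegral_map hφ continuous_rad.measurable, lintegral_smul_measure,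
    h2, smul_eq_mul] at h1
  exact h1

end Pool.Agent.H62.SS
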