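import Pool.Agent.H62.SS.ProfD
import Pool.Agent.H62.SS.Ode2

set_option autoImplicit false

/-!
# [H62 SS PAIR] One pair of directions

`V = VS N`, `s = sin r`, `c = cos r/sin r`, `f = V/s^N`, `g = gS N = s^N/V - N c`: on `(0,π)`: `g' + N c g = N/s² - g²`.  So `(g s^N D²)' = s^N (2 g D D' + (N/s² - g²) D²) ≤ s^N (D'² + N D²/s²)`, integrate over `[ε,R]`, `ε → 0`: `|D(r)| ≤ M r` on `[0,R]`
(mean value inequality), `|g s^N| ≤ C s^(N-1)` near `0` (`V ≥ s^(N+1)/(N+1)` on `[0,π/2]`, so `s^N/V ≤ (N+1)/s`), so `g s^N D² → 0`; the integrand is bounded on `(0,R]` (`sin r ≥ 2r/π`), measurable.  (See H62/WS/Pair.lean.)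
-/

namespace Pool.Agent.H62.SS

open scoped RealInnerProductSpace MeasureTheory ENNReal NNReal
open MeasureTheory Set Metric
open Pool.Agent.H62.WS (E sg cst)

variable {n : ℕ}

theorem le_mul_sin {x : ℝ} (h0 : 0 ≤ x) (h1 : x ≤ Real.pi / 2) :
    x ≤ Real.pi / 2 * Real.sin x := by
  have h2 := Real.mul_le_sin h0 h1
  have hpi := Real.pi_pos
  have h3 : Real.pi / 2 * (2 / Real.pi * x) = x := by
    field_simp
  calc x = Real.pi / 2 * (2 / Real.pi * x) := h3.symm
    _ ≤ Real.pi / 2 * Real.sin x := mul_le_mul_of_nonneg_left h2 (by positivity)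

theorem pair_W {N : ℕ} (hN : 1 ≤ N) {R : ℝ} (hR : 0 < R) (hR' : R < Real.pi / 2) {D D' : ℝ → ℝ}
    (hD : ∀ r ∈ Icc 0 R, HasDerivAt D (D' r) r) (hc : ContinuousOn D' (Icc 0 R)) (h0 : D 0 = 0) :
    ContinuousOn (fun r => Real.sin r ^ N * (D' r ^ 2 + N * D r ^ 2 / Real.sin r ^ 2))
      (Icc 0 R) := by
  obtain ⟨M, hM⟩ := isCompact_Icc.exists_bound_of_continuousOn hc
  have hDM : ∀ r ∈ Icc 0 R, |D r| ≤ M * r := by
    intro r hr
    have := (convex_Icc 0 R).norm_image_sub_le_of_norm_hasDerivWithin_le (f := D) (f' := D')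
      (C := M) (fun x hx => (hD x hx).hasDerivWithinAt) hM (left_mem_Icc.mpr hR.le) hr
    simpa [h0, abs_of_nonneg hr.1] using this
  have hN0 : N ≠ 0 := by omega
  intro r hr
  rcases hr.1.eq_or_lt with h | h
  · subst h
    have hz : Real.sin 0 ^ N * (D' 0 ^ 2 + N * D 0 ^ 2 / Real.sin 0 ^ 2) = 0 := by
      simp [hN0]
    unfold ContinuousWithinAt
    simp only [hz]
    apply squeeze_zero_norm' (a := fun r => Real.sin r ^ N *
      (M ^ 2 + N * (M * (Real.pi / 2)) ^ 2))
    · filter_upwards [self_mem_nhdsWithin] with x hx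
      rcases hx.1.eq_or_lt with hx0 | hx0
      · rw [← hx0, hz, norm_zero, Real.sin_zero, zero_pow hN0, zero_mul]
      · have hs : 0 < Real.sin x := sin_pos1 hx0 (hx.2.trans_lt hR')
        have hsx : x ≤ Real.pi / 2 * Real.sin x := le_mul_sin hx0.le (hx.2.trans hR'.le)
        have h1 : D' x ^ 2 ≤ M ^ 2 := by
          have := hM x hx
          rw [Real.norm_eq_abs] at this
          exact sq_le_sq' (by linarith [neg_abs_le (D' x)]) (by linarith [le_abs_self (D' x)])
        have h2 : D x ^ 2 ≤ (M * (Real.pi / 2 * Real.sin x)) ^ 2 := by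
          have h3 := hDM x hx
          have hM0 : 0 ≤ M := (norm_nonneg _).trans (hM x hx)
          have h4 : M * x ≤ M * (Real.pi / 2 * Real.sin x) := mul_le_mul_of_nonneg_left hsx hM0
          exact sq_le_sq' (by linarith [neg_abs_le (D x)]) (by linarith [le_abs_self (D x)])
        have h5 : (N : ℝ) * D x ^ 2 / Real.sin x ^ 2 ≤ N * (M * (Real.pi / 2)) ^ 2 := by
          rw [div_le_iff₀ (by positivity)]
          have : (N : ℝ) * D x ^ 2 ≤ N * (M * (Real.pi / 2 * Real.sin x)) ^ 2 :=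
            mul_le_mul_of_nonneg_left h2 (by positivity)
          calc (N : ℝ) * D x ^ 2 ≤ N * (M * (Real.pi / 2 * Real.sin x)) ^ 2 := this
            _ = N * (M * (Real.pi / 2)) ^ 2 * Real.sin x ^ 2 := by ring
        have h6 : 0 ≤ Real.sin x ^ N * (D' x ^ 2 + N * D x ^ 2 / Real.sin x ^ 2) := by
          positivity
        rw [Real.norm_of_nonneg h6]
        exact mul_le_mul_of_nonneg_left (by linarith) (by positivity)
    · have hcn : Continuous fun r => Real.sin r ^ N *
          (M ^ 2 + N * (M * (Real.pi / 2)) ^ 2) := by fun_prop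
      have ht := hcn.tendsto 0
      simp only [Real.sin_zero, zero_pow hN0, zero_mul] at ht
      exact ht.mono_left nhdsWithin_le_nhds
  · have hs : Real.sin r ≠ 0 := (sin_pos1 h (hr.2.trans_lt hR')).ne'
    have hD1 : ContinuousWithinAt D (Icc 0 R) r := (hD r hr).continuousAt.continuousWithinAt
    have hD2 : ContinuousWithinAt D' (Icc 0 R) r := hc r hr
    have h1 : ContinuousWithinAt Real.sin (Icc 0 R) r := Real.continuous_sin.continuousWithinAt
    exact (h1.pow N).mul ((hD2.pow 2).add ((continuousWithinAt_const.mul (hD1.pow 2)).div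
      (h1.pow 2) (pow_ne_zero 2 hs)))

theorem pair_F {N : ℕ} (hN : 1 ≤ N) {R : ℝ} (hR : 0 < R) (hR' : R < Real.pi / 2) {D D' : ℝ → ℝ}
    (hD : ∀ r ∈ Icc 0 R, HasDerivAt D (D' r) r) (h0 : D 0 = 0) :
    ContinuousOn (fun r => gS N r * Real.sin r ^ N * D r ^ 2) (Icc 0 R) := by
  obtain ⟨n, rfl⟩ : ∃ n, N = n + 1 := ⟨N - 1, by omega⟩
  have hcR := cos_pos1 hR.le hR'
  intro r hr
  have hD1 : ContinuousWithinAt D (Icc 0 R) r := (hD r hr).continuousAt.continuousWithinAt
  rcases hr.1.eq_or_lt with h | h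
  · subst h
    have hz : gS (n + 1) 0 * Real.sin 0 ^ (n + 1) * D 0 ^ 2 = 0 := by simp
    unfold ContinuousWithinAt
    simp only [hz]
    apply squeeze_zero_norm' (a := fun r => 1 / Real.cos R * (Real.sin r ^ n * D r ^ 2))
    · filter_upwards [self_mem_nhdsWithin] with x hx
      rcases hx.1.eq_or_lt with hx0 | hx0
      · rw [← hx0, hz, norm_zero, h0]
        simp
      · have hx1 := hx.2.trans_lt hR'
        have hs : 0 < Real.sin x := sin_pos1 hx0 hx1
        have hcx : 0 < Real.cos x := cos_pos1 hx0.le hx1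
        have hcc : Real.cos R ≤ Real.cos x :=
          Real.cos_le_cos_of_nonneg_of_le_pi hx0.le (by linarith [Real.pi_pos]) hx.2
        have h1 : Real.sin x * gS (n + 1) x ≤ 1 / Real.cos R := by
          have h2 := (BS_lt (n + 1) hx0 hx1).le
          rw [one_add_tan_sq hx0.le hx1] at h2
          unfold BS at h2
          rw [Real.tan_eq_sin_div_cos] at h2
          have h3 : Real.sin x * gS (n + 1) x =
              Real.cos x * (gS (n + 1) x * (Real.sin x / Real.cos x)) := by
            field_simp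
          have h4 : Real.cos x * (1 / Real.cos x ^ 2) = 1 / Real.cos x := by
            field_simp
          rw [h3]
          refine (mul_le_mul_of_nonneg_left h2 hcx.le).trans ?_
          rw [h4]
          exact one_div_le_one_div_of_le hcR hcc
        have h2 := gS_pos' (n + 1) hx0 hx1
        have h3 : 0 ≤ gS (n + 1) x * Real.sin x ^ (n + 1) * D x ^ 2 := by positivity
        rw [Real.norm_of_nonneg h3]
        have h4 : gS (n + 1) x * Real.sin x ^ (n + 1) * D x ^ 2 =
            (Real.sin x * gS (n + 1) x) * (Real.sin x ^ n * D x ^ 2) := by ring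
        rw [h4]
        exact mul_le_mul_of_nonneg_right h1 (by positivity)
    · have h1 : ContinuousWithinAt Real.sin (Icc 0 R) 0 :=
        Real.continuous_sin.continuousWithinAt
      have h2 : ContinuousWithinAt (fun r => 1 / Real.cos R * (Real.sin r ^ n * D r ^ 2))
          (Icc 0 R) 0 :=
        continuousWithinAt_const.mul ((h1.pow n).mul (hD1.pow 2))
      unfold ContinuousWithinAt at h2
      simpa [h0] using h2
  · have hg : ContinuousWithinAt (gS (n + 1)) (Icc 0 R) r :=
      (hasDerivAt_gS (n + 1) h (by linarith [hr.2, Real.pi_pos])).continuousAt.continuousWithinAt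
    have h1 : ContinuousWithinAt Real.sin (Icc 0 R) r := Real.continuous_sin.continuousWithinAt
    exact (hg.mul (h1.pow (n + 1))).mul (hD1.pow 2)

theorem pair_integrable {N : ℕ} (hN : 1 ≤ N) {R : ℝ} (hR : 0 < R) (hR' : R < Real.pi / 2)
    {D D' : ℝ → ℝ} (hD : ∀ r ∈ Icc 0 R, HasDerivAt D (D' r) r) (hc : ContinuousOn D' (Icc 0 R))
    (h0 : D 0 = 0) :
    IntervalIntegrable (fun r => Real.sin r ^ N * (D' r ^ 2 + N * D r ^ 2 / Real.sin r ^ 2))
      volume 0 R :=
  (pair_W hN hR hR' hD hc h0).intervalIntegrable_of_Icc hR.le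

theorem pair_ineq {N : ℕ} (hN : 1 ≤ N) {R : ℝ} (hR : 0 < R) (hR' : R < Real.pi / 2)
    {D D' : ℝ → ℝ} (hD : ∀ r ∈ Icc 0 R, HasDerivAt D (D' r) r) (hc : ContinuousOn D' (Icc 0 R))
    (h0 : D 0 = 0) :
    gS N R * Real.sin R ^ N * D R ^ 2 ≤
      ∫ r in (0 : ℝ)..R, Real.sin r ^ N * (D' r ^ 2 + N * D r ^ 2 / Real.sin r ^ 2) := by
  have hW := pair_W hN hR hR' hD hc h0
  have hF := pair_F hN hR hR' hD h0
  have key := intervalIntegral.sub_le_integral_of_hasDeriv_right_of_le hR.le hF
    (g' := fun x => ((N / Real.sin x ^ 2 - gS N x ^ 2 -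
      N * (Real.cos x / Real.sin x) * gS N x) * Real.sin x ^ N +
      gS N x * (N * (Real.cos x / Real.sin x) * Real.sin x ^ N)) * D x ^ 2 +
      gS N x * Real.sin x ^ N * (2 * D x ^ (2 - 1) * D' x))
    (fun x hx => by
      have hxs : Real.sin x ≠ 0 := (sin_pos1 hx.1 (hx.2.trans hR')).ne'
      have h1 := hasDerivAt_gS N hx.1 (by linarith [hx.2, Real.pi_pos])
      have h2 := hasDerivAt_pow_sin N hxs
      have h3 := (hD x ⟨hx.1.le, hx.2.le⟩).fun_pow 2
      have h4 := (h1.fun_mul h2).fun_mul h3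
      refine (h4.congr_deriv ?_).hasDerivWithinAt
      push_cast
      ring)
    hW.integrableOn_Icc (fun x hx => by
      have hs : 0 < Real.sin x := sin_pos1 hx.1 (hx.2.trans hR')
      have e2 : ((N / Real.sin x ^ 2 - gS N x ^ 2 -
            N * (Real.cos x / Real.sin x) * gS N x) * Real.sin x ^ N +
            gS N x * (N * (Real.cos x / Real.sin x) * Real.sin x ^ N)) * D x ^ 2 +
            gS N x * Real.sin x ^ N * (2 * D x ^ (2 - 1) * D' x) =
          Real.sin x ^ N * (D' x ^ 2 + N * D x ^ 2 / Real.sin x ^ 2) -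
            Real.sin x ^ N * (D' x - gS N x * D x) ^ 2 := by
        norm_num
        ring
      rw [e2]
      have : 0 ≤ Real.sin x ^ N * (D' x - gS N x * D x) ^ 2 := by positivity
      linarith)
  simpa [h0] using key

end Pool.Agent.H62.SS
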