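import Pool.Agent.H62.SS.Bern

set_option autoImplicit false

/-!
# [H62 SS POLY] The two polynomial inequalities: definitions

`PP` is `(1+q)^2 P` and `MM` is `(N+b)^2 M` of the text, `q = tan² R`, `B = g(R) tan R`, `b = g(r) tan r`, `ζ = tan r/tan R`.
-/

namespace Pool.Agent.H62.SS

noncomputable def PP (N lam a b σ q B : ℝ) : ℝ :=
  N * (1 + q) ^ 2 * (2 - lam - σ) - 2 * N * B * (1 + q) * (1 - (a / 2) * σ + (b / 3) * σ ^ 2) * (q + (1 - σ) ^ 2)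
  + B ^ 2 * (-(σ * ((1 + q) * (a - b * σ) + (2 - σ) * (1 - a * σ + b * σ ^ 2)) ^ 2)
    + 2 * N * (1 + q) * (1 - (a / 2) * σ + (b / 3) * σ ^ 2) * (1 - σ)
    - N * σ * (1 - (a / 2) * σ + (b / 3) * σ ^ 2) ^ 2 * (q + (1 - σ) ^ 2))
  + B ^ 3 * (1 - (a / 2) * σ + (b / 3) * σ ^ 2) * (2 * (q + (1 - σ) ^ 2) * (1 - a * σ + b * σ ^ 2)
    + N * σ * (1 - σ) * (1 - (a / 2) * σ + (b / 3) * σ ^ 2))

noncomputable def MM (N lam ζ q B b : ℝ) : ℝ :=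
  (N + B) ^ 2 * (N * (1 + q * ζ ^ 2) + b ^ 2 - 2 * b * B * ζ) + (N + b) ^ 2 * (B ^ 2 + N * lam - N * (1 + q))

/-- a point of an interval -/
theorem exists_param {L U B : ℝ} (h1 : L ≤ B) (h2 : B ≤ U) (h : L < U) :
    ∃ s : ℝ, 0 ≤ s ∧ s ≤ 1 ∧ B = L + s * (U - L) := by
  refine ⟨(B - L) / (U - L), div_nonneg (by linarith) (by linarith), ?_, ?_⟩
  · rw [div_le_one (by linarith)]
    linarith
  · have : U - L ≠ 0 := by linarith
    rw [div_mul_cancel₀ _ this]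
    ring

end Pool.Agent.H62.SS
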