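import Pool.Agent.H62.SS.Ode1
import Pool.Agent.H62.SS.Poly

set_option autoImplicit false

/-!
# [H62 SS PAR] The parameters of the comparison profile
-/

namespace Pool.Agent.H62.SS

open MeasureTheory Set
open scoped Real

/-- the requirements for the parameters `(lam, a, b)` of the comparison profile -/
structure Par (N : ℕ) (lam a b : ℝ) : Prop where
  lam0 : 0 ≤ lam
  lam1 : lam < 1
  ab : 3 * a ^ 2 ≤ 16 * b
  bpos : 0 < b
  ab' : a ≤ 1 + b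
  PPp : ∀ R : ℝ, 0 < R → R ≤ π / 4 → ∀ σ : ℝ, 0 ≤ σ → σ ≤ 1 →
    0 < PP N lam a b σ (Real.tan R ^ 2) (BS N R)
  MMp : ∀ R : ℝ, R ≤ π / 4 → ∀ r : ℝ, 0 < r → r < R →
    0 < MM N lam (Real.tan r / Real.tan R) (Real.tan R ^ 2) (BS N R) (BS N r)
  kap : ∀ R : ℝ, 0 < R → R ≤ π / 4 →
    0 ≤ N * (1 + Real.tan R ^ 2) - BS N R ^ 2 - N * lam
  quarter : ∃ X : ℝ, 1 ≤ X ∧
    (∀ t : ℝ, 0 ≤ t → t ≤ 1 →
      (1 + BS N (π / 4) / 2 * (t * (1 - a / 2 * t + b / 3 * t ^ 2))) ^ 2 ≤ X) ∧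
    ∀ c : ℝ, 0 ≤ c → c ≤ 1 →
      0 < N * X * (1 + c ^ 2) -
        X * (BS N (π / 4) - (BS N (π / 4) - lam) * (1 - c ^ 2) / (2 * X)) ^ 2 -
        N * c * ((X - 1) * BS N (π / 4) + lam)

theorem tan_sq_mem {R : ℝ} (h0 : 0 < R) (h1 : R ≤ π / 4) :
    0 < Real.tan R ^ 2 ∧ Real.tan R ^ 2 ≤ 1 := by
  have hpi := Real.pi_pos
  have h2 := Real.tan_pos_of_pos_of_lt_pi_div_two h0 (by linarith)
  have h3 : Real.tan R ≤ 1 := by
    rw [← Real.tan_pi_div_four]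
    rcases h1.eq_or_lt with h | h
    · rw [h]
    · exact (Real.tan_lt_tan_of_lt_of_lt_pi_div_two (by linarith) (by linarith) h).le
  constructor
  · positivity
  · nlinarith

theorem lo2_ge {N l q : ℝ} (hN : 0 ≤ N) (hl : 0 ≤ l)
    (h : l * ((N + 3) * (N + 5) + 2 * (N + 2)) ≤ (N + 1) * (N + 5)) (hq : 0 ≤ q) (hq1 : q ≤ 1) :
    1 + l * q ≤ lo2 N q := by
  unfold lo2
  have hD : 0 < (N + 3) * (N + 5) + 2 * (N + 2) * q := by positivity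
  have h2 : l * q ≤ (N + 1) * (N + 5) * q / ((N + 3) * (N + 5) + 2 * (N + 2) * q) := by
    rw [le_div_iff₀ hD]
    have h3 : l * ((N + 3) * (N + 5) + 2 * (N + 2) * q) ≤ (N + 1) * (N + 5) := by
      refine le_trans (mul_le_mul_of_nonneg_left ?_ hl) h
      nlinarith
    nlinarith [mul_le_mul_of_nonneg_left h3 hq]
  linarith

theorem lo2_one_le {N q : ℝ} (hN : 0 ≤ N) (hq : 0 ≤ q) : 1 ≤ lo2 N q := by
  unfold lo2
  have : 0 ≤ (N + 1) * (N + 5) * q / ((N + 3) * (N + 5) + 2 * (N + 2) * q) := by positivity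
  linarith

theorem one_le_BS (N : ℕ) {r : ℝ} (h0 : 0 < r) (h1 : r < π / 2) : 1 ≤ BS N r :=
  (lo2_one_le (Nat.cast_nonneg N) (sq_nonneg _)).trans (lo2_le_BS N h0 h1)

/-- `g` is decreasing up to `π/4` -/
theorem ghat {N : ℝ} (hN : 0 ≤ N) {q B : ℝ} (hq : 0 ≤ q) (hq1 : q ≤ 1) (hB : lo2 N q ≤ B) :
    N * (1 + q) ≤ B ^ 2 + N * B := by
  have h1 := lo2_one_le hN hq
  have h2 : N * (1 + q) ≤ lo2 N q ^ 2 + N * lo2 N q := by
    unfold lo2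
    have hD : 0 < (N + 3) * (N + 5) + 2 * (N + 2) * q := by positivity
    rw [← sub_nonneg]
    have hd : 0 ≤ 1 - q := by linarith
    have e : (1 + (N + 1) * (N + 5) * q / ((N + 3) * (N + 5) + 2 * (N + 2) * q)) ^ 2 +
        N * (1 + (N + 1) * (N + 5) * q / ((N + 3) * (N + 5) + 2 * (N + 2) * q)) - N * (1 + q) =
        (((N + 3) * (N + 5)) ^ 2 * (1 - q) ^ 3 +
          3 * (((N + 3) * (N + 5)) ^ 2 + 2 * (N + 3) * (N + 5) * (N + 3)) * q * (1 - q) ^ 2 +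
          (2 * N ^ 4 + 52 * N ^ 3 + 406 * N ^ 2 + 1232 * N + 1296) * q ^ 2 * (1 - q) +
          (10 * N ^ 3 + 136 * N ^ 2 + 502 * N + 576) * q ^ 3) /
          ((N + 3) * (N + 5) + 2 * (N + 2) * q) ^ 2 := by
      field_simp
      ring
    rw [e]
    positivity
  nlinarith

theorem kap_of {N lam q B : ℝ} (hN : 0 ≤ N) (hq : 0 ≤ q) (hq1 : q ≤ 1) (h0 : 0 ≤ B)
    (hB : B ≤ up1 N q) (h1 : 1 ≤ N * (1 - lam)) (h2 : 4 ≤ N * (2 - lam) ∨
      (1 + (N + 1) / (N + 3)) ^ 2 ≤ N * (2 - lam)) : 0 ≤ N * (1 + q) - B ^ 2 - N * lam := by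
  set w := (N + 1) / (N + 3) with hw
  have hw1 : w ≤ 1 := by
    rw [hw, div_le_one (by positivity)]
    linarith
  have hw0 : 0 ≤ w := by positivity
  have hB' : B ≤ 1 + w * q := by
    have : up1 N q = 1 + w * q := by
      unfold up1
      rw [hw]
      ring
    rwa [this] at hB
  have h3 : (1 + w) ^ 2 ≤ N * (2 - lam) := by
    rcases h2 with h2 | h2
    · nlinarith
    · exact h2
  have h4 : B ^ 2 ≤ (1 + w * q) ^ 2 := by
    have : 0 ≤ 1 + w * q := by positivity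
    nlinarith
  have h5 : (1 + w * q) ^ 2 ≤ (1 - q) + q * (1 + w) ^ 2 := by
    nlinarith [mul_nonneg (mul_nonneg hq (sub_nonneg.2 hq1)) (sq_nonneg w)]
  nlinarith [mul_le_mul_of_nonneg_left h3 hq, mul_le_mul_of_nonneg_left h1 (sub_nonneg.2 hq1)]

/-- the quarter inequality is monotone in `γ` -/
theorem quarter_of {N lam X u γ : ℝ} (hN : 0 ≤ N) (hlam : 0 ≤ lam) (hX : 1 ≤ X) (hγ1 : 1 ≤ γ)
    (hlam1 : lam < 1) (hγ : γ ≤ u) {c : ℝ} (hc : 0 ≤ c) (hc1 : c ≤ 1)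
    (h : 0 < N * X * (1 + c ^ 2) - X * (u - (u - lam) * (1 - c ^ 2) / (2 * X)) ^ 2 -
      N * c * ((X - 1) * u + lam)) :
    0 < N * X * (1 + c ^ 2) - X * (γ - (γ - lam) * (1 - c ^ 2) / (2 * X)) ^ 2 -
      N * c * ((X - 1) * γ + lam) := by
  set k := (1 - c ^ 2) / (2 * X) with hk
  have hc2 : 0 ≤ 1 - c ^ 2 := by nlinarith
  have hk0 : 0 ≤ k := by positivity
  have hk1 : k ≤ 1 := by
    rw [hk, div_le_one (by positivity)]
    nlinarith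
  have e1 : ∀ x : ℝ, x - (x - lam) * (1 - c ^ 2) / (2 * X) = x * (1 - k) + lam * k := by
    intro x
    rw [hk]
    ring
  rw [e1] at h ⊢
  have h2 : γ * (1 - k) + lam * k ≤ u * (1 - k) + lam * k := by nlinarith
  have h3 : 0 ≤ γ * (1 - k) + lam * k := by
    have : 0 ≤ 1 - k := by linarith
    have : 0 ≤ γ := by linarith
    positivity
  have h4 : (γ * (1 - k) + lam * k) ^ 2 ≤ (u * (1 - k) + lam * k) ^ 2 := by nlinarith
  have h5 : X * (γ * (1 - k) + lam * k) ^ 2 ≤ X * (u * (1 - k) + lam * k) ^ 2 :=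
    mul_le_mul_of_nonneg_left h4 (by linarith)
  have h6 : N * c * ((X - 1) * γ + lam) ≤ N * c * ((X - 1) * u + lam) := by
    refine mul_le_mul_of_nonneg_left ?_ (by positivity)
    have := mul_le_mul_of_nonneg_left hγ (sub_nonneg.2 hX)
    linarith
  linarith

theorem sq_of_w {a b w γ u X t : ℝ} (hab : 3 * a ^ 2 ≤ 16 * b) (ht : 0 ≤ t) 
    (hw : t * (1 - a / 2 * t + b / 3 * t ^ 2) ≤ w) (hγ : 0 ≤ γ) (hγu : γ ≤ u)
    (hX : (1 + u / 2 * w) ^ 2 ≤ X) :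
    (1 + γ / 2 * (t * (1 - a / 2 * t + b / 3 * t ^ 2))) ^ 2 ≤ X := by
  have hp : 0 ≤ 1 - a / 2 * t + b / 3 * t ^ 2 := by
    nlinarith [sq_nonneg (1 - a / 4 * t), mul_nonneg (sq_nonneg t) (sub_nonneg.2 hab)]
  set y := t * (1 - a / 2 * t + b / 3 * t ^ 2) with hy
  have hy0 : 0 ≤ y := mul_nonneg ht hp
  have h1 : γ / 2 * y ≤ u / 2 * w := by
    have : γ / 2 ≤ u / 2 := by linarith
    have h2 : 0 ≤ u / 2 := by linarith
    calc γ / 2 * y ≤ u / 2 * y := by gcongr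
      _ ≤ u / 2 * w := by gcongr
  have h2 : 0 ≤ γ / 2 * y := by positivity
  nlinarith

/-- assembling the parameters from the certificates -/
theorem mk_par {N : ℕ} {lam a b l u s w X : ℝ} (hN : 2 ≤ N) (lam0 : 0 ≤ lam) (lam1 : lam < 1)
    (hab : 3 * a ^ 2 ≤ 16 * b) (hb : 0 < b) (hab' : a ≤ 1 + b) (hl0 : 0 ≤ l)
    (hl : l * (((N : ℝ) + 3) * (N + 5) + 2 * (N + 2)) ≤ (N + 1) * (N + 5))
    (hu : ∀ q : ℝ, 0 ≤ q → q ≤ 1 → up3 N q ≤ u + s * q)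
    (hP : ∀ σ q B : ℝ, 0 ≤ σ → σ ≤ 1 → 0 ≤ q → q ≤ 1 → 1 + l * q ≤ B → B ≤ u + s * q →
      0 < PP N lam a b σ q B)
    (hM : ∀ R : ℝ, R ≤ π / 4 → ∀ r : ℝ, 0 < r → r < R →
      0 < MM N lam (Real.tan r / Real.tan R) (Real.tan R ^ 2) (BS N R) (BS N r))
    (hk1 : 1 ≤ N * (1 - lam)) (hk2 : (1 + ((N : ℝ) + 1) / (N + 3)) ^ 2 ≤ N * (2 - lam))
    (hX1 : 1 ≤ X) (hw : ∀ t : ℝ, 0 ≤ t → t ≤ 1 → t * (1 - a / 2 * t + b / 3 * t ^ 2) ≤ w)
    (hX : (1 + (u + s) / 2 * w) ^ 2 ≤ X)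
    (hE : ∀ c : ℝ, 0 ≤ c → c ≤ 1 → 0 < N * X * (1 + c ^ 2) -
      X * ((u + s) - ((u + s) - lam) * (1 - c ^ 2) / (2 * X)) ^ 2 -
      N * c * ((X - 1) * (u + s) + lam)) : Par N lam a b := by
  have hpi := Real.pi_pos
  have hN0 : (0 : ℝ) ≤ N := Nat.cast_nonneg N
  have hlow : ∀ R : ℝ, 0 < R → R ≤ π / 4 → 1 + l * Real.tan R ^ 2 ≤ BS N R := fun R h0 h1 =>
    (lo2_ge hN0 hl0 hl (tan_sq_mem h0 h1).1.le (tan_sq_mem h0 h1).2).trans
      (lo2_le_BS N h0 (by linarith))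
  have hupp : ∀ R : ℝ, 0 < R → R ≤ π / 4 → BS N R ≤ u + s * Real.tan R ^ 2 := fun R h0 h1 =>
    (BS_le_up3 N h0 (by linarith)).trans (hu _ (tan_sq_mem h0 h1).1.le (tan_sq_mem h0 h1).2)
  have hq4 : BS N (π / 4) ≤ u + s := by
    have := hupp (π / 4) (by linarith) le_rfl
    rwa [Real.tan_pi_div_four, one_pow, mul_one] at this
  have h14 := one_le_BS N (r := π / 4) (by linarith) (by linarith)
  refine ⟨lam0, lam1, hab, hb, hab', fun R h0 h1 σ hσ hσ1 => hP σ _ _ hσ hσ1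
    (tan_sq_mem h0 h1).1.le (tan_sq_mem h0 h1).2 (hlow R h0 h1) (hupp R h0 h1), hM,
    fun R h0 h1 => ?_, X, hX1, fun t ht ht1 => ?_, fun c hc hc1 => ?_⟩
  · exact kap_of hN0 (tan_sq_mem h0 h1).1.le (tan_sq_mem h0 h1).2
      (by linarith [one_le_BS N h0 (by linarith)]) (BS_le_up1 N h0 (by linarith)) hk1 (Or.inr hk2)
  · exact sq_of_w hab ht (hw t ht ht1) (by linarith) hq4 hX
  · exact quarter_of hN0 lam0 hX1 h14 lam1 hq4 hc hc1 (hE c hc hc1)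

/-- the second inequality from a certificate with brackets -/
theorem mm_of {N : ℕ} {lam l u s : ℝ} (hl0 : 0 ≤ l)
    (hl : l * (((N : ℝ) + 3) * (N + 5) + 2 * (N + 2)) ≤ (N + 1) * (N + 5))
    (hu : ∀ q : ℝ, 0 ≤ q → q ≤ 1 → up3 N q ≤ u + s * q)
    (hM : ∀ ζ q B b : ℝ, 0 ≤ ζ → ζ ≤ 1 → 0 ≤ q → q ≤ 1 → 1 + l * q ≤ B → B ≤ u + s * q →
      1 + q * ζ ^ 2 * l ≤ b → b ≤ 1 + q * ζ ^ 2 * (((N : ℝ) + 1) / (N + 3)) →
      0 < MM N lam ζ q B b) :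
    ∀ R : ℝ, R ≤ π / 4 → ∀ r : ℝ, 0 < r → r < R →
      0 < MM N lam (Real.tan r / Real.tan R) (Real.tan R ^ 2) (BS N R) (BS N r) := by
  intro R h1 r hr hrR
  have hpi := Real.pi_pos
  have hN0 : (0 : ℝ) ≤ N := Nat.cast_nonneg N
  have h0 : 0 < R := hr.trans hrR
  have hTr := Real.tan_pos_of_pos_of_lt_pi_div_two hr (by linarith)
  have hTR := Real.tan_pos_of_pos_of_lt_pi_div_two h0 (by linarith)
  have hlt : Real.tan r < Real.tan R :=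
    Real.tan_lt_tan_of_lt_of_lt_pi_div_two (by linarith) (by linarith) hrR
  have e : Real.tan R ^ 2 * (Real.tan r / Real.tan R) ^ 2 = Real.tan r ^ 2 := by
    field_simp
  refine hM _ _ _ _ (by positivity) (by rw [div_le_one hTR]; exact hlt.le)
    (tan_sq_mem h0 h1).1.le (tan_sq_mem h0 h1).2 ?_ ?_ ?_ ?_
  · exact (lo2_ge hN0 hl0 hl (tan_sq_mem h0 h1).1.le (tan_sq_mem h0 h1).2).trans
      (lo2_le_BS N h0 (by linarith))
  · exact (BS_le_up3 N h0 (by linarith)).trans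
      (hu _ (tan_sq_mem h0 h1).1.le (tan_sq_mem h0 h1).2)
  · rw [e, mul_comm]
    exact (lo2_ge hN0 hl0 hl (tan_sq_mem hr (by linarith)).1.le
      (tan_sq_mem hr (by linarith)).2).trans (lo2_le_BS N hr (by linarith))
  · rw [e]
    have h2 := BS_le_up1 N hr (by linarith)
    unfold up1 at h2
    refine h2.trans (le_of_eq ?_)
    ring

theorem up3_le {N u s q : ℝ} (hN : 0 ≤ N) (hq : 0 ≤ q)
    (h : (N + 1) / (N + 3) * q * (1 + ee3 N * q) ≤ (u - 1 + s * q) * (1 + (ee2 N + ee3 N) * q)) :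
    up3 N q ≤ u + s * q := by
  have h2 : 0 ≤ ee2 N := by unfold ee2; positivity
  have h3 : 0 ≤ ee3 N := by unfold ee3; positivity
  have hD : 0 < 1 + (ee2 N + ee3 N) * q := by positivity
  unfold up3
  have h4 : (N + 1) / (N + 3) * q * (1 + ee3 N * q) / (1 + (ee2 N + ee3 N) * q) ≤
      u - 1 + s * q := by
    rw [div_le_iff₀ hD]
    exact h
  linarith

end Pool.Agent.H62.SS
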