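import Pool.Agent.H62.SS.Refl
import Pool.Agent.H62.SS.VolBall

set_option autoImplicit false

/-!
# [H62 SS PLZ] Two-point symmetrization

`plz u A = ((A ∪ σA) ∩ {0 ≤ ⟪u,·⟫}) ∪ (A ∩ σA)`, `σ = act (rf u)`.
* `sg_plz`: up to the null set `{⟪u,·⟫ = 0}` (`sg_gsph` with `R = π/2`) the sphere is `P ∪ σP`, `P = {0 < ⟪u,·⟫}`; `sg (plz ∩ P) = sg ((A ∪ σA) ∩ P)`, `sg (plz ∩ σP) = sg (A ∩ σA ∩ σP) = sg (A ∩ σA ∩ P)` (`sg_act_image`), and the sum is `sg (A ∩ P) + sg (σA ∩ P) = sg (A ∩ P) + sg (A ∩ σP)`.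
* `isClosed_plz`, `plz_nonempty` (`x ∈ A`: `x` or `σx` is in `plz`), `plz_inner` (from `inner_rf_right`: for `x, y` with `⟪u,x⟫, ⟪u,y⟫ ≥ 0`: `⟪x,y⟫ ≥ ⟪x,σy⟫`).
-/

namespace Pool.Agent.H62.SS

open scoped RealInnerProductSpace MeasureTheory ENNReal NNReal
open MeasureTheory Set Metric
open Pool.Agent.H62.WS (E sg cst)

variable {n : ℕ}

/-- two-point symmetrization -/
def plz (u : Sp n) (A : Set (Sp n)) : Set (Sp n) :=
  ((A ∪ act (rf u) '' A) ∩ {x | 0 ≤ ⟪(u : E (n + 1)), (x : E (n + 1))⟫}) ∪ (A ∩ act (rf u) '' A)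

private theorem mem_rf_image {u : Sp n} {A : Set (Sp n)} {x : Sp n} :
    x ∈ act (rf u) '' A ↔ act (rf u) x ∈ A := by
  constructor
  · rintro ⟨y, hy, rfl⟩
    rw [rf_rf]
    exact hy
  · intro h
    exact ⟨act (rf u) x, h, rf_rf u x⟩

private theorem rf_image_eq (u : Sp n) (A : Set (Sp n)) :
    act (rf u) '' A = act (rf u) ⁻¹' A := by
  ext x
  exact mem_rf_image

private theorem continuous_inner_u (u : Sp n) :
    Continuous fun x : Sp n => ⟪(u : E (n + 1)), (x : E (n + 1))⟫ := by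
  fun_prop

/-- the sphere is, up to a null set, the union of an open half and its mirror image -/
private theorem sg_split (hn : 2 ≤ n) (u : Sp n) {B : Set (Sp n)} :
    sg (n + 1) B = sg (n + 1) (B ∩ {x | 0 < ⟪(u : E (n + 1)), (x : E (n + 1))⟫}) +
      sg (n + 1) (act (rf u) '' B ∩ {x | 0 < ⟪(u : E (n + 1)), (x : E (n + 1))⟫}) := by
  have hP : MeasurableSet {x : Sp n | 0 < ⟪(u : E (n + 1)), (x : E (n + 1))⟫} :=
    (isOpen_lt continuous_const (continuous_inner_u u)).measurableSet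
  have hZ : sg (n + 1) {x : Sp n | ⟪(u : E (n + 1)), (x : E (n + 1))⟫ = 0} = 0 := by
    have h1 := sg_gsph hn u (Real.pi / 2)
    unfold gsph at h1
    rw [Real.cos_pi_div_two] at h1
    exact h1
  rw [← measure_inter_add_diff B hP]
  congr 1
  have h1 : sg (n + 1) (act (rf u) '' B ∩ {x | 0 < ⟪(u : E (n + 1)), (x : E (n + 1))⟫}) =
      sg (n + 1) (B ∩ {x | ⟪(u : E (n + 1)), (x : E (n + 1))⟫ < 0}) := by
    rw [← sg_act_image (rf u) (B ∩ {x | ⟪(u : E (n + 1)), (x : E (n + 1))⟫ < 0})]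
    congr 1
    ext x
    rw [mem_rf_image, mem_inter_iff, mem_inter_iff, mem_rf_image, mem_setOf_eq, mem_setOf_eq,
      inner_rf, neg_lt_zero]
  rw [h1]
  apply le_antisymm
  · calc sg (n + 1) (B \ {x | 0 < ⟪(u : E (n + 1)), (x : E (n + 1))⟫})
        ≤ sg (n + 1) ((B ∩ {x | ⟪(u : E (n + 1)), (x : E (n + 1))⟫ < 0}) ∪
            {x : Sp n | ⟪(u : E (n + 1)), (x : E (n + 1))⟫ = 0}) := by
          apply measure_mono
          rintro x ⟨hx, hx2⟩
          rw [mem_setOf_eq, not_lt] at hx2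
          rcases hx2.lt_or_eq with h | h
          · exact Or.inl ⟨hx, h⟩
          · exact Or.inr h
      _ ≤ _ := (measure_union_le _ _).trans (by rw [hZ, add_zero])
  · apply measure_mono
    rintro x ⟨hx, hx2⟩
    refine ⟨hx, ?_⟩
    rw [mem_setOf_eq] at hx2 ⊢
    exact not_lt.2 hx2.le

theorem sg_plz (hn : 2 ≤ n) (u : Sp n) {A : Set (Sp n)} (hA : MeasurableSet A) :
    sg (n + 1) (plz u A) = sg (n + 1) A := by
  have hP : MeasurableSet {x : Sp n | 0 < ⟪(u : E (n + 1)), (x : E (n + 1))⟫} :=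
    (isOpen_lt continuous_const (continuous_inner_u u)).measurableSet
  have hA' : MeasurableSet (act (rf u) '' A) := by
    rw [rf_image_eq]
    exact measurable_act _ hA
  rw [sg_split hn u (B := plz u A), sg_split hn u (B := A),
    ← measure_union_add_inter (A ∩ {x | 0 < ⟪(u : E (n + 1)), (x : E (n + 1))⟫}) (hA'.inter hP)]
  congr 2
  · ext x
    simp only [plz, mem_inter_iff, mem_union, mem_setOf_eq]
    constructor
    · rintro ⟨⟨h1 | h1, h2⟩ | ⟨h1, h2⟩, h3⟩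
      · exact Or.inl ⟨h1, h3⟩
      · exact Or.inr ⟨h1, h3⟩
      · exact Or.inl ⟨h1, h3⟩
    · rintro (⟨h1, h3⟩ | ⟨h1, h3⟩)
      · exact ⟨Or.inl ⟨Or.inl h1, h3.le⟩, h3⟩
      · exact ⟨Or.inl ⟨Or.inr h1, h3.le⟩, h3⟩
  · ext x
    rw [mem_inter_iff, mem_rf_image]
    simp only [plz, mem_inter_iff, mem_union, mem_setOf_eq]
    rw [mem_rf_image, rf_rf, inner_rf, mem_rf_image]
    constructor
    · rintro ⟨⟨h1, h2⟩ | ⟨h1, h2⟩, h3⟩
      · linarith
      · exact ⟨⟨h2, h3⟩, h1, h3⟩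
    · rintro ⟨⟨h1, h3⟩, h2, _⟩
      exact ⟨Or.inr ⟨h2, h1⟩, h3⟩

theorem isClosed_plz (u : Sp n) {A : Set (Sp n)} (hA : IsClosed A) : IsClosed (plz u A) := by
  have hA' : IsClosed (act (rf u) '' A) := by
    rw [rf_image_eq]
    exact hA.preimage (act (rf u)).isometry.continuous
  unfold plz
  exact ((hA.union hA').inter (isClosed_le continuous_const (continuous_inner_u u))).union
    (hA.inter hA')

theorem plz_nonempty (u : Sp n) {A : Set (Sp n)} (hA : A.Nonempty) : (plz u A).Nonempty := by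
  obtain ⟨x, hx⟩ := hA
  rcases le_total 0 ⟪(u : E (n + 1)), (x : E (n + 1))⟫ with h | h
  · exact ⟨x, Or.inl ⟨Or.inl hx, h⟩⟩
  · refine ⟨act (rf u) x, Or.inl ⟨Or.inr ⟨x, hx, rfl⟩, ?_⟩⟩
    rw [mem_setOf_eq, inner_rf]
    linarith

theorem plz_inner (u : Sp n) {A : Set (Sp n)}
    (hA : ∀ x ∈ A, ∀ y ∈ A, 0 ≤ ⟪(x : E (n + 1)), (y : E (n + 1))⟫) :
    ∀ x ∈ plz u A, ∀ y ∈ plz u A, 0 ≤ ⟪(x : E (n + 1)), (y : E (n + 1))⟫ := by
  have h0 : ∀ x y : Sp n, act (rf u) x ∈ A → act (rf u) y ∈ A →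
      0 ≤ ⟪(x : E (n + 1)), (y : E (n + 1))⟫ := by
    intro x y hx hy
    rw [← inner_act (rf u)]
    exact hA _ hx _ hy
  have h1 : ∀ x y : Sp n, 0 ≤ ⟪(u : E (n + 1)), (x : E (n + 1))⟫ →
      0 ≤ ⟪(u : E (n + 1)), (y : E (n + 1))⟫ → x ∈ A → act (rf u) y ∈ A →
      0 ≤ ⟪(x : E (n + 1)), (y : E (n + 1))⟫ := by
    intro x y hux huy hx hy
    have h2 := hA _ hx _ hy
    rw [inner_rf_right] at h2
    have h3 := mul_nonneg hux huy
    nlinarith
  rintro x (⟨hx | hx, hux⟩ | ⟨hx, hx2⟩) y (⟨hy | hy, huy⟩ | ⟨hy, hy2⟩)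
  · exact hA x hx y hy
  · exact h1 x y hux huy hx (mem_rf_image.1 hy)
  · exact hA x hx y hy
  · rw [real_inner_comm]
    exact h1 y x huy hux hy (mem_rf_image.1 hx)
  · exact h0 x y (mem_rf_image.1 hx) (mem_rf_image.1 hy)
  · exact h0 x y (mem_rf_image.1 hx) (mem_rf_image.1 hy2)
  · exact hA x hx y hy
  · exact h0 x y (mem_rf_image.1 hx2) (mem_rf_image.1 hy)
  · exact hA x hx y hy

end Pool.Agent.H62.SS
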