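import Pool.Agent.H62.SS.Plz

set_option autoImplicit false

/-!
# [H62 SS PLZA] Two-point symmetrization increases the overlap with a centred ball

`B = cball o r`, `0 ≤ ⟪o,u⟫`: if `⟪z,u⟫ > 0` then `⟪o,z⟫ ≥ ⟪o,σz⟫` (`inner_rf_right`), so `σz ∈ B → z ∈ B`.  With `P = {0 < ⟪u,·⟫}` (the equator is null: `sg_gsph`) and `sg_act_image`:
`sg (plz K ∩ B) = sg ((K ∪ σK) ∩ B ∩ P) + sg (K ∩ σK ∩ σB ∩ P)`, `sg (K ∩ B) = sg (K ∩ B ∩ P) + sg (σK ∩ σB ∩ P)`.  Pointwise on `P`: `1_{K∪σK} 1_B + 1_{K∩σK} 1_{σB} ≥ 1_K 1_B + 1_{σK} 1_{σB} + 1_{W}`, `W = {z ∈ P | z ∈ B \ K, σz ∈ K \ B}` (eight cases, `σB ∩ P ⊆ B`).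
-/

namespace Pool.Agent.H62.SS

open scoped RealInnerProductSpace MeasureTheory ENNReal NNReal
open MeasureTheory Set Metric
open Pool.Agent.H62.WS (E sg cst)

variable {n : ℕ}

private theorem mem_rf_image' {u : Sp n} {A : Set (Sp n)} {x : Sp n} :
    x ∈ act (rf u) '' A ↔ act (rf u) x ∈ A := by
  constructor
  · rintro ⟨y, hy, rfl⟩
    rw [rf_rf]
    exact hy
  · intro h
    exact ⟨act (rf u) x, h, rf_rf u x⟩

private theorem plza_cont (u : Sp n) :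
    Continuous fun x : Sp n => ⟪(u : E (n + 1)), (x : E (n + 1))⟫ := by
  fun_prop

/-- the sphere is, up to a null set, the union of an open half and its mirror image -/
private theorem plza_split (hn : 2 ≤ n) (u : Sp n) {B : Set (Sp n)} :
    sg (n + 1) B = sg (n + 1) (B ∩ {x | 0 < ⟪(u : E (n + 1)), (x : E (n + 1))⟫}) +
      sg (n + 1) (act (rf u) ⁻¹' B ∩ {x | 0 < ⟪(u : E (n + 1)), (x : E (n + 1))⟫}) := by
  have hP : MeasurableSet {x : Sp n | 0 < ⟪(u : E (n + 1)), (x : E (n + 1))⟫} :=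
    (isOpen_lt continuous_const (plza_cont u)).measurableSet
  have hZ : sg (n + 1) {x : Sp n | ⟪(u : E (n + 1)), (x : E (n + 1))⟫ = 0} = 0 := by
    have h1 := sg_gsph hn u (Real.pi / 2)
    unfold gsph at h1
    rw [Real.cos_pi_div_two] at h1
    exact h1
  rw [← measure_inter_add_diff B hP]
  congr 1
  have h1 : sg (n + 1) (act (rf u) ⁻¹' B ∩ {x | 0 < ⟪(u : E (n + 1)), (x : E (n + 1))⟫}) =
      sg (n + 1) (B ∩ {x | ⟪(u : E (n + 1)), (x : E (n + 1))⟫ < 0}) := by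
    rw [← sg_act_image (rf u) (B ∩ {x | ⟪(u : E (n + 1)), (x : E (n + 1))⟫ < 0})]
    congr 1
    ext x
    rw [mem_rf_image', mem_inter_iff, mem_inter_iff, mem_preimage, mem_setOf_eq, mem_setOf_eq,
      inner_rf, neg_lt_zero]
  rw [h1]
  apply le_antisymm
  · calc sg (n + 1) (B \ {x | 0 < ⟪(u : E (n + 1)), (x : E (n + 1))⟫})
        ≤ sg (n + 1) ((B ∩ {x | ⟪(u : E (n + 1)), (x : E (n + 1))⟫ < 0}) ∪
            {x : Sp n | ⟪(u : E (n + 1)), (x : E (n + 1))⟫ = 0}) := by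
          apply measure_mono
          rintro x ⟨hx, hx2⟩
          rw [mem_setOf_eq, not_lt] at hx2
          rcases hx2.lt_or_eq with h | h
          · exact Or.inl ⟨hx, h⟩
          · exact Or.inr h
      _ ≤ _ := (measure_union_le _ _).trans (by rw [hZ, add_zero])
  · apply measure_mono
    rintro x ⟨hx, hx2⟩
    refine ⟨hx, ?_⟩
    rw [mem_setOf_eq] at hx2 ⊢
    exact not_lt.2 hx2.le

theorem sg_plz_inter (hn : 2 ≤ n) {o u : Sp n} (hu : 0 ≤ ⟪(o : E (n + 1)), (u : E (n + 1))⟫)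
    (r : ℝ) {K : Set (Sp n)} (hK : MeasurableSet K) :
    sg (n + 1) (K ∩ cball o r) + sg (n + 1) {z | 0 < ⟪(u : E (n + 1)), (z : E (n + 1))⟫ ∧
        z ∈ cball o r \ K ∧ act (rf u) z ∈ K \ cball o r} ≤
      sg (n + 1) (plz u K ∩ cball o r) := by
  obtain ⟨P, hPd⟩ : ∃ P : Set (Sp n),
      P = {x : Sp n | 0 < ⟪(u : E (n + 1)), (x : E (n + 1))⟫} := ⟨_, rfl⟩
  obtain ⟨B, hBd⟩ : ∃ B : Set (Sp n), B = cball o r := ⟨_, rfl⟩
  obtain ⟨f, hfd⟩ : ∃ f : Sp n → Sp n, f = act (rf u) := ⟨_, rfl⟩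
  have hP : MeasurableSet P := by
    rw [hPd]
    exact (isOpen_lt continuous_const (plza_cont u)).measurableSet
  have hB : MeasurableSet B := by
    rw [hBd]
    exact (isClosed_cball o r).measurableSet
  have hf : Measurable f := by
    rw [hfd]
    exact measurable_act _
  have hff : ∀ z, f (f z) = z := by
    intro z
    rw [hfd]
    exact rf_rf u z
  have hPB : ∀ z ∈ P, f z ∈ B → z ∈ B := by
    intro z hz hz2
    rw [hPd, mem_setOf_eq] at hz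
    rw [hBd, hfd] at hz2
    rw [hBd]
    unfold cball at hz2 ⊢
    rw [mem_setOf_eq, inner_rf_right, real_inner_comm (o : E (n + 1)) (u : E (n + 1))] at hz2
    rw [mem_setOf_eq]
    nlinarith [mul_nonneg hu hz.le]
  have hplz : ∀ z, z ∈ plz u K ↔ ((z ∈ K ∨ f z ∈ K) ∧ 0 ≤ ⟪(u : E (n + 1)), (z : E (n + 1))⟫) ∨
      (z ∈ K ∧ f z ∈ K) := by
    intro z
    unfold plz
    rw [mem_union, mem_inter_iff, mem_union, mem_inter_iff, mem_rf_image', hfd]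
    rfl
  rw [← hBd]
  have hW : {z : Sp n | 0 < ⟪(u : E (n + 1)), (z : E (n + 1))⟫ ∧ z ∈ B \ K ∧ act (rf u) z ∈ K \ B} =
      P ∩ ((B \ K) ∩ f ⁻¹' (K \ B)) := by
    rw [hPd, hfd]
    rfl
  rw [hW, plza_split hn u (B := K ∩ B), plza_split hn u (B := plz u K ∩ B), ← hPd, ← hfd]
  have hWm : MeasurableSet (P ∩ ((B \ K) ∩ f ⁻¹' (K \ B))) :=
    hP.inter ((hB.diff hK).inter (hf (hK.diff hB)))
  have hX2 : MeasurableSet (f ⁻¹' (K ∩ B) ∩ P) := (hf (hK.inter hB)).inter hP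
  rw [← measure_union_add_inter (K ∩ B ∩ P) hX2]
  have h1 : sg (n + 1) (K ∩ B ∩ P ∪ f ⁻¹' (K ∩ B) ∩ P) +
      sg (n + 1) (P ∩ ((B \ K) ∩ f ⁻¹' (K \ B))) ≤ sg (n + 1) (plz u K ∩ B ∩ P) := by
    rw [← measure_union _ hWm]
    · apply measure_mono
      rintro z ((⟨⟨h1, h2⟩, h3⟩ | ⟨⟨h1, h2⟩, h3⟩) | ⟨h3, ⟨h1, h2⟩, h4, h5⟩)
      · refine ⟨⟨(hplz z).2 (Or.inl ⟨Or.inl h1, ?_⟩), h2⟩, h3⟩
        rw [hPd] at h3
        exact le_of_lt h3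
      · refine ⟨⟨(hplz z).2 (Or.inl ⟨Or.inr h1, ?_⟩), hPB z h3 h2⟩, h3⟩
        rw [hPd] at h3
        exact le_of_lt h3
      · refine ⟨⟨(hplz z).2 (Or.inl ⟨Or.inr h4, ?_⟩), h1⟩, h3⟩
        rw [hPd] at h3
        exact le_of_lt h3
    · rw [Set.disjoint_left]
      rintro z (⟨⟨h1, h2⟩, h3⟩ | ⟨⟨h1, h2⟩, h3⟩) ⟨_, ⟨h4, h5⟩, h6, h7⟩
      · exact h5 h1
      · exact h7 h2
  have h2 : sg (n + 1) (K ∩ B ∩ P ∩ (f ⁻¹' (K ∩ B) ∩ P)) ≤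
      sg (n + 1) (f ⁻¹' (plz u K ∩ B) ∩ P) := by
    apply measure_mono
    rintro z ⟨⟨⟨h1, h2⟩, h3⟩, ⟨h4, h5⟩, _⟩
    refine ⟨⟨(hplz _).2 (Or.inr ⟨h4, ?_⟩), h5⟩, h3⟩
    rw [hff]
    exact h1
  calc _ = sg (n + 1) (K ∩ B ∩ P ∪ f ⁻¹' (K ∩ B) ∩ P) +
        sg (n + 1) (P ∩ ((B \ K) ∩ f ⁻¹' (K \ B))) +
        sg (n + 1) (K ∩ B ∩ P ∩ (f ⁻¹' (K ∩ B) ∩ P)) := by abel
    _ ≤ _ := add_le_add h1 h2

end Pool.Agent.H62.SS
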