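import Pool.Agent.H62.SS.Refl
import Pool.Agent.H62.SS.VolBall

set_option autoImplicit false

/-!
# [H62 SS PLZB] A reflection which matches two sets of positive measure

Density points: apply `Besicovitch.ae_tendsto_measure_inter_div` in `E (n+1)` to the finite measure `μ = (sg (n+1)).map Subtype.val` and the (measurable) images of `A` and `A'`: there are `x ∈ A`, `y ∈ A'` (sets of positive measure) such that for all small `ρ > 0`:
`μ (A ∩ closedBall x ρ) > 2/3 μ (closedBall x ρ)` and the same for `y`, `A'`, and `μ (closedBall y ρ) > 0`.  `u` from `rf_swap` (`x ≠ y` as `A`, `A'` are disjoint): `rf u` maps `closedBall x ρ` to `closedBall y ρ` and preserves `μ`, so `σA` and `A'` both fill more than `2/3` of `closedBall y ρ`, which is contained in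
`{0 < ⟪u,·⟫}` for small `ρ`.
-/

namespace Pool.Agent.H62.SS

open scoped RealInnerProductSpace MeasureTheory ENNReal NNReal
open MeasureTheory Set Metric
open Pool.Agent.H62.WS (E sg cst)

variable {n : ℕ}

/-- density points on the sphere -/
private theorem exists_density {A : Set (Sp n)} (hA : MeasurableSet A) (h0 : 0 < sg (n + 1) A) :
    ∃ x ∈ A, ∀ᶠ ρ in nhdsWithin (0 : ℝ) (Ioi 0),
      ENNReal.ofReal (2 / 3) * sg (n + 1) (closedBall x ρ) < sg (n + 1) (A ∩ closedBall x ρ) ∧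
      sg (n + 1) (closedBall x ρ) ≠ 0 := by
  have hme : MeasurableEmbedding (Subtype.val : Sp n → E (n + 1)) :=
    MeasurableEmbedding.subtype_coe isClosed_sphere.measurableSet
  obtain ⟨μ, hμ⟩ : ∃ μ : Measure (E (n + 1)), μ = (sg (n + 1)).map Subtype.val := ⟨_, rfl⟩
  haveI : IsFiniteMeasure μ := by
    rw [hμ]
    infer_instance
  have hμi : ∀ S : Set (Sp n), μ (Subtype.val '' S) = sg (n + 1) S := by
    intro S
    rw [hμ, hme.map_apply, preimage_image_eq _ Subtype.val_injective]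
  have h1 := Besicovitch.ae_tendsto_measure_inter_div μ (Subtype.val '' A)
  have h2 : μ (Subtype.val '' A) ≠ 0 := by
    rw [hμi]
    exact h0.ne'
  obtain ⟨_, ⟨x, hx, rfl⟩, hx2⟩ := Measure.exists_mem_of_measure_ne_zero_of_ae h2 h1
  refine ⟨x, hx, ?_⟩
  have h3 : ENNReal.ofReal (2 / 3) < 1 := by
    rw [← ENNReal.ofReal_one]
    exact (ENNReal.ofReal_lt_ofReal_iff one_pos).2 (by norm_num)
  filter_upwards [hx2.eventually (lt_mem_nhds h3)] with ρ hρ
  have h4 : μ (closedBall (x : E (n + 1)) ρ) = sg (n + 1) (closedBall x ρ) := by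
    rw [hμ, hme.map_apply]
    congr 1
  have h5 : μ (Subtype.val '' A ∩ closedBall (x : E (n + 1)) ρ) =
      sg (n + 1) (A ∩ closedBall x ρ) := by
    rw [← hμi]
    congr 1
    ext z
    constructor
    · rintro ⟨⟨w, hw, rfl⟩, hz⟩
      exact ⟨w, ⟨hw, hz⟩, rfl⟩
    · rintro ⟨w, ⟨hw, hz⟩, rfl⟩
      exact ⟨⟨w, hw, rfl⟩, hz⟩
  rw [h4, h5] at hρ
  have h6 : sg (n + 1) (closedBall x ρ) ≠ 0 := by
    intro h
    have h7 : sg (n + 1) (A ∩ closedBall x ρ) = 0 := measure_mono_null inter_subset_right h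
    rw [h, h7, ENNReal.zero_div] at hρ
    exact absurd hρ not_lt_zero
  refine ⟨?_, h6⟩
  rwa [ENNReal.lt_div_iff_mul_lt (Or.inl h6) (Or.inl (measure_ne_top _ _))] at hρ

theorem exists_match {A A' : Set (Sp n)} (hA : MeasurableSet A) (hA' : MeasurableSet A')
    (hd : Disjoint A A') (h0 : 0 < sg (n + 1) A) (h1 : 0 < sg (n + 1) A') :
    ∃ x ∈ A, ∃ y ∈ A', ∃ u : Sp n, act (rf u) x = y ∧
      (∀ z : Sp n, ⟪(u : E (n + 1)), (z : E (n + 1))⟫ =
        ‖(y : E (n + 1)) - (x : E (n + 1))‖⁻¹ *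
          (⟪(z : E (n + 1)), (y : E (n + 1))⟫ - ⟪(z : E (n + 1)), (x : E (n + 1))⟫)) ∧
      0 < sg (n + 1) {z | 0 < ⟪(u : E (n + 1)), (z : E (n + 1))⟫ ∧ z ∈ A' ∧ act (rf u) z ∈ A} := by
  obtain ⟨x, hx, hx2⟩ := exists_density hA h0
  obtain ⟨y, hy, hy2⟩ := exists_density hA' h1
  have hxy : x ≠ y := by
    rintro rfl
    exact Set.disjoint_left.1 hd hx hy
  obtain ⟨u, hu1, hu2, hu3, hu4⟩ := rf_swap hxy
  refine ⟨x, hx, y, hy, u, hu1, hu4, ?_⟩
  have h3 : ∀ᶠ ρ in nhdsWithin (0 : ℝ) (Ioi 0), ρ < ⟪(u : E (n + 1)), (y : E (n + 1))⟫ :=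
    nhdsWithin_le_nhds (gt_mem_nhds hu3)
  obtain ⟨ρ, ⟨hρ1, hρ2⟩, ⟨hρ3, _⟩, hρ4⟩ := (hx2.and (hy2.and h3)).exists
  obtain ⟨m, hm⟩ : ∃ m : ℝ≥0∞, m = sg (n + 1) (closedBall y ρ) := ⟨_, rfl⟩
  have himg : act (rf u) '' closedBall x ρ = closedBall y ρ := by
    rw [← hu1]
    exact (act (rf u)).image_closedBall x ρ
  have hmx : sg (n + 1) (closedBall x ρ) = m := by
    rw [hm, ← himg, sg_act_image]
  have hσ : sg (n + 1) (act (rf u) '' (A ∩ closedBall x ρ)) =
      sg (n + 1) (A ∩ closedBall x ρ) := sg_act_image _ _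
  rw [hmx] at hρ1 hρ2
  rw [← hm] at hρ3
  have hmt : m ≠ ∞ := by
    rw [hm]
    exact measure_ne_top _ _
  have hm4 : MeasurableSet (A' ∩ closedBall y ρ) := hA'.inter isClosed_closedBall.measurableSet
  have hsub : act (rf u) '' (A ∩ closedBall x ρ) ∪ (A' ∩ closedBall y ρ) ⊆ closedBall y ρ := by
    rintro z (⟨w, ⟨_, hw⟩, rfl⟩ | ⟨_, hz⟩)
    · rw [← himg]
      exact ⟨w, hw, rfl⟩
    · exact hz
  have h5 := measure_union_add_inter (μ := sg (n + 1)) (act (rf u) '' (A ∩ closedBall x ρ)) hm4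
  rw [hσ] at h5
  have h6 : 0 < sg (n + 1) (act (rf u) '' (A ∩ closedBall x ρ) ∩ (A' ∩ closedBall y ρ)) := by
    by_contra h
    rw [not_lt, nonpos_iff_eq_zero] at h
    rw [h, add_zero] at h5
    have h7 : sg (n + 1) (A ∩ closedBall x ρ) + sg (n + 1) (A' ∩ closedBall y ρ) ≤ m := by
      rw [← h5, hm]
      exact measure_mono hsub
    have h8 := (ENNReal.add_lt_add hρ1 hρ3).trans_le h7
    rw [← add_mul, ← ENNReal.ofReal_add (by norm_num) (by norm_num)] at h8
    have h9 : m ≤ ENNReal.ofReal (2 / 3 + 2 / 3) * m := by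
      calc m = 1 * m := (one_mul m).symm
        _ ≤ ENNReal.ofReal (2 / 3 + 2 / 3) * m := by
          gcongr
          rw [← ENNReal.ofReal_one]
          exact ENNReal.ofReal_le_ofReal (by norm_num)
    exact absurd (h9.trans_lt h8) (lt_irrefl _)
  refine h6.trans_le (measure_mono ?_)
  rintro z ⟨⟨w, ⟨hw, _⟩, rfl⟩, hz2, hz3⟩
  refine ⟨?_, hz2, ?_⟩
  · rw [mem_closedBall, Subtype.dist_eq, dist_eq_norm] at hz3
    have h7 := abs_real_inner_le_norm (u : E (n + 1))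
      ((act (rf u) w : E (n + 1)) - (y : E (n + 1)))
    rw [norm_coe, one_mul, inner_sub_right] at h7
    have h8 := neg_le_of_abs_le h7
    linarith
  · rw [rf_rf]
    exact hw

end Pool.Agent.H62.SS
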