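import Pool.Agent.H62.SS.PlzA
import Pool.Agent.H62.SS.PlzB

set_option autoImplicit false

/-!
# [H62 SS PLZGAIN] The strict increase

`B = cball o r`; `A = K \ B`, `A' = B \ K`: `exists_match`; `⟪o,u⟫ = ‖y-x‖⁻¹ (⟪o,y⟫ - ⟪o,x⟫) > 0` as `y ∈ B`, `x ∉ B`.  `sg_plz_inter`, all measures finite.
-/

namespace Pool.Agent.H62.SS

open scoped RealInnerProductSpace MeasureTheory ENNReal NNReal
open MeasureTheory Set Metric
open Pool.Agent.H62.WS (E sg cst)

variable {n : ℕ}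

theorem exists_plz_gain (hn : 2 ≤ n) (o : Sp n) (r : ℝ) {K : Set (Sp n)} (hK : IsClosed K)
    (h0 : 0 < sg (n + 1) (K \ cball o r)) (h1 : 0 < sg (n + 1) (cball o r \ K)) :
    ∃ u : Sp n, 0 ≤ ⟪(o : E (n + 1)), (u : E (n + 1))⟫ ∧
      sg (n + 1) (K ∩ cball o r) < sg (n + 1) (plz u K ∩ cball o r) := by
  have hB : MeasurableSet (cball o r) := (isClosed_cball o r).measurableSet
  obtain ⟨x, hx, y, hy, u, hu1, hu2, hu3⟩ := exists_match (hK.measurableSet.diff hB)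
    (hB.diff hK.measurableSet)
    (by
      rw [Set.disjoint_left]
      rintro z ⟨h2, h3⟩ ⟨h4, h5⟩
      exact h3 h4) h0 h1
  have hne : x ≠ y := by
    rintro rfl
    exact hx.2 hy.1
  have hpos : 0 < ‖(y : E (n + 1)) - (x : E (n + 1))‖⁻¹ := by
    rw [inv_pos, norm_pos_iff, sub_ne_zero]
    intro h
    exact hne (Subtype.ext h.symm)
  have hou : 0 ≤ ⟪(o : E (n + 1)), (u : E (n + 1))⟫ := by
    rw [real_inner_comm, hu2 o]
    apply mul_nonneg hpos.le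
    have h2 : Real.cos r ≤ ⟪(o : E (n + 1)), (y : E (n + 1))⟫ := hy.1
    have h3 : ¬ Real.cos r ≤ ⟪(o : E (n + 1)), (x : E (n + 1))⟫ := hx.2
    linarith [not_le.1 h3]
  refine ⟨u, hou, ?_⟩
  refine lt_of_lt_of_le ?_ (sg_plz_inter hn hou r hK.measurableSet)
  exact ENNReal.lt_add_right (measure_ne_top _ _) hu3.ne'

end Pool.Agent.H62.SS
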