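import Pool.Agent.H62.SS.Sph

set_option autoImplicit false

/-!
# [H62 SS POL] Polar coordinates around the north pole

`rad p = arccos (p 0)`.  All statements are coordinate computations: `inner_eq`, `inner_e0_inc`, `inner_inc`, `norm_e0`, `norm_sq_eq` (Sph), `‖θ‖ = 1`.
* `dist_pol_sq`: `dist² = 2 - 2 ⟪·,·⟫` for unit vectors, `dist θ η ^ 2 = 2 - 2 ⟪θ,η⟫`, `cos (r - s)`.
* `sin_mul_dist_le`: `dist² ≥ sin s sin s' dist θ η ^ 2 ≥ sin² r dist θ η ^ 2` (sine increasing on `[0,π/2]`).
* `exists_pol`: `‖dn p‖ = sin (rad p)` (`norm_sq_eq`, `1 - p₀²`); if it is `0` take any `θ` (`n ≥ 1`: the sphere is nonempty), else `θ = dn p/‖dn p‖` (`decomp`).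
* `pol_inj`: compare the coordinate `0` (`cos` injective on `[0,π]`), then `inc` is injective.
-/

namespace Pool.Agent.H62.SS

open scoped RealInnerProductSpace MeasureTheory ENNReal NNReal
open MeasureTheory Set Metric
open Pool.Agent.H62.WS (E sg cst)

variable {n : ℕ}

/-- the geodesic distance to the north pole -/
noncomputable def rad (p : Sp n) : ℝ := Real.arccos ((p : E (n + 1)) 0)

theorem pol_coe (r : ℝ) (θ : sphere (0 : E n) 1) :
    (pol r θ : E (n + 1)) = Real.cos r • e0 n + Real.sin r • inc n (θ : E n) := rfl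

theorem pol_apply_zero (r : ℝ) (θ : sphere (0 : E n) 1) : (pol r θ : E (n + 1)) 0 = Real.cos r := by
  rw [pol_coe]
  simp

theorem norm_theta (θ : sphere (0 : E n) 1) : ‖(θ : E n)‖ = 1 := by simp

theorem inner_pol (r s : ℝ) (θ η : sphere (0 : E n) 1) :
    ⟪(pol r θ : E (n + 1)), (pol s η : E (n + 1))⟫ =
      Real.cos r * Real.cos s + Real.sin r * Real.sin s * ⟪(θ : E n), (η : E n)⟫ := by
  rw [pol_coe, pol_coe, inner_add_left, inner_add_right, inner_add_right, real_inner_smul_left,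
    real_inner_smul_left, real_inner_smul_left, real_inner_smul_left, real_inner_smul_right,
    real_inner_smul_right, real_inner_smul_right, real_inner_smul_right, inner_inc,
    real_inner_self_eq_norm_sq, norm_e0, inner_e0_inc, real_inner_comm, inner_e0_inc]
  ring

theorem inner_nor (p : Sp n) : ⟪(nor n : E (n + 1)), (p : E (n + 1))⟫ = (p : E (n + 1)) 0 :=
  inner_e0 _

theorem dist_sq_eq (p q : Sp n) : dist p q ^ 2 = 2 - 2 * ⟪(p : E (n + 1)), (q : E (n + 1))⟫ := by
  rw [Subtype.dist_eq, dist_eq_norm, @norm_sub_sq_real, norm_coe, norm_coe]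
  ring

theorem dist_theta_sq (θ η : sphere (0 : E n) 1) :
    dist θ η ^ 2 = 2 - 2 * ⟪(θ : E n), (η : E n)⟫ := by
  rw [Subtype.dist_eq, dist_eq_norm, @norm_sub_sq_real, norm_theta, norm_theta]
  ring

theorem dist_pol_sq (r s : ℝ) (θ η : sphere (0 : E n) 1) :
    dist (pol r θ) (pol s η) ^ 2 =
      2 - 2 * Real.cos (r - s) + Real.sin r * Real.sin s * dist θ η ^ 2 := by
  rw [dist_sq_eq, inner_pol, dist_theta_sq, Real.cos_sub]
  ring

theorem dist_pol_pol {r : ℝ} (hr : 0 ≤ Real.sin r) (θ η : sphere (0 : E n) 1) :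
    dist (pol r θ) (pol r η) = Real.sin r * dist θ η := by
  have h := dist_pol_sq r r θ η
  rw [sub_self, Real.cos_zero] at h
  have h2 : dist (pol r θ) (pol r η) ^ 2 = (Real.sin r * dist θ η) ^ 2 := by
    rw [h]
    ring
  exact (pow_left_inj₀ dist_nonneg (mul_nonneg hr dist_nonneg) two_ne_zero).1 h2

theorem sin_mul_dist_le {r s s' : ℝ} (hr : 0 ≤ r) (h1 : r ≤ s) (h2 : r ≤ s')
    (h3 : s ≤ Real.pi / 2) (h4 : s' ≤ Real.pi / 2) (θ η : sphere (0 : E n) 1) :
    Real.sin r * dist θ η ≤ dist (pol s θ) (pol s' η) := by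
  have hpi := Real.pi_pos
  have hsr : 0 ≤ Real.sin r := Real.sin_nonneg_of_nonneg_of_le_pi hr (by linarith)
  have ha : Real.sin r ≤ Real.sin s := Real.sin_le_sin_of_le_of_le_pi_div_two (by linarith) h3 h1
  have hb : Real.sin r ≤ Real.sin s' := Real.sin_le_sin_of_le_of_le_pi_div_two (by linarith) h4 h2
  have hc := Real.cos_le_one (s - s')
  have h5 : (Real.sin r * dist θ η) ^ 2 ≤ dist (pol s θ) (pol s' η) ^ 2 := by
    rw [dist_pol_sq]
    have h6 : Real.sin r * Real.sin r ≤ Real.sin s * Real.sin s' :=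
      mul_le_mul ha hb hsr (hsr.trans ha)
    have h7 := mul_le_mul_of_nonneg_right h6 (sq_nonneg (dist θ η))
    nlinarith
  exact (pow_le_pow_iff_left₀ (mul_nonneg hsr dist_nonneg) dist_nonneg two_ne_zero).1 h5

theorem abs_apply_zero_le (p : Sp n) : -1 ≤ (p : E (n + 1)) 0 ∧ (p : E (n + 1)) 0 ≤ 1 := by
  have h := norm_sq_eq (p : E (n + 1))
  rw [norm_coe] at h
  have h2 := sq_nonneg ‖dn n (p : E (n + 1))‖
  constructor <;> nlinarith

theorem cos_rad (p : Sp n) : Real.cos (rad p) = (p : E (n + 1)) 0 :=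
  Real.cos_arccos (abs_apply_zero_le p).1 (abs_apply_zero_le p).2

theorem rad_nonneg (p : Sp n) : 0 ≤ rad p := Real.arccos_nonneg _

theorem rad_le_pi (p : Sp n) : rad p ≤ Real.pi := Real.arccos_le_pi _

theorem rad_pol {r : ℝ} (h0 : 0 ≤ r) (h1 : r ≤ Real.pi) (θ : sphere (0 : E n) 1) :
    rad (pol r θ) = r := by
  unfold rad
  rw [pol_apply_zero, Real.arccos_cos h0 h1]

theorem rad_nor : rad (nor n) = 0 := by
  unfold rad nor
  simp

theorem continuous_rad : Continuous (rad : Sp n → ℝ) := by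
  unfold rad
  refine Real.continuous_arccos.comp ?_
  exact (PiLp.continuous_apply 2 _ 0).comp continuous_subtype_val

theorem exists_pol (hn : 1 ≤ n) (p : Sp n) : ∃ θ : sphere (0 : E n) 1, p = pol (rad p) θ := by
  have hs : Real.sin (rad p) = ‖dn n (p : E (n + 1))‖ := by
    have h := norm_sq_eq (p : E (n + 1))
    rw [norm_coe, ← cos_rad] at h
    have h2 := Real.sin_sq_add_cos_sq (rad p)
    have h3 : Real.sin (rad p) ^ 2 = ‖dn n (p : E (n + 1))‖ ^ 2 := by linarith
    exact (pow_left_inj₀ (Real.sin_nonneg_of_nonneg_of_le_pi (rad_nonneg p) (rad_le_pi p))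
      (norm_nonneg _) two_ne_zero).1 h3
  by_cases h0 : dn n (p : E (n + 1)) = 0
  · refine ⟨⟨EuclideanSpace.single ⟨0, hn⟩ 1, by simp⟩, ?_⟩
    ext1
    rw [pol_coe, hs, h0, norm_zero, zero_smul, add_zero, cos_rad]
    conv_lhs => rw [decomp (p : E (n + 1)), h0]
    simp
  · have hne : ‖dn n (p : E (n + 1))‖ ≠ 0 := norm_ne_zero_iff.2 h0
    refine ⟨⟨‖dn n (p : E (n + 1))‖⁻¹ • dn n (p : E (n + 1)), by
      rw [mem_sphere_zero_iff_norm, norm_smul, norm_inv, norm_norm, inv_mul_cancel₀ hne]⟩, ?_⟩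
    ext1
    rw [pol_coe, hs, cos_rad, map_smul, smul_smul, mul_inv_cancel₀ hne, one_smul]
    exact decomp _

theorem pol_inj {r s : ℝ} {θ η : sphere (0 : E n) 1} (hr : r ∈ Ioo 0 Real.pi)
    (hs : s ∈ Ioo 0 Real.pi) (h : pol r θ = pol s η) : r = s ∧ θ = η := by
  have h1 : r = s := by
    have h2 := congrArg rad h
    rwa [rad_pol hr.1.le hr.2.le, rad_pol hs.1.le hs.2.le] at h2
  subst h1
  refine ⟨rfl, ?_⟩
  have h3 := dist_pol_pol (Real.sin_pos_of_pos_of_lt_pi hr.1 hr.2).le θ η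
  rw [h, dist_self] at h3
  have h4 := (Real.sin_pos_of_pos_of_lt_pi hr.1 hr.2).ne'
  exact dist_eq_zero.1 ((mul_eq_zero.1 h3.symm).resolve_left h4)

theorem continuous_pol : Continuous (fun z : ℝ × sphere (0 : E n) 1 => pol z.1 z.2) := by
  refine Continuous.subtype_mk ?_ _
  have h1 : Continuous (fun z : ℝ × sphere (0 : E n) 1 => (z.2 : E n)) :=
    continuous_subtype_val.comp continuous_snd
  exact ((Real.continuous_cos.comp continuous_fst).smul continuous_const).add
    ((Real.continuous_sin.comp continuous_fst).smul ((inc n).continuous.comp h1))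

theorem continuous_pol_left (θ : sphere (0 : E n) 1) : Continuous (fun r : ℝ => pol r θ) := by
  refine Continuous.subtype_mk ?_ _
  exact (Real.continuous_cos.smul continuous_const).add
    (Real.continuous_sin.smul continuous_const)

theorem continuous_pol_right (r : ℝ) : Continuous (fun θ : sphere (0 : E n) 1 => pol r θ) := by
  have h1 : Continuous (fun θ : sphere (0 : E n) 1 => inc n (θ : E n)) :=
    (inc n).continuous.comp continuous_subtype_val
  refine Continuous.subtype_mk ?_ _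
  have h2 : Continuous (fun θ : sphere (0 : E n) 1 => Real.sin r • inc n (θ : E n)) :=
    h1.const_smul (Real.sin r)
  exact continuous_const.add h2

theorem pol_zero (θ : sphere (0 : E n) 1) : pol 0 θ = nor n := by
  ext1
  rw [pol_coe]
  simp [nor]

end Pool.Agent.H62.SS
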