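import Pool.Agent.H62.SS.Cone
import Pool.Agent.H62.SS.BsPol
import Pool.Agent.H62.SS.VolBall

set_option autoImplicit false

/-!
# [H62 SS PRISM] The volume over a facet

By `exists_act` (`sg_act_image`, `bs_act_image`; `nrm` commutes with linear isometries) take `u = nor n`.  `x = pol r θ`: `⟪u,x⟫ = cos r ∈ (0, sin ε) ↔ r ∈ (π/2 - ε, π/2)`, `x - ⟪u,x⟫ u = sin r inc θ`, `nrm` of it is `pol (π/2) θ`.  `D = {θ | pol (π/2) θ ∈ P}` (closed): the volume is
`∫⁻_D ∫⁻_{(π/2-ε, π/2)} sin^(n-1) ≤ ε sg n D` (`lintegral_sg`), and `bs (P ∩ gsph u (π/2)) = bs (pol (π/2) '' D) = cst sg n D` (`bs_pol_image`, `gsph_nor_eq`).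
-/

namespace Pool.Agent.H62.SS

open scoped RealInnerProductSpace MeasureTheory ENNReal NNReal
open MeasureTheory Set Metric
open Pool.Agent.H62.WS (E sg cst)

variable {n : ℕ}

private theorem measurable_nrm' : Measurable (nrm : E (n + 1) → Sp n) := by
  have hme : MeasurableEmbedding (Subtype.val : Sp n → E (n + 1)) :=
    MeasurableEmbedding.subtype_coe isClosed_sphere.measurableSet
  rw [← hme.measurable_comp_iff]
  have h1 : (Subtype.val ∘ (nrm : E (n + 1) → Sp n)) =
      fun z => if z = 0 then e0 n else ‖z‖⁻¹ • z := by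
    funext z
    by_cases hz : z = 0
    · rw [if_pos hz, hz]
      simp [nrm, nor]
    · rw [if_neg hz]
      exact coe_nrm hz
  rw [h1]
  exact Measurable.ite (measurableSet_singleton 0) measurable_const (by fun_prop)

private theorem nrm_act (Φ : E (n + 1) ≃ₗᵢ[ℝ] E (n + 1)) {z : E (n + 1)} (hz : z ≠ 0) :
    nrm (Φ z) = act Φ (nrm z) := by
  have hz' : Φ z ≠ 0 := by
    intro h
    exact hz (Φ.toLinearEquiv.map_eq_zero_iff.1 h)
  ext1
  rw [coe_nrm hz', act_coe, coe_nrm hz, map_smul, LinearIsometryEquiv.norm_map]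

/-- the centre is the pole -/
private theorem prism_core (hn : 2 ≤ n) {P : Set (Sp n)} (hP : IsClosed P) {ε : ℝ}
    (h0 : 0 < ε) (h1 : ε < Real.pi / 2) :
    sg (n + 1) {x : Sp n | 0 < ⟪(nor n : E (n + 1)), (x : E (n + 1))⟫ ∧
        ⟪(nor n : E (n + 1)), (x : E (n + 1))⟫ < Real.sin ε ∧
        nrm ((x : E (n + 1)) - ⟪(nor n : E (n + 1)), (x : E (n + 1))⟫ • (nor n : E (n + 1))) ∈ P} ≤
      ENNReal.ofReal ε * ((cst n)⁻¹ * bs n (P ∩ gsph (nor n) (Real.pi / 2))) := by
  have hpi := Real.pi_pos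
  obtain ⟨S, hS⟩ : ∃ S : Set (Sp n), S = {x : Sp n | 0 < ⟪(nor n : E (n + 1)), (x : E (n + 1))⟫ ∧
        ⟪(nor n : E (n + 1)), (x : E (n + 1))⟫ < Real.sin ε ∧
        nrm ((x : E (n + 1)) - ⟪(nor n : E (n + 1)), (x : E (n + 1))⟫ • (nor n : E (n + 1))) ∈ P} :=
    ⟨_, rfl⟩
  rw [← hS]
  have hc : Continuous fun x : Sp n => ⟪(nor n : E (n + 1)), (x : E (n + 1))⟫ := by fun_prop
  have hSm : MeasurableSet S := by
    rw [hS]
    have h2 : Measurable fun x : Sp n => nrm ((x : E (n + 1)) -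
        ⟪(nor n : E (n + 1)), (x : E (n + 1))⟫ • (nor n : E (n + 1))) :=
      measurable_nrm'.comp (by fun_prop)
    have h3 : MeasurableSet {x : Sp n | 0 < ⟪(nor n : E (n + 1)), (x : E (n + 1))⟫} :=
      (isOpen_lt continuous_const hc).measurableSet
    have h4 : MeasurableSet {x : Sp n | ⟪(nor n : E (n + 1)), (x : E (n + 1))⟫ < Real.sin ε} :=
      (isOpen_lt hc continuous_const).measurableSet
    have h5 := h2 hP.measurableSet
    have h6 := h3.inter (h4.inter h5)
    exact h6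
  obtain ⟨D, hD⟩ : ∃ D : Set (sphere (0 : E n) 1), D = {θ | pol (Real.pi / 2) θ ∈ P} := ⟨_, rfl⟩
  have hcp : Continuous fun θ : sphere (0 : E n) 1 => pol (Real.pi / 2) θ := by
    have h2 : Continuous fun θ : sphere (0 : E n) 1 => ((Real.pi / 2 : ℝ), θ) := by fun_prop
    have h3 := (continuous_pol (n := n)).comp h2
    exact h3
  have hDm : MeasurableSet D := by
    rw [hD]
    exact (hP.preimage hcp).measurableSet
  have hkey : ∀ θ : sphere (0 : E n) 1, ∀ r ∈ Ioo 0 Real.pi, pol r θ ∈ S →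
      θ ∈ D ∧ r ∈ Ioo (Real.pi / 2 - ε) (Real.pi / 2) := by
    intro θ r hr hx
    rw [hS, mem_setOf_eq, inner_nor, pol_apply_zero] at hx
    obtain ⟨hx1, hx2, hx3⟩ := hx
    have hsr : 0 < Real.sin r := Real.sin_pos_of_pos_of_lt_pi hr.1 hr.2
    constructor
    · rw [hD, mem_setOf_eq]
      have h2 : (pol r θ : E (n + 1)) - Real.cos r • (nor n : E (n + 1)) =
          Real.sin r • (pol (Real.pi / 2) θ : E (n + 1)) := by
        rw [pol_coe, pol_coe, Real.cos_pi_div_two, Real.sin_pi_div_two, zero_smul, zero_add,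
          one_smul]
        have h3 : (nor n : E (n + 1)) = e0 n := rfl
        rw [h3, add_sub_cancel_left]
      rw [h2, nrm_smul hsr, nrm_coe] at hx3
      exact hx3
    · constructor
      · by_contra h
        rw [not_lt] at h
        have h2 : Real.cos (Real.pi / 2 - ε) ≤ Real.cos r :=
          Real.cos_le_cos_of_nonneg_of_le_pi hr.1.le (by linarith) h
        rw [Real.cos_pi_div_two_sub] at h2
        linarith
      · by_contra h
        rw [not_lt] at h
        have h2 : Real.cos r ≤ 0 :=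
          Real.cos_nonpos_of_pi_div_two_le_of_le h (by linarith [hr.2])
        linarith
  have h2 : sg (n + 1) S ≤ ENNReal.ofReal ε * sg n D := by
    rw [← lintegral_indicator_one hSm, lintegral_sg hn (measurable_one.indicator hSm)]
    have h3 : ∀ θ : sphere (0 : E n) 1, (∫⁻ r in Ioo 0 Real.pi,
        ENNReal.ofReal (Real.sin r ^ (n - 1)) * S.indicator 1 (pol r θ)) ≤
        D.indicator (fun _ => ENNReal.ofReal ε) θ := by
      intro θ
      have h4 : ∀ r ∈ Ioo 0 Real.pi, ENNReal.ofReal (Real.sin r ^ (n - 1)) *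
          (S.indicator 1 (pol r θ) : ℝ≥0∞) ≤
          (Ioo (Real.pi / 2 - ε) (Real.pi / 2)).indicator (fun _ => D.indicator 1 θ) r := by
        intro r hr
        by_cases hx : pol r θ ∈ S
        · obtain ⟨h5, h6⟩ := hkey θ r hr hx
          rw [indicator_of_mem hx, indicator_of_mem h6, indicator_of_mem h5, Pi.one_apply,
            Pi.one_apply, mul_one, ← ENNReal.ofReal_one]
          apply ENNReal.ofReal_le_ofReal
          exact pow_le_one₀ (Real.sin_nonneg_of_nonneg_of_le_pi hr.1.le hr.2.le) (Real.sin_le_one r)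
        · rw [indicator_of_notMem hx, mul_zero]
          exact zero_le
      calc (∫⁻ r in Ioo 0 Real.pi, ENNReal.ofReal (Real.sin r ^ (n - 1)) * S.indicator 1 (pol r θ))
          ≤ ∫⁻ r in Ioo 0 Real.pi,
            (Ioo (Real.pi / 2 - ε) (Real.pi / 2)).indicator (fun _ => D.indicator 1 θ) r :=
            setLIntegral_mono' measurableSet_Ioo h4
        _ ≤ ∫⁻ r, (Ioo (Real.pi / 2 - ε) (Real.pi / 2)).indicator (fun _ => D.indicator 1 θ) r :=
            setLIntegral_le_lintegral _ _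
        _ = D.indicator 1 θ * ENNReal.ofReal ε := by
            rw [lintegral_indicator measurableSet_Ioo, setLIntegral_const, Real.volume_Ioo]
            congr 2
            ring
        _ ≤ D.indicator (fun _ => ENNReal.ofReal ε) θ := by
            by_cases hθ : θ ∈ D
            · rw [indicator_of_mem hθ, indicator_of_mem hθ, Pi.one_apply, one_mul]
            · rw [indicator_of_notMem hθ, zero_mul]
              exact zero_le
    refine (lintegral_mono h3).trans ?_
    rw [lintegral_indicator hDm, setLIntegral_const]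
  refine h2.trans ?_
  have h3 : P ∩ gsph (nor n) (Real.pi / 2) = pol (Real.pi / 2) '' D := by
    rw [gsph_nor_eq (by omega) (by linarith) (by linarith), hD]
    ext x
    constructor
    · rintro ⟨hx, θ, rfl⟩
      exact ⟨θ, hx, rfl⟩
    · rintro ⟨θ, hθ, rfl⟩
      exact ⟨hθ, θ, rfl⟩
  rw [h3, bs_pol_image hn (by linarith) (by linarith) hDm, Real.sin_pi_div_two, one_pow,
    ENNReal.ofReal_one, one_mul, ← mul_assoc (cst n)⁻¹, ENNReal.inv_mul_cancel
    (WS.cst_ne_zero hn) (WS.cst_ne_top hn), one_mul]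

theorem sg_prism_le (hn : 2 ≤ n) (u : Sp n) {P : Set (Sp n)} (hP : IsClosed P) {ε : ℝ}
    (h0 : 0 < ε) (h1 : ε < Real.pi / 2) :
    sg (n + 1) {x | 0 < ⟪(u : E (n + 1)), (x : E (n + 1))⟫ ∧
        ⟪(u : E (n + 1)), (x : E (n + 1))⟫ < Real.sin ε ∧
        nrm ((x : E (n + 1)) - ⟪(u : E (n + 1)), (x : E (n + 1))⟫ • (u : E (n + 1))) ∈ P} ≤
      ENNReal.ofReal ε * ((cst n)⁻¹ * bs n (P ∩ gsph u (Real.pi / 2))) := by
  obtain ⟨Φ, rfl⟩ := exists_act (nor n) u
  have hP' : IsClosed (act Φ ⁻¹' P) := hP.preimage (act Φ).isometry.continuous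
  have h2 := prism_core hn hP' h0 h1
  have h3 : P ∩ gsph (act Φ (nor n)) (Real.pi / 2) =
      act Φ '' (act Φ ⁻¹' P ∩ gsph (nor n) (Real.pi / 2)) := by
    rw [image_preimage_inter, act_gsph]
  rw [h3, bs_act_image]
  refine le_trans (le_of_eq ?_) h2
  rw [← sg_act_image Φ {x : Sp n | 0 < ⟪(nor n : E (n + 1)), (x : E (n + 1))⟫ ∧
        ⟪(nor n : E (n + 1)), (x : E (n + 1))⟫ < Real.sin ε ∧
        nrm ((x : E (n + 1)) - ⟪(nor n : E (n + 1)), (x : E (n + 1))⟫ • (nor n : E (n + 1))) ∈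
          act Φ ⁻¹' P}]
  congr 1
  ext x
  constructor
  · rintro ⟨hx1, hx2, hx3⟩
    obtain ⟨y, rfl⟩ : ∃ y, act Φ y = x := ⟨act Φ.symm x, act_act_symm Φ x⟩
    refine ⟨y, ?_, rfl⟩
    rw [inner_act] at hx1 hx2 hx3
    refine ⟨hx1, hx2, ?_⟩
    rw [mem_preimage, ← nrm_act]
    · rw [map_sub, map_smul]
      exact hx3
    · intro h
      have h4 := congrArg (fun z => ⟪(nor n : E (n + 1)), z⟫) h
      have h5 : (y : E (n + 1)) = ⟪(nor n : E (n + 1)), (y : E (n + 1))⟫ • (nor n : E (n + 1)) :=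
        sub_eq_zero.1 h
      have h6 : ‖(y : E (n + 1))‖ = ‖⟪(nor n : E (n + 1)), (y : E (n + 1))⟫ • (nor n : E (n + 1))‖ :=
        congrArg _ h5
      rw [norm_coe, norm_smul, norm_coe, mul_one, Real.norm_eq_abs, abs_of_pos hx1] at h6
      rw [← h6] at hx2
      linarith [Real.sin_le_one ε]
  · rintro ⟨y, ⟨hx1, hx2, hx3⟩, rfl⟩
    refine ⟨?_, ?_, ?_⟩
    · rw [inner_act]
      exact hx1
    · rw [inner_act]
      exact hx2
    · rw [inner_act]
      rw [mem_preimage, ← nrm_act] at hx3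
      · rw [map_sub, map_smul] at hx3
        exact hx3
      · intro h
        have h5 : (y : E (n + 1)) = ⟪(nor n : E (n + 1)), (y : E (n + 1))⟫ • (nor n : E (n + 1)) :=
          sub_eq_zero.1 h
        have h6 : ‖(y : E (n + 1))‖ =
            ‖⟪(nor n : E (n + 1)), (y : E (n + 1))⟫ • (nor n : E (n + 1))‖ := congrArg _ h5
        rw [norm_coe, norm_smul, norm_coe, mul_one, Real.norm_eq_abs, abs_of_pos hx1] at h6
        rw [← h6] at hx2
        linarith [Real.sin_le_one ε]

end Pool.Agent.H62.SS
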