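import Pool.Agent.H62.SS.Act
import Pool.Agent.H62.SS.Cone

set_option autoImplicit false

/-!
# [H62 SS REFL] The reflection in a hyperplane

`rf u z = z - 2⟪u,z⟫u` (`Submodule.reflection` of the orthogonal complement of the line of `u`, `reflection_orthogonalComplement_singleton_eq...`; `Submodule.reflection_orthogonalComplement_apply`).  `rfl_swap`: for unit vectors `x ≠ y` and `u = nrm (y - x)`: `rf u x = y`.
-/

namespace Pool.Agent.H62.SS

open scoped RealInnerProductSpace MeasureTheory ENNReal NNReal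
open MeasureTheory Set Metric
open Pool.Agent.H62.WS (E sg cst)

variable {n : ℕ}

/-- the reflection in the hyperplane orthogonal to `u` -/
noncomputable def rf (u : Sp n) : E (n + 1) ≃ₗᵢ[ℝ] E (n + 1) :=
  Submodule.reflection (ℝ ∙ (u : E (n + 1)))ᗮ

theorem rf_apply (u : Sp n) (z : E (n + 1)) :
    rf u z = z - (2 * ⟪(u : E (n + 1)), z⟫) • (u : E (n + 1)) := by
  have hu : ‖(u : E (n + 1))‖ = 1 := norm_coe u
  unfold rf
  rw [Submodule.reflection_orthogonal_apply, Submodule.reflection_singleton_apply, hu]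
  simp only [RCLike.ofReal_real_eq_id, id_eq, one_pow, div_one, neg_sub]
  rw [two_smul, mul_smul, two_smul]

theorem rf_rf (u : Sp n) (p : Sp n) : act (rf u) (act (rf u) p) = p := by
  ext1
  rw [act_coe, act_coe]
  exact Submodule.reflection_reflection _ _

theorem inner_rf (u x : Sp n) :
    ⟪(u : E (n + 1)), (act (rf u) x : E (n + 1))⟫ = -⟪(u : E (n + 1)), (x : E (n + 1))⟫ := by
  rw [act_coe, rf_apply, inner_sub_right, inner_smul_right, real_inner_self_eq_norm_sq, norm_coe]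
  ring

theorem inner_rf_right (u x y : Sp n) :
    ⟪(x : E (n + 1)), (act (rf u) y : E (n + 1))⟫ = ⟪(x : E (n + 1)), (y : E (n + 1))⟫ -
      2 * ⟪(u : E (n + 1)), (x : E (n + 1))⟫ * ⟪(u : E (n + 1)), (y : E (n + 1))⟫ := by
  rw [act_coe, rf_apply, inner_sub_right, inner_smul_right,
    real_inner_comm (u : E (n + 1)) (x : E (n + 1))]
  ring

theorem inner_rf_left (u x y : Sp n) :
    ⟪(act (rf u) x : E (n + 1)), (y : E (n + 1))⟫ =
      ⟪(x : E (n + 1)), (act (rf u) y : E (n + 1))⟫ := by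
  rw [real_inner_comm, inner_rf_right, inner_rf_right,
    real_inner_comm (x : E (n + 1)) (y : E (n + 1))]
  ring

theorem rf_swap {x y : Sp n} (hxy : x ≠ y) :
    ∃ u : Sp n, act (rf u) x = y ∧ act (rf u) y = x ∧ 0 < ⟪(u : E (n + 1)), (y : E (n + 1))⟫ ∧
      ∀ z : Sp n, ⟪(u : E (n + 1)), (z : E (n + 1))⟫ =
        ‖(y : E (n + 1)) - (x : E (n + 1))‖⁻¹ *
          (⟪(z : E (n + 1)), (y : E (n + 1))⟫ - ⟪(z : E (n + 1)), (x : E (n + 1))⟫) := by
  have hne : (y : E (n + 1)) - (x : E (n + 1)) ≠ 0 := by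
    intro h
    apply hxy
    ext1
    exact (sub_eq_zero.1 h).symm
  have hpos : 0 < ‖(y : E (n + 1)) - (x : E (n + 1))‖ := norm_pos_iff.2 hne
  have hx1 : ⟪(x : E (n + 1)), (x : E (n + 1))⟫ = 1 := by
    rw [real_inner_self_eq_norm_sq, norm_coe, one_pow]
  have hy1 : ⟪(y : E (n + 1)), (y : E (n + 1))⟫ = 1 := by
    rw [real_inner_self_eq_norm_sq, norm_coe, one_pow]
  have hsq : ‖(y : E (n + 1)) - (x : E (n + 1))‖ ^ 2 =
      2 - 2 * ⟪(x : E (n + 1)), (y : E (n + 1))⟫ := by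
    rw [← real_inner_self_eq_norm_sq, inner_sub_left, inner_sub_right, inner_sub_right, hx1, hy1,
      real_inner_comm (x : E (n + 1)) (y : E (n + 1))]
    ring
  have hz : ∀ z : Sp n, ⟪(nrm ((y : E (n + 1)) - (x : E (n + 1))) : E (n + 1)), (z : E (n + 1))⟫ =
        ‖(y : E (n + 1)) - (x : E (n + 1))‖⁻¹ *
          (⟪(z : E (n + 1)), (y : E (n + 1))⟫ - ⟪(z : E (n + 1)), (x : E (n + 1))⟫) := by
    intro z
    rw [coe_nrm hne, real_inner_smul_left, inner_sub_left, real_inner_comm (z : E (n + 1)) (y : E (n + 1)),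
      real_inner_comm (z : E (n + 1)) (x : E (n + 1))]
  have hc : ‖(y : E (n + 1)) - (x : E (n + 1))‖⁻¹ * ‖(y : E (n + 1)) - (x : E (n + 1))‖⁻¹ *
      (2 - 2 * ⟪(x : E (n + 1)), (y : E (n + 1))⟫) = 1 := by
    rw [← hsq]
    field_simp
  have h1 : act (rf (nrm ((y : E (n + 1)) - (x : E (n + 1))))) x = y := by
    ext1
    rw [act_coe, rf_apply, hz x, hx1, coe_nrm hne, smul_smul]
    have h2 : 2 * (‖(y : E (n + 1)) - (x : E (n + 1))‖⁻¹ * (⟪(x : E (n + 1)), (y : E (n + 1))⟫ - 1)) *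
        ‖(y : E (n + 1)) - (x : E (n + 1))‖⁻¹ = -1 := by
      linear_combination -hc
    rw [h2]
    module
  refine ⟨nrm ((y : E (n + 1)) - (x : E (n + 1))), h1, ?_, ?_, hz⟩
  · have h2 := congrArg (act (rf (nrm ((y : E (n + 1)) - (x : E (n + 1)))))) h1
    rw [rf_rf] at h2
    exact h2.symm
  · rw [hz y, hy1, real_inner_comm (x : E (n + 1)) (y : E (n + 1))]
    apply mul_pos (inv_pos.2 hpos)
    have : 0 < ‖(y : E (n + 1)) - (x : E (n + 1))‖ ^ 2 := by positivity
    linarith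

end Pool.Agent.H62.SS
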