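import Pool.Agent.H62.SS.VolBall
import Pool.Agent.H62.SS.Refl

set_option autoImplicit false

/-!
# [H62 SS WEDGE] The volume of a wedge neighbourhood

`sg A = (n+1) volume (Ioo 0 1 • A)` (`Measure.toSphere_apply'`); the cone is contained in `{z | ‖z‖ < 1, |⟪u,z⟫| ≤ ε, |⟪v,z⟫| ≤ ε}`.  `v = a u + b w`, `w ⊥ u` a unit vector, `b ≠ 0`, `|a| ≤ 1`: `|⟪w,z⟫| ≤ 2ε/|b|`.  In an orthonormal basis with the first vectors `u, w` (isometry of `E (n+1)`, volume preserving)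
this is in the box `[-ε,ε] × [-2ε/|b|, 2ε/|b|] × [-1,1]^(n-1)` of volume `≤ C ε²`.  (Or with polar coordinates around `u`, `lintegral_sg`, twice.)
-/

namespace Pool.Agent.H62.SS

open scoped RealInnerProductSpace MeasureTheory ENNReal NNReal
open MeasureTheory Set Metric
open Pool.Agent.H62.WS (E sg cst)

variable {n : ℕ}

/-- an orthonormal basis with two given first vectors -/
private theorem wedge_basis {m : ℕ} {u w : E (m + 2)} (hu : ‖u‖ = 1) (hw : ‖w‖ = 1)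
    (huw : ⟪u, w⟫ = 0) : ∃ B : OrthonormalBasis (Fin (m + 2)) ℝ (E (m + 2)), B 0 = u ∧ B 1 = w := by
  have h01 : (1 : Fin (m + 2)) ≠ 0 := by simp
  have ho : Orthonormal ℝ (({0, 1} : Set (Fin (m + 2))).domRestrict
      (fun i : Fin (m + 2) => if i = 0 then u else w)) := by
    constructor
    · rintro ⟨i, hi⟩
      simp only [Set.domRestrict_apply]
      split_ifs
      · exact hu
      · exact hw
    · rintro ⟨i, hi⟩ ⟨j, hj⟩ hij
      have hij' : i ≠ j := fun h => hij (Subtype.ext h)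
      simp only [Set.domRestrict_apply]
      rcases hi with rfl | hi <;> rcases hj with rfl | hj
      · exact absurd rfl hij'
      · rw [if_pos rfl, if_neg (by rw [Set.mem_singleton_iff.1 hj]; exact h01)]
        exact huw
      · rw [if_pos rfl, if_neg (by rw [Set.mem_singleton_iff.1 hi]; exact h01), real_inner_comm]
        exact huw
      · rw [Set.mem_singleton_iff] at hi hj
        exact absurd (hi.trans hj.symm) hij'
  obtain ⟨B, hB⟩ := ho.exists_orthonormalBasis_extension_of_card_eq (by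
    rw [finrank_euclideanSpace_fin, Fintype.card_fin])
  refine ⟨B, ?_, ?_⟩
  · rw [hB 0 (by simp), if_pos rfl]
  · rw [hB 1 (by simp), if_neg h01]

/-- the volume of a slab -/
private theorem wedge_vol {m : ℕ} {u w : E (m + 2)} (hu : ‖u‖ = 1) (hw : ‖w‖ = 1)
    (huw : ⟪u, w⟫ = 0) {a b : ℝ} (ha : 0 ≤ a) (hb : 0 ≤ b) :
    (volume : Measure (E (m + 2))) {z | |⟪u, z⟫| ≤ a ∧ |⟪w, z⟫| ≤ b ∧ ‖z‖ ≤ 1} ≤
      ENNReal.ofReal (2 * a * (2 * b * 2 ^ m)) := by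
  obtain ⟨B, hB0, hB1⟩ := wedge_basis hu hw huw
  obtain ⟨c, hc⟩ : ∃ c : Fin (m + 2) → ℝ, c = Fin.cons a (Fin.cons b fun _ => 1) := ⟨_, rfl⟩
  have hc0 : c 0 = a := by rw [hc, Fin.cons_zero]
  have hc1 : c 1 = b := by
    rw [hc]
    rfl
  have hc2 : ∀ j : Fin m, c j.succ.succ = 1 := by
    intro j
    rw [hc, Fin.cons_succ, Fin.cons_succ]
  have h1 : MeasurePreserving (fun z : E (m + 2) => WithLp.ofLp (B.repr z)) volume volume :=
    (PiLp.volume_preserving_ofLp _).comp B.measurePreserving_repr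
  have h2 : {z : E (m + 2) | |⟪u, z⟫| ≤ a ∧ |⟪w, z⟫| ≤ b ∧ ‖z‖ ≤ 1} ⊆
      (fun z : E (m + 2) => WithLp.ofLp (B.repr z)) ⁻¹' Icc (fun i => -c i) c := by
    rintro z ⟨hz1, hz2, hz3⟩
    have h3 : ∀ i, |B.repr z i| ≤ c i := by
      intro i
      rw [B.repr_apply_apply]
      refine Fin.cases ?_ (fun j => ?_) i
      · rw [hB0, hc0]
        exact hz1
      · refine Fin.cases ?_ (fun k => ?_) j
        · have h4 : (Fin.succ 0 : Fin (m + 2)) = 1 := rfl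
          rw [h4, hB1, hc1]
          exact hz2
        · rw [hc2]
          have h4 := abs_real_inner_le_norm (B k.succ.succ) z
          rw [B.norm_eq_one, one_mul] at h4
          exact h4.trans hz3
    exact ⟨fun i => (abs_le.1 (h3 i)).1, fun i => (abs_le.1 (h3 i)).2⟩
  refine (measure_mono h2).trans ?_
  rw [h1.measure_preimage measurableSet_Icc.nullMeasurableSet, Real.volume_Icc_pi,
    Fin.prod_univ_succ, Fin.prod_univ_succ]
  have h5 : ∀ j : Fin m, ENNReal.ofReal (c j.succ.succ - -c j.succ.succ) = ENNReal.ofReal 2 := by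
    intro j
    rw [hc2]
    norm_num
  have h6 : (Fin.succ 0 : Fin (m + 2)) = 1 := rfl
  rw [Finset.prod_congr rfl fun j _ => h5 j, Finset.prod_const, Finset.card_univ, Fintype.card_fin,
    hc0, h6, hc1, ← ENNReal.ofReal_pow (by norm_num), ← ENNReal.ofReal_mul (by linarith),
    ← ENNReal.ofReal_mul (by linarith)]
  apply ENNReal.ofReal_le_ofReal
  apply le_of_eq
  ring

open scoped Pointwise in
theorem sg_wedge_le (hn : 2 ≤ n) {u v : Sp n} (h1 : u ≠ v) (h2 : (u : E (n + 1)) ≠ -(v : E (n + 1))) :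
    ∃ C : ℝ, 0 ≤ C ∧ ∀ ε : ℝ, 0 < ε →
      sg (n + 1) {x | |⟪(u : E (n + 1)), (x : E (n + 1))⟫| ≤ ε ∧
        |⟪(v : E (n + 1)), (x : E (n + 1))⟫| ≤ ε} ≤ ENNReal.ofReal (C * ε ^ 2) := by
  obtain ⟨m, rfl⟩ : ∃ m, n = m + 1 := ⟨n - 1, by omega⟩
  have hu1 : ‖(u : E (m + 1 + 1))‖ = 1 := norm_coe u
  have hv1 : ‖(v : E (m + 1 + 1))‖ = 1 := norm_coe v
  obtain ⟨a, ha⟩ : ∃ a : ℝ, a = ⟪(u : E (m + 1 + 1)), (v : E (m + 1 + 1))⟫ := ⟨_, rfl⟩
  obtain ⟨w0, hw0⟩ : ∃ w0 : E (m + 1 + 1), w0 = (v : E (m + 1 + 1)) - a • (u : E (m + 1 + 1)) :=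
    ⟨_, rfl⟩
  have hab : |a| ≤ 1 := by
    have h3 := abs_real_inner_le_norm (u : E (m + 1 + 1)) (v : E (m + 1 + 1))
    rw [hu1, hv1, one_mul] at h3
    rw [ha]
    exact h3
  have hne : w0 ≠ 0 := by
    intro h
    rw [h, eq_comm, sub_eq_zero] at hw0
    have h3 : ‖(v : E (m + 1 + 1))‖ = ‖a • (u : E (m + 1 + 1))‖ := congrArg _ hw0
    rw [hv1, norm_smul, hu1, mul_one, Real.norm_eq_abs] at h3
    rcases eq_or_eq_neg_of_abs_eq h3.symm with h4 | h4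
    · rw [h4, one_smul] at hw0
      exact h1 (Subtype.ext hw0.symm)
    · rw [h4, neg_smul, one_smul] at hw0
      apply h2
      rw [hw0, neg_neg]
  have hb : 0 < ‖w0‖ := norm_pos_iff.2 hne
  obtain ⟨w, hw⟩ : ∃ w : E (m + 1 + 1), w = ‖w0‖⁻¹ • w0 := ⟨_, rfl⟩
  have hw1 : ‖w‖ = 1 := by
    rw [hw, norm_smul, norm_inv, norm_norm, inv_mul_cancel₀ hb.ne']
  have huw : ⟪(u : E (m + 1 + 1)), w⟫ = 0 := by
    rw [hw, hw0, inner_smul_right, inner_sub_right, inner_smul_right, real_inner_self_eq_norm_sq,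
      hu1, ← ha]
    ring
  refine ⟨((m + 2 : ℕ) : ℝ) * (8 * ‖w0‖⁻¹ * 2 ^ m), by positivity, fun ε hε => ?_⟩
  have hSm : MeasurableSet {x : Sp (m + 1) | |⟪(u : E (m + 1 + 1)), (x : E (m + 1 + 1))⟫| ≤ ε ∧
      |⟪(v : E (m + 1 + 1)), (x : E (m + 1 + 1))⟫| ≤ ε} := by
    have hcu : Continuous fun x : Sp (m + 1) => |⟪(u : E (m + 1 + 1)), (x : E (m + 1 + 1))⟫| := by
      fun_prop
    have hcv : Continuous fun x : Sp (m + 1) => |⟪(v : E (m + 1 + 1)), (x : E (m + 1 + 1))⟫| := by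
      fun_prop
    exact ((isClosed_le hcu continuous_const).inter
      (isClosed_le hcv continuous_const)).measurableSet
  unfold sg
  rw [Measure.toSphere_apply' _ hSm]
  have h3 : Ioo (0 : ℝ) 1 • (Subtype.val '' {x : Sp (m + 1) |
      |⟪(u : E (m + 1 + 1)), (x : E (m + 1 + 1))⟫| ≤ ε ∧
      |⟪(v : E (m + 1 + 1)), (x : E (m + 1 + 1))⟫| ≤ ε} : Set (E (m + 1 + 1))) ⊆
      {z | |⟪(u : E (m + 1 + 1)), z⟫| ≤ ε ∧ |⟪w, z⟫| ≤ 2 * ‖w0‖⁻¹ * ε ∧ ‖z‖ ≤ 1} := by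
    rintro _ ⟨t, ht, _, ⟨x, ⟨hx1, hx2⟩, rfl⟩, rfl⟩
    simp only [mem_setOf_eq]
    have ht0 : |t| ≤ 1 := by
      rw [abs_of_pos ht.1]
      exact ht.2.le
    refine ⟨?_, ?_, ?_⟩
    · rw [inner_smul_right, abs_mul]
      calc |t| * |⟪(u : E (m + 1 + 1)), (x : E (m + 1 + 1))⟫| ≤ 1 * ε :=
            mul_le_mul ht0 hx1 (abs_nonneg _) zero_le_one
        _ = ε := one_mul ε
    · have h4 : ⟪w, (x : E (m + 1 + 1))⟫ = ‖w0‖⁻¹ * (⟪(v : E (m + 1 + 1)), (x : E (m + 1 + 1))⟫ -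
          a * ⟪(u : E (m + 1 + 1)), (x : E (m + 1 + 1))⟫) := by
        rw [hw, hw0, real_inner_smul_left, inner_sub_left, real_inner_smul_left]
      have h5 : |⟪w, (x : E (m + 1 + 1))⟫| ≤ 2 * ‖w0‖⁻¹ * ε := by
        rw [h4, abs_mul, abs_of_pos (inv_pos.2 hb)]
        have h6 : |⟪(v : E (m + 1 + 1)), (x : E (m + 1 + 1))⟫ -
            a * ⟪(u : E (m + 1 + 1)), (x : E (m + 1 + 1))⟫| ≤ 2 * ε := by
          refine (abs_sub _ _).trans ?_
          rw [abs_mul]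
          have h7 : |a| * |⟪(u : E (m + 1 + 1)), (x : E (m + 1 + 1))⟫| ≤ 1 * ε :=
            mul_le_mul hab hx1 (abs_nonneg _) zero_le_one
          linarith
        calc ‖w0‖⁻¹ * |⟪(v : E (m + 1 + 1)), (x : E (m + 1 + 1))⟫ -
            a * ⟪(u : E (m + 1 + 1)), (x : E (m + 1 + 1))⟫| ≤ ‖w0‖⁻¹ * (2 * ε) :=
              mul_le_mul_of_nonneg_left h6 (inv_pos.2 hb).le
          _ = 2 * ‖w0‖⁻¹ * ε := by ring
      rw [inner_smul_right, abs_mul]
      calc |t| * |⟪w, (x : E (m + 1 + 1))⟫| ≤ 1 * (2 * ‖w0‖⁻¹ * ε) :=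
            mul_le_mul ht0 h5 (abs_nonneg _) zero_le_one
        _ = 2 * ‖w0‖⁻¹ * ε := one_mul _
    · rw [norm_smul, norm_coe, mul_one, Real.norm_eq_abs]
      exact ht0
  have h4 := (measure_mono (μ := (volume : Measure (E (m + 1 + 1)))) h3).trans
    (wedge_vol hu1 hw1 huw hε.le (by positivity))
  rw [finrank_euclideanSpace_fin]
  calc ((m + 1 + 1 : ℕ) : ℝ≥0∞) * _ ≤ ((m + 1 + 1 : ℕ) : ℝ≥0∞) *
        ENNReal.ofReal (2 * ε * (2 * (2 * ‖w0‖⁻¹ * ε) * 2 ^ m)) := by gcongr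
    _ = ENNReal.ofReal (((m + 2 : ℕ) : ℝ) * (8 * ‖w0‖⁻¹ * 2 ^ m) * ε ^ 2) := by
        rw [← ENNReal.ofReal_natCast, ← ENNReal.ofReal_mul (by positivity)]
        congr 1
        push_cast
        ring

end Pool.Agent.H62.SS
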