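import Pool.Agent.H62.SS.Facets
import Pool.Agent.H62.SS.Wedge
import Pool.Agent.H62.SS.Prism
import Pool.Agent.H62.SS.PlzNb

set_option autoImplicit false

/-!
# [H62 SS POLYNB] The volume of a neighbourhood of a polytope

`P = pt U`, `x ∈ onb P ε \ P`, `0 < ε < π/2`: `y ∈ P` with `∠(x,y) < ε`, `u ∈ U` with `⟪u,x⟫ > 0`; `∠(u,x) ≥ ∠(u,y) - ∠(x,y) > π/2 - ε` (`InnerProductGeometry.angle_le_angle_add_angle`), so `⟪u,x⟫ < sin ε ≤ ε`; the same for every `v ∈ U`: `⟪v,x⟫ < sin ε`.  `w = x - ⟪u,x⟫ u ≠ 0`, `y' = nrm w`.  If `y' ∈ P`: the prism of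
`sg_prism_le`.  Otherwise `⟪v,y'⟫ > 0` for some `v ∈ U`; `v ≠ u` (`⟪u,y'⟫ = 0`), `u ≠ -v` (`pt_not_antipodal`), `⟪v,x⟫ = ⟪v,w⟫ + ⟪u,x⟫⟪v,u⟫ > -ε`: `x` is in the wedge of `u, v` (`sg_wedge_le`).  Sum over `U` and over the pairs; `sum_facets_le`.
-/

namespace Pool.Agent.H62.SS

open scoped RealInnerProductSpace MeasureTheory ENNReal NNReal
open MeasureTheory Set Metric
open Pool.Agent.H62.WS (E sg cst)

variable {n : ℕ}

theorem inner_lt_sin {x y w : Sp n} {ε : ℝ} (h0 : 0 < ε) (h1 : ε < Real.pi / 2)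
    (hxy : Real.cos ε < ⟪(x : E (n + 1)), (y : E (n + 1))⟫)
    (hwy : ⟪(w : E (n + 1)), (y : E (n + 1))⟫ ≤ 0) :
    ⟪(w : E (n + 1)), (x : E (n + 1))⟫ < Real.sin ε := by
  have hpi := Real.pi_pos
  have hc : 0 < Real.cos ε := Real.cos_pos_of_mem_Ioo ⟨by linarith, h1⟩
  have hs : 0 < Real.sin ε := Real.sin_pos_of_pos_of_lt_pi h0 (by linarith)
  set c : ℝ := ⟪(x : E (n + 1)), (y : E (n + 1))⟫ with hcdef
  have h2 : ⟪(w : E (n + 1)), (x : E (n + 1))⟫ =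
      ⟪(w : E (n + 1)), (x : E (n + 1)) - c • (y : E (n + 1))⟫ +
        c * ⟪(w : E (n + 1)), (y : E (n + 1))⟫ := by
    rw [inner_sub_right, real_inner_smul_right]
    ring
  have h3 := real_inner_le_norm (w : E (n + 1)) ((x : E (n + 1)) - c • (y : E (n + 1)))
  rw [norm_coe, one_mul] at h3
  have h4 : ‖(x : E (n + 1)) - c • (y : E (n + 1))‖ ^ 2 = 1 - c ^ 2 := by
    rw [@norm_sub_sq_real, norm_smul, norm_coe, norm_coe, real_inner_smul_right, ← hcdef,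
      Real.norm_eq_abs, mul_one, sq_abs]
    ring
  have h5 : ‖(x : E (n + 1)) - c • (y : E (n + 1))‖ < Real.sin ε := by
    refine lt_of_pow_lt_pow_left₀ 2 hs.le ?_
    rw [h4]
    have := Real.sin_sq_add_cos_sq ε
    nlinarith
  nlinarith [mul_nonneg (hc.trans hxy).le (neg_nonneg.2 hwy)]

theorem onb_pt_subset {U : Finset (Sp n)} {ε : ℝ} (h0 : 0 < ε) (h1 : ε < Real.pi / 2) {x : Sp n}
    (hx : x ∈ onb (pt U) ε) (hxP : x ∉ pt U) :
    (∃ u ∈ U, 0 < ⟪(u : E (n + 1)), (x : E (n + 1))⟫ ∧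
        ⟪(u : E (n + 1)), (x : E (n + 1))⟫ < Real.sin ε ∧
        nrm ((x : E (n + 1)) - ⟪(u : E (n + 1)), (x : E (n + 1))⟫ • (u : E (n + 1))) ∈ pt U) ∨
    (∃ u ∈ U, ∃ v ∈ U, u ≠ v ∧ |⟪(u : E (n + 1)), (x : E (n + 1))⟫| ≤ ε ∧
        |⟪(v : E (n + 1)), (x : E (n + 1))⟫| ≤ ε) := by
  have hpi := Real.pi_pos
  obtain ⟨y, hy, hxy⟩ := hx
  have hall : ∀ w ∈ U, ⟪(w : E (n + 1)), (x : E (n + 1))⟫ < Real.sin ε := fun w hw =>
    inner_lt_sin h0 h1 hxy (hy w hw)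
  simp only [pt, mem_setOf_eq, not_forall, not_le] at hxP
  obtain ⟨u, hu, hux⟩ := hxP
  have hse : Real.sin ε ≤ ε := Real.sin_le h0.le
  have hs1 : Real.sin ε < 1 := by
    rw [← Real.sin_pi_div_two]
    exact Real.sin_lt_sin_of_lt_of_le_pi_div_two (by linarith) le_rfl h1
  have hux2 := hall u hu
  set a : ℝ := ⟪(u : E (n + 1)), (x : E (n + 1))⟫ with ha
  have hw2 : ‖(x : E (n + 1)) - a • (u : E (n + 1))‖ ^ 2 = 1 - a ^ 2 := by
    rw [@norm_sub_sq_real, norm_smul, norm_coe, norm_coe, real_inner_smul_right,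
      real_inner_comm, ← ha, Real.norm_eq_abs, mul_one, sq_abs]
    ring
  have hw0 : (x : E (n + 1)) - a • (u : E (n + 1)) ≠ 0 := by
    intro h
    rw [h, norm_zero] at hw2
    nlinarith
  have hwpos : 0 < ‖(x : E (n + 1)) - a • (u : E (n + 1))‖ := norm_pos_iff.2 hw0
  by_cases hP : nrm ((x : E (n + 1)) - a • (u : E (n + 1))) ∈ pt U
  · exact Or.inl ⟨u, hu, hux, hux2, hP⟩
  · right
    simp only [pt, mem_setOf_eq, not_forall, not_le] at hP
    obtain ⟨v, hv, hvy⟩ := hP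
    rw [coe_nrm hw0, real_inner_smul_right] at hvy
    have hvw : 0 < ⟪(v : E (n + 1)), (x : E (n + 1)) - a • (u : E (n + 1))⟫ := by
      by_contra hneg
      push Not at hneg
      have := mul_nonpos_of_nonneg_of_nonpos (inv_nonneg.2 hwpos.le) hneg
      linarith
    refine ⟨u, hu, v, hv, ?_, ?_, ?_⟩
    · rintro rfl
      rw [inner_sub_right, real_inner_smul_right, real_inner_self_eq_norm_sq, norm_coe, ← ha] at hvw
      linarith
    · rw [abs_of_pos hux]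
      linarith
    · rw [inner_sub_right, real_inner_smul_right] at hvw
      have h7 : |⟪(v : E (n + 1)), (u : E (n + 1))⟫| ≤ 1 := by
        have := abs_real_inner_le_norm (v : E (n + 1)) (u : E (n + 1))
        rwa [norm_coe, norm_coe, mul_one] at this
      have h8 := abs_le.1 h7
      rw [abs_le]
      constructor
      · nlinarith
      · linarith [hall v hv]

theorem sg_onb_pt_le (hn : 2 ≤ n) {U : Finset (Sp n)} (hpos : 0 < sg (n + 1) (pt U)) :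
    ∃ C : ℝ, 0 ≤ C ∧ ∀ ε : ℝ, 0 < ε → ε < Real.pi / 2 →
      sg (n + 1) (onb (pt U) ε) ≤ sg (n + 1) (pt U) +
        ENNReal.ofReal ε * ((cst n)⁻¹ * bs n (frontier (pt U))) + ENNReal.ofReal (C * ε ^ 2) := by
  classical
  have hw : ∀ q : Sp n × Sp n, ∃ C : ℝ, 0 ≤ C ∧ (q ∈ U.offDiag → ∀ ε : ℝ, 0 < ε →
      sg (n + 1) {x | |⟪(q.1 : E (n + 1)), (x : E (n + 1))⟫| ≤ ε ∧
        |⟪(q.2 : E (n + 1)), (x : E (n + 1))⟫| ≤ ε} ≤ ENNReal.ofReal (C * ε ^ 2)) := by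
    intro q
    by_cases hq : q ∈ U.offDiag
    · have hq2 := Finset.mem_offDiag.1 hq
      obtain ⟨C, hC0, hC⟩ := sg_wedge_le hn hq2.2.2 (pt_not_antipodal hn hpos hq2.1 hq2.2.1)
      exact ⟨C, hC0, fun _ => hC⟩
    · exact ⟨0, le_rfl, fun h => absurd h hq⟩
  choose C hC0 hC using hw
  refine ⟨∑ q ∈ U.offDiag, C q, Finset.sum_nonneg fun q _ => hC0 q, fun ε h0 h1 => ?_⟩
  have hsub : onb (pt U) ε ⊆ (pt U ∪ ⋃ u ∈ U, {x | 0 < ⟪(u : E (n + 1)), (x : E (n + 1))⟫ ∧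
        ⟪(u : E (n + 1)), (x : E (n + 1))⟫ < Real.sin ε ∧
        nrm ((x : E (n + 1)) - ⟪(u : E (n + 1)), (x : E (n + 1))⟫ • (u : E (n + 1))) ∈ pt U}) ∪
      ⋃ q ∈ U.offDiag, {x | |⟪(q.1 : E (n + 1)), (x : E (n + 1))⟫| ≤ ε ∧
        |⟪(q.2 : E (n + 1)), (x : E (n + 1))⟫| ≤ ε} := by
    intro x hx
    by_cases hxP : x ∈ pt U
    · exact Or.inl (Or.inl hxP)
    · rcases onb_pt_subset h0 h1 hx hxP with ⟨u, hu, h2⟩ | ⟨u, hu, v, hv, huv, h2⟩
      · refine Or.inl (Or.inr ?_)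
        rw [mem_iUnion₂]
        exact ⟨u, hu, h2⟩
      · refine Or.inr ?_
        rw [mem_iUnion₂]
        exact ⟨(u, v), Finset.mem_offDiag.2 ⟨hu, hv, huv⟩, h2⟩
  refine (measure_mono hsub).trans ((measure_union_le _ _).trans (add_le_add
    ((measure_union_le _ _).trans (add_le_add le_rfl ?_)) ?_))
  · refine (measure_biUnion_finset_le _ _).trans ?_
    refine (Finset.sum_le_sum fun u _ => sg_prism_le hn u (isClosed_pt U) h0 h1).trans ?_
    rw [← Finset.mul_sum, ← Finset.mul_sum]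
    exact mul_le_mul_right (mul_le_mul_right (sum_facets_le hn hpos) _) _
  · refine (measure_biUnion_finset_le _ _).trans ?_
    refine (Finset.sum_le_sum fun q hq => hC q hq ε h0).trans ?_
    rw [← ENNReal.ofReal_sum_of_nonneg fun q _ => mul_nonneg (hC0 q) (sq_nonneg ε),
      Finset.sum_mul]

end Pool.Agent.H62.SS
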