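import Pool.Agent.H62.SS.SepS

set_option autoImplicit false

/-!
# [H62 SS POLY] Polytopes

`pt U = {x | ∀ u ∈ U, ⟪u,x⟫ ≤ 0}`.  The complement of `Ω` is compact and each `x ∉ Ω` has a `u` with `⟪u,·⟫ ≤ 0` on `K`, `⟪u,x⟫ > 0` (`Body.sep`): finitely many of the open sets `{0 < ⟪u,·⟫}` cover it.  `body_pt`: `cn (pt U)` is closed under addition (`x + y ≠ 0` because `pt U ⊆ Ω` and `⟪p,·⟫ > 0` on `Ω` for a
fixed `p ∈ Ω`, `Dom.inner_pos`), `convex_cn_of_add`.
-/

namespace Pool.Agent.H62.SS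

open scoped RealInnerProductSpace MeasureTheory ENNReal NNReal
open MeasureTheory Set Metric
open Pool.Agent.H62.WS (E sg cst)

variable {n : ℕ}

/-- the polytope of a finite set of half spaces -/
def pt (U : Finset (Sp n)) : Set (Sp n) :=
  {x | ∀ u ∈ U, ⟪(u : E (n + 1)), (x : E (n + 1))⟫ ≤ 0}

theorem isClosed_pt (U : Finset (Sp n)) : IsClosed (pt U) := by
  have h : pt U = ⋂ u ∈ U, {x : Sp n | ⟪(u : E (n + 1)), (x : E (n + 1))⟫ ≤ 0} := by
    ext x
    simp [pt]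
  rw [h]
  exact isClosed_biInter fun u _ =>
    isClosed_le (continuous_const.inner continuous_subtype_val) continuous_const

theorem body_pt {Ω : Set (Sp n)} (h : Dom Ω) {U : Finset (Sp n)} (hU : pt U ⊆ Ω) :
    Body (pt U) := by
  obtain ⟨p0, hp0⟩ := h.nonempty
  have hpos : ∀ x ∈ pt U, 0 < ⟪(p0 : E (n + 1)), (x : E (n + 1))⟫ := fun x hx =>
    h.inner_pos hp0 (subset_closure (hU hx))
  refine ⟨(isClosed_pt U).isCompact, ?_, ⟨(p0 : E (n + 1)), ?_⟩⟩
  · apply convex_cn_of_add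
    rintro _ ⟨s, hs, p, hp, rfl⟩ _ ⟨t, ht, q, hq, rfl⟩
    have hne : s • (p : E (n + 1)) + t • (q : E (n + 1)) ≠ 0 := by
      intro h0
      have h1 : ⟪(p0 : E (n + 1)), s • (p : E (n + 1)) + t • (q : E (n + 1))⟫ = 0 := by
        rw [h0, inner_zero_right]
      rw [inner_add_right, real_inner_smul_right, real_inner_smul_right] at h1
      have h2 := mul_pos hs (hpos p hp)
      have h3 := mul_pos ht (hpos q hq)
      linarith
    rw [mem_cn_iff]
    refine ⟨hne, fun u hu => ?_⟩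
    rw [coe_nrm hne, real_inner_smul_right, inner_add_right, real_inner_smul_right,
      real_inner_smul_right]
    have h1 := mul_nonpos_of_nonneg_of_nonpos hs.le (hp u hu)
    have h2 := mul_nonpos_of_nonneg_of_nonpos ht.le (hq u hu)
    exact mul_nonpos_of_nonneg_of_nonpos (inv_nonneg.2 (norm_nonneg _)) (by linarith)
  · intro x hx
    rw [real_inner_comm]
    exact hpos x hx

theorem exists_polytope {Ω : Set (Sp n)} (h : Dom Ω) {K : Set (Sp n)} (hK : Body K)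
    (hKΩ : K ⊆ Ω) : ∃ U : Finset (Sp n), K ⊆ pt U ∧ pt U ⊆ Ω := by
  classical
  have hc : IsCompact (Ωᶜ : Set (Sp n)) := h.isOpen.isClosed_compl.isCompact
  have hsep : ∀ x : Sp n, ∃ u : Sp n, x ∈ Ωᶜ →
      (∀ y ∈ K, ⟪(u : E (n + 1)), (y : E (n + 1))⟫ ≤ 0) ∧
        0 < ⟪(u : E (n + 1)), (x : E (n + 1))⟫ := by
    intro x
    by_cases hx : x ∈ Ωᶜ
    · obtain ⟨u, hu⟩ := hK.sep (x := x) (fun hx' => hx (hKΩ hx'))
      exact ⟨u, fun _ => hu⟩
    · exact ⟨x, fun h' => absurd h' hx⟩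
  choose u hu using hsep
  obtain ⟨T, hT, hcov⟩ := hc.elim_nhds_subcover
    (fun x => {y : Sp n | 0 < ⟪((u x : Sp n) : E (n + 1)), (y : E (n + 1))⟫})
    (fun x hx => (isOpen_lt continuous_const
      (continuous_const.inner continuous_subtype_val)).mem_nhds (hu x hx).2)
  refine ⟨T.image u, ?_, ?_⟩
  · intro y hy v hv
    obtain ⟨x, hx, rfl⟩ := Finset.mem_image.1 hv
    exact (hu x (hT x hx)).1 y hy
  · intro y hy
    by_contra hcon
    obtain ⟨x, hx, hxy⟩ := mem_iUnion₂.1 (hcov hcon)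
    have h1 := hy (u x) (Finset.mem_image_of_mem u hx)
    exact absurd hxy (not_lt.2 h1)

end Pool.Agent.H62.SS
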