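import Pool.Agent.H62.SS.Glue
import Pool.Agent.H62.SS.Ode2
import Pool.Agent.H62.WS.TestQ

set_option autoImplicit false

/-!
# [H62 SS PROFH] The profile `H`
-/

namespace Pool.Agent.H62.SS

open MeasureTheory Set Filter
open scoped Real
open Pool.Agent.H62.WS (qq qq' hasDerivAt_qq continuousOn_qq'_int)

theorem hasDerivAt_Fp0 {H : ℝ → ℝ} (hH : ContDiff ℝ 1 H) (r : ℝ) :
    HasDerivAt (Fp H) (Fp' H r) r := by
  have h1 : HasDerivAt H (deriv H (Real.cos r)) (Real.cos r) :=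
    (hH.differentiable one_ne_zero _).hasDerivAt
  have h2 := (h1.comp r (Real.hasDerivAt_cos r)).fun_mul (Real.hasDerivAt_sin r)
  refine h2.congr_deriv ?_
  simp only [Function.comp_apply]
  unfold Fp'
  ring

theorem continuous_Fp0 {H : ℝ → ℝ} (hH : ContDiff ℝ 1 H) : Continuous (Fp H) :=
  continuous_iff_continuousAt.2 fun r => (hasDerivAt_Fp0 hH r).continuousAt

theorem continuous_Fp0' {H : ℝ → ℝ} (hH : ContDiff ℝ 1 H) : Continuous (Fp' H) := by
  have h1 : Continuous (deriv H) := hH.continuous_deriv_one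
  have h2 := hH.continuous
  unfold Fp'
  exact ((h2.comp Real.continuous_cos).mul Real.continuous_cos).sub
    ((h1.comp Real.continuous_cos).mul (Real.continuous_sin.pow 2))

theorem continuous_hp0 (N : ℕ) {H : ℝ → ℝ} (hH : ContDiff ℝ 1 H) : Continuous (hp N H) := by
  unfold hp
  exact ((continuous_Fp0' hH).pow 2).add
    (continuous_const.mul ((hH.continuous.comp Real.continuous_cos).pow 2))

theorem qq_sin (N : ℕ) {r : ℝ} (h0 : 0 < r) (h1 : r < π / 2) :
    qq N (-Real.sin r ^ 2) * Real.sin r = fS N r := by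
  have hs := sin_pos1 h0 h1
  have hc := cos_pos1 h0.le h1
  have hs1 : Real.sin r < 1 := by
    have := Real.sin_sq_add_cos_sq r
    nlinarith
  have hlt : ∀ t ∈ uIcc (0 : ℝ) 1, -1 < t * Real.sin r ∧ t * Real.sin r < 1 := by
    intro t ht
    rw [uIcc_of_le zero_le_one] at ht
    constructor
    · nlinarith [mul_nonneg ht.1 hs.le]
    · nlinarith [mul_le_mul_of_nonneg_right ht.2 hs.le]
  have hpos : ∀ t ∈ uIcc (0 : ℝ) 1, 0 < 1 - (t * Real.sin r) ^ 2 := fun t ht => by
    obtain ⟨h3, h4⟩ := hlt t ht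
    nlinarith
  have h2 : ∀ t ∈ uIcc (0 : ℝ) 1, HasDerivAt (fun t : ℝ => Real.arcsin (t * Real.sin r))
      (1 / √(1 - (t * Real.sin r) ^ 2) * Real.sin r) t := by
    intro t ht
    obtain ⟨h3, h4⟩ := hlt t ht
    have h5 : HasDerivAt (fun t : ℝ => t * Real.sin r) (Real.sin r) t := by
      simpa using (hasDerivAt_id t).mul_const (Real.sin r)
    exact HasDerivAt.comp (h₂ := Real.arcsin) t (Real.hasDerivAt_arcsin h3.ne' h4.ne) h5
  have h3 := intervalIntegral.integral_comp_mul_deriv (g := fun ρ : ℝ => Real.sin ρ ^ N) h2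
    (by
      refine ContinuousOn.mul (ContinuousOn.div continuousOn_const ?_ fun t ht =>
        (Real.sqrt_pos.mpr (hpos t ht)).ne') continuousOn_const
      fun_prop)
    (by fun_prop)
  simp only [Function.comp_apply, zero_mul, Real.arcsin_zero, one_mul] at h3
  rw [Real.arcsin_sin (by linarith) h1.le] at h3
  have h4 : VS N r = ∫ x in (0 : ℝ)..1, (x * Real.sin r) ^ N *
      (1 / √(1 - (x * Real.sin r) ^ 2) * Real.sin r) := by
    rw [VS, ← h3]
    refine intervalIntegral.integral_congr fun t ht => ?_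
    obtain ⟨h5, h6⟩ := hlt t ht
    simp only [Real.sin_arcsin h5.le h6.le]
  rw [fS, eq_div_iff (pow_ne_zero N hs.ne'), h4, qq, mul_assoc, mul_comm,
    ← intervalIntegral.integral_const_mul]
  refine intervalIntegral.integral_congr fun t _ => ?_
  have e : 1 + t ^ 2 * -Real.sin r ^ 2 = 1 - (t * Real.sin r) ^ 2 := by ring
  simp only [e, mul_pow]
  ring

theorem qq_zero_pos (N : ℕ) : 0 < qq N 0 := by
  unfold qq
  simp only [mul_zero, add_zero, Real.sqrt_one, div_one, integral_pow]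
  have : (0 : ℝ) < N + 1 := by positivity
  simp only [one_pow, zero_pow (Nat.succ_ne_zero N), sub_zero]
  positivity

/-- the outer part of the profile -/
noncomputable def Gf (β T a b c : ℝ) : ℝ :=
  1 + β * ((1 - T * c) * (1 - a / 2 * (1 - T * c) + b / 3 * (1 - T * c) ^ 2))

theorem hasDerivAt_Gf (β T a b c : ℝ) :
    HasDerivAt (Gf β T a b) (-(β * T * (1 - a * (1 - T * c) + b * (1 - T * c) ^ 2))) c := by
  have h1 : HasDerivAt (fun c : ℝ => 1 - T * c) (-T) c := by
    simpa using ((hasDerivAt_id c).const_mul T).const_sub 1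
  have h2 := ((h1.fun_mul (((h1.const_mul (a / 2)).const_sub 1).fun_add
    ((h1.fun_pow 2).const_mul (b / 3)))).const_mul β).const_add 1
  refine h2.congr_deriv ?_
  simp only [Nat.cast_ofNat, Nat.add_one_sub_one, pow_one]
  ring

theorem one_le_Gf {β T a b c : ℝ} (hβ : 0 ≤ β) (hab : 3 * a ^ 2 ≤ 16 * b)
    (ht : 0 ≤ 1 - T * c) : 1 ≤ Gf β T a b c := by
  unfold Gf
  set t := 1 - T * c with ht'
  have hp : 0 ≤ 1 - a / 2 * t + b / 3 * t ^ 2 := by
    nlinarith [sq_nonneg (1 - a / 4 * t), mul_nonneg (sq_nonneg t) (sub_nonneg.2 hab)]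
  have := mul_nonneg hβ (mul_nonneg ht hp)
  linarith

/-- the outer part in the variable `y = cos r` -/
noncomputable def Pf (β T a b y : ℝ) : ℝ := Gf β T a b (y / √(1 - y ^ 2)) / √(1 - y ^ 2)

noncomputable def Pf' (β T a b y : ℝ) : ℝ :=
  (-(β * T * (1 - a * (1 - T * (y / √(1 - y ^ 2))) + b * (1 - T * (y / √(1 - y ^ 2))) ^ 2)) *
    (1 / √(1 - y ^ 2) ^ 3) * √(1 - y ^ 2) +
      Gf β T a b (y / √(1 - y ^ 2)) * (y / √(1 - y ^ 2))) / √(1 - y ^ 2) ^ 2

theorem hasDerivAt_sqrt1 {y : ℝ} (hy : y ^ 2 < 1) :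
    HasDerivAt (fun y : ℝ => √(1 - y ^ 2)) (-(y / √(1 - y ^ 2))) y := by
  have h1 : HasDerivAt (fun y : ℝ => 1 - y ^ 2) (-(2 * y)) y := by
    have := ((hasDerivAt_id y).fun_pow 2).const_sub 1
    refine this.congr_deriv ?_
    simp
  have h2 := h1.sqrt (by linarith)
  refine h2.congr_deriv ?_
  have : 0 < √(1 - y ^ 2) := Real.sqrt_pos.2 (by linarith)
  field_simp

theorem hasDerivAt_Pf (β T a b : ℝ) {y : ℝ} (hy : y ^ 2 < 1) :
    HasDerivAt (Pf β T a b) (Pf' β T a b y) y := by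
  have hw := hasDerivAt_sqrt1 hy
  have hpos : 0 < √(1 - y ^ 2) := Real.sqrt_pos.2 (by linarith)
  have hsq : √(1 - y ^ 2) ^ 2 = 1 - y ^ 2 := Real.sq_sqrt (by linarith)
  have hu : HasDerivAt (fun y : ℝ => y / √(1 - y ^ 2)) (1 / √(1 - y ^ 2) ^ 3) y := by
    have := (hasDerivAt_id y).fun_div hw hpos.ne'
    refine this.congr_deriv ?_
    simp only [id_eq]
    field_simp
    rw [hsq]
    ring
  have h := ((hasDerivAt_Gf β T a b (y / √(1 - y ^ 2))).comp y hu).fun_div hw hpos.ne'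
  refine h.congr_deriv ?_
  simp only [Function.comp_apply]
  unfold Pf'
  ring

theorem continuousAt_Pf' (β T a b : ℝ) {y : ℝ} (hy : y ^ 2 < 1) :
    ContinuousAt (Pf' β T a b) y := by
  have hw := (hasDerivAt_sqrt1 hy).continuousAt
  have hpos : √(1 - y ^ 2) ≠ 0 := (Real.sqrt_pos.2 (by linarith)).ne'
  have hu : ContinuousAt (fun y : ℝ => y / √(1 - y ^ 2)) y := continuousAt_id.div hw hpos
  have hG : ContinuousAt (fun y : ℝ => Gf β T a b (y / √(1 - y ^ 2))) y := by
    have h1 := (hasDerivAt_Gf β T a b (y / √(1 - y ^ 2))).continuousAt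
    exact ContinuousAt.comp (f := fun y : ℝ => y / √(1 - y ^ 2)) h1 hu
  unfold Pf'
  refine ContinuousAt.div ?_ (hw.pow 2) (pow_ne_zero 2 hpos)
  refine ContinuousAt.add ?_ (hG.mul hu)
  refine ContinuousAt.mul (ContinuousAt.mul ?_ ?_) hw
  · fun_prop
  · exact ContinuousAt.div continuousAt_const (hw.pow 3) (pow_ne_zero 3 hpos)

end Pool.Agent.H62.SS
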