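import Pool.Agent.H62.SS.ProfH

set_option autoImplicit false

/-!
# [H62 SS PROFI] Existence of the profile `H`
-/

namespace Pool.Agent.H62.SS

open MeasureTheory Set Filter
open scoped Real
open Pool.Agent.H62.WS (qq qq' hasDerivAt_qq continuousOn_qq'_int)

theorem exists_H {N : ℕ} (hN : 1 ≤ N) {R : ℝ} (h0 : 0 < R) (h1 : R < π / 2) {β a b : ℝ}
    (hβ : 0 ≤ β) (hab : 3 * a ^ 2 ≤ 16 * b) (hab' : a ≤ 1 + b)
    (hm : β * Real.tan R / Real.sin R ^ 2 = gS N R) :
    ∃ H : ℝ → ℝ, ContDiff ℝ 1 H ∧ (∀ c ∈ Icc (-1 : ℝ) 1, 0 < H c) ∧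
      (∀ r ∈ Icc 0 R, Fp H r = fS N r / fS N R) ∧
      (∀ r ∈ Icc R (π / 2), Fp H r = Gf β (Real.tan R) a b (Real.cos r / Real.sin r)) := by
  have hpi := Real.pi_pos
  set T := Real.tan R with hT
  have hT0 : 0 < T := tan_pos1 h0 h1
  have hsR := sin_pos1 h0 h1
  have hcR := cos_pos1 h0.le h1
  have hsc := Real.sin_sq_add_cos_sq R
  have hfR : 0 < fS N R := fS_pos N h0 (by linarith)
  have hsq : ∀ r : ℝ, 0 ≤ r → r ≤ π → √(1 - Real.cos r ^ 2) = Real.sin r := by
    intro r hr0 hr1
    rw [← Real.sin_sq, Real.sqrt_sq (Real.sin_nonneg_of_nonneg_of_le_pi hr0 hr1)]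
  -- the inner part
  set Q : ℝ → ℝ := fun y => qq N (y ^ 2 - 1) / fS N R with hQ
  set Q' : ℝ → ℝ := fun y => (∫ t in (0 : ℝ)..1, qq' N (y ^ 2 - 1) t) * (2 * y) / fS N R with hQ'
  have hQd : ∀ y : ℝ, 0 < y → HasDerivAt Q (Q' y) y := by
    intro y hy
    have h2 : HasDerivAt (fun y : ℝ => y ^ 2 - 1) (2 * y) y := by
      have := ((hasDerivAt_id y).fun_pow 2).sub_const 1
      refine this.congr_deriv ?_
      simp
    have h3 : HasDerivAt (qq N) (∫ t in (0 : ℝ)..1, qq' N (y ^ 2 - 1) t) (y ^ 2 - 1) :=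
      hasDerivAt_qq N (by nlinarith [pow_pos hy 2])
    exact (HasDerivAt.comp (h₂ := qq N) y h3 h2).div_const _
  have hQc : ∀ y : ℝ, 0 < y → ContinuousAt Q' y := by
    intro y hy
    have h2 : ContinuousAt (fun z => ∫ t in (0 : ℝ)..1, qq' N z t) (y ^ 2 - 1) :=
      (continuousOn_qq'_int N).continuousAt (Ioi_mem_nhds (by nlinarith [pow_pos hy 2]))
    have h3 : ContinuousAt (fun y : ℝ => y ^ 2 - 1) y := by fun_prop
    have h4 : ContinuousAt (fun y : ℝ => ∫ t in (0 : ℝ)..1, qq' N (y ^ 2 - 1) t) y :=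
      ContinuousAt.comp (f := fun y : ℝ => y ^ 2 - 1) h2 h3
    exact (h4.mul (by fun_prop)).div_const _
  have hQs : ∀ r : ℝ, 0 < r → r < π / 2 → Q (Real.cos r) * Real.sin r = fS N r / fS N R := by
    intro r hr0 hr1
    have e : Real.cos r ^ 2 - 1 = -Real.sin r ^ 2 := by
      have := Real.sin_sq_add_cos_sq r
      linarith
    simp only [hQ, e]
    rw [div_mul_eq_mul_div, qq_sin N hr0 hr1]
  -- the outer part
  have hPs : ∀ r : ℝ, 0 < r → r ≤ π / 2 →
      Pf β T a b (Real.cos r) * Real.sin r = Gf β T a b (Real.cos r / Real.sin r) := by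
    intro r hr0 hr1
    have hs : 0 < Real.sin r := Real.sin_pos_of_pos_of_lt_pi hr0 (by linarith)
    unfold Pf
    rw [hsq r hr0.le (by linarith)]
    field_simp
  have hlt1 : ∀ y : ℝ, 0 ≤ y → y ≤ Real.cos R → y ^ 2 < 1 := by
    intro y hy hy'
    nlinarith [pow_pos hsR 2]
  -- matching
  have hcT : Real.cos R / Real.sin R = 1 / T := by
    rw [hT, Real.tan_eq_sin_div_cos]
    field_simp
  have hGR : Gf β T a b (1 / T) = 1 := by
    unfold Gf
    rw [mul_one_div_cancel hT0.ne']
    ring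
  have e2 : Pf β T a b (Real.cos R) = Q (Real.cos R) := by
    have h2 := hPs R h0 h1.le
    have h3 := hQs R h0 h1
    rw [div_self hfR.ne'] at h3
    rw [hcT, hGR] at h2
    exact mul_right_cancel₀ hsR.ne' (h2.trans h3.symm)
  have e2' : Pf' β T a b (Real.cos R) = Q' (Real.cos R) := by
    -- differentiate `Q (cos r) sin r = f(r)/f(R)` at `R`
    have h2 : HasDerivAt (fun r => Q (Real.cos r) * Real.sin r)
        (Q' (Real.cos R) * -Real.sin R * Real.sin R + Q (Real.cos R) * Real.cos R) R :=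
      (HasDerivAt.comp (h₂ := Q) R (hQd _ hcR) (Real.hasDerivAt_cos R)).fun_mul
        (Real.hasDerivAt_sin R)
    have h3 : HasDerivAt (fun r => Q (Real.cos r) * Real.sin r) (gS N R * fS N R / fS N R) R := by
      refine ((hasDerivAt_fS N h0 (by linarith)).div_const (fS N R)).congr_of_eventuallyEq ?_
      filter_upwards [Ioo_mem_nhds h0 h1] with r hr using hQs r hr.1 hr.2
    have h4 := h2.unique h3
    rw [mul_div_cancel_right₀ _ hfR.ne', ← hm] at h4
    have h5 : Q (Real.cos R) = 1 / Real.sin R := by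
      have := hQs R h0 h1
      rw [div_self hfR.ne'] at this
      rw [eq_div_iff hsR.ne', this]
    have h6 : Pf' β T a b (Real.cos R) = (-(β * T) / Real.sin R ^ 2 + Real.cos R / Real.sin R) /
        Real.sin R ^ 2 := by
      unfold Pf'
      rw [hsq R h0.le (by linarith), hcT, hGR, mul_one_div_cancel hT0.ne']
      field_simp
      ring
    rw [h6]
    rw [h5] at h4
    have hs2 : Real.sin R ^ 2 ≠ 0 := pow_ne_zero 2 hsR.ne'
    rw [div_eq_iff hs2]
    have h7 : Q' (Real.cos R) * Real.sin R ^ 2 = 1 / Real.sin R * Real.cos R -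
        β * T / Real.sin R ^ 2 := by linarith
    rw [h7]
    ring
  obtain ⟨H, hH, k1, k2, k3⟩ := glue3 (a := 0) (b := Real.cos R) hcR
    (f := fun y => Pf β T a b 0 + Pf' β T a b 0 * y) (f' := fun _ => Pf' β T a b 0)
    (g := Pf β T a b) (g' := Pf' β T a b) (h := Q) (h' := Q')
    (fun x _ => by
      simpa using ((hasDerivAt_id x).const_mul (Pf' β T a b 0)).const_add (Pf β T a b 0))
    (fun x hx => hasDerivAt_Pf β T a b (hlt1 x hx.1 hx.2))
    (fun x hx => hQd x (hcR.trans_le hx)) continuousOn_const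
    (fun x hx => (continuousAt_Pf' β T a b (hlt1 x hx.1 hx.2)).continuousWithinAt)
    (fun x hx => (hQc x (hcR.trans_le hx)).continuousWithinAt) (by simp) rfl e2 e2'
  have hin : ∀ r ∈ Icc 0 R, Fp H r = fS N r / fS N R := by
    intro r hr
    rcases hr.1.eq_or_lt with h | h
    · subst h
      have : fS N 0 = 0 := by
        unfold fS
        rw [VS_zero, zero_div]
      unfold Fp
      rw [this, Real.sin_zero]
      simp
    · have h2 : Real.cos R ≤ Real.cos r :=
        Real.cos_le_cos_of_nonneg_of_le_pi h.le (by linarith) hr.2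
      unfold Fp
      rw [k3 _ h2]
      exact hQs r h (by linarith [hr.2])
  have hout : ∀ r ∈ Icc R (π / 2), Fp H r = Gf β T a b (Real.cos r / Real.sin r) := by
    intro r hr
    have h2 : Real.cos r ≤ Real.cos R :=
      Real.cos_le_cos_of_nonneg_of_le_pi h0.le (by linarith [hr.2]) hr.1
    have h3 : 0 ≤ Real.cos r := Real.cos_nonneg_of_mem_Icc ⟨by linarith [hr.1], hr.2⟩
    unfold Fp
    rw [k2 _ ⟨h3, h2⟩]
    exact hPs r (by linarith [hr.1]) hr.2
  refine ⟨H, hH, fun c hc => ?_, hin, hout⟩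
  have h10 : 1 ≤ Pf β T a b 0 := by
    have := one_le_Gf (β := β) (T := T) (a := a) (b := b) (c := 0) hβ hab (by simp)
    unfold Pf
    simpa using this
  rcases le_or_gt c 0 with h2 | h2
  · rw [k1 c h2]
    have h3 : Pf' β T a b 0 ≤ 0 := by
      unfold Pf'
      have : 0 ≤ β * T * (1 - a + b) := mul_nonneg (mul_nonneg hβ hT0.le) (by linarith)
      simp
      linarith
    nlinarith [mul_nonneg_of_nonpos_of_nonpos h3 h2]
  · rcases le_or_gt c (Real.cos R) with h3 | h3
    · rw [k2 c ⟨h2.le, h3⟩]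
      have h4 := hlt1 c h2.le h3
      have hw : 0 < √(1 - c ^ 2) := Real.sqrt_pos.2 (by linarith)
      have h5 : T * (c / √(1 - c ^ 2)) ≤ 1 := by
        -- `c/√(1-c²) ≤ cos R/sin R = 1/T`
        have h6 : c / √(1 - c ^ 2) ≤ Real.cos R / Real.sin R := by
          have h7 : Real.sin R ≤ √(1 - c ^ 2) := by
            refine Real.le_sqrt_of_sq_le ?_
            nlinarith
          gcongr
        rw [hcT] at h6
        calc T * (c / √(1 - c ^ 2)) ≤ T * (1 / T) := by gcongr
          _ = 1 := mul_one_div_cancel hT0.ne'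
      have h6 := one_le_Gf (β := β) (T := T) (a := a) (b := b) (c := c / √(1 - c ^ 2)) hβ hab
        (by linarith)
      unfold Pf
      positivity
    · rw [k3 c h3.le]
      rcases hc.2.eq_or_lt with h4 | h4
      · subst h4
        simp only [hQ, one_pow, sub_self]
        exact div_pos (qq_zero_pos N) hfR
      · set r := Real.arccos c with hr
        have hr0 : 0 < r := Real.arccos_pos.2 h4
        have hrc : Real.cos r = c := Real.cos_arccos (by linarith) h4.le
        have hr1 : r < π / 2 := Real.arccos_lt_pi_div_two.2 h2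
        have h5 := hQs r hr0 hr1
        rw [hrc] at h5
        have h6 : 0 < fS N r / fS N R := div_pos (fS_pos N hr0 (by linarith)) hfR
        rw [← h5] at h6
        exact (mul_pos_iff_of_pos_right (sin_pos1 hr0 hr1)).1 h6

end Pool.Agent.H62.SS
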