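import Pool.Agent.H62.SS.ProfI
import Pool.Agent.H62.SS.Par

set_option autoImplicit false

/-!
# [H62 SS PROFK] The pointwise inequalities
-/

namespace Pool.Agent.H62.SS

open MeasureTheory Set Filter
open scoped Real

/-- `r < R`: the first pointwise quantity is `-M`, `M > 0` -/
theorem D1_neg {N T τ B b lam : ℝ} (hT : 0 < T) (hτ : 0 < τ) (hb : 0 < N + b)
    (hM : 0 < MM N lam (τ / T) (T ^ 2) B b) :
    2 * (B / T) * (τ * (N + B) / (T * (N + b))) * (b / τ * (τ * (N + B) / (T * (N + b)))) -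
      ((b / τ * (τ * (N + B) / (T * (N + b)))) ^ 2 +
        N * ((τ * (N + B) / (T * (N + b))) ^ 2 * ((1 + τ ^ 2) / τ ^ 2))) +
      (N * (1 + T ^ 2) - B ^ 2 - N * lam) / T ^ 2 < 0 := by
  have e : 2 * (B / T) * (τ * (N + B) / (T * (N + b))) * (b / τ * (τ * (N + B) / (T * (N + b)))) -
      ((b / τ * (τ * (N + B) / (T * (N + b)))) ^ 2 +
        N * ((τ * (N + B) / (T * (N + b))) ^ 2 * ((1 + τ ^ 2) / τ ^ 2))) +
      (N * (1 + T ^ 2) - B ^ 2 - N * lam) / T ^ 2 =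
      -(MM N lam (τ / T) (T ^ 2) B b / (T ^ 2 * (N + b) ^ 2)) := by
    unfold MM
    field_simp
    ring
  rw [e]
  have : 0 < MM N lam (τ / T) (T ^ 2) B b / (T ^ 2 * (N + b) ^ 2) := by positivity
  linarith

/-- `r₀ ≤ r < R` -/
theorem D_neg {N T τ B b lam F : ℝ} (hN : 0 < N) (hT : 0 < T) (hτ : 0 < τ) (hτT : τ < T)
    (hB : 1 ≤ B) (hlam : lam < 1) (hF0 : 0 ≤ F) (hF1 : F ≤ 1)
    (hF : B - lam ≤ B * F ^ 2) (hG : N * (1 + T ^ 2) ≤ B ^ 2 + N * B) :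
    2 * (B / T) * F * (b / τ * F) + N * (1 / τ) * (B / T * F ^ 2 - (B - lam) / T) -
      ((b / τ * F) ^ 2 + N * (F ^ 2 * ((1 + τ ^ 2) / τ ^ 2))) +
      (N * (1 + T ^ 2) - B ^ 2 - N * lam) / T ^ 2 < 0 := by
  set x := T / τ with hx
  have hx1 : 1 < x := by
    rw [hx, one_lt_div hτ]
    exact hτT
  have e : 2 * (B / T) * F * (b / τ * F) + N * (1 / τ) * (B / T * F ^ 2 - (B - lam) / T) -
      ((b / τ * F) ^ 2 + N * (F ^ 2 * ((1 + τ ^ 2) / τ ^ 2))) +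
      (N * (1 + T ^ 2) - B ^ 2 - N * lam) / T ^ 2 =
      ((1 - F ^ 2) * (N * (T ^ 2 + x ^ 2) - B ^ 2 - N * x * B) - F ^ 2 * (b * x - B) ^ 2 -
        N * (x - 1) * (x + 1 - lam)) / T ^ 2 := by
    rw [hx]
    field_simp
    ring
  rw [e]
  refine div_neg_of_neg_of_pos ?_ (by positivity)
  have hF2 : F ^ 2 ≤ 1 := by nlinarith
  have h1 : 0 ≤ 1 - F ^ 2 := by linarith
  have h2 : N * (T ^ 2 + x ^ 2) - B ^ 2 - N * x * B ≤ N * (x - 1) * (x + 1 - B) := by nlinarith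
  have h3 := mul_le_mul_of_nonneg_left h2 h1
  have h4 : 0 ≤ F ^ 2 * (b * x - B) ^ 2 := by positivity
  have h5 : (1 - F ^ 2) * B ≤ lam := by nlinarith
  have hxx : 0 < x - 1 := by linarith
  have hlam0 : lam < B := by linarith
  have h6 : (1 - F ^ 2) * (x + 1 - B) < x + 1 - lam := by
    rcases le_or_gt (x + 1 - B) 0 with h7 | h7
    · have := mul_nonpos_of_nonneg_of_nonpos h1 h7
      linarith
    · have h8 : (1 - F ^ 2) ≤ lam / B := by
        rw [le_div_iff₀ (by linarith)]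
        exact h5
      have h9 : lam / B < 1 := by
        rw [div_lt_one (by linarith)]
        exact hlam0
      have h10 : lam / B * (x + 1 - B) = lam / B * (x + 1) - lam := by
        field_simp
      have h11 : (1 - F ^ 2) * (x + 1 - B) ≤ lam / B * (x + 1 - B) :=
        mul_le_mul_of_nonneg_right h8 h7.le
      have h12 : lam / B * (x + 1) < x + 1 := by nlinarith
      linarith
  have h7 : N * (x - 1) * ((1 - F ^ 2) * (x + 1 - B)) < N * (x - 1) * (x + 1 - lam) :=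
    mul_lt_mul_of_pos_left h6 (by positivity)
  nlinarith

/-- `R < r < π/2` -/
theorem D_pos {N T B lam a b t : ℝ} (hT : 0 < T) (ht : 0 < t)
    (hP : 0 < PP N lam a b t (T ^ 2) B) :
    0 < 2 * (B / T) * (1 + B / (1 + T ^ 2) * (t * (1 - a / 2 * t + b / 3 * t ^ 2))) *
        (B / (1 + T ^ 2) * T * (1 - a * t + b * t ^ 2) * ((T ^ 2 + (1 - t) ^ 2) / T ^ 2)) +
      N * ((1 - t) / T) * (B / T * (1 + B / (1 + T ^ 2) * (t * (1 - a / 2 * t + b / 3 * t ^ 2))) ^ 2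
        - (B - lam) / T) -
      ((B / (1 + T ^ 2) * T * (1 - a * t + b * t ^ 2) * ((T ^ 2 + (1 - t) ^ 2) / T ^ 2)) ^ 2 +
        N * ((1 + B / (1 + T ^ 2) * (t * (1 - a / 2 * t + b / 3 * t ^ 2))) ^ 2 *
          ((T ^ 2 + (1 - t) ^ 2) / T ^ 2))) +
      (N * (1 + T ^ 2) - B ^ 2 - N * lam) / T ^ 2 := by
  have e : 2 * (B / T) * (1 + B / (1 + T ^ 2) * (t * (1 - a / 2 * t + b / 3 * t ^ 2))) *
        (B / (1 + T ^ 2) * T * (1 - a * t + b * t ^ 2) * ((T ^ 2 + (1 - t) ^ 2) / T ^ 2)) +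
      N * ((1 - t) / T) * (B / T * (1 + B / (1 + T ^ 2) * (t * (1 - a / 2 * t + b / 3 * t ^ 2))) ^ 2
        - (B - lam) / T) -
      ((B / (1 + T ^ 2) * T * (1 - a * t + b * t ^ 2) * ((T ^ 2 + (1 - t) ^ 2) / T ^ 2)) ^ 2 +
        N * ((1 + B / (1 + T ^ 2) * (t * (1 - a / 2 * t + b / 3 * t ^ 2))) ^ 2 *
          ((T ^ 2 + (1 - t) ^ 2) / T ^ 2))) +
      (N * (1 + T ^ 2) - B ^ 2 - N * lam) / T ^ 2 =
      t * PP N lam a b t (T ^ 2) B / (T ^ 2 * (1 + T ^ 2) ^ 2) := by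
    have h1 : (1 + T ^ 2) ≠ 0 := by positivity
    unfold PP
    field_simp
    ring
  rw [e]
  positivity

end Pool.Agent.H62.SS
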