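import Pool.Agent.H62.SS.ProfL
import Pool.Agent.H62.SS.ParE

set_option autoImplicit false

/-!
# [H62 SS PROFM] The comparison with the ball of radius `π/4`
-/

namespace Pool.Agent.H62.SS

open MeasureTheory Set Filter
open scoped Real

theorem quarter_ineq {N : ℕ} (hN : 2 ≤ N) {lam X : ℝ} (hlam1 : lam < 1)
    (hX : 1 ≤ X)
    (hE : ∀ c : ℝ, 0 ≤ c → c ≤ 1 →
      0 < N * X * (1 + c ^ 2) -
        X * (BS N (π / 4) - (BS N (π / 4) - lam) * (1 - c ^ 2) / (2 * X)) ^ 2 -
        N * c * ((X - 1) * BS N (π / 4) + lam)) {R : ℝ} (h0 : π / 4 < R) (h1 : R < π / 2) :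
    (gS N (π / 4) - gS N R) * X <
      (gS N (π / 4) - lam) * (1 - (Real.sin (π / 4) / Real.sin R) ^ N) := by
  have hpi := Real.pi_pos
  have hX0 : 0 < X := by linarith
  have hγ : BS N (π / 4) = gS N (π / 4) := by
    rw [BS, Real.tan_pi_div_four, mul_one]
  rw [hγ] at hE
  set γ := gS N (π / 4) with hγdef
  have hγ1 : 1 ≤ γ := by
    rw [← hγ]
    exact BS_ge_one N (by linarith) (by linarith)
  set m := γ - lam with hm
  have hm0 : 0 < m := by linarith
  set s1 := Real.sin (π / 4) with hs1
  have hs1pos : 0 < s1 := Real.sin_pos_of_pos_of_lt_pi (by linarith) (by linarith)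
  have hs1sq : s1 ^ 2 = 1 / 2 := by
    rw [hs1, Real.sin_pi_div_four, div_pow, Real.sq_sqrt (by norm_num)]
    norm_num
  set e : ℝ → ℝ := fun r => m * (Real.sin r ^ N - s1 ^ N) - X * (γ - gS N r) * Real.sin r ^ N
    with he
  set e' : ℝ → ℝ := fun r => Real.sin r ^ N * (X * (N / Real.sin r ^ 2 - gS N r ^ 2) -
    N * (Real.cos r / Real.sin r) * (X * γ - m)) with he'
  have hd : ∀ r, 0 < r → r < π / 2 → HasDerivAt e (e' r) r := by
    intro r hr hr2
    have hs := (sin_pos1 hr hr2).ne'
    have h2 := hasDerivAt_pow_sin (r := r) N hs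
    have h3 := hasDerivAt_gS N hr (by linarith)
    have h4 := ((h2.sub_const (s1 ^ N)).const_mul m).fun_sub
      (((h3.const_sub γ).const_mul X).fun_mul h2)
    refine h4.congr_deriv ?_
    simp only [he']
    ring
  have hzero : ∀ r, π / 4 ≤ r → r < π / 2 → e r = 0 → 0 < e' r := by
    intro r hr hr2 hez
    have hr0 : 0 < r := by linarith
    have hs := sin_pos1 hr0 hr2
    have hc := cos_pos1 hr0.le hr2
    set c := Real.cos r / Real.sin r with hcdef
    have hc0 : 0 ≤ c := (div_pos hc hs).le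
    have hsc := Real.sin_sq_add_cos_sq r
    have hinv : 1 / Real.sin r ^ 2 = 1 + c ^ 2 := by
      rw [hcdef]
      field_simp
      linarith
    have hs1le : s1 ≤ Real.sin r :=
      Real.sin_le_sin_of_le_of_le_pi_div_two (by linarith) hr2.le hr
    have hsin2 : 1 / 2 ≤ Real.sin r ^ 2 := by
      rw [← hs1sq]
      gcongr
    have hc1 : c ≤ 1 := by
      have h5 : 1 + c ^ 2 ≤ 2 := by
        rw [← hinv, div_le_iff₀ (by positivity)]
        linarith
      nlinarith
    have hN' : (N : ℝ) / Real.sin r ^ 2 = N * (1 + c ^ 2) := by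
      rw [← hinv]
      ring
    -- the value of `g` at a zero
    have hu : (s1 / Real.sin r) ^ N ≤ (1 + c ^ 2) / 2 := by
      have h5 : s1 / Real.sin r ≤ 1 := by
        rw [div_le_one hs]
        exact hs1le
      have h6 : (s1 / Real.sin r) ^ N ≤ (s1 / Real.sin r) ^ 2 :=
        pow_le_pow_of_le_one (by positivity) h5 hN
      have h7 : (s1 / Real.sin r) ^ 2 = (1 + c ^ 2) / 2 := by
        rw [div_pow, hs1sq, ← hinv]
        ring
      linarith
    have hg1 : X * (γ - gS N r) = m * (1 - (s1 / Real.sin r) ^ N) := by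
      have hsN : Real.sin r ^ N ≠ 0 := pow_ne_zero N hs.ne'
      simp only [he] at hez
      rw [div_pow]
      field_simp
      linarith
    have hg2 : gS N r ≤ γ - m * (1 - c ^ 2) / (2 * X) := by
      have h8 : m * ((1 - c ^ 2) / 2) ≤ X * (γ - gS N r) := by
        rw [hg1]
        refine mul_le_mul_of_nonneg_left ?_ hm0.le
        linarith
      have h9 : m * (1 - c ^ 2) / (2 * X) ≤ γ - gS N r := by
        rw [div_le_iff₀ (by positivity)]
        linarith
      linarith
    have hg0 := gS_pos' N hr0 hr2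
    have hE' := hE c hc0 hc1
    have h10 : gS N r ^ 2 ≤ (γ - m * (1 - c ^ 2) / (2 * X)) ^ 2 := by
      gcongr
    have h11 : X * gS N r ^ 2 ≤ X * (γ - m * (1 - c ^ 2) / (2 * X)) ^ 2 :=
      mul_le_mul_of_nonneg_left h10 hX0.le
    simp only [he']
    refine mul_pos (pow_pos hs N) ?_
    rw [hN']
    have e5 : X * γ - m = (X - 1) * γ + lam := by
      rw [hm]
      ring
    rw [e5]
    have e6 : X * (N * (1 + c ^ 2) - gS N r ^ 2) = N * X * (1 + c ^ 2) - X * gS N r ^ 2 := by ring
    rw [e6]
    linarith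
  have he4 : e (π / 4) = 0 := by
    simp only [he]
    rw [← hs1, ← hγdef]
    ring
  have hnonneg : ∀ b, b < π / 2 → ∀ x ∈ Icc (π / 4) b, 0 ≤ e x := by
    intro b hb x hx
    have h2 := image_le_of_deriv_right_lt_deriv_boundary (f := fun r => -e r)
      (f' := fun r => -e' r) (a := π / 4) (b := b) (B := fun _ => 0) (B' := fun _ => 0)
      (fun y hy => (hd y (by linarith [hy.1]) (hy.2.trans_lt hb)).continuousAt.neg.continuousWithinAt)
      (fun y hy => (hd y (by linarith [hy.1]) (hy.2.trans hb)).neg.hasDerivWithinAt)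
      (by rw [he4]; simp) (fun _ => hasDerivAt_const _ _)
      (fun y hy hy0 => by
        have := hzero y hy.1 (hy.2.trans hb) (by simpa using hy0)
        linarith) hx
    simpa using h2
  have hpos : 0 < e R := by
    rcases (hnonneg R h1 R ⟨h0.le, le_rfl⟩).eq_or_lt with h | h
    · exfalso
      have h2 := hzero R h0.le h1 h.symm
      have h3 := hd R (by linarith) h1
      -- `e` is negative just to the left of `R`
      have h4 : IsLocalMin e R := by
        have h5 : Ioo (π / 4) (π / 2) ∈ nhds R := Ioo_mem_nhds h0 h1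
        filter_upwards [h5] with y hy
        rw [← h]
        exact hnonneg y hy.2 y ⟨hy.1.le, le_rfl⟩
      have h6 := h4.hasDerivAt_eq_zero h3
      linarith
    · exact h
  have hsR := sin_pos1 (by linarith : 0 < R) h1
  simp only [he] at hpos
  rw [div_pow]
  have hsN : 0 < Real.sin R ^ N := pow_pos hsR N
  rw [← sub_pos]
  have e7 : m * (1 - s1 ^ N / Real.sin R ^ N) - (γ - gS N R) * X =
      (m * (Real.sin R ^ N - s1 ^ N) - X * (γ - gS N R) * Real.sin R ^ N) / Real.sin R ^ N := by
    field_simp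
  rw [e7]
  exact div_pos hpos hsN

end Pool.Agent.H62.SS
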