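import Pool.Agent.H62.SS.ConeB

set_option autoImplicit false

/-!
# [H62 SS PROJ] The metric projection on the cone of a body

`C = cn K ∪ {0}` is nonempty, closed and convex (`isClosed_cn_zero`, `convex_cn_zero`): nearest point `P x` (`exists_norm_eq_iInf_of_complete_convex`, `norm_eq_iInf_iff_real_inner_le_zero`: `⟪x - P x, w - P x⟫ ≤ 0` for `w ∈ C`); with `w = 2 P x`, `w = 0`:
`⟪x - P x, P x⟫ = 0`, hence `⟪x - P x, z⟫ ≤ 0` for `z ∈ C`.  Lipschitz: add the inequalities for `x` and `y`.  Uniqueness: the same computation with `w` in place of `P y`.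
-/

namespace Pool.Agent.H62.SS

open scoped RealInnerProductSpace MeasureTheory ENNReal NNReal
open MeasureTheory Set Metric
open Pool.Agent.H62.WS (E sg cst)

variable {n : ℕ}

theorem exists_proj {K : Set (Sp n)} (hK : Body K) :
    ∃ P : E (n + 1) → E (n + 1), (∀ x, P x ∈ cn K ∪ {0}) ∧
      (∀ x, ∀ z ∈ cn K ∪ {0}, ⟪x - P x, z⟫ ≤ 0) ∧ (∀ x, ⟪x - P x, P x⟫ = 0) ∧
      (∀ x y, ‖P x - P y‖ ≤ ‖x - y‖) ∧ (∀ x, ∀ z ∈ cn K ∪ {0}, ‖x - P x‖ ≤ ‖x - z‖) ∧
      ∀ x w, w ∈ cn K ∪ {0} → (∀ z ∈ cn K ∪ {0}, ⟪x - w, z⟫ ≤ 0) → ⟪x - w, w⟫ = 0 → P x = w := by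
  have hC := isClosed_cn_zero hK.isCompact
  have hconv := convex_cn_zero hK.conv
  have hne : (cn K ∪ {0} : Set (E (n + 1))).Nonempty := ⟨0, Or.inr rfl⟩
  have key2 : ∀ x ∈ cn K ∪ {0}, ∀ t : ℝ, 0 ≤ t → t • x ∈ cn K ∪ {0} := by
    rintro x (hx | hx) t ht
    · rcases ht.eq_or_lt with ht | ht
      · subst ht
        exact Or.inr (by simp)
      · exact Or.inl (smul_mem_cn hx ht)
    · rw [mem_singleton_iff] at hx
      subst hx
      exact Or.inr (by simp)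
  have hex : ∀ x : E (n + 1), ∃ v ∈ cn K ∪ {0}, ∀ w ∈ cn K ∪ {0}, ⟪x - v, w - v⟫ ≤ 0 := by
    intro x
    obtain ⟨v, hv, hv2⟩ := exists_norm_eq_iInf_of_complete_convex hne hC.isComplete hconv x
    exact ⟨v, hv, (norm_eq_iInf_iff_real_inner_le_zero hconv hv).1 hv2⟩
  choose P hP hP2 using hex
  have h0 : ∀ x, ⟪x - P x, P x⟫ = 0 := by
    intro x
    have h1 := hP2 x _ (key2 _ (hP x) 2 (by norm_num))
    have h2 := hP2 x 0 (Or.inr rfl)
    rw [inner_sub_right, real_inner_smul_right] at h1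
    rw [inner_sub_right, inner_zero_right] at h2
    linarith
  have h1 : ∀ x, ∀ z ∈ cn K ∪ {0}, ⟪x - P x, z⟫ ≤ 0 := by
    intro x z hz
    have h2 := hP2 x z hz
    rw [inner_sub_right, h0] at h2
    linarith
  refine ⟨P, hP, h1, h0, ?_, ?_, ?_⟩
  · intro x y
    have h2 := h1 x _ (hP y)
    have h3 := h1 y _ (hP x)
    have h4 : ‖P x - P y‖ ^ 2 ≤ ⟪x - y, P x - P y⟫ := by
      have h5 : ⟪x - y, P x - P y⟫ = ⟪x - P x, P x⟫ - ⟪x - P x, P y⟫ - ⟪y - P y, P x⟫ +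
          ⟪y - P y, P y⟫ + ⟪P x - P y, P x - P y⟫ := by
        simp only [inner_sub_left, inner_sub_right]
        ring
      rw [h5, h0, h0, real_inner_self_eq_norm_sq]
      linarith
    have h6 := h4.trans (real_inner_le_norm _ _)
    rcases (norm_nonneg (P x - P y)).eq_or_lt with h7 | h7
    · rw [← h7]
      exact norm_nonneg _
    · nlinarith
  · intro x z hz
    have h2 := h1 x z hz
    have h3 : ‖x - z‖ ^ 2 = ‖x - P x‖ ^ 2 + ‖P x - z‖ ^ 2 + 2 * (⟪x - P x, P x⟫ - ⟪x - P x, z⟫) := by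
      have h4 : x - z = (x - P x) + (P x - z) := by abel
      rw [h4, @norm_add_sq_real, inner_sub_right]
      ring
    rw [h0] at h3
    exact (pow_le_pow_iff_left₀ (norm_nonneg _) (norm_nonneg _) two_ne_zero).1
      (by nlinarith [sq_nonneg ‖P x - z‖])
  · intro x w hw hw1 hw2
    have h2 := hw1 _ (hP x)
    have h3 := h1 x w hw
    have h4 : ‖P x - w‖ ^ 2 = ⟪x - w, P x⟫ - ⟪x - w, w⟫ - ⟪x - P x, P x⟫ + ⟪x - P x, w⟫ := by
      rw [← real_inner_self_eq_norm_sq]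
      simp only [inner_sub_left, inner_sub_right]
      ring
    rw [hw2, h0] at h4
    have h5 : ‖P x - w‖ = 0 := by
      have := sq_nonneg ‖P x - w‖
      exact pow_eq_zero_iff two_ne_zero |>.1 (by linarith)
    exact sub_eq_zero.1 (norm_eq_zero.1 h5)

end Pool.Agent.H62.SS
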