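import Pool.Agent.H62.WS.HSph

set_option autoImplicit false

/-!
# [H62 SS SPH] The sphere `S^n` in `ℝ^(n+1)`: coordinates (definitions and first facts)
-/

namespace Pool.Agent.H62.SS

open scoped RealInnerProductSpace MeasureTheory ENNReal NNReal
open MeasureTheory Set Metric
open Pool.Agent.H62.WS (E sg cst)

variable {n : ℕ}

/-- the unit sphere `S^n` of `ℝ^(n+1)`, with the chordal metric -/
abbrev Sp (n : ℕ) := Metric.sphere (0 : E (n + 1)) 1

/-- the north pole, as a vector -/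
noncomputable def e0 (n : ℕ) : E (n + 1) := EuclideanSpace.single 0 1

/-- the inclusion of the equator space `ℝ^n` -/
noncomputable def inc (n : ℕ) : E n →ₗᵢ[ℝ] E (n + 1) where
  toFun x := WithLp.toLp 2 (Fin.cons 0 (WithLp.ofLp x))
  map_add' x y := by
    ext i
    refine Fin.cases ?_ (fun j => ?_) i <;> simp
  map_smul' c x := by
    ext i
    refine Fin.cases ?_ (fun j => ?_) i <;> simp
  norm_map' x := by
    simp [EuclideanSpace.norm_eq, Fin.sum_univ_succ]

/-- forget the coordinate `0` -/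
noncomputable def dn (n : ℕ) : E (n + 1) →ₗ[ℝ] E n where
  toFun z := WithLp.toLp 2 (fun i => z i.succ)
  map_add' x y := by ext i; simp
  map_smul' c x := by ext i; simp

@[simp] theorem inc_zero_apply (x : E n) : inc n x 0 = 0 := rfl
@[simp] theorem inc_succ_apply (x : E n) (i : Fin n) : inc n x i.succ = x i := rfl
@[simp] theorem dn_apply (z : E (n + 1)) (i : Fin n) : dn n z i = z i.succ := rfl
@[simp] theorem e0_zero_apply : e0 n 0 = 1 := by simp [e0]
@[simp] theorem e0_succ_apply (i : Fin n) : e0 n i.succ = 0 := by simp [e0, Fin.succ_ne_zero]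

theorem norm_e0 : ‖e0 n‖ = 1 := by simp [e0]

theorem norm_inc (x : E n) : ‖inc n x‖ = ‖x‖ := (inc n).norm_map x

theorem inner_inc (x y : E n) : ⟪inc n x, inc n y⟫ = ⟪x, y⟫ := (inc n).inner_map_map x y

theorem inner_e0 (z : E (n + 1)) : ⟪e0 n, z⟫ = z 0 := by
  simp [e0, EuclideanSpace.inner_single_left]

theorem inner_e0_inc (x : E n) : ⟪e0 n, inc n x⟫ = 0 := by rw [inner_e0, inc_zero_apply]

theorem decomp (z : E (n + 1)) : z = z 0 • e0 n + inc n (dn n z) := by
  ext i
  refine Fin.cases ?_ (fun j => ?_) i <;> simp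

theorem norm_sq_eq (z : E (n + 1)) : ‖z‖ ^ 2 = z 0 ^ 2 + ‖dn n z‖ ^ 2 := by
  simp [EuclideanSpace.norm_sq_eq, Fin.sum_univ_succ]

theorem inner_eq (y z : E (n + 1)) : ⟪y, z⟫ = y 0 * z 0 + ⟪dn n y, dn n z⟫ := by
  simp [PiLp.inner_apply, Fin.sum_univ_succ, mul_comm]

theorem norm_coe (p : Sp n) : ‖(p : E (n + 1))‖ = 1 := by
  simpa using p.2

/-- the north pole -/
noncomputable def nor (n : ℕ) : Sp n := ⟨e0 n, by simp [norm_e0]⟩

theorem norm_polar (r : ℝ) (θ : sphere (0 : E n) 1) :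
    ‖Real.cos r • e0 n + Real.sin r • inc n (θ : E n)‖ = 1 := by
  have h1 : ‖(θ : E n)‖ = 1 := by simpa using θ.2
  have h2 : ‖Real.cos r • e0 n + Real.sin r • inc n (θ : E n)‖ ^ 2 = 1 := by
    rw [@norm_add_sq_real, norm_smul, norm_smul, norm_e0, norm_inc, h1, inner_smul_left, inner_smul_right,
      inner_e0_inc]
    simp
  have h3 := norm_nonneg (Real.cos r • e0 n + Real.sin r • inc n (θ : E n))
  nlinarith

/-- the point at distance `r` from the north pole in the direction `θ` -/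
noncomputable def pol (r : ℝ) (θ : sphere (0 : E n) 1) : Sp n :=
  ⟨Real.cos r • e0 n + Real.sin r • inc n (θ : E n), by simpa using norm_polar r θ⟩

/-- the open geodesic ball -/
def gball (p : Sp n) (R : ℝ) : Set (Sp n) := {x | Real.cos R < ⟪(p : E (n + 1)), (x : E (n + 1))⟫}

/-- the closed geodesic ball -/
def cball (p : Sp n) (R : ℝ) : Set (Sp n) := {x | Real.cos R ≤ ⟪(p : E (n + 1)), (x : E (n + 1))⟫}

/-- the geodesic sphere -/
def gsph (p : Sp n) (R : ℝ) : Set (Sp n) := {x | ⟪(p : E (n + 1)), (x : E (n + 1))⟫ = Real.cos R}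

/-- the boundary measure: the `(n-1)`-dimensional Hausdorff measure, normalised to be Lebesgue measure in the Euclidean case -/
noncomputable def bs (n : ℕ) : Measure (Sp n) := μHE[n - 1]

/-- the cone over a subset of the sphere -/
def cn (K : Set (Sp n)) : Set (E (n + 1)) := {z | ∃ t : ℝ, 0 < t ∧ ∃ x ∈ K, z = t • (x : E (n + 1))}

/-- geodesic convexity: `Ω` contains the minimal geodesics between its points -/
def GConvex (Ω : Set (Sp n)) : Prop :=
  ∀ p ∈ Ω, ∀ q ∈ Ω, ∀ m : Sp n,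
    InnerProductGeometry.angle (p : E (n + 1)) m + InnerProductGeometry.angle (m : E (n + 1)) q =
      InnerProductGeometry.angle (p : E (n + 1)) q → m ∈ Ω

/-- the working hypothesis on the domain: open, nonempty, convex, diameter at most `π/2` -/
structure Dom (Ω : Set (Sp n)) : Prop where
  isOpen : IsOpen Ω
  nonempty : Ω.Nonempty
  conv : Convex ℝ (cn Ω)
  diam : ∀ p ∈ Ω, ∀ q ∈ Ω, 0 ≤ ⟪(p : E (n + 1)), (q : E (n + 1))⟫

/-- a convex body of the sphere -/
structure Body (K : Set (Sp n)) : Prop where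
  isCompact : IsCompact K
  conv : Convex ℝ (cn K)
  pole : ∃ w : E (n + 1), ∀ x ∈ K, 0 < ⟪(x : E (n + 1)), w⟫

/-- `|∇u|²` for a function `u` of `ℝ^(n+1)` restricted to the sphere -/
noncomputable def gradSq (u : E (n + 1) → ℝ) (p : Sp n) : ℝ :=
  ‖fderiv ℝ u p‖ ^ 2 - (fderiv ℝ u p (p : E (n + 1))) ^ 2

/-- The set of the Rayleigh quotients of the Steklov problem on `Ω` (restrictions of `C^1` functions of `ℝ^(n+1)`). -/
def rayleigh (Ω : Set (Sp n)) : Set ℝ :=
  {t | ∃ u : E (n + 1) → ℝ, ContDiff ℝ 1 u ∧ ∫ p in frontier Ω, u (p : E (n + 1)) ∂bs n = 0 ∧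
    0 < ∫ p in frontier Ω, u (p : E (n + 1)) ^ 2 ∂bs n ∧
    t = (∫ p in Ω, gradSq u p ∂sg (n + 1)) / ∫ p in frontier Ω, u (p : E (n + 1)) ^ 2 ∂bs n}

/-- The first nonzero Steklov eigenvalue. -/
noncomputable def sigma1 (Ω : Set (Sp n)) : ℝ := sInf (rayleigh Ω)

end Pool.Agent.H62.SS
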