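import Pool.Agent.H62.SS.RhoS
import Pool.Agent.H62.SS.PolarS

set_option autoImplicit false

/-!
# [H62 SS VOLINT] Volume integrals over the domain

`lintegral_sg` for the indicator of `Ω` times `φ ∘ rad` (`rad_pol`, `pol_mem_iff`); `integral_dom`: the real version, by splitting a continuous `φ` into positive and negative parts (everything bounded on `[0,π]`).  `integral_dom_VS`: `φ = 1` (`VS` in ProfD).
-/

namespace Pool.Agent.H62.SS

open scoped RealInnerProductSpace MeasureTheory ENNReal NNReal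
open MeasureTheory Set Metric
open Pool.Agent.H62.WS (E sg cst)

variable {n : ℕ}

theorem lintegral_dom (hn : 2 ≤ n) {Ω : Set (Sp n)} (h : Dom Ω) (ho : nor n ∈ Ω) {φ : ℝ → ℝ≥0∞}
    (hφ : Measurable φ) :
    ∫⁻ p in Ω, φ (rad p) ∂sg (n + 1) =
      ∫⁻ θ, (∫⁻ t in Ioo 0 (rho Ω θ), ENNReal.ofReal (Real.sin t ^ (n - 1)) * φ t) ∂sg n := by
  have hm : MeasurableSet Ω := h.isOpen.measurableSet
  have hF : Measurable (Ω.indicator (fun p : Sp n => φ (rad p))) :=
    (hφ.comp continuous_rad.measurable).indicator hm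
  rw [← lintegral_indicator hm, lintegral_sg hn hF]
  apply lintegral_congr
  intro θ
  have hpi := Real.pi_pos
  have h1 : ∀ r ∈ Ioo 0 Real.pi, ENNReal.ofReal (Real.sin r ^ (n - 1)) *
      Ω.indicator (fun p : Sp n => φ (rad p)) (pol r θ) =
      (Iio (rho Ω θ)).indicator (fun r => ENNReal.ofReal (Real.sin r ^ (n - 1)) * φ r) r := by
    intro r hr
    have h2 := pol_mem_iff h ho hr θ
    by_cases h3 : r < rho Ω θ
    · have h4 : r ∈ Iio (rho Ω θ) := h3
      rw [indicator_of_mem h4, indicator_of_mem (h2.2 h3), rad_pol hr.1.le hr.2.le]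
    · have h4 : r ∉ Iio (rho Ω θ) := h3
      rw [indicator_of_notMem h4, indicator_of_notMem (fun h5 => h3 (h2.1 h5)), mul_zero]
  rw [setLIntegral_congr_fun measurableSet_Ioo h1, lintegral_indicator measurableSet_Iio,
    Measure.restrict_restrict measurableSet_Iio]
  congr 2
  ext r
  constructor
  · intro h
    exact ⟨h.2.1, h.1⟩
  · intro h2
    exact ⟨h2.2, h2.1, by linarith [h2.2, rho_lt h ho θ]⟩

theorem exists_bound_pi {φ : ℝ → ℝ} (hφ : Continuous φ) :
    ∃ C : ℝ, 0 ≤ C ∧ ∀ t ∈ Icc 0 Real.pi, |φ t| ≤ C := by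
  obtain ⟨C, hC⟩ := (isCompact_Icc (a := (0 : ℝ)) (b := Real.pi)).exists_bound_of_continuousOn
    hφ.continuousOn
  refine ⟨max C 0, le_max_right _ _, fun t ht => ?_⟩
  exact (hC t ht).trans (le_max_left _ _)

theorem integrable_dom (hn : 2 ≤ n) {Ω : Set (Sp n)} (h : Dom Ω) (ho : nor n ∈ Ω) {φ : ℝ → ℝ}
    (hφ : Continuous φ) :
    Integrable (fun θ => ∫ t in (0 : ℝ)..rho Ω θ, φ t * Real.sin t ^ (n - 1)) (sg n) := by
  have hc : Continuous (fun t => φ t * Real.sin t ^ (n - 1)) :=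
    hφ.mul (Real.continuous_sin.pow _)
  have hP : Continuous (fun r : ℝ => ∫ t in (0 : ℝ)..r, φ t * Real.sin t ^ (n - 1)) :=
    intervalIntegral.continuous_primitive (fun a b => hc.intervalIntegrable a b) 0
  obtain ⟨C, hC0, hC⟩ := exists_bound_pi hP
  refine Integrable.of_bound (hP.measurable.comp (measurable_rho h ho)).aestronglyMeasurable C ?_
  filter_upwards with θ
  exact hC _ ⟨(rho_pos h ho θ).le, by linarith [rho_lt h ho θ, Real.pi_pos]⟩

theorem integral_dom_nonneg (hn : 2 ≤ n) {Ω : Set (Sp n)} (h : Dom Ω) (ho : nor n ∈ Ω) {φ : ℝ → ℝ}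
    (hφ : Continuous φ) (h0 : ∀ t, 0 ≤ φ t) :
    ∫ p in Ω, φ (rad p) ∂sg (n + 1) =
      ∫ θ, (∫ t in (0 : ℝ)..rho Ω θ, φ t * Real.sin t ^ (n - 1)) ∂sg n := by
  have hpi := Real.pi_pos
  have hsin : ∀ θ, ∀ t ∈ Ioc 0 (rho Ω θ), 0 ≤ Real.sin t ^ (n - 1) := fun θ t ht =>
    pow_nonneg (Real.sin_nonneg_of_nonneg_of_le_pi ht.1.le
      (by linarith [ht.2, rho_lt h ho θ])) _
  have hc : Continuous (fun t => φ t * Real.sin t ^ (n - 1)) :=
    hφ.mul (Real.continuous_sin.pow _)
  rw [integral_eq_lintegral_of_nonneg_ae (Filter.Eventually.of_forall fun p => h0 _)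
    (hφ.comp continuous_rad).aestronglyMeasurable,
    integral_eq_lintegral_of_nonneg_ae (Filter.Eventually.of_forall fun θ => ?_)
    (integrable_dom hn h ho hφ).aestronglyMeasurable]
  · congr 1
    rw [lintegral_dom hn h ho (φ := fun t => ENNReal.ofReal (φ t)) hφ.measurable.ennreal_ofReal]
    apply lintegral_congr
    intro θ
    rw [intervalIntegral.integral_of_le (rho_pos h ho θ).le,
      ofReal_integral_eq_lintegral_ofReal (hc.integrableOn_Icc.mono_set Ioc_subset_Icc_self),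
      setLIntegral_congr Ioo_ae_eq_Ioc]
    · apply setLIntegral_congr_fun measurableSet_Ioc
      intro t ht
      simp only
      rw [ENNReal.ofReal_mul (h0 t), mul_comm]
    · filter_upwards [ae_restrict_mem measurableSet_Ioc] with t ht
      exact mul_nonneg (h0 t) (hsin θ t ht)
  · simp only [Pi.zero_apply]
    rw [intervalIntegral.integral_of_le (rho_pos h ho θ).le]
    exact setIntegral_nonneg measurableSet_Ioc fun t ht => mul_nonneg (h0 t) (hsin θ t ht)

theorem integral_dom (hn : 2 ≤ n) {Ω : Set (Sp n)} (h : Dom Ω) (ho : nor n ∈ Ω) {φ : ℝ → ℝ}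
    (hφ : Continuous φ) :
    ∫ p in Ω, φ (rad p) ∂sg (n + 1) =
      ∫ θ, (∫ t in (0 : ℝ)..rho Ω θ, φ t * Real.sin t ^ (n - 1)) ∂sg n := by
  have h1 : Continuous (fun t => max (φ t) 0) := hφ.max continuous_const
  have h2 : Continuous (fun t => max (-φ t) 0) := hφ.neg.max continuous_const
  have e1 := integral_dom_nonneg hn h ho h1 (fun t => le_max_right _ _)
  have e2 := integral_dom_nonneg hn h ho h2 (fun t => le_max_right _ _)
  have hsplit : ∀ t, φ t = max (φ t) 0 - max (-φ t) 0 := by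
    intro t
    rcases le_total 0 (φ t) with h3 | h3
    · rw [max_eq_left h3, max_eq_right (by linarith)]
      ring
    · rw [max_eq_right h3, max_eq_left (by linarith)]
      ring
  have hint : ∀ {ψ : ℝ → ℝ}, Continuous ψ → IntegrableOn (fun p : Sp n => ψ (rad p)) Ω (sg (n + 1)) := by
    intro ψ hψ
    obtain ⟨C, hC0, hC⟩ := exists_bound_pi hψ
    refine Integrable.integrableOn ?_
    refine Integrable.of_bound (hψ.comp continuous_rad).aestronglyMeasurable C ?_
    filter_upwards with p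
    exact hC _ ⟨rad_nonneg p, rad_le_pi p⟩
  have hL : ∫ p in Ω, φ (rad p) ∂sg (n + 1) =
      (∫ p in Ω, max (φ (rad p)) 0 ∂sg (n + 1)) - ∫ p in Ω, max (-φ (rad p)) 0 ∂sg (n + 1) := by
    rw [← integral_sub (hint h1) (hint h2)]
    congr 1
    funext p
    exact hsplit _
  have hR : ∫ θ, (∫ t in (0 : ℝ)..rho Ω θ, φ t * Real.sin t ^ (n - 1)) ∂sg n =
      (∫ θ, (∫ t in (0 : ℝ)..rho Ω θ, max (φ t) 0 * Real.sin t ^ (n - 1)) ∂sg n) -
        ∫ θ, (∫ t in (0 : ℝ)..rho Ω θ, max (-φ t) 0 * Real.sin t ^ (n - 1)) ∂sg n := by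
    rw [← integral_sub (integrable_dom hn h ho h1) (integrable_dom hn h ho h2)]
    congr 1
    funext θ
    rw [← intervalIntegral.integral_sub]
    · congr 1
      funext t
      rw [← sub_mul, ← hsplit]
    · exact (h1.mul (Real.continuous_sin.pow _)).intervalIntegrable _ _
    · exact (h2.mul (Real.continuous_sin.pow _)).intervalIntegrable _ _
  rw [hL, hR, e1, e2]

end Pool.Agent.H62.SS
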