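import Pool.Agent.H62.SS.OutInt
import Pool.Agent.H62.SS.ProfE
import Pool.Agent.H62.SS.Size
import Pool.Agent.H62.SS.VolInt

set_option autoImplicit false

/-!
# [H62 SS STARA] The outer boundary inequality, for real integrals

With `P : Prof ..`, `a(t) = γ F(t)² - m`, `F = Fp H` (`continuous_Fp`, `hasDerivAt_Fp`): `outer_int` with `φ t = ofReal (a t)` for `r₀ ≤ t`, `0` otherwise (`a ≥ 0` on `[r₀,π/2]`: `P.ge`); `∫⁻_{∂Ω} φ(rad) = ∫_{∂Ω} max a 0` because `a(rad p) ≤ 0` for `rad p < r₀` (`F ≥ 0`, `F' ≥ 0` on `(0,r₀)`: `P.mono`, `P.zero`; lemma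
`sq_le_of_lt`) and `rad p < π/2` on `∂Ω` (`rad_lt_of_mem_closure`).  The integrands are bounded, the measures `sg n` and `(bs n).restrict (frontier Ω)` are finite (`bs_frontier_lt_top`): `ofReal_integral_eq_lintegral_ofReal`, `ENNReal.toReal_mono`.
-/

namespace Pool.Agent.H62.SS

open scoped RealInnerProductSpace MeasureTheory ENNReal NNReal
open MeasureTheory Set Metric
open Pool.Agent.H62.WS (E sg cst)

variable {n : ℕ}

theorem Fp_nonneg {N : ℕ} {R γ m κ r₀ : ℝ} {H : ℝ → ℝ} (P : Prof N R γ m κ r₀ H) {t : ℝ}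
    (h0 : 0 ≤ t) (h1 : t ≤ Real.pi) : 0 ≤ Fp H t := by
  unfold Fp
  exact mul_nonneg (P.pos _ ⟨Real.neg_one_le_cos t, Real.cos_le_one t⟩).le
    (Real.sin_nonneg_of_nonneg_of_le_pi h0 h1)

theorem Fp_mono {N : ℕ} {R γ m κ r₀ : ℝ} {H : ℝ → ℝ} (P : Prof N R γ m κ r₀ H) :
    MonotoneOn (Fp H) (Icc 0 r₀) := by
  refine monotoneOn_of_deriv_nonneg (convex_Icc 0 r₀) (continuous_Fp P.contDiff).continuousOn ?_ ?_
  · intro x _
    exact (hasDerivAt_Fp P.contDiff x).differentiableAt.differentiableWithinAt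
  · intro x hx
    rw [interior_Icc] at hx
    rw [(hasDerivAt_Fp P.contDiff x).deriv]
    exact P.mono x hx

theorem sq_le_of_lt {N : ℕ} {R γ m κ r₀ : ℝ} {H : ℝ → ℝ} (P : Prof N R γ m κ r₀ H) {t : ℝ}
    (h0 : 0 ≤ t) (h1 : t ≤ r₀) : γ * Fp H t ^ 2 - m ≤ 0 := by
  have hr := P.r0_pos
  have hr2 := P.r0_le
  have h2 := Fp_mono P ⟨h0, h1⟩ ⟨hr.le, le_rfl⟩ h1
  have h3 := Fp_nonneg P h0 (by linarith [Real.pi_pos])
  have h4 : Fp H t ^ 2 ≤ Fp H r₀ ^ 2 := pow_le_pow_left₀ h3 h2 2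
  have h5 := P.zero
  have h6 := mul_le_mul_of_nonneg_left h4 P.gam_pos.le
  linarith

theorem integrable_rho {Ω : Set (Sp n)} (h : Dom Ω) (ho : nor n ∈ Ω) {g : ℝ → ℝ}
    (hg : Measurable g) {C : ℝ} (hC : ∀ t ∈ Icc 0 Real.pi, |g t| ≤ C) :
    Integrable (fun θ => g (rho Ω θ)) (sg n) := by
  refine Integrable.of_bound (hg.comp (measurable_rho h ho)).aestronglyMeasurable C ?_
  filter_upwards with θ
  exact hC _ ⟨(rho_pos h ho θ).le, by linarith [rho_lt h ho θ, Real.pi_pos]⟩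

theorem integrable_rad (hn : 2 ≤ n) {Ω : Set (Sp n)} (h : Dom Ω) {g : ℝ → ℝ}
    (hg : Measurable g) {C : ℝ} (hC : ∀ t ∈ Icc 0 Real.pi, |g t| ≤ C) :
    IntegrableOn (fun p : Sp n => g (rad p)) (frontier Ω) (bs n) := by
  have hfm : IsFiniteMeasure ((bs n).restrict (frontier Ω)) :=
    ⟨by rw [Measure.restrict_apply_univ]; exact bs_frontier_lt_top hn h⟩
  refine Integrable.of_bound (hg.comp continuous_rad.measurable).aestronglyMeasurable C ?_
  filter_upwards with p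
  exact hC _ ⟨rad_nonneg p, rad_le_pi p⟩

theorem star_pos (hn : 2 ≤ n) {Ω : Set (Sp n)} (h : Dom Ω) (ho : nor n ∈ Ω)
    {R γ m κ r₀ : ℝ} {H : ℝ → ℝ} (P : Prof (n - 1) R γ m κ r₀ H) :
    (cst n).toReal * ∫ θ, (if r₀ ≤ rho Ω θ then
        (γ * Fp H (rho Ω θ) ^ 2 - m) * Real.sin (rho Ω θ) ^ (n - 1) else 0) ∂sg n ≤
      ∫ p in frontier Ω, max (γ * Fp H (rad p) ^ 2 - m) 0 ∂bs n := by
  have hpi := Real.pi_pos
  have hF := continuous_Fp P.contDiff
  have hac : Continuous (fun t => γ * Fp H t ^ 2 - m) :=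
    (continuous_const.mul (hF.pow 2)).sub continuous_const
  have hasc : Continuous (fun t => (γ * Fp H t ^ 2 - m) * Real.sin t ^ (n - 1)) :=
    hac.mul (Real.continuous_sin.pow _)
  let φ : ℝ → ℝ≥0∞ := fun t => ENNReal.ofReal (if r₀ ≤ t then γ * Fp H t ^ 2 - m else 0)
  have hφ : Measurable φ :=
    (Measurable.ite measurableSet_Ici hac.measurable measurable_const).ennreal_ofReal
  have h1 := outer_int hn h ho hφ
  let g : ℝ → ℝ := fun t => if r₀ ≤ t then (γ * Fp H t ^ 2 - m) * Real.sin t ^ (n - 1) else 0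
  have hg : Measurable g := Measurable.ite measurableSet_Ici hasc.measurable measurable_const
  obtain ⟨C, hC0, hC⟩ := exists_bound_pi hasc
  have hgC : ∀ t ∈ Icc 0 Real.pi, |g t| ≤ C := by
    intro t ht
    simp only [g]
    split_ifs
    · exact hC t ht
    · simpa using hC0
  have hgi := integrable_rho h ho hg hgC
  have hg0 : ∀ θ, 0 ≤ g (rho Ω θ) := by
    intro θ
    simp only [g]
    split_ifs with h2
    · refine mul_nonneg ?_ (pow_nonneg (Real.sin_nonneg_of_nonneg_of_le_pi (rho_pos h ho θ).le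
        (by linarith [rho_lt h ho θ])) _)
      linarith [P.ge _ ⟨h2, (rho_lt h ho θ).le⟩]
    · exact le_rfl
  have hL : ∫⁻ θ, φ (rho Ω θ) * ENNReal.ofReal (Real.sin (rho Ω θ) ^ (n - 1)) ∂sg n =
      ENNReal.ofReal (∫ θ, g (rho Ω θ) ∂sg n) := by
    rw [ofReal_integral_eq_lintegral_ofReal hgi (Filter.Eventually.of_forall hg0)]
    apply lintegral_congr
    intro θ
    simp only [φ, g]
    split_ifs with h2
    · rw [ENNReal.ofReal_mul]
      linarith [P.ge _ ⟨h2, (rho_lt h ho θ).le⟩]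
    · simp
  obtain ⟨C2, hC20, hC2⟩ := exists_bound_pi (hac.max continuous_const : Continuous (fun t =>
    max (γ * Fp H t ^ 2 - m) 0))
  have hri := integrable_rad hn h (hac.max continuous_const : Continuous (fun t =>
    max (γ * Fp H t ^ 2 - m) 0)).measurable hC2
  have hR : ∫⁻ p in frontier Ω, φ (rad p) ∂bs n ≤
      ENNReal.ofReal (∫ p in frontier Ω, max (γ * Fp H (rad p) ^ 2 - m) 0 ∂bs n) := by
    rw [ofReal_integral_eq_lintegral_ofReal hri
      (Filter.Eventually.of_forall fun p => le_max_right _ _)]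
    apply lintegral_mono
    intro p
    apply ENNReal.ofReal_le_ofReal
    split_ifs
    · exact le_max_left _ _
    · exact le_max_right _ _
  rw [hL] at h1
  have h2 := ENNReal.toReal_mono ENNReal.ofReal_ne_top (h1.trans hR)
  have h3 : 0 ≤ ∫ p in frontier Ω, max (γ * Fp H (rad p) ^ 2 - m) 0 ∂bs n :=
    integral_nonneg fun p => le_max_right _ _
  rw [ENNReal.toReal_mul, ENNReal.toReal_ofReal (integral_nonneg hg0),
    ENNReal.toReal_ofReal h3] at h2
  exact h2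

end Pool.Agent.H62.SS
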