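import Pool.Agent.H62.SS.UscM
import Pool.Agent.H62.SS.PlzGain

set_option autoImplicit false

/-!
# [H62 SS SYM] The symmetrization theorem

`K ∈ C` with `sg (K ∩ B)` maximal (`exists_max_inter`), `B = cball o r`.  If `sg (B \ K) > 0` then `sg (K \ B) = sg K - sg (K ∩ B) ≥ sg B - sg (K ∩ B) = sg (B \ K) > 0`: `exists_plz_gain` and `hpol` (the set `plz u K` is compact and nonempty: `isClosed_plz`, `plz_nonempty`) contradict maximality.  So `sg (B \ K) = 0`; the open set
`gball o r \ K` is null, hence empty (`sg_pos_of_isOpen` with `n + 1`), and `B = closure (gball o r) ⊆ K` (`closure_gball`).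
-/

namespace Pool.Agent.H62.SS

open scoped RealInnerProductSpace MeasureTheory ENNReal NNReal
open MeasureTheory Set Metric
open Pool.Agent.H62.WS (E sg cst)

variable {n : ℕ}

theorem sym_main (hn : 2 ≤ n) (o : Sp n) {r : ℝ} (h0 : 0 < r) (h1 : r < Real.pi)
    {C : Set (TopologicalSpace.NonemptyCompacts (Sp n))} (hC : IsClosed C) (hne : C.Nonempty)
    (hvol : ∀ K ∈ C, sg (n + 1) (cball o r) ≤ sg (n + 1) (K : Set (Sp n)))
    (hpol : ∀ K ∈ C, ∀ u : Sp n, 0 ≤ ⟪(o : E (n + 1)), (u : E (n + 1))⟫ →
      ∀ K' : TopologicalSpace.NonemptyCompacts (Sp n),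
        (K' : Set (Sp n)) = plz u (K : Set (Sp n)) → K' ∈ C) :
    ∃ K ∈ C, cball o r ⊆ (K : Set (Sp n)) := by
  obtain ⟨K, hK, hmax⟩ := exists_max_inter hC hne (isClosed_cball o r)
  have hKcl : IsClosed (K : Set (Sp n)) := K.isCompact.isClosed
  refine ⟨K, hK, ?_⟩
  by_cases hz : sg (n + 1) (cball o r \ (K : Set (Sp n))) = 0
  · have hopen : IsOpen (gball o r \ (K : Set (Sp n))) := (isOpen_gball o r).sdiff hKcl
    have hgc : gball o r ⊆ cball o r := by
      intro x hx
      simp only [gball, mem_setOf_eq] at hx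
      simp only [cball, mem_setOf_eq]
      exact hx.le
    have hnull : sg (n + 1) (gball o r \ (K : Set (Sp n))) = 0 :=
      measure_mono_null (diff_subset_diff_left hgc) hz
    have hempty : gball o r \ (K : Set (Sp n)) = ∅ := by
      by_contra hcon
      have hp := sg_pos_of_isOpen (n := n + 1) (by omega) hopen (nonempty_iff_ne_empty.2 hcon)
      exact hp.ne' hnull
    rw [← closure_gball (by omega) o h0 h1]
    exact closure_minimal (diff_eq_empty.1 hempty) hKcl
  · exfalso
    have hpos : 0 < sg (n + 1) (cball o r \ (K : Set (Sp n))) := pos_iff_ne_zero.2 hz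
    have hKB : 0 < sg (n + 1) ((K : Set (Sp n)) \ cball o r) := by
      rw [pos_iff_ne_zero]
      intro hzero
      have e1 := measure_inter_add_diff (μ := sg (n + 1)) (K : Set (Sp n))
        (isClosed_cball o r).measurableSet
      have e2 := measure_inter_add_diff (μ := sg (n + 1)) (cball o r) hKcl.measurableSet
      have e3 := hvol K hK
      rw [hzero, add_zero] at e1
      rw [← e1, ← e2, inter_comm (K : Set (Sp n)) (cball o r)] at e3
      have hfin : sg (n + 1) (cball o r ∩ (K : Set (Sp n))) ≠ ⊤ := measure_ne_top _ _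
      have e4 : sg (n + 1) (cball o r ∩ (K : Set (Sp n))) +
          sg (n + 1) (cball o r \ (K : Set (Sp n))) ≤
          sg (n + 1) (cball o r ∩ (K : Set (Sp n))) + 0 := by
        rw [add_zero]
        exact e3
      have e5 := (ENNReal.add_le_add_iff_left hfin).1 e4
      exact absurd hpos (not_lt.2 e5)
    obtain ⟨u, hu, hgain⟩ := exists_plz_gain hn o r hKcl hKB hpos
    have hcomp : IsCompact (plz u (K : Set (Sp n))) := (isClosed_plz u hKcl).isCompact
    have hne' : (plz u (K : Set (Sp n))).Nonempty := plz_nonempty u K.nonempty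
    have hle := hmax ⟨⟨plz u (K : Set (Sp n)), hcomp⟩, hne'⟩
      (hpol K hK u hu ⟨⟨plz u (K : Set (Sp n)), hcomp⟩, hne'⟩ rfl)
    exact absurd hgain (not_lt.2 hle)

end Pool.Agent.H62.SS
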