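import Pool.Agent.H62.SS.Sph
import Pool.Agent.H62.WS.Polar

set_option autoImplicit false

/-!
# [H62 SS USC] Semicontinuity of the volume on compact sets

`NonemptyCompacts (Sp n)` is a compact metric space (Hausdorff distance; Mathlib `NonemptyCompacts.compactSpace`, Topology/MetricSpace/Closeds).  If `K_j → K` and `B` is closed then for every `δ > 0` eventually `K_j ∩ B ⊆ cthickening δ (K ∩ B)`(compactness), and `sg (cthickening δ (K ∩ B)) → sg (K ∩ B)`
(`tendsto_measure_cthickening`; finite measure).  `lsc_open`: if every point of `V` belongs to `V_j` for all large `j` then `sg V ≤ liminf sg V_j` (Fatou, `measure_liminf`-type; `lintegral_liminf_le` for indicators).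
-/

namespace Pool.Agent.H62.SS

open scoped RealInnerProductSpace MeasureTheory ENNReal NNReal
open MeasureTheory Set Metric
open Pool.Agent.H62.WS (E sg cst)

variable {n : ℕ}

theorem usc_inter {K : TopologicalSpace.NonemptyCompacts (Sp n)}
    {Kj : ℕ → TopologicalSpace.NonemptyCompacts (Sp n)}
    (h : Filter.Tendsto Kj Filter.atTop (nhds K)) {B : Set (Sp n)} (hB : IsClosed B) {c : ℝ≥0∞}
    (hc : ∀ j, c ≤ sg (n + 1) ((Kj j : Set (Sp n)) ∩ B)) : c ≤ sg (n + 1) ((K : Set (Sp n)) ∩ B) := by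
  have hKB : IsClosed ((K : Set (Sp n)) ∩ B) := K.isCompact.isClosed.inter hB
  have hlim : Filter.Tendsto (fun r => sg (n + 1) (cthickening r ((K : Set (Sp n)) ∩ B)))
      (nhds 0) (nhds (sg (n + 1) ((K : Set (Sp n)) ∩ B))) :=
    tendsto_measure_cthickening_of_isClosed ⟨1, one_pos, measure_ne_top _ _⟩ hKB
  have hlim' : Filter.Tendsto (fun r => sg (n + 1) (cthickening r ((K : Set (Sp n)) ∩ B)))
      (nhdsWithin 0 (Ioi 0)) (nhds (sg (n + 1) ((K : Set (Sp n)) ∩ B))) :=
    hlim.mono_left nhdsWithin_le_nhds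
  refine ge_of_tendsto hlim' ?_
  filter_upwards [self_mem_nhdsWithin] with δ hδ
  have hδ0 : 0 < δ := hδ
  -- the part of `K` far from `K ∩ B`
  have hL : IsCompact ((K : Set (Sp n)) \ thickening (δ / 2) ((K : Set (Sp n)) ∩ B)) :=
    K.isCompact.diff isOpen_thickening
  have hdisj : Disjoint ((K : Set (Sp n)) \ thickening (δ / 2) ((K : Set (Sp n)) ∩ B)) B := by
    rw [Set.disjoint_left]
    rintro x ⟨hxK, hx⟩ hxB
    exact hx (self_subset_thickening (by positivity) _ ⟨hxK, hxB⟩)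
  obtain ⟨ε, hε, hdis⟩ := hdisj.exists_thickenings hL hB
  have hmin : 0 < min ε (δ / 2) := lt_min hε (by positivity)
  obtain ⟨j, hj⟩ := (Metric.tendsto_nhds.1 h _ hmin).exists
  refine (hc j).trans (measure_mono ?_)
  rintro x ⟨hxK, hxB⟩
  have hj' : hausdorffDist (Kj j : Set (Sp n)) (K : Set (Sp n)) < min ε (δ / 2) := hj
  obtain ⟨y, hy, hxy⟩ := exists_dist_lt_of_hausdorffDist_lt hxK hj'
    (hausdorffEDist_ne_top_of_nonempty_of_bounded (Kj j).nonempty K.nonempty
      (Kj j).isCompact.isBounded K.isCompact.isBounded)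
  by_cases hyt : y ∈ thickening (δ / 2) ((K : Set (Sp n)) ∩ B)
  · rw [mem_thickening_iff] at hyt
    obtain ⟨z, hz, hyz⟩ := hyt
    refine thickening_subset_cthickening _ _ ?_
    rw [mem_thickening_iff]
    refine ⟨z, hz, ?_⟩
    have h1 := dist_triangle x y z
    have h2 := lt_of_lt_of_le hxy (min_le_right _ _)
    linarith
  · exfalso
    rw [Set.disjoint_left] at hdis
    refine hdis (a := x) ?_ (self_subset_thickening hε _ hxB)
    rw [mem_thickening_iff]
    exact ⟨y, ⟨hy, hyt⟩, lt_of_lt_of_le hxy (min_le_left _ _)⟩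

theorem lsc_open {V : Set (Sp n)} {Vj : ℕ → Set (Sp n)} (hV : ∀ j, MeasurableSet (Vj j))
    (h : ∀ x ∈ V, ∀ᶠ j in Filter.atTop, x ∈ Vj j) {c : ℝ≥0∞} (hc : ∀ j, sg (n + 1) (Vj j) ≤ c) :
    sg (n + 1) V ≤ c := by
  have hsub : V ⊆ ⋃ N : ℕ, ⋂ j : {j : ℕ // N ≤ j}, Vj j := by
    intro x hx
    obtain ⟨N, hN⟩ := Filter.eventually_atTop.1 (h x hx)
    exact mem_iUnion.2 ⟨N, mem_iInter.2 fun j => hN j j.2⟩
  have hmono : Monotone (fun N : ℕ => ⋂ j : {j : ℕ // N ≤ j}, Vj j) := by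
    intro N N' hNN x hx
    rw [mem_iInter] at hx ⊢
    intro j
    exact hx ⟨j, hNN.trans j.2⟩
  refine (measure_mono hsub).trans ?_
  rw [hmono.measure_iUnion]
  refine iSup_le fun N => ?_
  exact (measure_mono (iInter_subset _ ⟨N, le_rfl⟩)).trans (hc N)

end Pool.Agent.H62.SS
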