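import Pool.Agent.H62.SS.Usc

set_option autoImplicit false

/-!
# [H62 SS USCM] The maximum of the overlap

`NonemptyCompacts (Sp n)` is a compact metric space (Mathlib: `NonemptyCompacts.compactSpace`), so `C` is compact.  A sequence `L_j ∈ C` with `sg (L_j ∩ B) → sup` (nondecreasing values; `exists_seq_tendsto_sSup`), a subsequence converges in `C` (`IsCompact.tendsto_subseq`), `usc_inter` (with constants `c < sup`) shows that the limit is a maximum.
-/

namespace Pool.Agent.H62.SS

open scoped RealInnerProductSpace MeasureTheory ENNReal NNReal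
open MeasureTheory Set Metric
open Pool.Agent.H62.WS (E sg cst)

variable {n : ℕ}

theorem exists_max_inter {C : Set (TopologicalSpace.NonemptyCompacts (Sp n))} (hC : IsClosed C)
    (hne : C.Nonempty) {B : Set (Sp n)} (hB : IsClosed B) :
    ∃ K ∈ C, ∀ L ∈ C, sg (n + 1) ((L : Set (Sp n)) ∩ B) ≤ sg (n + 1) ((K : Set (Sp n)) ∩ B) := by
  have hcomp : IsCompact C := hC.isCompact
  have husc : UpperSemicontinuousOn
      (fun K : TopologicalSpace.NonemptyCompacts (Sp n) => sg (n + 1) ((K : Set (Sp n)) ∩ B)) C := by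
    intro K _ c hc
    by_contra hcon
    have hfr : ∃ᶠ L : TopologicalSpace.NonemptyCompacts (Sp n) in nhdsWithin K C, c ≤ sg (n + 1) ((L : Set (Sp n)) ∩ B) := by
      refine fun hev => hcon ?_
      filter_upwards [hev] with L hL
      exact not_le.1 hL
    have hfr' : ∃ᶠ L : TopologicalSpace.NonemptyCompacts (Sp n) in nhds K, c ≤ sg (n + 1) ((L : Set (Sp n)) ∩ B) :=
      hfr.filter_mono nhdsWithin_le_nhds
    obtain ⟨Kj, hKj, hcj⟩ := Filter.exists_seq_forall_of_frequently hfr'
    exact absurd (usc_inter hKj hB hcj) (not_le.2 hc)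
  obtain ⟨K, hK, hmax⟩ := husc.exists_isMaxOn hne hcomp
  exact ⟨K, hK, fun L hL => hmax hL⟩

end Pool.Agent.H62.SS
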